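import Pool.Agent.N911.A3

/-! Cycles of length 1, 3, 5 and the relation in terms of `(t, P, a, b)`. -/

namespace Pool.Agent.N911

open H419R2 QuadraticAlgebra Module Finset Filter Topology

section forms

variable {N : ℕ} [NeZero N]

/-- sum with `B1 B1` -/
noncomputable def Ef (F : ZMod N → ℝ) (A B C : ZMod N) : ℝ :=
  SS (fun u w => F (A * u ^ 2 + B * (u * w) - C * w ^ 2) * (B1 u * B1 w))

/-- sum with `B2` -/
noncomputable def Yf (F : ZMod N → ℝ) (A B C : ZMod N) : ℝ :=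
  SS (fun u w => F (A * u ^ 2 + B * (u * w) - C * w ^ 2) * B2 w)

/-- sum with `B2` in the first variable -/
noncomputable def Xf (F : ZMod N → ℝ) (A B C : ZMod N) : ℝ :=
  SS (fun u w => F (A * u ^ 2 + B * (u * w) - C * w ^ 2) * B2 u)

variable {F : ZMod N → ℝ}

theorem Ef_mirror (hodd : ∀ x, F (-x) = -F x) (A B C : ZMod N) : Ef F C B A = Ef F A B C := by
  unfold Ef
  rw [cvE (fun u w => F (C * u ^ 2 + B * (u * w) - A * w ^ 2) * (B1 u * B1 w))]
  apply SS_congr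
  intro x y
  have : C * y ^ 2 + B * (y * -x) - A * (-x) ^ 2 = -(A * x ^ 2 + B * (x * y) - C * y ^ 2) := by ring
  rw [this, hodd, B1_neg]; ring

theorem Yf_mirror (hodd : ∀ x, F (-x) = -F x) (A B C : ZMod N) : Yf F C B A = -Xf F A B C := by
  unfold Yf Xf
  rw [cvE (fun u w => F (C * u ^ 2 + B * (u * w) - A * w ^ 2) * B2 w)]
  have : ∀ x y : ZMod N, F (C * y ^ 2 + B * (y * -x) - A * (-x) ^ 2) * B2 (-x) =
      (-1) * (F (A * x ^ 2 + B * (x * y) - C * y ^ 2) * B2 x) := by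
    intro x y
    have : C * y ^ 2 + B * (y * -x) - A * (-x) ^ 2 = -(A * x ^ 2 + B * (x * y) - C * y ^ 2) := by ring
    rw [this, hodd, B2_neg]; ring
  rw [SS_congr this, SS_mul]; ring

theorem Ef_neg (A B C : ZMod N) : Ef F A (-B) C = - Ef F A B C := by
  unfold Ef
  rw [SS_neg2 (fun u w => F (A * u ^ 2 + B * (u * w) - C * w ^ 2) * (B1 u * B1 w))]
  have : ∀ x y : ZMod N, F (A * x ^ 2 + B * (x * -y) - C * (-y) ^ 2) * (B1 x * B1 (-y)) =
      (-1) * (F (A * x ^ 2 + -B * (x * y) - C * y ^ 2) * (B1 x * B1 y)) := by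
    intro x y
    have : A * x ^ 2 + B * (x * -y) - C * (-y) ^ 2 = A * x ^ 2 + -B * (x * y) - C * y ^ 2 := by ring
    rw [this, B1_neg]; ring
  rw [SS_congr this, SS_mul]; ring

end forms

section cyc

/-- period one -/
def cyc1 (t : ℕ) (ht : 0 < t) : Cyc (1 : ℤ) (t : ℤ) where
  l := 1
  hl := rfl
  κ := fun _ => t
  q := fun _ => 1
  b := fun _ => t
  κpos := fun _ => ht
  qpos := fun _ => one_pos
  m_pos := by exact_mod_cast ht
  κper := fun _ => rfl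
  qper := fun _ => rfl
  bper := fun _ => rfl
  q0 := rfl
  q1 := rfl
  b0 := rfl
  recq := fun _ => by ring
  recb := fun _ => by ring
  qone := fun n _ => Nat.mod_one n

/-- value by residue modulo three -/
def v3 {α : Type} (x y z : α) (n : ℕ) : α := if n % 3 = 0 then x else if n % 3 = 1 then y else z

/-- value by residue modulo five -/
def v5 {α : Type} (x0 x1 x2 x3 x4 : α) (n : ℕ) : α :=
  if n % 5 = 0 then x0 else if n % 5 = 1 then x1 else if n % 5 = 2 then x2 else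
    if n % 5 = 3 then x3 else x4

theorem v3_per {α : Type} (x y z : α) (n : ℕ) : v3 x y z (n + 3) = v3 x y z n := by
  unfold v3
  rw [show (n + 3) % 3 = n % 3 by omega]

theorem v5_per {α : Type} (x0 x1 x2 x3 x4 : α) (n : ℕ) :
    v5 x0 x1 x2 x3 x4 (n + 5) = v5 x0 x1 x2 x3 x4 n := by
  unfold v5
  rw [show (n + 5) % 5 = n % 5 by omega]

/-- period three -/
def cyc3 (a t : ℕ) (P : ℤ) (ha : 0 < a) (ht : 0 < t) (hP : 1 < P)
    (hc : 1 + a * t - (a : ℤ) ^ 2 * P = P) : Cyc P (t : ℤ) where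
  l := 3
  hl := rfl
  κ := v3 a a t
  q := v3 1 P P
  b := v3 (t : ℤ) (2 * a * P - t) t
  κpos := by intro n; unfold v3; split_ifs <;> assumption
  qpos := by intro n; unfold v3; split_ifs <;> linarith
  m_pos := by exact_mod_cast ht
  κper := v3_per _ _ _
  qper := v3_per _ _ _
  bper := v3_per _ _ _
  q0 := rfl
  q1 := rfl
  b0 := rfl
  recq := by
    intro n
    unfold v3
    have h : n % 3 = 0 ∨ n % 3 = 1 ∨ n % 3 = 2 := by omega
    rcases h with h | h | h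
    · rw [show (n + 1) % 3 = 1 by omega, show (n + 2) % 3 = 2 by omega, h]
      simp
      linear_combination -hc
    · rw [show (n + 1) % 3 = 2 by omega, show (n + 2) % 3 = 0 by omega, h]
      simp
      linear_combination hc
    · rw [show (n + 1) % 3 = 0 by omega, show (n + 2) % 3 = 1 by omega, h]
      simp
      ring
  recb := by
    intro n
    unfold v3
    have h : n % 3 = 0 ∨ n % 3 = 1 ∨ n % 3 = 2 := by omega
    rcases h with h | h | h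
    · rw [show (n + 1) % 3 = 1 by omega, h]
      simp
    · rw [show (n + 1) % 3 = 2 by omega, h]
      simp
    · rw [show (n + 1) % 3 = 0 by omega, h]
      simp
      ring
  qone := by
    intro n h
    unfold v3 at h
    by_contra h0
    rw [if_neg h0] at h
    split_ifs at h <;> linarith

/-- period five -/
def cyc5 (a b t : ℕ) (P Q : ℤ) (ha : 0 < a) (hb : 0 < b) (ht : 0 < t) (hP : 1 < P) (hQ : 1 < Q)
    (hQe : 1 + a * t - (a : ℤ) ^ 2 * P = Q)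
    (hc : P + b * (2 * a * P - t) - (b : ℤ) ^ 2 * Q = Q) : Cyc P (t : ℤ) where
  l := 5
  hl := rfl
  κ := v5 a b b a t
  q := v5 1 P Q Q P
  b := v5 (t : ℤ) (2 * a * P - t) (2 * b * Q - (2 * a * P - t)) (2 * a * P - t) t
  κpos := by intro n; unfold v5; split_ifs <;> assumption
  qpos := by intro n; unfold v5; split_ifs <;> linarith
  m_pos := by exact_mod_cast ht
  κper := v5_per _ _ _ _ _
  qper := v5_per _ _ _ _ _
  bper := v5_per _ _ _ _ _
  q0 := rfl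
  q1 := rfl
  b0 := rfl
  recq := by
    intro n
    unfold v5
    have h : n % 5 = 0 ∨ n % 5 = 1 ∨ n % 5 = 2 ∨ n % 5 = 3 ∨ n % 5 = 4 := by omega
    rcases h with h | h | h | h | h
    · rw [show (n + 1) % 5 = 1 by omega, show (n + 2) % 5 = 2 by omega, h]
      simp
      linear_combination -hQe
    · rw [show (n + 1) % 5 = 2 by omega, show (n + 2) % 5 = 3 by omega, h]
      simp
      linear_combination -hc
    · rw [show (n + 1) % 5 = 3 by omega, show (n + 2) % 5 = 4 by omega, h]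
      simp
      linear_combination hc
    · rw [show (n + 1) % 5 = 4 by omega, show (n + 2) % 5 = 0 by omega, h]
      simp
      linear_combination hQe
    · rw [show (n + 1) % 5 = 0 by omega, show (n + 2) % 5 = 1 by omega, h]
      simp
      ring
  recb := by
    intro n
    unfold v5
    have h : n % 5 = 0 ∨ n % 5 = 1 ∨ n % 5 = 2 ∨ n % 5 = 3 ∨ n % 5 = 4 := by omega
    rcases h with h | h | h | h | h
    · rw [show (n + 1) % 5 = 1 by omega, h]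
      simp
    · rw [show (n + 1) % 5 = 2 by omega, h]
      simp
    · rw [show (n + 1) % 5 = 3 by omega, h]
      simp
    · rw [show (n + 1) % 5 = 4 by omega, h]
      simp
    · rw [show (n + 1) % 5 = 0 by omega, h]
      simp
      ring
  qone := by
    intro n h
    unfold v5 at h
    by_contra h0
    rw [if_neg h0] at h
    split_ifs at h <;> linarith

end cyc

/-- the relation in real form -/
noncomputable def RelR {N : ℕ} [NeZero N] (F : ZMod N → ℝ) (t P a b : ℤ) : ℝ :=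
  4 * Ef F 1 (t : ZMod N) (P : ZMod N) +
  4 * Ef F (P : ZMod N) ((2 * a * P - t : ℤ) : ZMod N) ((1 + a * t - a ^ 2 * P : ℤ) : ZMod N) +
  2 * Ef F ((1 + a * t - a ^ 2 * P : ℤ) : ZMod N)
    ((2 * b * (1 + a * t - a ^ 2 * P) - (2 * a * P - t) : ℤ) : ZMod N)
    ((1 + a * t - a ^ 2 * P : ℤ) : ZMod N) +
  t * Yf F 1 (t : ZMod N) (P : ZMod N) +
  2 * a * Yf F (P : ZMod N) ((2 * a * P - t : ℤ) : ZMod N) ((1 + a * t - a ^ 2 * P : ℤ) : ZMod N) +
  2 * b * Yf F ((1 + a * t - a ^ 2 * P : ℤ) : ZMod N)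
    ((2 * b * (1 + a * t - a ^ 2 * P) - (2 * a * P - t) : ℤ) : ZMod N)
    ((1 + a * t - a ^ 2 * P : ℤ) : ZMod N)

section rel

variable {N : ℕ} [NeZero N] {F : ZMod N → ℝ}

theorem Cyc.EE_eq {R m : ℤ} (C : Cyc R m) (n : ℕ) :
    C.EE F n = Ef F (C.q n : ZMod N) (C.b n : ZMod N) (C.q (n + 1) : ZMod N) := rfl

theorem Cyc.YY_eq {R m : ℤ} (C : Cyc R m) (n : ℕ) :
    C.YY F n = Yf F (C.q n : ZMod N) (C.b n : ZMod N) (C.q (n + 1) : ZMod N) := rfl

theorem Cyc.X_eq {R m : ℤ} (C : Cyc R m) (hodd : ∀ x, F (-x) = -F x) (n : ℕ) :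
    Xf F (C.q n : ZMod N) (C.b n : ZMod N) (C.q (n + 1) : ZMod N) = - C.YY F (n + 1) :=
  C.XX_eq hodd n

theorem rel1 (t : ℕ) (ht : 0 < t) :
    2 * ∑ n ∈ range (cyc1 t ht).l, (cyc1 t ht).HH F n = RelR F t 1 0 0 := by
  have e1 : ∑ n ∈ range (cyc1 t ht).l, (cyc1 t ht).HH F n = (cyc1 t ht).HH F 0 := by
    change ∑ n ∈ range 1, _ = _
    rw [Finset.sum_range_one]
  rw [e1]
  unfold Cyc.HH
  have e2 : (cyc1 t ht).EE F 0 = Ef F 1 (t : ZMod N) 1 := by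
    rw [Cyc.EE_eq]; simp [cyc1]
  have e3 : (cyc1 t ht).YY F (0 + 1) = Yf F 1 (t : ZMod N) 1 := by
    rw [Cyc.YY_eq]; simp [cyc1]
  have e4 : (((cyc1 t ht).κ 0 : ℕ) : ℝ) = t := rfl
  rw [e2, e3, e4]
  unfold RelR
  have f1 : ((2 * 0 * 1 - (t : ℤ) : ℤ) : ZMod N) = -(t : ZMod N) := by push_cast; ring
  have f2 : ((1 + 0 * (t : ℤ) - 0 ^ 2 * 1 : ℤ) : ZMod N) = 1 := by push_cast; ring
  have f3 : ((2 * 0 * (1 + 0 * (t : ℤ) - 0 ^ 2 * 1) - (2 * 0 * 1 - (t : ℤ)) : ℤ) : ZMod N) =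
    (t : ZMod N) := by push_cast; ring
  rw [f1, f2, f3, Int.cast_one, Ef_neg]
  push_cast
  ring

theorem rel3 (hodd : ∀ x, F (-x) = -F x) (a t : ℕ) (P : ℤ) (ha : 0 < a) (ht : 0 < t) (hP : 1 < P)
    (hc : 1 + a * t - (a : ℤ) ^ 2 * P = P) :
    2 * ∑ n ∈ range (cyc3 a t P ha ht hP hc).l, (cyc3 a t P ha ht hP hc).HH F n =
      RelR F t P a 0 := by
  set C := cyc3 a t P ha ht hP hc with hC
  have e1 : ∑ n ∈ range C.l, C.HH F n = C.HH F 0 + C.HH F 1 + C.HH F 2 := by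
    change ∑ n ∈ range 3, _ = _
    rw [Finset.sum_range_succ, Finset.sum_range_succ, Finset.sum_range_one]
  rw [e1]
  unfold Cyc.HH
  have q0 : C.q 0 = 1 := rfl
  have q1 : C.q 1 = P := rfl
  have q2 : C.q 2 = P := rfl
  have q3 : C.q 3 = 1 := rfl
  have b0 : C.b 0 = t := rfl
  have b1 : C.b 1 = 2 * a * P - t := rfl
  have b2 : C.b 2 = t := rfl
  have k0 : (((C.κ 0 : ℕ)) : ℝ) = a := rfl
  have k1 : (((C.κ 1 : ℕ)) : ℝ) = a := rfl
  have k2 : (((C.κ 2 : ℕ)) : ℝ) = t := rfl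
  have E0 : C.EE F 0 = Ef F 1 (t : ZMod N) P := by
    rw [Cyc.EE_eq, zero_add, q0, q1, b0]; push_cast; rfl
  have E1 : C.EE F 1 = Ef F P ((2 * a * P - t : ℤ) : ZMod N) P := by
    rw [Cyc.EE_eq, show 1 + 1 = 2 from rfl, q1, q2, b1]
  have E2 : C.EE F 2 = Ef F 1 (t : ZMod N) P := by
    rw [Cyc.EE_eq, show 2 + 1 = 3 from rfl, q2, q3, b2, Int.cast_one, ← Ef_mirror hodd]
    push_cast; rfl
  have Y1 : C.YY F 1 = Yf F P ((2 * a * P - t : ℤ) : ZMod N) P := by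
    rw [Cyc.YY_eq, show 1 + 1 = 2 from rfl, q1, q2, b1]
  have Y2 : C.YY F 2 = C.YY F 1 := by
    have h1 := C.X_eq hodd 0
    rw [zero_add, q0, q1, b0] at h1
    rw [Cyc.YY_eq, show 2 + 1 = 3 from rfl, q2, q3, b2, Yf_mirror hodd, h1, neg_neg]
  have Y3 : C.YY F 3 = Yf F 1 (t : ZMod N) P := by
    have h1 := C.YY_per (F := F) 0
    have h2 : C.YY F 3 = C.YY F 0 := h1
    rw [h2, Cyc.YY_eq, zero_add, q0, q1, b0]; push_cast; rfl
  rw [show 0 + 1 = 1 from rfl, show 1 + 1 = 2 from rfl, show 2 + 1 = 3 from rfl, E0, E1, E2, Y2, Y3,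
    Y1, k0, k1, k2]
  unfold RelR
  have f2 : ((1 + a * (t : ℤ) - (a : ℤ) ^ 2 * P : ℤ) : ZMod N) = P := by rw [hc]
  have f3 : ((2 * 0 * (1 + a * (t : ℤ) - (a : ℤ) ^ 2 * P) - (2 * a * P - (t : ℤ)) : ℤ) : ZMod N) =
    -((2 * a * P - t : ℤ) : ZMod N) := by push_cast; ring
  rw [f2, f3, Ef_neg]
  push_cast
  ring

theorem rel5 (hodd : ∀ x, F (-x) = -F x) (a b t : ℕ) (P Q : ℤ) (ha : 0 < a) (hb : 0 < b)
    (ht : 0 < t) (hP : 1 < P) (hQ : 1 < Q)
    (hQe : 1 + a * t - (a : ℤ) ^ 2 * P = Q)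
    (hc : P + b * (2 * a * P - t) - (b : ℤ) ^ 2 * Q = Q) :
    2 * ∑ n ∈ range (cyc5 a b t P Q ha hb ht hP hQ hQe hc).l,
      (cyc5 a b t P Q ha hb ht hP hQ hQe hc).HH F n = RelR F t P a b := by
  set C := cyc5 a b t P Q ha hb ht hP hQ hQe hc with hC
  have e1 : ∑ n ∈ range C.l, C.HH F n = C.HH F 0 + C.HH F 1 + C.HH F 2 + C.HH F 3 + C.HH F 4 := by
    change ∑ n ∈ range 5, _ = _
    rw [Finset.sum_range_succ, Finset.sum_range_succ, Finset.sum_range_succ, Finset.sum_range_succ,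
      Finset.sum_range_one]
  rw [e1]
  unfold Cyc.HH
  have q0 : C.q 0 = 1 := rfl
  have q1 : C.q 1 = P := rfl
  have q2 : C.q 2 = Q := rfl
  have q3 : C.q 3 = Q := rfl
  have q4 : C.q 4 = P := rfl
  have q5 : C.q 5 = 1 := rfl
  have b0 : C.b 0 = t := rfl
  have b1 : C.b 1 = 2 * a * P - t := rfl
  have b2 : C.b 2 = 2 * b * Q - (2 * a * P - t) := rfl
  have b3 : C.b 3 = 2 * a * P - t := rfl
  have b4 : C.b 4 = t := rfl
  have k0 : (((C.κ 0 : ℕ)) : ℝ) = a := rfl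
  have k1 : (((C.κ 1 : ℕ)) : ℝ) = b := rfl
  have k2 : (((C.κ 2 : ℕ)) : ℝ) = b := rfl
  have k3 : (((C.κ 3 : ℕ)) : ℝ) = a := rfl
  have k4 : (((C.κ 4 : ℕ)) : ℝ) = t := rfl
  have E0 : C.EE F 0 = Ef F 1 (t : ZMod N) P := by
    rw [Cyc.EE_eq, zero_add, q0, q1, b0]; push_cast; rfl
  have E1 : C.EE F 1 = Ef F P ((2 * a * P - t : ℤ) : ZMod N) Q := by
    rw [Cyc.EE_eq, show 1 + 1 = 2 from rfl, q1, q2, b1]
  have E2 : C.EE F 2 = Ef F Q ((2 * b * Q - (2 * a * P - t) : ℤ) : ZMod N) Q := by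
    rw [Cyc.EE_eq, show 2 + 1 = 3 from rfl, q2, q3, b2]
  have E3 : C.EE F 3 = Ef F P ((2 * a * P - t : ℤ) : ZMod N) Q := by
    rw [Cyc.EE_eq, show 3 + 1 = 4 from rfl, q3, q4, b3, ← Ef_mirror hodd]
  have E4 : C.EE F 4 = Ef F 1 (t : ZMod N) P := by
    rw [Cyc.EE_eq, show 4 + 1 = 5 from rfl, q4, q5, b4, Int.cast_one, ← Ef_mirror hodd]
    push_cast; rfl
  have Y1 : C.YY F 1 = Yf F P ((2 * a * P - t : ℤ) : ZMod N) Q := by
    rw [Cyc.YY_eq, show 1 + 1 = 2 from rfl, q1, q2, b1]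
  have Y2 : C.YY F 2 = Yf F Q ((2 * b * Q - (2 * a * P - t) : ℤ) : ZMod N) Q := by
    rw [Cyc.YY_eq, show 2 + 1 = 3 from rfl, q2, q3, b2]
  have Y3 : C.YY F 3 = C.YY F 2 := by
    have h1 := C.X_eq hodd 1
    rw [show 1 + 1 = 2 from rfl, q1, q2, b1] at h1
    rw [Cyc.YY_eq, show 3 + 1 = 4 from rfl, q3, q4, b3, Yf_mirror hodd, h1, neg_neg]
  have Y4 : C.YY F 4 = C.YY F 1 := by
    have h1 := C.X_eq hodd 0
    rw [zero_add, q0, q1, b0] at h1
    rw [Cyc.YY_eq, show 4 + 1 = 5 from rfl, q4, q5, b4, Yf_mirror hodd, h1, neg_neg]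
  have Y5 : C.YY F 5 = Yf F 1 (t : ZMod N) P := by
    have h1 := C.YY_per (F := F) 0
    have h2 : C.YY F 5 = C.YY F 0 := h1
    rw [h2, Cyc.YY_eq, zero_add, q0, q1, b0]; push_cast; rfl
  rw [show 0 + 1 = 1 from rfl, show 1 + 1 = 2 from rfl, show 2 + 1 = 3 from rfl,
    show 3 + 1 = 4 from rfl, show 4 + 1 = 5 from rfl, E0, E1, E2, E3, E4, Y3, Y4, Y5,
    Y1, Y2, k0, k1, k2, k3, k4]
  unfold RelR
  have f2 : ((1 + a * (t : ℤ) - (a : ℤ) ^ 2 * P : ℤ) : ZMod N) = Q := by rw [hQe]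
  have f3 : ((2 * b * (1 + a * (t : ℤ) - (a : ℤ) ^ 2 * P) - (2 * a * P - (t : ℤ)) : ℤ) : ZMod N) =
    ((2 * b * Q - (2 * a * P - t) : ℤ) : ZMod N) := by rw [hQe]
  rw [f2, f3]
  push_cast
  ring

end rel

end Pool.Agent.N911
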