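import Pool.Agent.N911.A4
import Pool.Agent.H419R2.D2

/-! Integral relations and relations modulo primes. -/

namespace Pool.Agent.N911

open H419R2 QuadraticAlgebra Module Finset

section

variable {N : ℕ} [NeZero N]

/-- weight for `B1 B1` -/
def wE (x y : ZMod N) : ℤ :=
  if x = 0 ∨ y = 0 then 0 else (2 * (x.val : ℤ) - (N : ℤ)) * (2 * (y.val : ℤ) - (N : ℤ))

/-- weight for `B2` -/
def wY (y : ZMod N) : ℤ := 6 * (y.val : ℤ) ^ 2 - 6 * (y.val : ℤ) * (N : ℤ) + (N : ℤ) ^ 2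

theorem wE_real (x y : ZMod N) : (wE x y : ℝ) = 4 * N ^ 2 * (B1 x * B1 y) := by
  have hq := qpos (q := N)
  unfold wE B1
  by_cases hx : x = 0
  · subst hx; simp
  · by_cases hy : y = 0
    · subst hy; simp
    · rw [if_neg (by tauto), if_neg hx, if_neg hy]
      push_cast
      field_simp
      ring

theorem wY_real (y : ZMod N) : (wY y : ℝ) = 6 * N ^ 2 * B2 y := by
  have hq := qpos (q := N)
  unfold wY B2
  push_cast
  field_simp

/-- integral sum -/
def SE {M : Type*} [CommRing M] (f : ZMod N → M) (A B C : ZMod N) : M :=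
  ∑ x : ZMod N, ∑ y : ZMod N, f (A * x ^ 2 + B * (x * y) - C * y ^ 2) * (wE x y : M)

/-- integral sum -/
def SY {M : Type*} [CommRing M] (f : ZMod N → M) (A B C : ZMod N) : M :=
  ∑ x : ZMod N, ∑ y : ZMod N, f (A * x ^ 2 + B * (x * y) - C * y ^ 2) * (wY y : M)

/-- the relation with values in a ring -/
def RelM {M : Type*} [CommRing M] (f : ZMod N → M) (t P a b : ℤ) : M :=
  6 * SE f 1 (t : ZMod N) (P : ZMod N) +
  6 * SE f (P : ZMod N) ((2 * a * P - t : ℤ) : ZMod N) ((1 + a * t - a ^ 2 * P : ℤ) : ZMod N) +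
  3 * SE f ((1 + a * t - a ^ 2 * P : ℤ) : ZMod N)
    ((2 * b * (1 + a * t - a ^ 2 * P) - (2 * a * P - t) : ℤ) : ZMod N)
    ((1 + a * t - a ^ 2 * P : ℤ) : ZMod N) +
  t * SY f 1 (t : ZMod N) (P : ZMod N) +
  2 * a * SY f (P : ZMod N) ((2 * a * P - t : ℤ) : ZMod N) ((1 + a * t - a ^ 2 * P : ℤ) : ZMod N) +
  2 * b * SY f ((1 + a * t - a ^ 2 * P : ℤ) : ZMod N)
    ((2 * b * (1 + a * t - a ^ 2 * P) - (2 * a * P - t) : ℤ) : ZMod N)
    ((1 + a * t - a ^ 2 * P : ℤ) : ZMod N)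

theorem SE_real (f : ZMod N → ℤ) (A B C : ZMod N) :
    ((SE f A B C : ℤ) : ℝ) = 4 * N ^ 2 * Ef (fun x => ((f x : ℤ) : ℝ)) A B C := by
  unfold SE Ef
  rw [← SS_mul]
  unfold SS
  rw [Int.cast_sum]
  apply Finset.sum_congr rfl
  intro x _
  rw [Int.cast_sum]
  apply Finset.sum_congr rfl
  intro y _
  rw [Int.cast_mul, Int.cast_id, wE_real]
  ring

theorem SY_real (f : ZMod N → ℤ) (A B C : ZMod N) :
    ((SY f A B C : ℤ) : ℝ) = 6 * N ^ 2 * Yf (fun x => ((f x : ℤ) : ℝ)) A B C := by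
  unfold SY Yf
  rw [← SS_mul]
  unfold SS
  rw [Int.cast_sum]
  apply Finset.sum_congr rfl
  intro x _
  rw [Int.cast_sum]
  apply Finset.sum_congr rfl
  intro y _
  rw [Int.cast_mul, Int.cast_id, wY_real]
  ring

theorem RelM_real (f : ZMod N → ℤ) (t P a b : ℤ) :
    ((RelM f t P a b : ℤ) : ℝ) = 6 * N ^ 2 * RelR (fun x => ((f x : ℤ) : ℝ)) t P a b := by
  unfold RelM RelR
  simp only [Int.cast_add, Int.cast_mul (α := ℝ), SE_real, SY_real, Int.cast_id]
  push_cast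
  ring

theorem RelM_map {M M' : Type*} [CommRing M] [CommRing M'] (φ : M →+* M') (f : ZMod N → M)
    (t P a b : ℤ) : φ (RelM f t P a b) = RelM (fun x => φ (f x)) t P a b := by
  have h1 : ∀ A B C : ZMod N, φ (SE f A B C) = SE (fun x => φ (f x)) A B C := by
    intro A B C
    unfold SE
    rw [map_sum]
    apply Finset.sum_congr rfl
    intro x _
    rw [map_sum]
    apply Finset.sum_congr rfl
    intro y _
    rw [map_mul, map_intCast]
  have h2 : ∀ A B C : ZMod N, φ (SY f A B C) = SY (fun x => φ (f x)) A B C := by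
    intro A B C
    unfold SY
    rw [map_sum]
    apply Finset.sum_congr rfl
    intro x _
    rw [map_sum]
    apply Finset.sum_congr rfl
    intro y _
    rw [map_mul, map_intCast]
  unfold RelM
  simp only [map_add, map_mul, h1, h2, map_intCast, map_ofNat]

theorem RelM_smul {M : Type*} [CommRing M] (c : M) (f : ZMod N → M)
    (t P a b : ℤ) : RelM (fun x => c * f x) t P a b = c * RelM f t P a b := by
  have h1 : ∀ A B C : ZMod N, SE (fun x => c * f x) A B C = c * SE f A B C := by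
    intro A B C
    unfold SE
    rw [Finset.mul_sum]
    apply Finset.sum_congr rfl
    intro x _
    rw [Finset.mul_sum]
    apply Finset.sum_congr rfl
    intro y _
    ring
  have h2 : ∀ A B C : ZMod N, SY (fun x => c * f x) A B C = c * SY f A B C := by
    intro A B C
    unfold SY
    rw [Finset.mul_sum]
    apply Finset.sum_congr rfl
    intro x _
    rw [Finset.mul_sum]
    apply Finset.sum_congr rfl
    intro y _
    ring
  unfold RelM
  simp only [h1, h2]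
  ring

end

/-- consequence of class number one -/
structure Good5 (t P a b : ℤ) (D : ℕ) : Prop where
  hD : (D : ℤ) = t ^ 2 + 4 * P
  hD1 : 1 < D
  con : P + b * (2 * a * P - t) - b ^ 2 * (1 + a * t - a ^ 2 * P) = 1 + a * t - a ^ 2 * P
  rel : P % 2 = 1 → ∀ (N : ℕ) [NeZero N], N.Coprime D → ∀ f : ZMod N → ℤ, (∀ x, f (-x) = -f x) →
    (D : ℤ) * RelM f t P a b =
    6 * ∑ l ∈ range (N * D), ∑ a ∈ range N, (l : ℤ) * a * jacobiSym l D * f ((a * l : ℕ))
  split : ∀ l : ℕ, l.Prime → 4 * (l : ℤ) ^ 2 ≤ D → (∃ w0 : ℤ, (l : ℤ) ∣ w0 ^ 2 + t * w0 - P) →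
    (l : ℤ) = P ∨ (l : ℤ) = 1 + a * t - a ^ 2 * P

theorem rel_int {N D : ℕ} [NeZero N] (hD : 0 < D) {t P a b : ℤ} {f : ZMod N → ℤ}
    (h : (∑ l ∈ range (N * D), ∑ a ∈ range N, (l : ℝ) * a * jacobiSym l D *
      ((f ((a * l : ℕ)) : ℤ) : ℝ)) / (N * (N * D)) = RelR (fun x => ((f x : ℤ) : ℝ)) t P a b) :
    (D : ℤ) * RelM f t P a b =
    6 * ∑ l ∈ range (N * D), ∑ a ∈ range N, (l : ℤ) * a * jacobiSym l D * f ((a * l : ℕ)) := by
  have hq := qpos (q := N)
  have hD' : (0 : ℝ) < D := by exact_mod_cast hD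
  have e2 : ((∑ l ∈ range (N * D), ∑ a ∈ range N, (l : ℤ) * a * jacobiSym l D *
      f ((a * l : ℕ)) : ℤ) : ℝ) = ∑ l ∈ range (N * D), ∑ a ∈ range N, (l : ℝ) * a *
      jacobiSym l D * ((f ((a * l : ℕ)) : ℤ) : ℝ) := by
    push_cast
    rfl
  have e3 : (((D : ℤ) * RelM f t P a b : ℤ) : ℝ) =
    ((6 * ∑ l ∈ range (N * D), ∑ a ∈ range N, (l : ℤ) * a * jacobiSym l D *
      f ((a * l : ℕ)) : ℤ) : ℝ) := by
    rw [Int.cast_mul, RelM_real, Int.cast_mul 6, e2, ← h]
    push_cast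
    field_simp
  exact_mod_cast e3

/-- Relation modulo a prime. -/
theorem Good5.rel_mod {t P a b : ℤ} {D : ℕ} (G : Good5 t P a b D) (hP2 : P % 2 = 1)
    {p : ℕ} (hp : p.Prime) (hp2 : p ≠ 2)
    (hpD : ¬ (p : ℤ) ∣ D) {N : ℕ} [NeZero N] (hcop : N.Coprime D) (χ : ZMod N → ZMod p)
    (hmul : ∀ x y, χ (x * y) = χ x * χ y) (hodd : ∀ x, χ (-x) = -χ x)
    (hB : ∑ a ∈ range N, (a : ZMod p) * χ a = 0) :
    RelM χ t P a b = 0 := by
  have hF := Fact.mk hp
  have h2 : (2 : ZMod p) ≠ 0 := by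
    intro h
    have : ((2 : ℕ) : ZMod p) = 0 := by exact_mod_cast h
    rw [ZMod.natCast_eq_zero_iff] at this
    exact hp2 ((Nat.prime_dvd_prime_iff_eq hp Nat.prime_two).mp this)
  have hD0 : ((D : ℤ) : ZMod p) ≠ 0 := by
    intro h
    exact hpD ((ZMod.intCast_zmod_eq_zero_iff_dvd _ p).mp h)
  have h := G.rel hP2 N hcop (fun x => ((χ x).val : ℤ) - ((χ (-x)).val : ℤ)) (fun x => by
    rw [neg_neg]; ring)
  have hf : ∀ x, ((((χ x).val : ℤ) - ((χ (-x)).val : ℤ) : ℤ) : ZMod p) = 2 * χ x := by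
    intro x
    push_cast
    rw [ZMod.natCast_zmod_val, ZMod.natCast_zmod_val, hodd]
    ring
  have h' := congrArg (fun z : ℤ => (z : ZMod p)) h
  rw [Int.cast_mul, Int.cast_mul, Int.cast_sum] at h'
  have hR : ∑ l ∈ range (N * D), ((∑ a ∈ range N, (l : ℤ) * a * jacobiSym l D *
      (((χ ((a * l : ℕ))).val : ℤ) - ((χ (-((a * l : ℕ) : ZMod N))).val : ℤ)) : ℤ) : ZMod p) = 0 := by
    apply Finset.sum_eq_zero
    intro l _
    rw [Int.cast_sum]
    have e : ∀ a ∈ range N, (((l : ℤ) * a * jacobiSym l D *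
      (((χ ((a * l : ℕ))).val : ℤ) - ((χ (-((a * l : ℕ) : ZMod N))).val : ℤ)) : ℤ) : ZMod p) =
      ((l : ZMod p) * (jacobiSym l D : ZMod p) * 2 * χ l) * ((a : ZMod p) * χ a) := by
      intro a _
      rw [Int.cast_mul, hf, Nat.cast_mul, hmul]
      push_cast
      ring
    rw [Finset.sum_congr rfl e, ← Finset.mul_sum, hB, mul_zero]
  rw [hR, mul_zero] at h'
  rcases mul_eq_zero.mp h' with h3 | h3
  · exact absurd h3 hD0
  · have e := RelM_map (Int.castRingHom (ZMod p))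
      (fun x => ((χ x).val : ℤ) - ((χ (-x)).val : ℤ)) t P a b
    simp only [eq_intCast] at e
    rw [h3] at e
    have e2 : RelM (fun x => ((((χ x).val : ℤ) - ((χ (-x)).val : ℤ) : ℤ) : ZMod p)) t P a b =
        2 * RelM χ t P a b := by
      rw [← RelM_smul]
      congr 1
      funext x
      exact hf x
    rw [e2] at e
    rcases mul_eq_zero.mp e.symm with h4 | h4
    · exact absurd h4 h2
    · exact h4

/-- splitting primes are norms in the cycle -/
theorem Cyc.split_norm {P t : ℤ} [IsDomain (QA P t)] [IsPrincipalIdealRing (QA P t)]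
    (C : Cyc P t) {D : ℕ} (hD : (D : ℤ) = t ^ 2 + 4 * P) {l : ℕ} (hl : l.Prime)
    (hlD : 4 * (l : ℤ) ^ 2 ≤ D) (h : ∃ w0 : ℤ, (l : ℤ) ∣ w0 ^ 2 + t * w0 - P) :
    ∃ n, C.q n = l := by
  obtain ⟨w0, hw0⟩ := h
  obtain ⟨z, hz⟩ := exists_norm_prime hl hw0
  have hz0 : z ≠ 0 := by
    rintro rfl
    have := hl.pos
    simp at hz
    omega
  obtain ⟨z', h1, h2⟩ := C.surj hz0
  obtain ⟨p, rfl⟩ := (C.dom_iff z').mp h1
  have h3 := congrArg Ideal.absNorm h2
  rw [absNorm_span, absNorm_span, hz] at h3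
  have h4 : QuadraticAlgebra.norm (C.gen p) = l := by
    have := h1.1.1
    omega
  rcases C.small_norm p with ⟨n, hn, _, _⟩ | h5
  · rw [h4] at hn
    refine ⟨n, ?_⟩
    have h6 : (C.q n).natAbs ∣ l := by
      have : C.q n ∣ (l : ℤ) := ⟨_, hn⟩
      have := Int.natAbs_dvd_natAbs.mpr this
      simpa using this
    rcases (Nat.dvd_prime hl).mp h6 with h7 | h7
    · exfalso
      have h8 : C.q n = 1 := by
        have := C.qpos n
        omega
      rw [h8, one_mul] at hn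
      have h9 : l = p.2.1 * p.2.1 := by
        have : (l : ℤ) = ((p.2.1 * p.2.1 : ℕ) : ℤ) := by rw [hn]; push_cast; ring
        exact_mod_cast this
      exact (Irreducible.not_isSquare hl) ⟨p.2.1, h9⟩
    · have := C.qpos n
      omega
  · rw [h4, ← hD] at h5
    linarith

/-- the general passage from a cycle to `Good5` -/
theorem good_of_cyc {P : ℤ} {t : ℕ} (C : Cyc P (t : ℤ)) {D : ℕ} (hD : (D : ℤ) = (t : ℤ) ^ 2 + 4 * P)
    (hsf : Squarefree (D : ℤ)) (ht : t % 2 = 1) {a b : ℤ}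
    (con : P + b * (2 * a * P - t) - b ^ 2 * (1 + a * t - a ^ 2 * P) = 1 + a * t - a ^ 2 * P)
    (hq : ∀ n, C.q n = 1 ∨ C.q n = P ∨ C.q n = 1 + a * t - a ^ 2 * P)
    (hrel : ∀ (N : ℕ) [NeZero N] (F : ZMod N → ℝ), (∀ x, F (-x) = -F x) →
      2 * ∑ n ∈ range C.l, C.HH F n = RelR F t P a b)
    {K : Type*} [Field K] [NumberField K] (hK : Module.finrank ℚ K = 2) {x : K}
    (hx : x ^ 2 = ((D : ℤ) : K)) (hcl : NumberField.classNumber K = 1) :
    Good5 t P a b D := by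
  have hD5 := C.D_ge
  have hD1' : (1 : ℤ) < D := by rw [hD]; linarith
  have hD1 : 1 < D := by exact_mod_cast hD1'
  have hm' : (t : ℤ) % 2 = 1 := by exact_mod_cast ht
  have i1 : IsDomain (QA P (t : ℤ)) := isDomain_of hD hsf hD1'
  have i2 : IsPrincipalIdealRing (QA P (t : ℤ)) :=
    pid_of_classNumber_one hm' hD hsf hD1' hK hx hcl
  refine ⟨hD, hD1, con, ?_, ?_⟩
  · intro hP2 N hN hcop f hf
    apply rel_int (by omega)
    have h := C.main_identity (F := fun x => ((f x : ℤ) : ℝ)) hD hD1 hm' hP2 hcop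
      (fun x => by rw [hf]; push_cast; ring)
    rw [h]
    exact hrel N _ (fun x => by rw [hf]; push_cast; ring)
  · intro l hl hlD hw
    obtain ⟨n, hn⟩ := C.split_norm hD hl hlD hw
    rcases hq n with h | h | h
    · exfalso
      rw [h] at hn
      have : l = 1 := by exact_mod_cast hn.symm
      exact hl.one_lt.ne' this
    · left; rw [← hn, h]
    · right; rw [← hn, h]

end Pool.Agent.N911
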