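import Pool.Agent.N911.K2
import Pool.Agent.H419R2.F6

/-! Stages of the search. The names carry the prime they belong to. -/

set_option maxRecDepth 100000

namespace Pool.Agent.N911

open H419R2

/-- last stage, modulo 73 -/
def S73 (P7 i7 j7 k7 P13 i13 j13 k13 P19 i19 j19 k19 P37 i37 j37 k37
    R7 R13 R19 R37 : ℕ) (cA cB cC cD : CD) : Bool :=
  cof (chD cA 57 77 P7 P19) (chD cA 57 77 R7 R19) (evD cA 7 57 19 77 i7 i19)
    (evD cA 7 57 19 77 j7 j19) (evD cA 7 57 19 77 k7 k19) (fun K T A B =>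
  cof (chD cB 209 39 P13 P19) (chD cB 209 39 R13 R19) (evD cB 13 209 19 39 i13 i19)
    (evD cB 13 209 19 39 j13 j19) (evD cB 13 209 19 39 k13 k19) (fun K' T' A' B' =>
  cof (chD cC 209 39 P13 P19) (chD cC 209 39 R13 R19) (evD cC 13 209 19 39 i13 i19)
    (evD cC 13 209 19 39 j13 j19) (evD cC 13 209 19 39 k13 k19) (fun K2 T2 A2 B2 =>
  cof (chD cD 148 112 P7 P37) (chD cD 148 112 R7 R37) (evD cD 7 148 37 112 i7 i37)
    (evD cD 7 148 37 112 j7 j37) (evD cD 7 148 37 112 k7 k37) (fun K3 T3 A3 B3 =>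
  enL 73 I73 Q73 K T A B K' T' A' B' (fun a b t _ _ _ _ _ =>
    imp (ckL 73 K2 T2 A2 B2 a b t) (imp (ckL 73 K3 T3 A3 B3 a b t) false))))))

/-- stage modulo 13 -/
def S13 (a37 b37 t37 P37 R37 i37 j37 k37 P7 R7 i7 j7 k7 P19 R19 i19 j19 k19
    P3 R3 i3 j3 k3 P5 R5 i5 j5 k5 : ℕ) (next : Leaf) : Bool :=
  cof (sl1 (sl 5 X95 P19) P5) (sl1 (sl 5 X95 R19) R5) (sl2 (sl 50 E95 i19) i5)
    (sl2 (sl 50 E95 j19) j5) (sl2 (sl 50 E95 k19) k5) (fun K T A B =>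
  cof (sl1 (sl 5 (sl 15 X105 P7) P3) P5) (sl1 (sl 5 (sl 15 X105 R7) R3) R5)
    (sl2 (sl 50 (sl 450 E105 i7) i3) i5) (sl2 (sl 50 (sl 450 E105 j7) j3) j5)
    (sl2 (sl 50 (sl 450 E105 k7) k3) k5) (fun K' T' A' B' =>
  cof (sl1 (sl 5 X185 P37) P5) (sl1 (sl 5 X185 R37) R5) (sl2 (sl 50 E185 i37) i5)
    (sl2 (sl 50 E185 j37) j5) (sl2 (sl 50 E185 k37) k5) (fun K2 T2 A2 B2 =>
  cof (sl1 (sl 19 X133_13 P7) P19) (sl1 (sl 19 X133_13 R7) R19) (sl2 (sl 722 E133_13 i7) i19)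
    (sl2 (sl 722 E133_13 j7) j19) (sl2 (sl 722 E133_13 k7) k19) (fun K3 T3 A3 B3 =>
  force (sl 338 E91 i7) (fun e0 => force (sl 338 E91 j7) (fun e1 => force (sl 338 E91 k7) (fun e2 =>
  force (sl 13 X91 P7) (fun xP => force (sl 13 X91 R7) (fun xR =>
  enL 13 I13 Q13 K T A B K' T' A' B' (fun a b t P R i j k =>
    imp (ckL 13 K2 T2 A2 B2 a b t) (imp (ckL 13 K3 T3 A3 B3 a b t)
    (imp (ckF 37 (sl1 xP P) (sl1 xR R) (sl2 e0 i) (sl2 e1 j) (sl2 e2 k) a37 b37 t37)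
      (next a b t P R i j k)))))))))))))

/-- stage modulo 5 -/
noncomputable def S5 (P7 R7 i7 j7 k7 P4 R4 i4 j4 k4 : ℕ) (next : Leaf) : Bool :=
  force (sl 25 (sl 400 E140 i7) i4) (fun e0 => force (sl 25 (sl 400 E140 j7) j4) (fun e1 =>
  force (sl 25 (sl 400 E140 k7) k4) (fun e2 => force (sl 5 (sl 20 X140 P7) P4) (fun xP =>
  force (sl 5 (sl 20 X140 R7) R4) (fun xR =>
  L5.all (fun a b t P R i j k => imp (ckV 13 xP xR e0 e1 e2 P R i j k) (next a b t P R i j k)))))))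

/-- stages modulo 3 and 4 -/
noncomputable def S3 (uP uR u0 u1 u2 vP vR v0 v1 v2 : ℕ)
    (wP wR w0 w1 w2 zP zR z0 z1 z2 : ℕ) (a19 b19 t19 P19 R19 i19 j19 k19 : ℕ)
    (next : ℕ → ℕ → ℕ → ℕ → ℕ → Leaf) : Bool :=
  force (sl 144 E228 i19) (fun r0 => force (sl 144 E228 j19) (fun r1 =>
  force (sl 144 E228 k19) (fun r2 => force (sl 12 X228 P19) (fun rP =>
  force (sl 12 X228 R19) (fun rR =>
  L3.all (fun _ _ _ P3 R3 i3 j3 k3 =>
    imp (ckF 19 (sl1 wP P3) (sl1 wR R3) (sl2 w0 i3) (sl2 w1 j3) (sl2 w2 k3) a19 b19 t19)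
    (imp (ckF 19 (sl1 zP P3) (sl1 zR R3) (sl2 z0 i3) (sl2 z1 j3) (sl2 z2 k3) a19 b19 t19)
    (force (sl 16 r0 i3) (fun q0 => force (sl 16 r1 j3) (fun q1 => force (sl 16 r2 k3) (fun q2 =>
    force (sl 4 rP P3) (fun qP => force (sl 4 rR R3) (fun qR =>
    L4.all (fun a4 b4 t4 P4 R4 i4 j4 k4 =>
      imp (ckV 7 uP uR u0 u1 u2 P4 R4 i4 j4 k4) (imp (ckV 19 vP vR v0 v1 v2 P4 R4 i4 j4 k4)
      (imp (ckV 7 qP qR q0 q1 q2 P4 R4 i4 j4 k4)
        (next P3 R3 i3 j3 k3 a4 b4 t4 P4 R4 i4 j4 k4)))))))))))))))))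

/-- stage modulo 19 -/
noncomputable def S19 (a37 b37 t37 : ℕ) (xP xR x0 x1 x2 yP yR y0 y1 y2 : ℕ)
    (P7 R7 i7 j7 k7 : ℕ) (next : Leaf) : Bool :=
  cof (sl1 xP P7) (sl1 xR R7) (sl2 x0 i7) (sl2 x1 j7) (sl2 x2 k7) (fun K T A B =>
  cof (sl1 yP P7) (sl1 yR R7) (sl2 y0 i7) (sl2 y1 j7) (sl2 y2 k7) (fun K' T' A' B' =>
  force (sl 722 E133_37 i7) (fun r0 => force (sl 722 E133_37 j7) (fun r1 =>
  force (sl 722 E133_37 k7) (fun r2 => force (sl 19 X133_37 P7) (fun rP =>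
  force (sl 19 X133_37 R7) (fun rR =>
  enT 19 I19 rows19 K T A B K' T' A' B' (fun a b t P R i j k =>
    imp (ckF 37 (sl1 rP P) (sl1 rR R) (sl2 r0 i) (sl2 r1 j) (sl2 r2 k) a37 b37 t37)
    (force P (fun P => force R (fun R => force i (fun i => force j (fun j => force k (fun k =>
      next a b t P R i j k))))))))))))))

/-- leaf modulo 37 -/
noncomputable def S37 (cA cB cC cD : CD) (a37 b37 t37 P37 R37 i37 j37 k37 : ℕ) : Bool :=
  force (sl 16 E148_7 i37) (fun u0 => force (sl 16 E148_7 j37) (fun u1 =>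
  force (sl 16 E148_7 k37) (fun u2 => force (sl 4 X148_7 P37) (fun uP =>
  force (sl 4 X148_7 R37) (fun uR =>
  force (sl 16 E148_19 i37) (fun v0 => force (sl 16 E148_19 j37) (fun v1 =>
  force (sl 16 E148_19 k37) (fun v2 => force (sl 4 X148_19 P37) (fun vP =>
  force (sl 4 X148_19 R37) (fun vR =>
  @Bool.rec (fun _ => Bool)
    (force (sl 49 E259_2 i37) (fun s0 => force (sl 49 E259_2 j37) (fun s1 =>
    force (sl 49 E259_2 k37) (fun s2 => force (sl 7 X259_2 P37) (fun sP =>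
    force (sl 7 X259_2 R37) (fun sR =>
    force (sl 98 E259_0 i37) (fun x0 => force (sl 98 E259_0 j37) (fun x1 =>
    force (sl 98 E259_0 k37) (fun x2 => force (sl 7 X259_0 P37) (fun xP =>
    force (sl 7 X259_0 R37) (fun xR =>
    force (sl 98 E259_1 i37) (fun y0 => force (sl 98 E259_1 j37) (fun y1 =>
    force (sl 98 E259_1 k37) (fun y2 => force (sl 7 X259_1 P37) (fun yP =>
    force (sl 7 X259_1 R37) (fun yR =>
    force (sl 18 E111_0 i37) (fun w0 => force (sl 18 E111_0 j37) (fun w1 =>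
    force (sl 18 E111_0 k37) (fun w2 => force (sl 3 X111_0 P37) (fun wP =>
    force (sl 3 X111_0 R37) (fun wR =>
    force (sl 18 E111_1 i37) (fun z0 => force (sl 18 E111_1 j37) (fun z1 =>
    force (sl 18 E111_1 k37) (fun z2 => force (sl 3 X111_1 P37) (fun zP =>
    force (sl 3 X111_1 R37) (fun zR =>
    L7.all (fun _ _ _ P7 R7 i7 j7 k7 =>
      imp (ckV 19 sP sR s0 s1 s2 P7 R7 i7 j7 k7)
      (S19 a37 b37 t37 xP xR x0 x1 x2 yP yR y0 y1 y2 P7 R7 i7 j7 k7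
        (fun a19 b19 t19 P19 R19 i19 j19 k19 =>
        S3 uP uR u0 u1 u2 vP vR v0 v1 v2 wP wR w0 w1 w2 zP zR z0 z1 z2
          a19 b19 t19 P19 R19 i19 j19 k19 (fun P3 R3 i3 j3 k3 _ _ _ P4 R4 i4 j4 k4 =>
          S5 P7 R7 i7 j7 k7 P4 R4 i4 j4 k4 (fun _ _ _ P5 R5 i5 j5 k5 =>
            S13 a37 b37 t37 P37 R37 i37 j37 k37 P7 R7 i7 j7 k7 P19 R19 i19 j19 k19
              P3 R3 i3 j3 k3 P5 R5 i5 j5 k5 (fun _ _ _ P13 R13 i13 j13 k13 =>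
              S73 P7 i7 j7 k7 P13 i13 j13 k13 P19 i19 j19 k19 P37 i37 j37 k37
                R7 R13 R19 R37 cA cB cC cD))))))))))))))))))))))))))))))))
    true
    (L4.all (fun _ _ _ P4 R4 i4 j4 k4 =>
      imp (ckV 7 uP uR u0 u1 u2 P4 R4 i4 j4 k4)
        (imp (ckV 19 vP vR v0 v1 v2 P4 R4 i4 j4 k4) false)))))))))))))

/-- the whole search for one value of `a` modulo 37 -/
noncomputable def run (cA cB cC cD : CD) (a37 : ℕ) : Bool :=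
  enF 37 I37 Q37 a37 19 (S37 cA cB cC cD)

end Pool.Agent.N911
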