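import Pool.Agent.N911.K5

/-! Soundness of the tables. -/

namespace Pool.Agent.N911

open H419R2 Finset

section

variable {q p T : ℕ} {U : List ℕ} {reps : List (ℕ × ℕ)}

theorem coef2 [NeZero q] (hp : 0 < p) (hp128 : p ≤ 128) (hlen : reps.length ≤ 1000)
    (hmul : chkMul q p T = true) (hoth : chkOth q p T = true) (horb : chkOrb q U reps = true)
    (hU : ∀ e ∈ U, e < q) {m s : ℕ} {B C : ZMod q} (hm : (m : ZMod q) = B)
    (hs : (s : ZMod q) = -C) (K M : ℤ) :
    ∑ x : ZMod q, ∑ y : ZMod q, chi q p T (1 * x ^ 2 + B * (x * y)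
      - C * y ^ 2) * (wt K M x y : ZMod p) =
    ((Nat.mod (evalc q T m s (reps.map (ent q p T U))) 16777216 : ℕ) : ZMod p) -
    (K : ZMod p) * ((Nat.mod (Nat.div (evalc q T m s (reps.map (ent q p T U))) 16777216)
      16777216 : ℕ) : ZMod p) +
    (M : ZMod p) *
      ((Nat.div (evalc q T m s (reps.map (ent q p T U))) 281474976710656 : ℕ) : ZMod p) := by
  have hq : 0 < q := Nat.pos_of_ne_zero (NeZero.ne q)
  set H : ℕ → ℕ → ZMod p := fun a b => chi q p T (1 * (a : ZMod q) ^ 2 +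
    B * ((a : ZMod q) * b) - C * (b : ZMod q) ^ 2) *
    wv q p (K : ZMod p) (M : ZMod p) a b with hH
  have h1 : ∑ x : ZMod q, ∑ y : ZMod q, chi q p T (1 * x ^ 2 + B * (x * y)
      - C * y ^ 2) * (wt K M x y : ZMod p) =
      ∑ a ∈ range q, ∑ b ∈ range q, H a b := by
    rw [sum_range_zmod]
    apply Finset.sum_congr rfl
    intro x _
    rw [sum_range_zmod]
    apply Finset.sum_congr rfl
    intro y _
    rw [hH]
    simp only
    rw [wt_cast hp, ZMod.natCast_zmod_val, ZMod.natCast_zmod_val]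
  have hN : ∀ a b : ℕ, 1 * (a : ZMod q) ^ 2 + B * ((a : ZMod q) * b)
      - C * (b : ZMod q) ^ 2 = ((a * a + m * (a * b) + s * (b * b) : ℕ) : ZMod q) := by
    intro a b
    push_cast
    rw [hm, hs]
    ring
  have h2 := orbit_sum horb hq H (by
    intro a _ b _ hg
    rw [hH]
    simp only
    rw [hN, chi_nonunit hoth, zero_mul]
    rw [ZMod.val_natCast]
    intro h3
    apply hg
    set g := Nat.gcd (Nat.gcd a b) q with hgdef
    have g1 : g ∣ q := Nat.gcd_dvd_right _ _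
    have g2 : g ∣ a := (Nat.gcd_dvd_left _ _).trans (Nat.gcd_dvd_left _ _)
    have g3 : g ∣ b := (Nat.gcd_dvd_left _ _).trans (Nat.gcd_dvd_right _ _)
    have g4 : g ∣ a * a + m * (a * b) + s * (b * b) :=
      dvd_add (dvd_add (g2.mul_right a) ((g2.mul_right b).mul_left m)) ((g3.mul_right b).mul_left s)
    have g5 : g ∣ (a * a + m * (a * b) + s * (b * b)) % q := (Nat.dvd_mod_iff g1).mpr g4
    have g6 := Nat.dvd_gcd g5 g1
    rw [h3] at g6
    exact Nat.dvd_one.mp g6)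
  rw [h1, h2]
  obtain ⟨A, B', C', hA, hB, hC, eA, eB, eC⟩ :=
    evalc_split (q := q) (T := T) (U := U) hp hp128 hlen m s
  rw [hA, hB, hC, eA, eB, eC]
  rw [Nat.cast_list_sum, Nat.cast_list_sum, Nat.cast_list_sum, List.map_map, List.map_map,
    List.map_map]
  have h3 : ∀ v : ℕ × ℕ, (U.map (fun e => H (e * v.1 % q) (e * v.2 % q))).sum =
      ((look T ((v.1 * v.1 % q + m * (v.1 * v.2 % q) + s * (v.2 * v.2 % q)) % q) : ℕ) : ZMod p) *
      ((t11 q p T U v.1 v.2 : ZMod p) - (K : ZMod p) * (t20 q p T U v.1 : ZMod p) +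
        (M : ZMod p) * (t20 q p T U v.2 : ZMod p)) := by
    intro v
    rw [← inner_sum hU, ← List.sum_map_mul_left]
    congr 1
    apply List.map_congr_left
    intro e _
    have e1 : ((e * v.1 % q : ℕ) : ZMod q) = e * v.1 := by rw [ZMod.natCast_mod]; push_cast; rfl
    have e2 : ((e * v.2 % q : ℕ) : ZMod q) = e * v.2 := by rw [ZMod.natCast_mod]; push_cast; rfl
    have e3 : chi q p T (((v.1 * v.1 % q + m * (v.1 * v.2 % q) + s * (v.2 * v.2 % q) : ℕ)) : ZMod q)
      = ((look T ((v.1 * v.1 % q + m * (v.1 * v.2 % q) + s * (v.2 * v.2 % q)) % q) : ℕ) : ZMod p) :=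
      chi_cast _
    rw [hH]
    simp only
    rw [← e3, e1, e2]
    have e4 : 1 * ((e : ZMod q) * v.1) ^ 2 + B * (((e : ZMod q) * v.1) *
        ((e : ZMod q) * v.2)) - C * ((e : ZMod q) * v.2) ^ 2 =
        (e : ZMod q) * (e : ZMod q) *
        ((v.1 * v.1 % q + m * (v.1 * v.2 % q) + s * (v.2 * v.2 % q) : ℕ) : ZMod q) := by
      push_cast
      rw [ZMod.natCast_mod, ZMod.natCast_mod, ZMod.natCast_mod, hm, hs]
      push_cast
      ring
    rw [e4, chi_mul hmul, chi_mul hmul]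
    ring
  clear h1 h2 hA hB hC eA eB eC horb hlen
  induction reps with
  | nil => simp
  | cons v reps ih =>
    simp only [List.map_cons, List.sum_cons]
    rw [ih, h3]
    simp only [Function.comp]
    push_cast
    ring

theorem wt_wE [NeZero q] (M : ℤ) (x y : ZMod q) : wt 0 M x y = 6 * wE x y + M * wY y := by
  unfold wt wE wY
  split_ifs <;> ring

end

/-- the two sums of a form from the evaluation -/
theorem evalc_ent {c : CD} (hc : c.OK) [NeZero c.q] {m s : ℕ} {B C : ZMod c.q}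
    (hm : (m : ZMod c.q) = B) (hs : (s : ZMod c.q) = -C) :
    ((Nat.mod (evalc c.q c.T m s c.tab) 16777216 : ℕ) : ZMod c.p) =
      6 * SE (chi c.q c.p c.T) 1 B C ∧
    ((Nat.div (evalc c.q c.T m s c.tab) 281474976710656 : ℕ) : ZMod c.p) =
      SY (chi c.q c.p c.T) 1 B C := by
  have htab := chkTab_spec _ _ _ _ _ _ hc.tabOK
  have h0 := coef2 hc.pp.pos hc.p128 hc.len hc.mul hc.oth hc.orb hc.hU hm hs 0 0
  have h1 := coef2 hc.pp.pos hc.p128 hc.len hc.mul hc.oth hc.orb hc.hU hm hs 0 1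
  rw [← htab] at h0 h1
  have e0 : ∀ x y : ZMod c.q, (wt 0 0 x y : ℤ) = 6 * wE x y := fun x y => by rw [wt_wE]; ring
  have e1 : ∀ x y : ZMod c.q, (wt 0 1 x y : ℤ) = 6 * wE x y + wY y := fun x y => by
    rw [wt_wE]; ring
  simp only [e0] at h0
  simp only [e1] at h1
  have f0 : ∑ x : ZMod c.q, ∑ y : ZMod c.q, chi c.q c.p c.T (1 * x ^ 2 + B * (x * y)
      - C * y ^ 2) * ((6 * wE x y : ℤ) : ZMod c.p) = 6 * SE (chi c.q c.p c.T) 1 B C := by
    unfold SE
    rw [Finset.mul_sum]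
    apply Finset.sum_congr rfl
    intro x _
    rw [Finset.mul_sum]
    apply Finset.sum_congr rfl
    intro y _
    push_cast
    ring
  have f1 : ∑ x : ZMod c.q, ∑ y : ZMod c.q, chi c.q c.p c.T (1 * x ^ 2 + B * (x * y)
      - C * y ^ 2) * ((6 * wE x y + wY y : ℤ) : ZMod c.p) = 6 * SE (chi c.q c.p c.T) 1 B C +
      SY (chi c.q c.p c.T) 1 B C := by
    unfold SE SY
    rw [Finset.mul_sum, ← Finset.sum_add_distrib]
    apply Finset.sum_congr rfl
    intro x _
    rw [Finset.mul_sum, ← Finset.sum_add_distrib]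
    apply Finset.sum_congr rfl
    intro y _
    push_cast
    ring
  rw [f0] at h0
  rw [f1] at h1
  rw [Int.cast_zero, zero_mul, zero_mul, sub_zero, add_zero] at h0
  rw [Int.cast_zero, Int.cast_one, zero_mul, one_mul, sub_zero, ← h0] at h1
  exact ⟨h0.symm, (add_left_cancel h1).symm⟩

/-- direct evaluation -/
theorem evB_sound {c : CD} (hc : c.OK) {B C : ℕ} {B' C' : ℤ} (hB : ((B : ℕ) : ZMod c.q) = B')
    (hC : ((C : ℕ) : ZMod c.q) = C') : Ent c (evB c B C) B' C' := by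
  intro hq
  have hq0 : 0 < c.q := Nat.pos_of_ne_zero hq.out
  unfold evB
  simp only [force_eq]
  have hm : ((Nat.mod B c.q : ℕ) : ZMod c.q) = B' := by
    change ((B % c.q : ℕ) : ZMod c.q) = _
    rw [ZMod.natCast_mod, hB]
  have hs : ((Nat.sub c.q (Nat.mod C c.q) : ℕ) : ZMod c.q) = -(C' : ZMod c.q) := by
    change ((c.q - C % c.q : ℕ) : ZMod c.q) = _
    rw [Nat.cast_sub (Nat.mod_lt _ hq0).le, ZMod.natCast_mod, hC]
    simp
  obtain ⟨h1, h2⟩ := evalc_ent hc hm hs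
  set v := evalc c.q c.T (Nat.mod B c.q) (Nat.sub c.q (Nat.mod C c.q)) c.tab with hv
  have hp := hc.p128
  have hp0 := hc.pp.pos
  have b1 : (v % 16777216) % c.p < 128 := lt_of_lt_of_le (Nat.mod_lt _ hp0) hp
  have e : Nat.add (Nat.mod (Nat.mod v 16777216) c.p)
        (Nat.mul 128 (Nat.mod (Nat.div v 281474976710656) c.p)) =
      (v % 16777216) % c.p + 128 * ((v / 281474976710656) % c.p) := rfl
  rw [e]
  have e1 : ((v % 16777216) % c.p + 128 * ((v / 281474976710656) % c.p)) % 128 =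
    (v % 16777216) % c.p := by omega
  have e2 : ((v % 16777216) % c.p + 128 * ((v / 281474976710656) % c.p)) / 128 =
    (v / 281474976710656) % c.p := by omega
  rw [e1, e2, ZMod.natCast_mod, ZMod.natCast_mod]
  exact ⟨h1, h2⟩

/-- list of quadruples -/
inductive QL where
  | nil : QL
  | cons (a b c e : ℕ) (l : QL) : QL

/-- fast evaluation -/
noncomputable def evq (q T m s : ℕ) (L : QL) : ℕ :=
  @QL.rec (fun _ => ℕ) 0 (fun a b c e _ ih => Nat.add (Nat.mul (look T (Nat.mod (Nat.add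
    (Nat.add a (Nat.mul m b)) (Nat.mul s c)) q)) e) ih) L

/-- conversion -/
noncomputable def ofL (l : List (ℕ × ℕ × ℕ × ℕ)) : QL :=
  @List.rec _ (fun _ => QL) QL.nil (fun x _ ih => QL.cons x.1 x.2.1 x.2.2.1 x.2.2.2 ih) l

theorem evq_eq (q T m s : ℕ) (l : List (ℕ × ℕ × ℕ × ℕ)) :
    evq q T m s (ofL l) = evalc q T m s l := by
  induction l with
  | nil => rfl
  | cons x l ih =>
    have e1 : evq q T m s (ofL (x :: l)) = Nat.add (Nat.mul (look T (Nat.mod (Nat.add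
      (Nat.add x.1 (Nat.mul m x.2.1)) (Nat.mul s x.2.2.1)) q)) x.2.2.2) (evq q T m s (ofL l)) := rfl
    have e2 : evalc q T m s (x :: l) = Nat.add (Nat.mul (look T (Nat.mod (Nat.add
      (Nat.add x.1 (Nat.mul m x.2.1)) (Nat.mul s x.2.2.1)) q)) x.2.2.2) (evalc q T m s l) := rfl
    rw [e1, e2, ih]

/-- forced conversion -/
noncomputable def toK (l : List (ℕ × ℕ × ℕ × ℕ)) : (QL → Bool) → Bool :=
  @List.rec _ (fun _ => (QL → Bool) → Bool) (fun k => k QL.nil) (fun x _ ih k =>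
    force x.1 (fun a => force x.2.1 (fun b => force x.2.2.1 (fun c => force x.2.2.2 (fun e =>
      ih (fun r => k (QL.cons a b c e r))))))) l

theorem toK_eq (l : List (ℕ × ℕ × ℕ × ℕ)) (k : QL → Bool) : toK l k = k (ofL l) := by
  induction l generalizing k with
  | nil => rfl
  | cons x l ih =>
    have e1 : toK (x :: l) k = force x.1 (fun a => force x.2.1 (fun b => force x.2.2.1 (fun c =>
      force x.2.2.2 (fun e => toK l (fun r => k (QL.cons a b c e r)))))) := rfl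
    rw [e1]
    simp only [force_eq]
    rw [ih]
    rfl

/-- comparison with the table -/
def cmpE (p v e e' : ℕ) : Bool :=
  cj (Nat.beq (Nat.mod (Nat.mod v 16777216) p) (Nat.mod e 128))
    (cj (Nat.beq (Nat.mod (Nat.div v 281474976710656) p) (Nat.div e 128))
    (cj (Nat.beq (Nat.mod (Nat.add (Nat.mod e 128) (Nat.mod e' 128)) p) 0)
      (Nat.beq (Nat.div e 128) (Nat.div e' 128))))

/-- check of one line of the table -/
noncomputable def chkR (q p T : ℕ) (g : ℕ → ℕ → ℕ) (vs : ℕ → ℕ → Bool) (L : QL) (B : ℕ) : Bool :=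
  allN q (fun C => @Bool.rec (fun _ => Bool)
    (force (evq q T B (Nat.sub q C) L) (fun v => force (g B C) (fun e =>
      force (g (Nat.mod (Nat.sub q B) q) C) (fun e' => cmpE p v e e')))) true (vs B C))

/-- check of several lines of the table -/
noncomputable def chkG (c : CD) (g : ℕ → ℕ → ℕ) (vs : ℕ → ℕ → Bool) (lo n : ℕ) : Bool :=
  force c.q (fun q => force c.p (fun p => force c.T (fun T => toK c.tab (fun L =>
    allN n (fun i => force (Nat.add lo i) (fun B => chkR q p T g vs L B))))))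

/-- all lines have been checked -/
def AllG (c : CD) (g : ℕ → ℕ → ℕ) (vs : ℕ → ℕ → Bool) (n : ℕ) : Prop :=
  ∀ B < n, chkR c.q c.p c.T g vs (ofL c.tab) B = true

theorem AllG.step {c : CD} {g : ℕ → ℕ → ℕ} {vs : ℕ → ℕ → Bool} {lo n m : ℕ}
    (h : AllG c g vs lo) (h' : chkG c g vs lo n = true) (hm : lo + n = m) : AllG c g vs m := by
  subst hm
  intro B hB
  rcases lt_or_ge B lo with h1 | h1
  · exact h B h1
  · unfold chkG at h'
    simp only [force_eq] at h'
    rw [toK_eq, allN_iff] at h'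
    have h2 := h' (B - lo) (by omega)
    have h3 : Nat.add lo (B - lo) = B := by
      change lo + (B - lo) = B
      omega
    rw [h3] at h2
    exact h2

theorem AllG.zero {c : CD} {g : ℕ → ℕ → ℕ} {vs : ℕ → ℕ → Bool} : AllG c g vs 0 := by
  intro B hB
  exact absurd hB (Nat.not_lt_zero _)

theorem table_sound {c : CD} (hc : c.OK) {g : ℕ → ℕ → ℕ} {vs : ℕ → ℕ → Bool} {n : ℕ}
    (h : AllG c g vs n) (hn : c.q < 2 * n) {B C : ℤ}
    (hv : ∀ B' : ℕ, (B' : ZMod c.q) = B ∨ (B' : ZMod c.q) = -B → vs B' (res C c.q) = false) :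
    Ent c (g (res B c.q) (res C c.q)) B C := by
  intro hq
  have hq0 : 0 < c.q := Nat.pos_of_ne_zero hq.out
  have hp := hc.p128
  have hp0 := hc.pp.pos
  have cB := res_cast' B hq0
  have cC := res_cast' C hq0
  have lB := res_lt B hq0
  have lC := res_lt C hq0
  have hs : ((Nat.sub c.q (res C c.q) : ℕ) : ZMod c.q) = -(C : ZMod c.q) := by
    change ((c.q - res C c.q : ℕ) : ZMod c.q) = _
    rw [Nat.cast_sub lC.le, cC]
    simp
  have key : ∀ B' < n, vs B' (res C c.q) = false →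
      cmpE c.p (evalc c.q c.T B' (Nat.sub c.q (res C c.q)) c.tab) (g B' (res C c.q))
        (g (Nat.mod (Nat.sub c.q B') c.q) (res C c.q)) = true := by
    intro B' hB' hvs
    have h1 := h B' hB'
    unfold chkR at h1
    rw [allN_iff] at h1
    have h2 := h1 _ lC
    rw [hvs] at h2
    change force (evq c.q c.T B' (Nat.sub c.q (res C c.q)) (ofL c.tab)) _ = true at h2
    rw [force_eq, force_eq, force_eq, evq_eq] at h2
    exact h2
  rcases lt_or_ge (res B c.q) n with h1 | h1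
  · have h2 := key _ h1 (hv _ (Or.inl cB))
    obtain ⟨h3, h4⟩ := evalc_ent hc cB hs
    set v := evalc c.q c.T (res B c.q) (Nat.sub c.q (res C c.q)) c.tab
    set e := g (res B c.q) (res C c.q)
    unfold cmpE at h2
    simp only [cj_true] at h2
    obtain ⟨g1, g2, g3, g4⟩ := h2
    have g1' : v % 16777216 % c.p = e % 128 := Nat.eq_of_beq_eq_true g1
    have g2' : v / 281474976710656 % c.p = e / 128 := Nat.eq_of_beq_eq_true g2
    rw [← g1', ← g2', ZMod.natCast_mod, ZMod.natCast_mod]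
    exact ⟨h3, h4⟩
  · set B' := c.q - res B c.q with hB'
    have hB'n : B' < n := by omega
    have cB' : (B' : ZMod c.q) = -(B : ZMod c.q) := by
      rw [hB', Nat.cast_sub lB.le, cB]
      simp
    have h2 := key _ hB'n (hv _ (Or.inr cB'))
    obtain ⟨h3, h4⟩ := evalc_ent hc cB' hs
    have h5 : Nat.mod (Nat.sub c.q B') c.q = res B c.q := by
      change (c.q - B') % c.q = _
      rw [hB', Nat.sub_sub_self lB.le, Nat.mod_eq_of_lt lB]
    rw [h5] at h2
    set v := evalc c.q c.T B' (Nat.sub c.q (res C c.q)) c.tab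
    set e := g B' (res C c.q)
    set e' := g (res B c.q) (res C c.q)
    unfold cmpE at h2
    simp only [cj_true] at h2
    obtain ⟨g1, g2, g3, g4⟩ := h2
    have g1' : v % 16777216 % c.p = e % 128 := Nat.eq_of_beq_eq_true g1
    have g2' : v / 281474976710656 % c.p = e / 128 := Nat.eq_of_beq_eq_true g2
    have g3' : ((e % 128 + e' % 128 : ℕ) : ZMod c.p) = 0 := cast_zero_of_mod g3
    have g4' : e / 128 = e' / 128 := Nat.eq_of_beq_eq_true g4
    have h3' : ((v % 16777216 : ℕ) : ZMod c.p) = _ := h3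
    have h4' : ((v / 281474976710656 : ℕ) : ZMod c.p) = _ := h4
    rw [SE_neg] at h3'
    rw [SY_neg] at h4'
    rw [← ZMod.natCast_mod, g1'] at h3'
    rw [← ZMod.natCast_mod, g2', g4'] at h4'
    refine ⟨?_, h4'⟩
    rw [Nat.cast_add, h3'] at g3'
    linear_combination g3'

/-- entry of a table with two levels -/
def ent2 (n E l1 l2 : ℕ) (B C : ℕ) : ℕ :=
  sl n (sl (Nat.mul n (Nat.mul l2 l2)) E
    (Nat.mul 7 (Nat.add (Nat.mul (Nat.mod B l1) l1) (Nat.mod C l1))))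
    (Nat.mul 7 (Nat.add (Nat.mul (Nat.mod B l2) l2) (Nat.mod C l2)))

/-- entry of a table with three levels -/
def ent3 (n E l1 l2 l3 : ℕ) (B C : ℕ) : ℕ :=
  sl n (sl (Nat.mul n (Nat.mul l3 l3)) (sl (Nat.mul n (Nat.mul (Nat.mul l2 l2) (Nat.mul l3 l3))) E
    (Nat.mul 7 (Nat.add (Nat.mul (Nat.mod B l1) l1) (Nat.mod C l1))))
    (Nat.mul 7 (Nat.add (Nat.mul (Nat.mod B l2) l2) (Nat.mod C l2))))
    (Nat.mul 7 (Nat.add (Nat.mul (Nat.mod B l3) l3) (Nat.mod C l3)))

/-- local validity test; `true` if not valid -/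
def vt (l Q B C : ℕ) : Bool :=
  @Bool.rec (fun _ => Bool) (tb Q (Nat.mod (Nat.add (Nat.mul B B) (Nat.mul 4 C)) l))
    (or (Nat.beq (Nat.mod B 2) 0) (Nat.beq (Nat.mod C 2) 0)) (Nat.beq l 4)

theorem vt_false {l Q q : ℕ} (hl : 0 < l) (hlq : l ∣ q) (hQ : chkIq l Q = true) {B C : ℤ}
    (hV : V l B C) {B' C' : ℕ} (hB : (B' : ZMod q) = B ∨ (B' : ZMod q) = -B)
    (hC : (C' : ZMod q) = C) : vt l Q B' C' = false := by
  have hB1 : (l : ℤ) ∣ B' - B ∨ (l : ℤ) ∣ B' + B := by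
    rcases hB with hB | hB
    · left
      have : ((B' - B : ℤ) : ZMod q) = 0 := by push_cast; rw [hB]; ring
      rw [ZMod.intCast_zmod_eq_zero_iff_dvd] at this
      exact (Int.natCast_dvd_natCast.mpr hlq).trans this
    · right
      have : ((B' + B : ℤ) : ZMod q) = 0 := by push_cast; rw [hB]; ring
      rw [ZMod.intCast_zmod_eq_zero_iff_dvd] at this
      exact (Int.natCast_dvd_natCast.mpr hlq).trans this
  have hC1 : (l : ℤ) ∣ C' - C := by
    have : ((C' - C : ℤ) : ZMod q) = 0 := by push_cast; rw [hC]; ring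
    rw [ZMod.intCast_zmod_eq_zero_iff_dvd] at this
    exact (Int.natCast_dvd_natCast.mpr hlq).trans this
  unfold vt
  unfold V at hV
  by_cases h4 : l = 4
  · subst h4
    rw [if_pos rfl] at hV
    change or (Nat.beq (B' % 2) 0) (Nat.beq (C' % 2) 0) = false
    have e1 : B' % 2 = 1 := by
      rcases hB1 with hB1 | hB1 <;> omega
    have e2 : C' % 2 = 1 := by omega
    rw [e1, e2]; rfl
  · rw [if_neg h4] at hV
    have e : Nat.beq l 4 = false := Bool.eq_false_iff.mpr (fun h => h4 (Nat.eq_of_beq_eq_true h))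
    rw [e]
    change tb Q (Nat.mod (Nat.add (Nat.mul B' B') (Nat.mul 4 C')) l) = false
    by_contra hc
    have hc' := Bool.eq_true_of_not_eq_false hc
    have h2 := tb_square hl hQ hc'
    apply hV
    have h3 : ((Nat.add (Nat.mul B' B') (Nat.mul 4 C') : ℕ) : ZMod l) =
        ((B ^ 2 + 4 * C : ℤ) : ZMod l) := by
      change ((B' * B' + 4 * C' : ℕ) : ZMod l) = _
      have hC2 : (C' : ZMod l) = C := by
        have : ((C' - C : ℤ) : ZMod l) = 0 := (ZMod.intCast_zmod_eq_zero_iff_dvd _ _).mpr hC1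
        push_cast at this
        linear_combination this
      push_cast
      rw [hC2]
      rcases hB1 with hB1 | hB1
      · have : ((B' - B : ℤ) : ZMod l) = 0 := (ZMod.intCast_zmod_eq_zero_iff_dvd _ _).mpr hB1
        push_cast at this
        linear_combination ((B' : ZMod l) + B) * this
      · have : ((B' + B : ℤ) : ZMod l) = 0 := (ZMod.intCast_zmod_eq_zero_iff_dvd _ _).mpr hB1
        push_cast at this
        linear_combination ((B' : ZMod l) - B) * this
    rw [h3] at h2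
    exact h2

theorem res_mod (z : ℤ) {l q : ℕ} (hl : 0 < l) (hq : 0 < q) (h : l ∣ q) :
    Nat.mod (res z q) l = res z l := by
  apply mod_res hl
  exact res_cast z hq h

/-- two-level table -/
theorem tab2_sound {c : CD} (hc : c.OK) {n E l1 l2 Q1 Q2 m : ℕ} (h1 : 0 < l1) (h2 : 0 < l2)
    (d1 : l1 ∣ c.q) (d2 : l2 ∣ c.q) (hQ1 : chkIq l1 Q1 = true) (hQ2 : chkIq l2 Q2 = true)
    (h : AllG c (ent2 n E l1 l2) (fun B C => or (vt l1 Q1 B C) (vt l2 Q2 B C)) m)
    (hm : c.q < 2 * m) {B C : ℤ} (v1 : V l1 B C) (v2 : V l2 B C) :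
    Ent c (sl n (sl (n * (l2 * l2)) E (pk l1 B C)) (pk l2 B C)) B C := by
  have hq : 0 < c.q := by have := hc.q1; omega
  have h3 := table_sound hc h hm (B := B) (C := C) (by
    intro B' hB'
    rw [vt_false h1 d1 hQ1 v1 hB' (res_cast' C hq), vt_false h2 d2 hQ2 v2 hB' (res_cast' C hq)]
    rfl)
  have e : ent2 n E l1 l2 (res B c.q) (res C c.q) =
      sl n (sl (n * (l2 * l2)) E (pk l1 B C)) (pk l2 B C) := by
    unfold ent2 pk
    rw [res_mod B h1 hq d1, res_mod C h1 hq d1, res_mod B h2 hq d2, res_mod C h2 hq d2]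
    rfl
  rw [e] at h3
  exact h3

/-- three-level table -/
theorem tab3_sound {c : CD} (hc : c.OK) {n E l1 l2 l3 Q1 Q2 Q3 m : ℕ} (h1 : 0 < l1) (h2 : 0 < l2)
    (h3 : 0 < l3) (d1 : l1 ∣ c.q) (d2 : l2 ∣ c.q) (d3 : l3 ∣ c.q) (hQ1 : chkIq l1 Q1 = true)
    (hQ2 : chkIq l2 Q2 = true) (hQ3 : chkIq l3 Q3 = true)
    (h : AllG c (ent3 n E l1 l2 l3)
      (fun B C => or (vt l1 Q1 B C) (or (vt l2 Q2 B C) (vt l3 Q3 B C))) m)
    (hm : c.q < 2 * m) {B C : ℤ} (v1 : V l1 B C) (v2 : V l2 B C) (v3 : V l3 B C) :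
    Ent c (sl n (sl (n * (l3 * l3)) (sl (n * (l2 * l2 * (l3 * l3))) E (pk l1 B C)) (pk l2 B C))
      (pk l3 B C)) B C := by
  have hq : 0 < c.q := by have := hc.q1; omega
  have h5 := table_sound hc h hm (B := B) (C := C) (by
    intro B' hB'
    rw [vt_false h1 d1 hQ1 v1 hB' (res_cast' C hq), vt_false h2 d2 hQ2 v2 hB' (res_cast' C hq),
      vt_false h3 d3 hQ3 v3 hB' (res_cast' C hq)]
    rfl)
  have e : ent3 n E l1 l2 l3 (res B c.q) (res C c.q) =
      sl n (sl (n * (l3 * l3)) (sl (n * (l2 * l2 * (l3 * l3))) E (pk l1 B C)) (pk l2 B C))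
        (pk l3 B C) := by
    unfold ent3 pk
    rw [res_mod B h1 hq d1, res_mod C h1 hq d1, res_mod B h2 hq d2, res_mod C h2 hq d2,
      res_mod B h3 hq d3, res_mod C h3 hq d3]
    rfl
  rw [e] at h5
  exact h5

/-- check of a character table with two levels -/
def chkX2 (q T X l1 l2 : ℕ) : Bool :=
  allN q (fun x => Nat.beq (sl 1 (sl l2 X (Nat.mul 7 (Nat.mod x l1))) (Nat.mul 7 (Nat.mod x l2)))
    (look T x))

/-- check of a character table with three levels -/
def chkX3 (q T X l1 l2 l3 : ℕ) : Bool :=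
  allN q (fun x => Nat.beq (sl 1 (sl l3 (sl (Nat.mul l2 l3) X (Nat.mul 7 (Nat.mod x l1)))
    (Nat.mul 7 (Nat.mod x l2))) (Nat.mul 7 (Nat.mod x l3))) (look T x))

theorem chkX2_sound {c : CD} {X l1 l2 : ℕ} (h1 : 0 < l1) (h2 : 0 < l2) (d1 : l1 ∣ c.q)
    (d2 : l2 ∣ c.q) (h : chkX2 c.q c.T X l1 l2 = true) (x : ℤ) :
    Chv c (sl 1 (sl l2 X (7 * res x l1)) (7 * res x l2)) x := by
  intro hq
  have hq0 : 0 < c.q := Nat.pos_of_ne_zero hq.out
  unfold chkX2 at h
  rw [allN_iff] at h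
  have h3 := Nat.eq_of_beq_eq_true (h _ (res_lt x hq0))
  rw [res_mod x h1 hq0 d1, res_mod x h2 hq0 d2] at h3
  change ((sl 1 (sl l2 X (Nat.mul 7 (res x l1))) (Nat.mul 7 (res x l2)) : ℕ) : ZMod c.p) = _
  rw [h3, ← res_cast' x hq0]
  unfold chi
  rw [ZMod.val_natCast, Nat.mod_eq_of_lt (res_lt x hq0)]

theorem chkX3_sound {c : CD} {X l1 l2 l3 : ℕ} (h1 : 0 < l1) (h2 : 0 < l2) (h3 : 0 < l3)
    (d1 : l1 ∣ c.q) (d2 : l2 ∣ c.q) (d3 : l3 ∣ c.q) (h : chkX3 c.q c.T X l1 l2 l3 = true) (x : ℤ) :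
    Chv c (sl 1 (sl l3 (sl (l2 * l3) X (7 * res x l1)) (7 * res x l2)) (7 * res x l3)) x := by
  intro hq
  have hq0 : 0 < c.q := Nat.pos_of_ne_zero hq.out
  unfold chkX3 at h
  rw [allN_iff] at h
  have h5 := Nat.eq_of_beq_eq_true (h _ (res_lt x hq0))
  rw [res_mod x h1 hq0 d1, res_mod x h2 hq0 d2, res_mod x h3 hq0 d3] at h5
  change ((sl 1 (sl l3 (sl (Nat.mul l2 l3) X (Nat.mul 7 (res x l1))) (Nat.mul 7 (res x l2)))
    (Nat.mul 7 (res x l3)) : ℕ) : ZMod c.p) = _
  rw [h5, ← res_cast' x hq0]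
  unfold chi
  rw [ZMod.val_natCast, Nat.mod_eq_of_lt (res_lt x hq0)]

/-- idempotents -/
def idem (l1 e1 l2 e2 q : ℕ) : Bool :=
  cj (Nat.beq (Nat.mul l1 l2) q) (cj (Nat.beq (Nat.gcd l1 l2) 1)
    (cj (Nat.beq (Nat.mod e1 l1) 1) (cj (Nat.beq (Nat.mod e1 l2) 0)
    (cj (Nat.beq (Nat.mod e2 l1) 0) (Nat.beq (Nat.mod e2 l2) 1)))))

theorem idem_sound {l1 e1 l2 e2 q : ℕ} (h : idem l1 e1 l2 e2 q = true) (x : ℤ) (h1 : 0 < l1)
    (h2 : 0 < l2) : ((res x l1 * e1 + res x l2 * e2 : ℕ) : ZMod q) = x := by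
  unfold idem at h
  simp only [cj_true] at h
  obtain ⟨a1, a2, a3, a4, a5, a6⟩ := h
  have a1' : l1 * l2 = q := Nat.eq_of_beq_eq_true a1
  have a2' : Nat.gcd l1 l2 = 1 := Nat.eq_of_beq_eq_true a2
  have a3' : e1 % l1 = 1 := Nat.eq_of_beq_eq_true a3
  have a4' : e1 % l2 = 0 := Nat.eq_of_beq_eq_true a4
  have a5' : e2 % l1 = 0 := Nat.eq_of_beq_eq_true a5
  have a6' : e2 % l2 = 1 := Nat.eq_of_beq_eq_true a6
  have c1 : (e1 : ZMod l1) = 1 := by
    rw [← ZMod.natCast_mod, a3']; simp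
  have c2 : (e1 : ZMod l2) = 0 := by
    rw [← ZMod.natCast_mod, a4']; simp
  have c3 : (e2 : ZMod l1) = 0 := by
    rw [← ZMod.natCast_mod, a5']; simp
  have c4 : (e2 : ZMod l2) = 1 := by
    rw [← ZMod.natCast_mod, a6']; simp
  have k1 : (l1 : ℤ) ∣ (res x l1 * e1 + res x l2 * e2 : ℕ) - x := by
    rw [← ZMod.intCast_zmod_eq_zero_iff_dvd]
    push_cast
    rw [c1, c3, res_cast' x h1]
    ring
  have k2 : (l2 : ℤ) ∣ (res x l1 * e1 + res x l2 * e2 : ℕ) - x := by
    rw [← ZMod.intCast_zmod_eq_zero_iff_dvd]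
    push_cast
    rw [c2, c4, res_cast' x h2]
    ring
  have k3 : ((q : ℕ) : ℤ) ∣ (res x l1 * e1 + res x l2 * e2 : ℕ) - x := by
    rw [← a1', Nat.cast_mul]
    exact IsCoprime.mul_dvd (Nat.isCoprime_iff_coprime.mpr a2') k1 k2
  rw [← ZMod.intCast_zmod_eq_zero_iff_dvd] at k3
  push_cast at k3 ⊢
  linear_combination k3

theorem pk_div {l : ℕ} (hl : 0 < l) (B C : ℤ) : Nat.div (pk l B C) 7 = res B l * l + res C l := by
  unfold pk
  exact Nat.mul_div_cancel_left _ (by norm_num)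

theorem evD_sound {c : CD} (hc : c.OK) {l1 e1 l2 e2 : ℕ} (h1 : 0 < l1) (h2 : 0 < l2)
    (h : idem l1 e1 l2 e2 c.q = true) (B C : ℤ) :
    Ent c (evD c l1 e1 l2 e2 (pk l1 B C) (pk l2 B C)) B C := by
  unfold evD
  rw [force_eq, force_eq, pk_div h1, pk_div h2]
  have d : ∀ l : ℕ, 0 < l → (res B l * l + res C l) / l = res B l := by
    intro l hl
    rw [mul_comm, Nat.mul_add_div hl, Nat.div_eq_of_lt (res_lt C hl), add_zero]
  have m : ∀ l : ℕ, 0 < l → (res B l * l + res C l) % l = res C l := by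
    intro l hl
    rw [mul_comm, Nat.mul_add_mod, Nat.mod_eq_of_lt (res_lt C hl)]
  have d1 : Nat.div (res B l1 * l1 + res C l1) l1 = res B l1 := d l1 h1
  have d2 : Nat.div (res B l2 * l2 + res C l2) l2 = res B l2 := d l2 h2
  have m1 : Nat.mod (res B l1 * l1 + res C l1) l1 = res C l1 := m l1 h1
  have m2 : Nat.mod (res B l2 * l2 + res C l2) l2 = res C l2 := m l2 h2
  rw [d1, d2, m1, m2]
  exact evB_sound hc (idem_sound h B h1 h2) (idem_sound h C h1 h2)

theorem chD_sound {c : CD} {l1 e1 l2 e2 : ℕ} (h1 : 0 < l1) (h2 : 0 < l2)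
    (h : idem l1 e1 l2 e2 c.q = true) (x : ℤ) :
    Chv c (chD c e1 e2 (7 * res x l1) (7 * res x l2)) x := by
  intro hq
  have hq0 : 0 < c.q := Nat.pos_of_ne_zero hq.out
  unfold chD
  have d1 : Nat.div (7 * res x l1) 7 = res x l1 := Nat.mul_div_cancel_left _ (by norm_num)
  have d2 : Nat.div (7 * res x l2) 7 = res x l2 := Nat.mul_div_cancel_left _ (by norm_num)
  rw [d1, d2]
  have h3 := idem_sound h x h1 h2
  rw [← h3]
  unfold chi
  rw [ZMod.val_natCast]
  rfl

end Pool.Agent.N911
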