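import Pool.Agent.N911.K2
import Pool.Agent.N911.K6
import Pool.Agent.N911.D2
import Pool.Agent.H419R2.F1
import Pool.Agent.H419R2.F5

/-! Checks of tables. -/

set_option maxRecDepth 100000

namespace Pool.Agent.N911

open H419R2

theorem ck_111_0_0 : chkG c111_19_0 (ent2 2 E111_0 37 3)
    (fun B C => or (vt 37 Q37 B C) (vt 3 Q3 B C)) 0 56 = true := by decide +kernel
theorem ck_185_1 : chkG c185_13 (ent2 2 E185 37 5)
    (fun B C => or (vt 37 Q37 B C) (vt 5 Q5 B C)) 51 42 = true := by decide +kernel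
theorem ck_259_1_2 : chkG c259_19_1 (ent2 2 E259_1 37 7)
    (fun B C => or (vt 37 Q37 B C) (vt 7 Q7 B C)) 50 25 = true := by decide +kernel

end Pool.Agent.N911
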