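import Pool.Agent.N911.K2
import Pool.Agent.N911.K6
import Pool.Agent.N911.D2
import Pool.Agent.N911.D3
import Pool.Agent.H419R2.F4

/-! Checks of tables. -/

set_option maxRecDepth 100000

namespace Pool.Agent.N911

open H419R2

theorem ck_228_1 : chkG c228_7 (ent3 1 E228 19 3 4)
    (fun B C => or (vt 19 Q19 B C) (or (vt 3 Q3 B C) (vt 4 3 B C))) 97 18 = true := by decide +kernel
theorem ck_259_0_4 : chkG c259_19_0 (ent2 2 E259_0 37 7)
    (fun B C => or (vt 37 Q37 B C) (vt 7 Q7 B C)) 100 25 = true := by decide +kernel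
theorem ck_259_0_5 : chkG c259_19_0 (ent2 2 E259_0 37 7)
    (fun B C => or (vt 37 Q37 B C) (vt 7 Q7 B C)) 125 5 = true := by decide +kernel
theorem ck_259_2_2 : chkG c259_19_2 (ent2 1 E259_2 37 7)
    (fun B C => or (vt 37 Q37 B C) (vt 7 Q7 B C)) 50 25 = true := by decide +kernel

end Pool.Agent.N911
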