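import Pool.Agent.N911.T1
import Pool.Agent.N911.T2
import Pool.Agent.N911.T3
import Pool.Agent.N911.T4
import Pool.Agent.N911.T5
import Pool.Agent.N911.T6
import Pool.Agent.N911.T7
import Pool.Agent.N911.T8
import Pool.Agent.N911.T9
import Pool.Agent.N911.T10
import Pool.Agent.N911.D1
import Pool.Agent.N911.D3
import Pool.Agent.H419R2.F6
import Pool.Agent.H419R2.F1
import Pool.Agent.H419R2.F2
import Pool.Agent.H419R2.F3
import Pool.Agent.H419R2.F4
import Pool.Agent.H419R2.F5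

/-! Tables of sums. -/

set_option maxRecDepth 100000

namespace Pool.Agent.N911

open H419R2

theorem iq3 : chkIq 3 Q3 = true := by decide +kernel
theorem ci3 : chkI 3 I3 = true := by decide +kernel
theorem iq5 : chkIq 5 Q5 = true := by decide +kernel
theorem ci5 : chkI 5 I5 = true := by decide +kernel
theorem iq7 : chkIq 7 Q7 = true := by decide +kernel
theorem ci7 : chkI 7 I7 = true := by decide +kernel
theorem iq13 : chkIq 13 Q13 = true := by decide +kernel
theorem ci13 : chkI 13 I13 = true := by decide +kernel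
theorem iq19 : chkIq 19 Q19 = true := by decide +kernel
theorem ci19 : chkI 19 I19 = true := by decide +kernel
theorem iq37 : chkIq 37 Q37 = true := by decide +kernel
theorem ci37 : chkI 37 I37 = true := by decide +kernel
theorem iq73 : chkIq 73 Q73 = true := by decide +kernel
theorem ci73 : chkI 73 I73 = true := by decide +kernel
theorem iq4 : chkIq 4 3 = true := by decide +kernel
theorem ci4 : chkI 4 I4 = true := by decide +kernel
theorem all_148_7 : AllG c148_7 (ent2 1 E148_7 37 4)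
    (fun B C => or (vt 37 Q37 B C) (vt 4 3 B C)) 75 :=
  (AllG.zero.step ck_148_7_0 rfl)
theorem tab_148_7 {B C : ℤ} (v37 : V 37 B C) (v4 : V 4 B C) :
    Ent c148_7 (sl1 (sl 16 E148_7 (pk 37 B C)) (pk 4 B C)) B C := by
  rw [sl1_eq]
  exact tab2_sound c148_7_ok (by norm_num) (by norm_num) (by decide) (by decide) iq37 iq4 all_148_7 (by decide) v37 v4
theorem cx_148_7 : chkX2 c148_7.q c148_7.T X148_7 37 4 = true := by decide +kernel
theorem chv_148_7 (x : ℤ) : Chv c148_7 (sl1 (sl 4 X148_7 (7 * res x 37)) (7 * res x 4)) x := by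
  rw [sl1_eq]
  exact chkX2_sound (by norm_num) (by norm_num) (by decide) (by decide) cx_148_7 x
theorem all_148_19 : AllG c148_19 (ent2 1 E148_19 37 4)
    (fun B C => or (vt 37 Q37 B C) (vt 4 3 B C)) 75 :=
  (AllG.zero.step ck_148_19_0 rfl)
theorem tab_148_19 {B C : ℤ} (v37 : V 37 B C) (v4 : V 4 B C) :
    Ent c148_19 (sl1 (sl 16 E148_19 (pk 37 B C)) (pk 4 B C)) B C := by
  rw [sl1_eq]
  exact tab2_sound c148_19_ok (by norm_num) (by norm_num) (by decide) (by decide) iq37 iq4 all_148_19 (by decide) v37 v4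
theorem cx_148_19 : chkX2 c148_19.q c148_19.T X148_19 37 4 = true := by decide +kernel
theorem chv_148_19 (x : ℤ) : Chv c148_19 (sl1 (sl 4 X148_19 (7 * res x 37)) (7 * res x 4)) x := by
  rw [sl1_eq]
  exact chkX2_sound (by norm_num) (by norm_num) (by decide) (by decide) cx_148_19 x
theorem all_259_0 : AllG c259_19_0 (ent2 2 E259_0 37 7)
    (fun B C => or (vt 37 Q37 B C) (vt 7 Q7 B C)) 130 :=
  ((((((AllG.zero.step ck_259_0_0 rfl).step ck_259_0_1 rfl).step ck_259_0_2 rfl).step ck_259_0_3 rfl).step ck_259_0_4 rfl).step ck_259_0_5 rfl)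
theorem tab_259_0 {B C : ℤ} (v37 : V 37 B C) (v7 : V 7 B C) :
    Ent c259_19_0 (sl2 (sl 98 E259_0 (pk 37 B C)) (pk 7 B C)) B C := by
  rw [sl2_eq]
  exact tab2_sound c259_19_0_ok (by norm_num) (by norm_num) (by decide) (by decide) iq37 iq7 all_259_0 (by decide) v37 v7
theorem cx_259_0 : chkX2 c259_19_0.q c259_19_0.T X259_0 37 7 = true := by decide +kernel
theorem chv_259_0 (x : ℤ) : Chv c259_19_0 (sl1 (sl 7 X259_0 (7 * res x 37)) (7 * res x 7)) x := by
  rw [sl1_eq]
  exact chkX2_sound (by norm_num) (by norm_num) (by decide) (by decide) cx_259_0 x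
theorem all_259_1 : AllG c259_19_1 (ent2 2 E259_1 37 7)
    (fun B C => or (vt 37 Q37 B C) (vt 7 Q7 B C)) 130 :=
  ((((((AllG.zero.step ck_259_1_0 rfl).step ck_259_1_1 rfl).step ck_259_1_2 rfl).step ck_259_1_3 rfl).step ck_259_1_4 rfl).step ck_259_1_5 rfl)
theorem tab_259_1 {B C : ℤ} (v37 : V 37 B C) (v7 : V 7 B C) :
    Ent c259_19_1 (sl2 (sl 98 E259_1 (pk 37 B C)) (pk 7 B C)) B C := by
  rw [sl2_eq]
  exact tab2_sound c259_19_1_ok (by norm_num) (by norm_num) (by decide) (by decide) iq37 iq7 all_259_1 (by decide) v37 v7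
theorem cx_259_1 : chkX2 c259_19_1.q c259_19_1.T X259_1 37 7 = true := by decide +kernel
theorem chv_259_1 (x : ℤ) : Chv c259_19_1 (sl1 (sl 7 X259_1 (7 * res x 37)) (7 * res x 7)) x := by
  rw [sl1_eq]
  exact chkX2_sound (by norm_num) (by norm_num) (by decide) (by decide) cx_259_1 x
theorem all_259_2 : AllG c259_19_2 (ent2 1 E259_2 37 7)
    (fun B C => or (vt 37 Q37 B C) (vt 7 Q7 B C)) 130 :=
  ((((((AllG.zero.step ck_259_2_0 rfl).step ck_259_2_1 rfl).step ck_259_2_2 rfl).step ck_259_2_3 rfl).step ck_259_2_4 rfl).step ck_259_2_5 rfl)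
theorem tab_259_2 {B C : ℤ} (v37 : V 37 B C) (v7 : V 7 B C) :
    Ent c259_19_2 (sl1 (sl 49 E259_2 (pk 37 B C)) (pk 7 B C)) B C := by
  rw [sl1_eq]
  exact tab2_sound c259_19_2_ok (by norm_num) (by norm_num) (by decide) (by decide) iq37 iq7 all_259_2 (by decide) v37 v7
theorem cx_259_2 : chkX2 c259_19_2.q c259_19_2.T X259_2 37 7 = true := by decide +kernel
theorem chv_259_2 (x : ℤ) : Chv c259_19_2 (sl1 (sl 7 X259_2 (7 * res x 37)) (7 * res x 7)) x := by
  rw [sl1_eq]
  exact chkX2_sound (by norm_num) (by norm_num) (by decide) (by decide) cx_259_2 x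
theorem all_133_37 : AllG c133_37 (ent2 2 E133_37 7 19)
    (fun B C => or (vt 7 Q7 B C) (vt 19 Q19 B C)) 67 :=
  (AllG.zero.step ck_133_37_0 rfl)
theorem tab_133_37 {B C : ℤ} (v7 : V 7 B C) (v19 : V 19 B C) :
    Ent c133_37 (sl2 (sl 722 E133_37 (pk 7 B C)) (pk 19 B C)) B C := by
  rw [sl2_eq]
  exact tab2_sound c133_37_ok (by norm_num) (by norm_num) (by decide) (by decide) iq7 iq19 all_133_37 (by decide) v7 v19
theorem cx_133_37 : chkX2 c133_37.q c133_37.T X133_37 7 19 = true := by decide +kernel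
theorem chv_133_37 (x : ℤ) : Chv c133_37 (sl1 (sl 19 X133_37 (7 * res x 7)) (7 * res x 19)) x := by
  rw [sl1_eq]
  exact chkX2_sound (by norm_num) (by norm_num) (by decide) (by decide) cx_133_37 x
theorem all_111_0 : AllG c111_19_0 (ent2 2 E111_0 37 3)
    (fun B C => or (vt 37 Q37 B C) (vt 3 Q3 B C)) 56 :=
  (AllG.zero.step ck_111_0_0 rfl)
theorem tab_111_0 {B C : ℤ} (v37 : V 37 B C) (v3 : V 3 B C) :
    Ent c111_19_0 (sl2 (sl 18 E111_0 (pk 37 B C)) (pk 3 B C)) B C := by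
  rw [sl2_eq]
  exact tab2_sound c111_19_0_ok (by norm_num) (by norm_num) (by decide) (by decide) iq37 iq3 all_111_0 (by decide) v37 v3
theorem cx_111_0 : chkX2 c111_19_0.q c111_19_0.T X111_0 37 3 = true := by decide +kernel
theorem chv_111_0 (x : ℤ) : Chv c111_19_0 (sl1 (sl 3 X111_0 (7 * res x 37)) (7 * res x 3)) x := by
  rw [sl1_eq]
  exact chkX2_sound (by norm_num) (by norm_num) (by decide) (by decide) cx_111_0 x
theorem all_111_1 : AllG c111_19_1 (ent2 2 E111_1 37 3)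
    (fun B C => or (vt 37 Q37 B C) (vt 3 Q3 B C)) 56 :=
  (AllG.zero.step ck_111_1_0 rfl)
theorem tab_111_1 {B C : ℤ} (v37 : V 37 B C) (v3 : V 3 B C) :
    Ent c111_19_1 (sl2 (sl 18 E111_1 (pk 37 B C)) (pk 3 B C)) B C := by
  rw [sl2_eq]
  exact tab2_sound c111_19_1_ok (by norm_num) (by norm_num) (by decide) (by decide) iq37 iq3 all_111_1 (by decide) v37 v3
theorem cx_111_1 : chkX2 c111_19_1.q c111_19_1.T X111_1 37 3 = true := by decide +kernel
theorem chv_111_1 (x : ℤ) : Chv c111_19_1 (sl1 (sl 3 X111_1 (7 * res x 37)) (7 * res x 3)) x := by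
  rw [sl1_eq]
  exact chkX2_sound (by norm_num) (by norm_num) (by decide) (by decide) cx_111_1 x
theorem all_228 : AllG c228_7 (ent3 1 E228 19 3 4)
    (fun B C => or (vt 19 Q19 B C) (or (vt 3 Q3 B C) (vt 4 3 B C))) 115 :=
  ((AllG.zero.step ck_228_0 rfl).step ck_228_1 rfl)
theorem tab_228 {B C : ℤ} (v19 : V 19 B C) (v3 : V 3 B C) (v4 : V 4 B C) :
    Ent c228_7 (sl1 (sl 16 (sl 144 E228 (pk 19 B C)) (pk 3 B C)) (pk 4 B C)) B C := by
  rw [sl1_eq]
  exact tab3_sound c228_7_ok (by norm_num) (by norm_num) (by norm_num) (by decide) (by decide) (by decide) iq19 iq3 iq4 all_228 (by decide) v19 v3 v4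
theorem cx_228 : chkX3 c228_7.q c228_7.T X228 19 3 4 = true := by decide +kernel
theorem chv_228 (x : ℤ) : Chv c228_7 (sl1 (sl 4 (sl 12 X228 (7 * res x 19)) (7 * res x 3)) (7 * res x 4)) x := by
  rw [sl1_eq]
  exact chkX3_sound (by norm_num) (by norm_num) (by norm_num) (by decide) (by decide) (by decide) cx_228 x
theorem all_140 : AllG c140_13 (ent3 1 E140 7 4 5)
    (fun B C => or (vt 7 Q7 B C) (or (vt 4 3 B C) (vt 5 Q5 B C))) 71 :=
  (AllG.zero.step ck_140_0 rfl)
theorem tab_140 {B C : ℤ} (v7 : V 7 B C) (v4 : V 4 B C) (v5 : V 5 B C) :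
    Ent c140_13 (sl1 (sl 25 (sl 400 E140 (pk 7 B C)) (pk 4 B C)) (pk 5 B C)) B C := by
  rw [sl1_eq]
  exact tab3_sound c140_13_ok (by norm_num) (by norm_num) (by norm_num) (by decide) (by decide) (by decide) iq7 iq4 iq5 all_140 (by decide) v7 v4 v5
theorem cx_140 : chkX3 c140_13.q c140_13.T X140 7 4 5 = true := by decide +kernel
theorem chv_140 (x : ℤ) : Chv c140_13 (sl1 (sl 5 (sl 20 X140 (7 * res x 7)) (7 * res x 4)) (7 * res x 5)) x := by
  rw [sl1_eq]
  exact chkX3_sound (by norm_num) (by norm_num) (by norm_num) (by decide) (by decide) (by decide) cx_140 x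
theorem all_95 : AllG c95_13 (ent2 2 E95 19 5)
    (fun B C => or (vt 19 Q19 B C) (vt 5 Q5 B C)) 48 :=
  (AllG.zero.step ck_95_0 rfl)
theorem tab_95 {B C : ℤ} (v19 : V 19 B C) (v5 : V 5 B C) :
    Ent c95_13 (sl2 (sl 50 E95 (pk 19 B C)) (pk 5 B C)) B C := by
  rw [sl2_eq]
  exact tab2_sound c95_13_ok (by norm_num) (by norm_num) (by decide) (by decide) iq19 iq5 all_95 (by decide) v19 v5
theorem cx_95 : chkX2 c95_13.q c95_13.T X95 19 5 = true := by decide +kernel
theorem chv_95 (x : ℤ) : Chv c95_13 (sl1 (sl 5 X95 (7 * res x 19)) (7 * res x 5)) x := by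
  rw [sl1_eq]
  exact chkX2_sound (by norm_num) (by norm_num) (by decide) (by decide) cx_95 x
theorem all_105 : AllG c105_13 (ent3 2 E105 7 3 5)
    (fun B C => or (vt 7 Q7 B C) (or (vt 3 Q3 B C) (vt 5 Q5 B C))) 53 :=
  (AllG.zero.step ck_105_0 rfl)
theorem tab_105 {B C : ℤ} (v7 : V 7 B C) (v3 : V 3 B C) (v5 : V 5 B C) :
    Ent c105_13 (sl2 (sl 50 (sl 450 E105 (pk 7 B C)) (pk 3 B C)) (pk 5 B C)) B C := by
  rw [sl2_eq]
  exact tab3_sound c105_13_ok (by norm_num) (by norm_num) (by norm_num) (by decide) (by decide) (by decide) iq7 iq3 iq5 all_105 (by decide) v7 v3 v5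
theorem cx_105 : chkX3 c105_13.q c105_13.T X105 7 3 5 = true := by decide +kernel
theorem chv_105 (x : ℤ) : Chv c105_13 (sl1 (sl 5 (sl 15 X105 (7 * res x 7)) (7 * res x 3)) (7 * res x 5)) x := by
  rw [sl1_eq]
  exact chkX3_sound (by norm_num) (by norm_num) (by norm_num) (by decide) (by decide) (by decide) cx_105 x
theorem all_185 : AllG c185_13 (ent2 2 E185 37 5)
    (fun B C => or (vt 37 Q37 B C) (vt 5 Q5 B C)) 93 :=
  ((AllG.zero.step ck_185_0 rfl).step ck_185_1 rfl)
theorem tab_185 {B C : ℤ} (v37 : V 37 B C) (v5 : V 5 B C) :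
    Ent c185_13 (sl2 (sl 50 E185 (pk 37 B C)) (pk 5 B C)) B C := by
  rw [sl2_eq]
  exact tab2_sound c185_13_ok (by norm_num) (by norm_num) (by decide) (by decide) iq37 iq5 all_185 (by decide) v37 v5
theorem cx_185 : chkX2 c185_13.q c185_13.T X185 37 5 = true := by decide +kernel
theorem chv_185 (x : ℤ) : Chv c185_13 (sl1 (sl 5 X185 (7 * res x 37)) (7 * res x 5)) x := by
  rw [sl1_eq]
  exact chkX2_sound (by norm_num) (by norm_num) (by decide) (by decide) cx_185 x
theorem all_133_13 : AllG c133_13 (ent2 2 E133_13 7 19)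
    (fun B C => or (vt 7 Q7 B C) (vt 19 Q19 B C)) 67 :=
  (AllG.zero.step ck_133_13_0 rfl)
theorem tab_133_13 {B C : ℤ} (v7 : V 7 B C) (v19 : V 19 B C) :
    Ent c133_13 (sl2 (sl 722 E133_13 (pk 7 B C)) (pk 19 B C)) B C := by
  rw [sl2_eq]
  exact tab2_sound c133_13_ok (by norm_num) (by norm_num) (by decide) (by decide) iq7 iq19 all_133_13 (by decide) v7 v19
theorem cx_133_13 : chkX2 c133_13.q c133_13.T X133_13 7 19 = true := by decide +kernel
theorem chv_133_13 (x : ℤ) : Chv c133_13 (sl1 (sl 19 X133_13 (7 * res x 7)) (7 * res x 19)) x := by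
  rw [sl1_eq]
  exact chkX2_sound (by norm_num) (by norm_num) (by decide) (by decide) cx_133_13 x
theorem all_91 : AllG c91_37 (ent2 2 E91 7 13)
    (fun B C => or (vt 7 Q7 B C) (vt 13 Q13 B C)) 46 :=
  (AllG.zero.step ck_91_0 rfl)
theorem tab_91 {B C : ℤ} (v7 : V 7 B C) (v13 : V 13 B C) :
    Ent c91_37 (sl2 (sl 338 E91 (pk 7 B C)) (pk 13 B C)) B C := by
  rw [sl2_eq]
  exact tab2_sound c91_37_ok (by norm_num) (by norm_num) (by decide) (by decide) iq7 iq13 all_91 (by decide) v7 v13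
theorem cx_91 : chkX2 c91_37.q c91_37.T X91 7 13 = true := by decide +kernel
theorem chv_91 (x : ℤ) : Chv c91_37 (sl1 (sl 13 X91 (7 * res x 7)) (7 * res x 13)) x := by
  rw [sl1_eq]
  exact chkX2_sound (by norm_num) (by norm_num) (by decide) (by decide) cx_91 x

end Pool.Agent.N911
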