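import Pool.Agent.N911.K1

/-! Soundness of the elementary checks. -/

namespace Pool.Agent.N911

open H419R2 Finset

theorem imp_true {c x : Bool} (h : imp c x = true) (hc : c = true) : x = true := by
  subst hc; exact h

theorem cj_true {c x : Bool} : cj c x = true ↔ c = true ∧ x = true := by
  cases c <;> cases x <;> simp [cj]

theorem allN_iff (n : ℕ) (f : ℕ → Bool) : allN n f = true ↔ ∀ i < n, f i = true := by
  induction n with
  | zero => simp [allN]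
  | succ n ih =>
    have : allN (n + 1) f = cj (f n) (allN n f) := rfl
    rw [this, cj_true, ih]
    constructor
    · rintro ⟨h1, h2⟩ i hi
      rcases Nat.lt_succ_iff_lt_or_eq.mp hi with h | h
      · exact h2 i h
      · rw [h]; exact h1
    · intro h
      exact ⟨h n (Nat.lt_succ_self n), fun i hi => h i (Nat.lt_succ_of_lt hi)⟩

theorem sl1_eq (E p : ℕ) : sl1 E p = sl 1 E p := by
  unfold sl1 sl
  change (E >>> p) % 128 = (E >>> (1 * p)) % (2 ^ (7 * 1))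
  rw [one_mul]; rfl

theorem sl2_eq (E p : ℕ) : sl2 E p = sl 2 E p := by
  unfold sl2 sl
  change (E >>> (p + p)) % 16384 = (E >>> (2 * p)) % (2 ^ (7 * 2))
  rw [two_mul]; rfl

theorem sl1_lt (E p : ℕ) : sl1 E p < 128 := Nat.mod_lt _ (by norm_num)

/-! ### Residues -/

theorem res_cast' (z : ℤ) {M : ℕ} (hM : 0 < M) : ((res z M : ℕ) : ZMod M) = z :=
  res_cast z hM dvd_rfl

theorem res_unique {n M : ℕ} {z : ℤ} (h : n < M) (h2 : (n : ZMod M) = (z : ZMod M)) :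
    n = res z M := by
  have hM : 0 < M := by omega
  have h3 : ((n : ℕ) : ZMod M) = ((res z M : ℕ) : ZMod M) := by rw [h2, res_cast' z hM]
  rw [ZMod.natCast_eq_natCast_iff', Nat.mod_eq_of_lt h, Nat.mod_eq_of_lt (res_lt z hM)] at h3
  exact h3

theorem mod_res {X M : ℕ} {z : ℤ} (hM : 0 < M) (h : ((X : ℕ) : ZMod M) = (z : ZMod M)) :
    Nat.mod X M = res z M := by
  apply res_unique (Nat.mod_lt _ hM)
  change ((X % M : ℕ) : ZMod M) = _
  rw [ZMod.natCast_mod, h]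

theorem beq_mod {X M : ℕ} (h : ((X : ℕ) : ZMod M) = 0) : Nat.beq (Nat.mod X M) 0 = true := by
  rw [ZMod.natCast_eq_zero_iff] at h
  have h3 : X % M = 0 := Nat.mod_eq_zero_of_dvd h
  change Nat.beq (X % M) 0 = true
  rw [h3]; rfl

/-! ### Integer data -/

/-- integer data -/
structure Dat where
  t : ℤ
  P : ℤ
  a : ℤ
  b : ℤ
  Pi : ℤ
  Ri : ℤ

/-- second middle coefficient -/
def Dat.B1 (z : Dat) : ℤ := 2 * z.a * z.P - z.t
/-- second norm -/
def Dat.R (z : Dat) : ℤ := 1 + z.a * z.t - z.a ^ 2 * z.P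
/-- third middle coefficient -/
def Dat.B2 (z : Dat) : ℤ := 2 * z.b * z.R - z.B1

/-- validity of a form -/
def V (l : ℕ) (B C : ℤ) : Prop :=
  if l = 4 then B % 2 = 1 ∧ C % 2 = 1 else ¬ IsSquare (((B ^ 2 + 4 * C : ℤ)) : ZMod l)

/-- index of a form -/
def pk (l : ℕ) (B C : ℤ) : ℕ := 7 * (res B l * l + res C l)

/-- the two sums -/
def Ent (c : CD) (e : ℕ) (B C : ℤ) : Prop :=
  ∀ _ : NeZero c.q, ((e % 128 : ℕ) : ZMod c.p) = 6 * SE (chi c.q c.p c.T) 1 (B : ZMod c.q) C ∧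
    ((e / 128 : ℕ) : ZMod c.p) = SY (chi c.q c.p c.T) 1 (B : ZMod c.q) C

/-- value of the character -/
def Chv (c : CD) (v : ℕ) (x : ℤ) : Prop :=
  ∀ _ : NeZero c.q, ((v : ℕ) : ZMod c.p) = chi c.q c.p c.T (x : ZMod c.q)

/-- normalized relation -/
def NRel (c : CD) (z : Dat) : Prop :=
  ∀ e0 e1 e2 cP cR : ℕ, Ent c e0 z.t z.P → Ent c e1 (z.B1 * z.Pi) (z.R * z.Pi) →
    Ent c e2 (z.B2 * z.Ri) 1 → Chv c cP z.P → Chv c cR z.R →
    (2 * (((e0 % 128 : ℕ) : ZMod c.p) + z.t * ((e0 / 128 : ℕ) : ZMod c.p) + cP *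
      (((e1 % 128 : ℕ) : ZMod c.p) + 2 * z.a * ((e1 / 128 : ℕ) : ZMod c.p))) +
      cR * (((e2 % 128 : ℕ) : ZMod c.p) + 4 * z.b * ((e2 / 128 : ℕ) : ZMod c.p))) = 0

section scale

variable {N : ℕ} [NeZero N] {M : Type*} [CommRing M]

theorem SE_scale {χ : ZMod N → M} (hmul : ∀ x y, χ (x * y) = χ x * χ y) {A B C Ai : ZMod N}
    (h : A * Ai = 1) : SE χ A B C = χ A * SE χ 1 (B * Ai) (C * Ai) := by
  unfold SE
  rw [Finset.mul_sum]
  apply Finset.sum_congr rfl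
  intro x _
  rw [Finset.mul_sum]
  apply Finset.sum_congr rfl
  intro y _
  have : A * x ^ 2 + B * (x * y) - C * y ^ 2 =
      A * (1 * x ^ 2 + B * Ai * (x * y) - C * Ai * y ^ 2) := by
    linear_combination -(B * x * y - C * y ^ 2) * h
  rw [this, hmul]
  ring

theorem SY_scale {χ : ZMod N → M} (hmul : ∀ x y, χ (x * y) = χ x * χ y) {A B C Ai : ZMod N}
    (h : A * Ai = 1) : SY χ A B C = χ A * SY χ 1 (B * Ai) (C * Ai) := by
  unfold SY
  rw [Finset.mul_sum]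
  apply Finset.sum_congr rfl
  intro x _
  rw [Finset.mul_sum]
  apply Finset.sum_congr rfl
  intro y _
  have : A * x ^ 2 + B * (x * y) - C * y ^ 2 =
      A * (1 * x ^ 2 + B * Ai * (x * y) - C * Ai * y ^ 2) := by
    linear_combination -(B * x * y - C * y ^ 2) * h
  rw [this, hmul]
  ring

theorem wE_neg (x y : ZMod N) : wE x (-y) = -wE x y := by
  unfold wE
  by_cases hy : y = 0
  · subst hy; simp
  · have h : NeZero y := ⟨hy⟩
    have h1 : (-y).val = N - y.val := ZMod.val_neg_of_ne_zero y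
    have h2 : (((-y).val : ℕ) : ℤ) = N - y.val := by
      rw [h1, Nat.cast_sub (ZMod.val_lt y).le]
    by_cases hx : x = 0
    · subst hx; simp
    · rw [if_neg (by simp [hx, hy]), if_neg (by simp [hx, hy]), h2]
      ring

theorem wY_neg (y : ZMod N) : wY (-y) = wY y := by
  unfold wY
  by_cases hy : y = 0
  · subst hy; simp
  · have h : NeZero y := ⟨hy⟩
    have h1 : (-y).val = N - y.val := ZMod.val_neg_of_ne_zero y
    have h2 : (((-y).val : ℕ) : ℤ) = N - y.val := by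
      rw [h1, Nat.cast_sub (ZMod.val_lt y).le]
    rw [h2]
    ring

theorem SE_neg (χ : ZMod N → M) (A B C : ZMod N) : SE χ A (-B) C = -SE χ A B C := by
  unfold SE
  rw [← Finset.sum_neg_distrib]
  apply Finset.sum_congr rfl
  intro x _
  rw [← Finset.sum_neg_distrib, ← Equiv.sum_comp (Equiv.neg (ZMod N))]
  apply Finset.sum_congr rfl
  intro y _
  simp only [Equiv.neg_apply]
  rw [wE_neg]
  have : A * x ^ 2 + -B * (x * -y) - C * (-y) ^ 2 = A * x ^ 2 + B * (x * y) - C * y ^ 2 := by ring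
  rw [this]
  push_cast
  ring

theorem SY_neg (χ : ZMod N → M) (A B C : ZMod N) : SY χ A (-B) C = SY χ A B C := by
  unfold SY
  apply Finset.sum_congr rfl
  intro x _
  rw [← Equiv.sum_comp (Equiv.neg (ZMod N))]
  apply Finset.sum_congr rfl
  intro y _
  simp only [Equiv.neg_apply]
  rw [wY_neg]
  have : A * x ^ 2 + -B * (x * -y) - C * (-y) ^ 2 = A * x ^ 2 + B * (x * y) - C * y ^ 2 := by ring
  rw [this]

end scale

/-- the relation gives the normalized relation -/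
theorem nrel_of {c : CD} (hc : c.OK) {z : Dat} (hP : ((z.P * z.Pi : ℤ) : ZMod c.q) = 1)
    (hR : ((z.R * z.Ri : ℤ) : ZMod c.q) = 1)
    (h : ∀ _ : NeZero c.q, RelM (chi c.q c.p c.T) z.t z.P z.a z.b = 0) : NRel c z := by
  intro e0 e1 e2 cP cR h0 h1 h2 hcP hcR
  have hq : NeZero c.q := ⟨by have := hc.q1; omega⟩
  obtain ⟨a0, b0⟩ := h0 hq
  obtain ⟨a1, b1⟩ := h1 hq
  obtain ⟨a2, b2⟩ := h2 hq
  have hP' := hcP hq
  have hR' := hcR hq
  have h3 := h hq
  unfold RelM at h3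
  have hmul := chi_mul hc.mul
  have e1 : (1 + z.a * z.t - z.a ^ 2 * z.P) = z.R := rfl
  have e2 : (2 * z.a * z.P - z.t) = z.B1 := rfl
  rw [e1, e2] at h3
  have e3 : (2 * z.b * z.R - z.B1) = z.B2 := rfl
  rw [e3] at h3
  push_cast at hP hR a1 b1 a2 b2
  rw [SE_scale hmul (A := (z.P : ZMod c.q)) hP, SE_scale hmul (A := (z.R : ZMod c.q)) hR,
    SY_scale hmul (A := (z.P : ZMod c.q)) hP, SY_scale hmul (A := (z.R : ZMod c.q)) hR, hR] at h3
  rw [a0, b0, a1, b1, a2, b2, hP', hR']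
  linear_combination 2 * h3

/-- linear relation -/
def Lin (z : Dat) (p K T A B : ℕ) : Prop :=
  (K : ZMod p) + T * z.t + A * z.a + B * z.b = 0

theorem cof_sound {c : CD} {z : Dat} (h : NRel c z) {cP cR e0 e1 e2 : ℕ}
    (h0 : Ent c e0 z.t z.P) (h1 : Ent c e1 (z.B1 * z.Pi) (z.R * z.Pi))
    (h2 : Ent c e2 (z.B2 * z.Ri) 1) (hP : Chv c cP z.P) (hR : Chv c cR z.R)
    {g : ℕ → ℕ → ℕ → ℕ → Bool} (hg : cof cP cR e0 e1 e2 g = true) :
    ∃ K T A B, Lin z c.p K T A B ∧ g K T A B = true := by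
  unfold cof at hg
  simp only [force_eq] at hg
  refine ⟨_, _, _, _, ?_, hg⟩
  have h3 := h e0 e1 e2 cP cR h0 h1 h2 hP hR
  unfold Lin
  change (((2 * (e0 % 128 + cP * (e1 % 128)) + cR * (e2 % 128) : ℕ) : ZMod c.p)) +
    ((2 * (e0 / 128) : ℕ) : ZMod c.p) * z.t + ((4 * (cP * (e1 / 128)) : ℕ) : ZMod c.p) * z.a +
    ((4 * (cR * (e2 / 128)) : ℕ) : ZMod c.p) * z.b = 0
  push_cast
  linear_combination h3

theorem ckL_sound {z : Dat} {p K T A B a b t : ℕ} (h : Lin z p K T A B)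
    (ha : (a : ZMod p) = z.a) (hb : (b : ZMod p) = z.b) (ht : (t : ZMod p) = z.t) :
    ckL p K T A B a b t = true := by
  unfold ckL
  apply beq_mod
  change ((K + T * t + (A * a + B * b) : ℕ) : ZMod p) = 0
  push_cast
  rw [ha, hb, ht]
  unfold Lin at h
  linear_combination h

theorem ckF_sound {c : CD} {z : Dat} (h : NRel c z) {p cP cR e0 e1 e2 a b t : ℕ} (hp : c.p = p)
    (h0 : Ent c e0 z.t z.P) (h1 : Ent c e1 (z.B1 * z.Pi) (z.R * z.Pi))
    (h2 : Ent c e2 (z.B2 * z.Ri) 1) (hP : Chv c cP z.P) (hR : Chv c cR z.R)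
    (ha : (a : ZMod p) = z.a) (hb : (b : ZMod p) = z.b) (ht : (t : ZMod p) = z.t) :
    ckF p cP cR e0 e1 e2 a b t = true := by
  subst hp
  unfold ckF
  rw [force_eq, force_eq, force_eq]
  apply beq_mod
  have h3 := h e0 e1 e2 cP cR h0 h1 h2 hP hR
  change ((2 * (e0 % 128 + t * (e0 / 128) + cP * (e1 % 128 + 2 * a * (e1 / 128))) +
    cR * (e2 % 128 + 4 * b * (e2 / 128)) : ℕ) : ZMod c.p) = 0
  push_cast
  rw [ha, hb, ht]
  push_cast at h3
  linear_combination h3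

theorem ckV_sound {c : CD} {z : Dat} (h : NRel c z)
    {p xP xR f0 f1 f2 P R k0 k1 k2 : ℕ} (hp : c.p = p)
    (h0 : Ent c (sl1 f0 k0) z.t z.P) (h1 : Ent c (sl1 f1 k1) (z.B1 * z.Pi) (z.R * z.Pi))
    (h2 : Ent c (sl1 f2 k2) (z.B2 * z.Ri) 1) (hP : Chv c (sl1 xP P) z.P)
    (hR : Chv c (sl1 xR R) z.R) :
    ckV p xP xR f0 f1 f2 P R k0 k1 k2 = true := by
  subst hp
  unfold ckV
  apply beq_mod
  have h3 := h _ _ _ _ _ h0 h1 h2 hP hR
  rw [Nat.mod_eq_of_lt (sl1_lt f0 k0), Nat.mod_eq_of_lt (sl1_lt f1 k1),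
    Nat.mod_eq_of_lt (sl1_lt f2 k2), Nat.div_eq_of_lt (sl1_lt f0 k0),
    Nat.div_eq_of_lt (sl1_lt f1 k1), Nat.div_eq_of_lt (sl1_lt f2 k2)] at h3
  change ((2 * (sl1 f0 k0 + sl1 xP P * sl1 f1 k1) + sl1 xR R * sl1 f2 k2 : ℕ) : ZMod c.p) = 0
  push_cast
  push_cast at h3
  linear_combination h3

end Pool.Agent.N911
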