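import Pool.Agent.N911.A5
import Pool.Agent.H419R2.E3

/-! Kernel-friendly search functions.

Convention: every residue or index used for table lookup is passed multiplied by seven. -/

namespace Pool.Agent.N911

open H419R2

/-- `c → x` -/
def imp (c x : Bool) : Bool := @Bool.rec (fun _ => Bool) true x c

/-- `c ∧ x` -/
def cj (c x : Bool) : Bool := @Bool.rec (fun _ => Bool) false x c

/-- bounded universal quantifier -/
def allN (n : ℕ) (f : ℕ → Bool) : Bool :=
  @Nat.rec (fun _ => Bool) true (fun i ih => cj (f i) ih) n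

/-- slot of width `7 n` at position `p` -/
def sl (n E p : ℕ) : ℕ := Nat.mod (Nat.shiftRight E (Nat.mul n p)) (Nat.pow 2 (Nat.mul 7 n))

/-- slot of width `7` -/
def sl1 (E p : ℕ) : ℕ := Nat.mod (Nat.shiftRight E p) 128

/-- slot of width `14` -/
def sl2 (E p : ℕ) : ℕ := Nat.mod (Nat.shiftRight E (Nat.add p p)) 16384

/-- local data: residues of `a, b, t`, then seven times the residues of `P, R` and the three form
indices -/
abbrev Leaf := ℕ → ℕ → ℕ → ℕ → ℕ → ℕ → ℕ → ℕ → Bool

/-- lists of local data -/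
inductive LL where
  | nil : LL
  | cons (a b t P R k0 k1 k2 : ℕ) (l : LL) : LL

/-- all entries satisfy `f` -/
noncomputable def LL.all (L : LL) (f : Leaf) : Bool :=
  @LL.rec (fun _ => Bool) true (fun a b t P R k0 k1 k2 _ ih => cj (f a b t P R k0 k1 k2) ih) L

/-- lists of rows -/
inductive RL where
  | nil : RL
  | cons (a row : ℕ) (l : RL) : RL

/-- all entries satisfy `f` -/
noncomputable def RL.all (L : RL) (f : ℕ → ℕ → Bool) : Bool :=
  @RL.rec (fun _ => Bool) true (fun a r _ ih => cj (f a r) ih) L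

/-- geometry modulo `l` -/
def geo (l I a b t P : ℕ) (f : Leaf) : Bool :=
  force (Nat.mod (Nat.add (Nat.mul (Nat.mul 2 a) P) (Nat.sub l t)) l) (fun B =>
  force (Nat.mod (Nat.add (Nat.add 1 (Nat.mul a t)) (Nat.mul (Nat.mul a a) (Nat.sub l P))) l) (fun R =>
  force (look I P) (fun i => force (look I R) (fun j =>
  force (Nat.mul 7 P) (fun P7 => force (Nat.mul 7 R) (fun R7 =>
  force (Nat.mul 7 (Nat.add (Nat.mul t l) P)) (fun k0 =>
  force (Nat.mul 7 (Nat.add (Nat.mul (Nat.mod (Nat.mul B i) l) l) (Nat.mod (Nat.mul R i) l))) (fun k1 =>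
  force (Nat.mul 7 (Nat.add (Nat.mul (Nat.mod (Nat.mul (Nat.add (Nat.mul (Nat.mul 2 b) R)
    (Nat.sub l B)) j) l) l) 1)) (fun k2 => f a b t P7 R7 k0 k1 k2)))))))))

/-- test for residues, then geometry -/
def tge (l I Q a b t P : ℕ) (f : Leaf) : Bool :=
  @Bool.rec (fun _ => Bool) (geo l I a b t P f) true
    (tb Q (Nat.mod (Nat.add (Nat.mul t t) (Nat.mul 4 P)) l))

/-- given `a b t`, all admissible `P` -/
def enP (l I Q a b q0 q1 q2 t : ℕ) (f : Leaf) : Bool :=
  force (Nat.mod (Nat.add (Nat.mul t q1) q2) l) (fun v =>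
    @Nat.rec (fun _ => Bool)
      (imp (Nat.beq v 0) (allN l (fun P => tge l I Q a b t P f)))
      (fun _ _ => force (Nat.mod (Nat.mul v (look I q0)) l) (fun P => tge l I Q a b t P f)) q0)

/-- continuants -/
def cont (l a b : ℕ) (g : ℕ → ℕ → ℕ → Bool) : Bool :=
  force (Nat.mod (Nat.add 1 (Nat.mul a b)) l) (fun c =>
  force (Nat.mod (Nat.add (Nat.mul c c) (Nat.mul a a)) l) (fun q0 =>
  force (Nat.mod (Nat.add (Nat.mul b c) a) l) (fun q1 =>
  force (Nat.mod (Nat.add 1 (Nat.mul b b)) l) (fun q2 => g q0 q1 q2))))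

/-- enumeration for given `a`, with `t < tb` -/
def enF (l I Q a tbd : ℕ) (f : Leaf) : Bool :=
  allN l (fun b => cont l a b (fun q0 q1 q2 => allN tbd (fun t => enP l I Q a b q0 q1 q2 t f)))

/-- normalization of two linear relations -/
def nrm (l I K T A B K' T' A' B' : ℕ)
    (g : ℕ → ℕ → ℕ → ℕ → ℕ → ℕ → Bool) : Bool :=
  cj (Nat.ble 1 (Nat.mod T l)) (cj (Nat.ble 1 (Nat.mod T' l))
  (force (look I (Nat.mod T l)) (fun i => force (look I (Nat.mod T' l)) (fun i' =>
  force (Nat.mod (Nat.mul K i) l) (fun k => force (Nat.mod (Nat.mul A i) l) (fun u =>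
  force (Nat.mod (Nat.mul B i) l) (fun v =>
  force (Nat.mod (Nat.add k (Nat.sub l (Nat.mod (Nat.mul K' i') l))) l) (fun dk =>
  force (Nat.mod (Nat.add u (Nat.sub l (Nat.mod (Nat.mul A' i') l))) l) (fun du =>
  force (Nat.mod (Nat.add v (Nat.sub l (Nat.mod (Nat.mul B' i') l))) l) (fun dv =>
  force (Nat.sub l k) (fun k => force (Nat.sub l u) (fun u => force (Nat.sub l v) (fun v =>
    g dk du dv k u v)))))))))))))

/-- for given `a` all `b, t` satisfying the two relations -/
def enB (l I a dk du dv k u v : ℕ) (h : ℕ → ℕ → Bool) : Bool :=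
  @Nat.rec (fun _ => Bool)
    (imp (Nat.beq (Nat.mod (Nat.add dk (Nat.mul du a)) l) 0)
      (allN l (fun b => force (Nat.mod (Nat.add k (Nat.add (Nat.mul u a) (Nat.mul v b))) l)
        (fun t => h b t))))
    (fun _ _ => force (Nat.mod (Nat.mul (Nat.sub l (Nat.mod (Nat.add dk (Nat.mul du a)) l))
        (look I dv)) l)
      (fun b => force (Nat.mod (Nat.add k (Nat.add (Nat.mul u a) (Nat.mul v b))) l)
        (fun t => h b t))) dv

/-- enumeration with two linear relations
`K + T t + A a + B b = 0`, `K' + T' t + A' a + B' b = 0` -/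
def enL (l I Q K T A B K' T' A' B' : ℕ) (f : Leaf) : Bool :=
  nrm l I K T A B K' T' A' B' (fun dk du dv k u v =>
    allN l (fun a => enB l I a dk du dv k u v (fun b t =>
      cont l a b (fun q0 q1 q2 => enP l I Q a b q0 q1 q2 t f))))

/-- the row entry -/
def rowE (l row a b t : ℕ) (f : Leaf) : Bool :=
  force (Nat.mod (Nat.shiftRight row (Nat.mul 56 (Nat.add (Nat.mul l b) t))) 72057594037927936)
    (fun e => @Nat.rec (fun _ => Bool) true (fun _ _ =>
      f a b t (Nat.mod e 256) (Nat.mod (Nat.shiftRight e 8) 256)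
        (Nat.mod (Nat.shiftRight e 16) 4096) (Nat.mod (Nat.shiftRight e 28) 4096)
        (Nat.shiftRight e 40)) e)

/-- enumeration with two linear relations and a table of rows -/
noncomputable def enT (l I : ℕ) (rows : RL) (K T A B K' T' A' B' : ℕ) (f : Leaf) : Bool :=
  nrm l I K T A B K' T' A' B' (fun dk du dv k u v =>
    rows.all (fun a row => enB l I a dk du dv k u v (fun b t => rowE l row a b t f)))

/-- check of a relation whose `B2` sums vanish; table of 7-bit entries -/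
def ckV (p xP xR e0 e1 e2 P R k0 k1 k2 : ℕ) : Bool :=
  Nat.beq (Nat.mod (Nat.add (Nat.mul 2 (Nat.add (sl1 e0 k0) (Nat.mul (sl1 xP P) (sl1 e1 k1))))
    (Nat.mul (sl1 xR R) (sl1 e2 k2))) p) 0

/-- coefficients of a relation -/
def cof (cP cR e0 e1 e2 : ℕ) (g : ℕ → ℕ → ℕ → ℕ → Bool) : Bool :=
  force cP (fun cP => force cR (fun cR => force e0 (fun e0 => force e1 (fun e1 =>
  force e2 (fun e2 =>
  force (Nat.add (Nat.mul 2 (Nat.add (Nat.mod e0 128) (Nat.mul cP (Nat.mod e1 128))))
    (Nat.mul cR (Nat.mod e2 128))) (fun K =>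
  force (Nat.mul 2 (Nat.div e0 128)) (fun T =>
  force (Nat.mul 4 (Nat.mul cP (Nat.div e1 128))) (fun A =>
  force (Nat.mul 4 (Nat.mul cR (Nat.div e2 128))) (fun B => g K T A B)))))))))

/-- linear check -/
def ckL (p K T A B a b t : ℕ) : Bool :=
  Nat.beq (Nat.mod (Nat.add (Nat.add K (Nat.mul T t)) (Nat.add (Nat.mul A a) (Nat.mul B b))) p) 0

/-- full check of a relation -/
def ckF (p cP cR e0 e1 e2 a b t : ℕ) : Bool :=
  force e0 (fun e0 => force e1 (fun e1 => force e2 (fun e2 =>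
    Nat.beq (Nat.mod (Nat.add
      (Nat.mul 2 (Nat.add (Nat.add (Nat.mod e0 128) (Nat.mul t (Nat.div e0 128)))
        (Nat.mul cP (Nat.add (Nat.mod e1 128) (Nat.mul (Nat.mul 2 a) (Nat.div e1 128))))))
      (Nat.mul cR (Nat.add (Nat.mod e2 128) (Nat.mul (Nat.mul 4 b) (Nat.div e2 128))))) p) 0)))

/-- evaluation of the two sums of the form `(1, B, C)` -/
def evB (c : CD) (B C : ℕ) : ℕ :=
  force (Nat.mod B c.q) (fun m => force (Nat.sub c.q (Nat.mod C c.q)) (fun s =>
    force (evalc c.q c.T m s c.tab) (fun v =>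
      Nat.add (Nat.mod (Nat.mod v 16777216) c.p)
        (Nat.mul 128 (Nat.mod (Nat.div v 281474976710656) c.p)))))

/-- direct evaluation from two local indices; `e1, e2` are idempotents -/
def evD (c : CD) (l1 e1 l2 e2 k1 k2 : ℕ) : ℕ :=
  force (Nat.div k1 7) (fun k1 => force (Nat.div k2 7) (fun k2 =>
    evB c (Nat.add (Nat.mul (Nat.div k1 l1) e1) (Nat.mul (Nat.div k2 l2) e2))
      (Nat.add (Nat.mul (Nat.mod k1 l1) e1) (Nat.mul (Nat.mod k2 l2) e2))))

/-- direct evaluation of the character -/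
def chD (c : CD) (e1 e2 P1 P2 : ℕ) : ℕ :=
  look c.T (Nat.mod (Nat.add (Nat.mul (Nat.div P1 7) e1) (Nat.mul (Nat.div P2 7) e2)) c.q)

end Pool.Agent.N911
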