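import Pool.Agent.N911.A6

/-! From the continued fraction to the parameters. -/

namespace Pool.Agent.N911

open Finset

/-- The next complete quotient of the simple continued fraction. -/
noncomputable def nextQ (x : ℝ) : ℝ := (Int.fract x)⁻¹

theorem nextQ_spec {x : ℝ} (hx : Irrational x) :
    Irrational (nextQ x) ∧ 1 < nextQ x ∧ x = ⌊x⌋ + (nextQ x)⁻¹ := by
  have h0 : Irrational (Int.fract x) := by
    unfold Int.fract
    exact hx.sub_intCast _
  have h1 : 0 < Int.fract x := lt_of_le_of_ne (Int.fract_nonneg x) (Ne.symm h0.ne_zero)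
  refine ⟨h0.inv, ?_, ?_⟩
  · unfold nextQ
    exact (one_lt_inv₀ h1).mpr (Int.fract_lt_one x)
  · unfold nextQ
    rw [inv_inv]
    exact (Int.floor_add_fract x).symm

theorem floor_pos_of {x : ℝ} (h : 1 < x) : 1 ≤ ⌊x⌋ := Int.le_floor.mpr (by exact_mod_cast h.le)

theorem floor_lt_of {x : ℝ} (h : Irrational x) : (⌊x⌋ : ℝ) < x :=
  lt_of_le_of_ne (Int.floor_le x) (fun h' => h ⟨(⌊x⌋ : ℚ), by push_cast; exact h'⟩)

theorem lin_zero {x : ℝ} (hx : Irrational x) {X Y : ℤ} (h : (X : ℝ) * x + Y = 0) :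
    X = 0 ∧ Y = 0 := by
  by_cases hX : X = 0
  · subst hX
    refine ⟨rfl, ?_⟩
    simpa using h
  · exfalso
    have hX' : (X : ℝ) ≠ 0 := by exact_mod_cast hX
    apply hx
    refine ⟨-Y / X, ?_⟩
    push_cast
    field_simp
    linear_combination -h

/-- Periods of length 1, 3, 5 give the parameters. -/
theorem par_of_per {α : ℝ} {t P : ℤ} (hα : α ^ 2 = t * α + P) (hirr : Irrational α) (ht : 0 < t)
    (h1 : (t : ℝ) < α) (h2 : α < t + 1) {l : ℕ} (hl : l = 1 ∨ l = 3 ∨ l = 5)
    (hper : nextQ^[l + 1] α = nextQ α) : ∃ a b, Par t P a b := by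
  have ht' : (0 : ℝ) < t := by exact_mod_cast ht
  have hP : 1 ≤ P := by
    have : (0 : ℝ) < P := by nlinarith
    exact_mod_cast this
  have hfl : ⌊α⌋ = t := by
    rw [Int.floor_eq_iff]
    exact ⟨h1.le, h2⟩
  obtain ⟨i1, g1, e0⟩ := nextQ_spec hirr
  rw [hfl] at e0
  have p1 : nextQ α ≠ 0 := by positivity
  have e0' : (α - t) * nextQ α = 1 := by
    have : α - t = (nextQ α)⁻¹ := by linarith
    rw [this]; exact inv_mul_cancel₀ p1
  rcases hl with rfl | rfl | rfl
  · -- period 1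
    have hp : nextQ (nextQ α) = nextQ α := hper
    obtain ⟨_, _, e1⟩ := nextQ_spec i1
    rw [hp] at e1
    set a := ⌊nextQ α⌋ with ha
    obtain ⟨e, he⟩ : ∃ e : ℤ, e = a - t := ⟨_, rfl⟩
    have hu : nextQ α = α + e := by
      rw [he]; push_cast
      linear_combination e1 + (-1 : ℝ) * (e0)
    rw [hu] at e0'
    have hlin : ((e : ℤ) : ℝ) * α + ((P - t * e - 1 : ℤ) : ℝ) = 0 := by
      push_cast
      linear_combination e0' - hα
    obtain ⟨z1, z2⟩ := lin_zero hirr hlin
    rw [z1] at z2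
    exact ⟨0, 0, ht, hP, Or.inl ⟨by linarith, rfl, rfl⟩⟩
  · -- period 3
    have hp : nextQ (nextQ (nextQ (nextQ α))) = nextQ α := hper
    obtain ⟨i2, g2, e1⟩ := nextQ_spec i1
    obtain ⟨i3, g3, e2⟩ := nextQ_spec i2
    obtain ⟨_, _, e3⟩ := nextQ_spec i3
    rw [hp] at e3
    have b1 := floor_pos_of g1
    have b2 := floor_pos_of g2
    have lt1 := floor_lt_of i1
    set x1 := nextQ α with hx1
    set x2 := nextQ x1 with hx2
    set x3 := nextQ x2 with hx3
    have q2 : x2 ≠ 0 := by positivity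
    have q3 : x3 ≠ 0 := by positivity
    generalize ha1 : ⌊x1⌋ = a1 at *
    generalize ha2 : ⌊x2⌋ = a2 at *
    generalize ha3 : ⌊x3⌋ = a3 at *
    obtain ⟨e, he⟩ : ∃ e : ℤ, e = a3 - t := ⟨_, rfl⟩
    have hu : x3 = α + e := by
      rw [he]; push_cast
      linear_combination e3 + (-1 : ℝ) * e0
    have m1 : x1 * x2 = a1 * x2 + 1 := by
      nth_rewrite 1 [e1]; field_simp
    have m2 : x2 * x3 = a2 * x3 + 1 := by
      nth_rewrite 1 [e2]; field_simp
    have m : (α - t) * (a1 * (a2 * (α + e) + 1) + (α + e)) = a2 * (α + e) + 1 := by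
      rw [← hu, ← m2]
      linear_combination (x2 * x3) * e0' - (α - t) * x3 * m1
    have hlin : (((a1 * a2 + 1) * e + a1 - a2 : ℤ) : ℝ) * α +
        (((a1 * a2 + 1) * P - t * ((a1 * a2 + 1) * e + a1) - a2 * e - 1 : ℤ) : ℝ) = 0 := by
      push_cast
      linear_combination m - (a1 * a2 + 1 : ℝ) * hα
    obtain ⟨z1, z2⟩ := lin_zero hirr hlin
    have he0 : e = 0 := by
      rcases lt_trichotomy e 0 with h | h | h
      · exfalso
        have : (a1 * a2 + 1) * (e + 1) ≤ 0 := mul_nonpos_of_nonneg_of_nonpos (by positivity) (by omega)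
        nlinarith
      · exact h
      · exfalso
        have : 0 ≤ (a1 * a2 + 1) * (e - 1) := mul_nonneg (by positivity) (by omega)
        nlinarith
    rw [he0] at z1 z2
    have h12 : a2 = a1 := by linarith
    subst h12
    exact par3 (a := a2) ht (by omega) hP (by linear_combination -z2)
  · -- period 5
    have hp : nextQ (nextQ (nextQ (nextQ (nextQ (nextQ α))))) = nextQ α := hper
    obtain ⟨i2, g2, e1⟩ := nextQ_spec i1
    obtain ⟨i3, g3, e2⟩ := nextQ_spec i2
    obtain ⟨i4, g4, e3⟩ := nextQ_spec i3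
    obtain ⟨i5, g5, e4⟩ := nextQ_spec i4
    obtain ⟨_, _, e5⟩ := nextQ_spec i5
    rw [hp] at e5
    have b1 := floor_pos_of g1
    have b2 := floor_pos_of g2
    have b3 := floor_pos_of g3
    have b4 := floor_pos_of g4
    have lt1 := floor_lt_of i1
    set x1 := nextQ α with hx1
    set x2 := nextQ x1 with hx2
    set x3 := nextQ x2 with hx3
    set x4 := nextQ x3 with hx4
    set x5 := nextQ x4 with hx5
    have q2 : x2 ≠ 0 := by positivity
    have q3 : x3 ≠ 0 := by positivity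
    have q4 : x4 ≠ 0 := by positivity
    have q5 : x5 ≠ 0 := by positivity
    generalize ha1 : ⌊x1⌋ = a1 at *
    generalize ha2 : ⌊x2⌋ = a2 at *
    generalize ha3 : ⌊x3⌋ = a3 at *
    generalize ha4 : ⌊x4⌋ = a4 at *
    generalize ha5 : ⌊x5⌋ = a5 at *
    obtain ⟨e, he⟩ : ∃ e : ℤ, e = a5 - t := ⟨_, rfl⟩
    have hu : x5 = α + e := by
      rw [he]; push_cast
      linear_combination e5 + (-1 : ℝ) * e0
    have m1 : x1 * x2 = a1 * x2 + 1 := by
      nth_rewrite 1 [e1]; field_simp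
    have m2 : x2 * x3 = a2 * x3 + 1 := by
      nth_rewrite 1 [e2]; field_simp
    have m3 : x3 * x4 = a3 * x4 + 1 := by
      nth_rewrite 1 [e3]; field_simp
    have m4 : x4 * x5 = a4 * x5 + 1 := by
      nth_rewrite 1 [e4]; field_simp
    obtain ⟨r4, hr4⟩ : ∃ r4 : ℤ, r4 = a2 * a3 * a4 + a2 + a4 := ⟨_, rfl⟩
    obtain ⟨r3, hr3⟩ : ∃ r3 : ℤ, r3 = a2 * a3 + 1 := ⟨_, rfl⟩
    obtain ⟨k4, hk4⟩ : ∃ k4 : ℤ, k4 = a1 * r4 + a3 * a4 + 1 := ⟨_, rfl⟩
    obtain ⟨k3, hk3⟩ : ∃ k3 : ℤ, k3 = a1 * r3 + a3 := ⟨_, rfl⟩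
    have n3 : x3 * x4 * x5 = (a3 * a4 + 1) * x5 + a3 := by
      linear_combination x5 * m3 + (a3 : ℝ) * m4
    have n2 : x2 * x3 * x4 * x5 = r4 * x5 + r3 := by
      rw [hr4, hr3]; push_cast
      linear_combination x4 * x5 * m2 + (a2 : ℝ) * n3 + m4
    have n1 : x1 * x2 * x3 * x4 * x5 = k4 * x5 + k3 := by
      rw [hk4, hk3]; push_cast
      linear_combination x3 * x4 * x5 * m1 + (a1 : ℝ) * n2 + n3
    have m : (α - t) * (k4 * (α + e) + k3) = r4 * (α + e) + r3 := by
      rw [← hu, ← n1, ← n2]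
      linear_combination (x2 * x3 * x4 * x5) * e0'
    have hlin : ((k4 * e + k3 - r4 : ℤ) : ℝ) * α +
        ((k4 * P - t * (k4 * e + k3) - r4 * e - r3 : ℤ) : ℝ) = 0 := by
      push_cast
      linear_combination m - (k4 : ℝ) * hα
    obtain ⟨z1, z2⟩ := lin_zero hirr hlin
    have c1 : r4 < k4 := by
      have : 0 ≤ (a1 - 1) * r4 := mul_nonneg (by omega) (by rw [hr4]; positivity)
      have : 0 < a3 * a4 := by positivity
      nlinarith
    have c2 : k3 < k4 := by
      have h3 : k4 = a4 * k3 + (a1 * a2 + 1) := by rw [hk4, hk3, hr4, hr3]; ring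
      have hk3p : 0 ≤ k3 := by rw [hk3, hr3]; positivity
      have : 0 ≤ (a4 - 1) * k3 := mul_nonneg (by omega) hk3p
      have : 0 < a1 * a2 := by positivity
      nlinarith
    have r4p : 0 < r4 := by rw [hr4]; positivity
    have k3p : 0 < k3 := by rw [hk3, hr3]; positivity
    have he0 : e = 0 := by
      rcases lt_trichotomy e 0 with h | h | h
      · exfalso
        have : k4 * (e + 1) ≤ 0 := mul_nonpos_of_nonneg_of_nonpos (by omega) (by omega)
        nlinarith
      · exact h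
      · exfalso
        have : 0 ≤ k4 * (e - 1) := mul_nonneg (by omega) (by omega)
        nlinarith
    rw [he0] at z1 z2
    have h34 : (a1 - a4) * (a2 * a3 + 1) = a2 - a3 := by
      have : k3 = r4 := by linarith
      rw [hk3, hr4, hr3] at this
      linear_combination this
    have h14 : a1 = a4 := by
      have w1 : a2 ≤ a2 * a3 := by nlinarith
      have w2 : a3 ≤ a2 * a3 := by nlinarith
      rcases lt_trichotomy (a1 - a4) 0 with h | h | h
      · exfalso
        have w3 : (a1 - a4 + 1) * (a2 * a3 + 1) ≤ 0 :=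
          mul_nonpos_of_nonpos_of_nonneg (by omega) (by omega)
        rw [add_mul, h34, one_mul] at w3
        linarith
      · omega
      · exfalso
        have w3 : 0 ≤ (a1 - a4 - 1) * (a2 * a3 + 1) := mul_nonneg (by omega) (by omega)
        rw [sub_mul, h34, one_mul] at w3
        linarith
    have h23 : a2 = a3 := by
      rw [h14, sub_self, zero_mul] at h34
      omega
    subst h14 h23
    -- positivity of `R`
    have hR : 1 ≤ 1 + a1 * t - a1 ^ 2 * P := by
      have a1p : (0 : ℝ) < a1 := by exact_mod_cast (by omega : 0 < a1)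
      have hd : 0 < α - t := by linarith
      have h3 : (a1 : ℝ) * (α - t) < 1 := by
        rw [← e0', mul_comm]
        exact mul_lt_mul_of_pos_left lt1 hd
      have h4 : (P : ℝ) = α * (α - t) := by linear_combination -hα
      have h5 : (0 : ℝ) < 1 + a1 * t - a1 ^ 2 * P := by
        rw [h4]
        have h6 : (a1 : ℝ) * α * (a1 * (α - t)) < a1 * α * 1 :=
          mul_lt_mul_of_pos_left h3 (mul_pos a1p (by linarith))
        nlinarith
      have h6 : (0 : ℤ) < 1 + a1 * t - a1 ^ 2 * P := by exact_mod_cast h5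
      omega
    refine par5 ht (show 0 < a1 by omega) (show 0 < a2 by omega) hP hR ?_
    rw [hk4, hk3, hr4, hr3] at z2
    linear_combination z2

end Pool.Agent.N911
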