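import Pool.Agent.H419R2.C3

/-! Cycles of reduced forms with odd period, and the fundamental domain attached to them. -/

namespace Pool.Agent.N911

open H419R2 QuadraticAlgebra Module

variable {R m : ℤ}

/-- determinant of two elements in the basis `1, ω` -/
def dt (x y : QA R m) : ℤ := x.re * y.im - x.im * y.re

/-- A cycle: partial quotients `κ`, forms `(q n, b n, -q (n+1))`, odd period `l`. -/
structure Cyc (R m : ℤ) where
  /-- period -/
  l : ℕ
  hl : l % 2 = 1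
  /-- partial quotients -/
  κ : ℕ → ℕ
  /-- outer coefficients -/
  q : ℕ → ℤ
  /-- middle coefficients -/
  b : ℕ → ℤ
  κpos : ∀ n, 0 < κ n
  qpos : ∀ n, 0 < q n
  m_pos : 0 < m
  κper : ∀ n, κ (n + l) = κ n
  qper : ∀ n, q (n + l) = q n
  bper : ∀ n, b (n + l) = b n
  q0 : q 0 = 1
  q1 : q 1 = R
  b0 : b 0 = m
  recq : ∀ n, q (n + 2) = q n + b n * κ n - q (n + 1) * (κ n : ℤ) ^ 2
  recb : ∀ n, b (n + 1) = 2 * κ n * q (n + 1) - b n
  /-- no nontrivial unit inside the period -/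
  qone : ∀ n, q n = 1 → n % l = 0

namespace Cyc

variable (C : Cyc R m)

/-- convergents -/
def α : ℕ → QA R m
  | 0 => ⟨1, 0⟩
  | 1 => ⟨0, 1⟩
  | (n + 2) => ⟨(α n).re + C.κ n * (α (n + 1)).re, (α n).im + C.κ n * (α (n + 1)).im⟩

theorem α_zero : C.α 0 = ⟨1, 0⟩ := by rw [α]
theorem α_one : C.α 1 = ⟨0, 1⟩ := by rw [α]
theorem α_re (n : ℕ) : (C.α (n + 2)).re = (C.α n).re + C.κ n * (C.α (n + 1)).re := by rw [α]
theorem α_im (n : ℕ) : (C.α (n + 2)).im = (C.α n).im + C.κ n * (C.α (n + 1)).im := by rw [α]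

/-- combination of consecutive convergents -/
def lc (n : ℕ) (u w : ℤ) : QA R m :=
  ⟨u * (C.α n).re + w * (C.α (n + 1)).re, u * (C.α n).im + w * (C.α (n + 1)).im⟩

theorem lc_succ (n : ℕ) (u w : ℤ) : C.lc (n + 1) u w = C.lc n w (u + C.κ n * w) := by
  unfold lc
  ext
  · simp only [α_re]; ring
  · simp only [α_im]; ring

theorem norm_lc (n : ℕ) (u w : ℤ) : QuadraticAlgebra.norm (C.lc n u w) =
    (-1) ^ n * (C.q n * u ^ 2 + C.b n * u * w - C.q (n + 1) * w ^ 2) := by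
  induction n generalizing u w with
  | zero =>
    rw [norm_eq]
    simp only [lc, α_zero, zero_add, α_one, C.q0, C.q1, C.b0]
    ring
  | succ n ih =>
    rw [lc_succ, ih, C.recq, C.recb]
    ring

theorem norm_α (n : ℕ) : QuadraticAlgebra.norm (C.α n) = (-1) ^ n * C.q n := by
  have h := C.norm_lc n 1 0
  have e : C.lc n 1 0 = C.α n := by
    unfold lc; ext <;> simp
  rw [e] at h
  rw [h]; ring

theorem dt_α (n : ℕ) : dt (C.α n) (C.α (n + 1)) = (-1) ^ n := by
  induction n with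
  | zero => simp [dt, α_zero, α_one]
  | succ n ih =>
    have : dt (C.α (n + 1)) (C.α (n + 2)) = - dt (C.α n) (C.α (n + 1)) := by
      unfold dt
      rw [α_re, α_im]
      ring
    rw [this, ih]; ring

theorem α_nonneg (n : ℕ) : 0 ≤ (C.α n).re ∧ 0 ≤ (C.α n).im ∧ 0 ≤ (C.α (n + 1)).re ∧
    0 < (C.α (n + 1)).im := by
  induction n with
  | zero => simp [α_zero, α_one]
  | succ n ih =>
    obtain ⟨h1, h2, h3, h4⟩ := ih
    have hκ : (0 : ℤ) < C.κ n := by exact_mod_cast C.κpos n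
    refine ⟨h3, h4.le, ?_, ?_⟩
    · rw [α_re]; positivity
    · rw [α_im]; positivity

theorem D_pos (C : Cyc R m) : 0 < m ^ 2 + 4 * R := by
  have h1 := C.qpos 1
  rw [C.q1] at h1
  positivity

theorem T2_odd (n : ℕ) : T2 (C.α (2 * n + 1)) := by
  refine ⟨?_, (C.α_nonneg (2 * n)).2.2.2⟩
  rw [norm_α, pow_succ, pow_mul]
  have := C.qpos (2 * n + 1)
  simp
  exact this

theorem T1_even (n : ℕ) : T1 (C.α (2 * n)) := by
  refine ⟨?_, ?_⟩
  · rw [norm_α, pow_mul]
    have := C.qpos (2 * n)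
    simp
    exact this
  · rw [QuadraticAlgebra.trace_def]
    have hm := C.m_pos
    rcases Nat.eq_zero_or_pos n with h | h
    · subst h; simp [α_zero]
    · obtain ⟨k, rfl⟩ : ∃ k, n = k + 1 := ⟨n - 1, by omega⟩
      have h1 := C.α_nonneg (2 * k + 1)
      have e : 2 * (k + 1) = 2 * k + 1 + 1 := by ring
      rw [e]
      have h2 := h1.2.2.1
      have h3 := h1.2.2.2
      positivity

theorem dt_neg (C : Cyc R m) {w z : QA R m} (hw : T2 w) (hz : T1 z) : dt w z < 0 := by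
  have h1 := trace_sq z
  have h2 := trace_sq w
  have h3 := pos_aux2 C.D_pos hw.2 hz.2 (a := -QuadraticAlgebra.trace w) (d := z.im)
    (by linarith [hw.1]) (by linarith [hz.1])
  have h4 : 2 * dt w z = QuadraticAlgebra.trace w * z.im - w.im * QuadraticAlgebra.trace z := by
    simp only [dt, QuadraticAlgebra.trace_def]
    ring
  linarith

/-- first component of the position -/
def s (j : ℕ) (z : QA R m) : ℤ := dt (C.α (2 * j)) z

theorem s_succ (j : ℕ) (z : QA R m) : C.s (j + 1) z = C.s j z + C.κ (2 * j) * dt (C.α (2 * j + 1)) z := by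
  unfold s dt
  have e : 2 * (j + 1) = 2 * j + 2 := by ring
  rw [e, α_re, α_im]
  ring

theorem s_anti {z : QA R m} (hz : T1 z) (j : ℕ) : C.s (j + 1) z < C.s j z := by
  rw [s_succ]
  have h1 := C.dt_neg (C.T2_odd j) hz
  have hκ : (0 : ℤ) < C.κ (2 * j) := by exact_mod_cast C.κpos _
  nlinarith

theorem s_strictAnti {z : QA R m} (hz : T1 z) : StrictAnti (fun j => C.s j z) :=
  strictAnti_nat_of_succ_lt (C.s_anti hz)

theorem lc_coords (n : ℕ) (z : QA R m) :
    z = C.lc (2 * n) (-dt (C.α (2 * n + 1)) z) (dt (C.α (2 * n)) z) := by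
  have h := C.dt_α (2 * n)
  rw [pow_mul] at h
  simp only [even_two, Even.neg_pow, one_pow] at h
  unfold lc
  unfold dt at h ⊢
  ext
  · simp only
    linear_combination (-z.re) * h
  · simp only
    linear_combination (-z.im) * h

theorem dt_lc_even (n : ℕ) (u w : ℤ) : dt (C.α (2 * n)) (C.lc (2 * n) u w) = w ∧
    dt (C.α (2 * n + 1)) (C.lc (2 * n) u w) = -u := by
  have h := C.dt_α (2 * n)
  rw [pow_mul] at h
  simp only [even_two, Even.neg_pow, one_pow] at h
  unfold lc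
  unfold dt at h ⊢
  constructor
  · simp only
    linear_combination w * h
  · simp only
    linear_combination (-u) * h

/-- the unit of norm one -/
def e : QA R m := C.α (2 * C.l)

theorem norm_e : QuadraticAlgebra.norm C.e = 1 := by
  unfold e
  rw [norm_α, pow_mul, two_mul, C.qper]
  have := C.qper 0
  rw [zero_add, C.q0] at this
  rw [this]; simp

theorem T1_e : T1 C.e := C.T1_even C.l

/-- the unit -/
def eu : (QA R m)ˣ where
  val := C.e
  inv := star C.e
  val_inv := by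
    rw [← QuadraticAlgebra.algebraMap_norm_eq_mul_star, C.norm_e]; simp
  inv_val := by
    rw [mul_comm, ← QuadraticAlgebra.algebraMap_norm_eq_mul_star, C.norm_e]; simp

theorem l_pos : 0 < C.l := by have := C.hl; omega

/-- unit of norm minus one -/
theorem norm_ε : QuadraticAlgebra.norm (C.α C.l) = -1 := by
  rw [norm_α]
  have := C.qper 0
  rw [zero_add, C.q0] at this
  rw [this]
  have h2 : Odd C.l := Nat.odd_iff.mpr C.hl
  rw [h2.neg_one_pow]; ring

/-- domain -/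
def Dom (z : QA R m) : Prop := T1 z ∧ 0 ≤ C.s 0 z ∧ C.s C.l z < 0

theorem s_zero (z : QA R m) : C.s 0 z = z.im := by
  simp [s, dt, α_zero]

theorem s_l (z : QA R m) : C.s C.l z = (z * ((C.eu⁻¹ : (QA R m)ˣ) : QA R m)).im := by
  have h : ((C.eu⁻¹ : (QA R m)ˣ) : QA R m) = star C.e := rfl
  rw [h]
  unfold s
  change dt C.e z = _
  unfold dt
  simp only [QuadraticAlgebra.im_mul, QuadraticAlgebra.re_star, QuadraticAlgebra.im_star]
  ring

theorem mul_gt {z : QA R m} (hz : T1 z) : z.im < (z * C.e).im := by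
  have hD := C.D_pos
  have h0 := C.l_pos
  have h1 : T1 (z * C.e) := T1_mul hD hz C.T1_e
  have h2 : C.s C.l (z * C.e) < C.s 0 (z * C.e) := C.s_strictAnti h1 h0
  rw [s_zero, s_l] at h2
  have h3 : z * C.e * ((C.eu⁻¹ : (QA R m)ˣ) : QA R m) = z := by
    have : C.e = (C.eu : QA R m) := rfl
    rw [this, Units.mul_inv_cancel_right]
  rw [h3] at h2
  exact h2

theorem strictMono {z : QA R m} (hz : T1 z) :
    StrictMono (fun j : ℤ => (z * ((C.eu ^ j : (QA R m)ˣ) : QA R m)).im) := by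
  apply strictMono_int_of_lt_succ
  intro j
  have h := C.mul_gt (T1_mul C.D_pos hz (T1_zpow C.D_pos C.eu C.norm_e C.T1_e j))
  have h2 : z * ((C.eu ^ j : (QA R m)ˣ) : QA R m) * C.e
    = z * ((C.eu ^ (j + 1) : (QA R m)ˣ) : QA R m) := by
    rw [zpow_add, zpow_one, Units.val_mul, mul_assoc]; rfl
  rw [h2] at h
  exact h

theorem exists_zpow {z : QA R m} (hz : T1 z) :
    ∃ j : ℤ, C.Dom (z * ((C.eu ^ j : (QA R m)ˣ) : QA R m)) := by
  obtain ⟨j, hj1, hj2⟩ := exists_cross _ (C.strictMono hz)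
  refine ⟨j, T1_mul C.D_pos hz (T1_zpow C.D_pos C.eu C.norm_e C.T1_e j), ?_, ?_⟩
  · rw [s_zero]; exact hj2
  · rw [s_l]
    have : z * ((C.eu ^ j : (QA R m)ˣ) : QA R m) * ((C.eu⁻¹ : (QA R m)ˣ) : QA R m)
      = z * ((C.eu ^ (j - 1) : (QA R m)ˣ) : QA R m) := by
      rw [zpow_sub, zpow_one, Units.val_mul, mul_assoc]
    rw [this]; exact hj1

theorem unique_zpow {z : QA R m} (hz : C.Dom z) {j : ℤ}
    (hj : C.Dom (z * ((C.eu ^ j : (QA R m)ˣ) : QA R m))) : j = 0 := by
  obtain ⟨ht, ha, hb⟩ := hz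
  obtain ⟨_, hc, hd⟩ := hj
  rw [s_zero] at ha hc
  rw [s_l] at hb hd
  have key : z * ((C.eu ^ j : (QA R m)ˣ) : QA R m) * ((C.eu⁻¹ : (QA R m)ˣ) : QA R m)
      = z * ((C.eu ^ (j - 1) : (QA R m)ˣ) : QA R m) := by
    rw [zpow_sub, zpow_one, Units.val_mul, mul_assoc]
  have k0 : z * ((C.eu⁻¹ : (QA R m)ˣ) : QA R m) = z * ((C.eu ^ ((0 : ℤ) - 1) : (QA R m)ˣ) : QA R m) := by
    simp
  have k1 : z.im = (z * ((C.eu ^ (0 : ℤ) : (QA R m)ˣ) : QA R m)).im := by simp
  rw [key] at hd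
  rw [k0] at hb
  rw [k1] at ha
  exact cross_unique _ (C.strictMono ht) ⟨hd, hc⟩ ⟨hb, ha⟩

end Cyc

end Pool.Agent.N911
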