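import Pool.Agent.N911.A1

/-! Parametrisation of the fundamental domain by wedges. -/

namespace Pool.Agent.N911

open H419R2 QuadraticAlgebra Module

variable {R m : ℤ}

/-- value of the form `(A, B, -C)` -/
def fv (A B C U Z : ℤ) : ℤ := A * U ^ 2 + B * U * Z - C * Z ^ 2

theorem fv_pos {A B C : ℤ} {κ : ℕ} (hκ : 0 < κ) (hA : 0 < A) (hC : 0 < C)
    (hA' : 0 < A + B * κ - C * (κ : ℤ) ^ 2) {U Z : ℤ} (hU : 0 < U) (hZ : 0 ≤ Z)
    (hZU : Z ≤ κ * U) : 0 < fv A B C U Z := by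
  have hκ' : (0 : ℤ) < κ := by exact_mod_cast hκ
  have h : (κ : ℤ) * fv A B C U Z = A * (U * (κ * U - Z)) +
      (A + B * κ - C * (κ : ℤ) ^ 2) * (U * Z) + κ * C * (Z * (κ * U - Z)) := by
    unfold fv; ring
  have h1 : 0 ≤ U * (κ * U - Z) := mul_nonneg hU.le (by linarith)
  have h2 : 0 ≤ U * Z := mul_nonneg hU.le hZ
  have h3 : 0 ≤ Z * (κ * U - Z) := mul_nonneg hZ (by linarith)
  have h4 : 0 < U * (κ * U - Z) + U * Z := by
    have : U * (κ * U - Z) + U * Z = κ * (U * U) := by ring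
    rw [this]; positivity
  have h5 : 0 < (κ : ℤ) * fv A B C U Z := by
    rw [h]
    have h6 : U * (κ * U - Z) ≤ A * (U * (κ * U - Z)) := by nlinarith
    have h7 : U * Z ≤ (A + B * κ - C * (κ : ℤ) ^ 2) * (U * Z) := by nlinarith
    have h8 : 0 ≤ κ * C * (Z * (κ * U - Z)) := by positivity
    linarith
  exact (mul_pos_iff_of_pos_left hκ').mp h5

theorem fv_large {A B C : ℤ} {κ : ℕ} (hκ : 0 < κ) (hA : 0 < A) (hC : 0 < C)
    (hA' : 0 < A + B * κ - C * (κ : ℤ) ^ 2) {U Z : ℤ} (hZ : 0 < Z)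
    (hZU : Z < κ * U) : B ^ 2 + 4 * (A * C) < 4 * fv A B C U Z ^ 2 := by
  have hκ' : (0 : ℤ) < κ := by exact_mod_cast hκ
  have hU : 0 < U := by
    by_contra h
    push Not at h
    nlinarith
  have h1 := fv_pos hκ hA hC hA' hU (by linarith : 0 ≤ Z + 1) (by linarith)
  have h2 := fv_pos hκ hA hC hA' hU (by linarith : 0 ≤ Z - 1) (by linarith)
  have e1 : fv A B C U (Z + 1) = fv A B C U Z + (B * U - 2 * C * Z) - C := by unfold fv; ring
  have e2 : fv A B C U (Z - 1) = fv A B C U Z - (B * U - 2 * C * Z) - C := by unfold fv; ring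
  have e3 : (B * U - 2 * C * Z) ^ 2 + 4 * C * fv A B C U Z = U ^ 2 * (B ^ 2 + 4 * (A * C)) := by
    unfold fv; ring
  rw [e1] at h1
  rw [e2] at h2
  set f := fv A B C U Z
  set t := B * U - 2 * C * Z
  have h3 : t ^ 2 < (f - C) ^ 2 := by
    apply sq_lt_sq'
    · linarith
    · linarith
  have h4 : C < f := by linarith
  have h5 : U ^ 2 * (B ^ 2 + 4 * (A * C)) < 4 * f ^ 2 := by
    rw [← e3]
    nlinarith
  have h6 : 1 ≤ U ^ 2 := by nlinarith
  have h7 : 0 ≤ B ^ 2 + 4 * (A * C) := by positivity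
  nlinarith

namespace Cyc

variable (C : Cyc R m)

/-- index type -/
abbrev Ind := Σ j : Fin C.l, Idx (C.κ (2 * (j : ℕ)))

/-- generators -/
def gen (p : C.Ind) : QA R m := C.lc (2 * (p.1 : ℕ)) (p.2.1 : ℤ) ((p.2.2 : ℕ) : ℤ)

theorem disc (n : ℕ) : C.b n ^ 2 + 4 * (C.q n * C.q (n + 1)) = m ^ 2 + 4 * R := by
  induction n with
  | zero => rw [C.b0, C.q0, zero_add, C.q1]; ring
  | succ n ih =>
    rw [← ih, C.recb, C.recq]
    ring

theorem pos' (n : ℕ) : 0 < C.q n + C.b n * C.κ n - C.q (n + 1) * (C.κ n : ℤ) ^ 2 := by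
  rw [← C.recq]; exact C.qpos _

theorem norm_even (j : ℕ) (U Z : ℤ) : QuadraticAlgebra.norm (C.lc (2 * j) U Z) =
    fv (C.q (2 * j)) (C.b (2 * j)) (C.q (2 * j + 1)) U Z := by
  rw [norm_lc, pow_mul]
  unfold fv
  simp

theorem dom_lc {j : ℕ} (hj : j < C.l) {U Z : ℤ} (hU : 0 < U) (hZ : 0 ≤ Z)
    (hZU : Z < C.κ (2 * j) * U) : C.Dom (C.lc (2 * j) U Z) := by
  have hT : T1 (C.lc (2 * j) U Z) := by
    refine ⟨?_, ?_⟩
    · rw [norm_even]
      exact fv_pos (C.κpos _) (C.qpos _) (C.qpos _) (C.pos' _) hU hZ hZU.le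
    · rw [QuadraticAlgebra.trace_def]
      unfold lc
      simp only
      have h := C.α_nonneg (2 * j)
      have hm := C.m_pos
      have h1 := (C.T1_even j).2
      rw [QuadraticAlgebra.trace_def] at h1
      have h2 := h.2.2.1
      have h3 := h.2.2.2.le
      have h4 : 0 < U * (2 * (C.α (2 * j)).re + m * (C.α (2 * j)).im) := mul_pos hU h1
      have h5 : 0 ≤ Z * (2 * (C.α (2 * j + 1)).re + m * (C.α (2 * j + 1)).im) := by positivity
      nlinarith
  have hs : C.s j (C.lc (2 * j) U Z) = Z := (C.dt_lc_even j U Z).1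
  have hs' : C.s (j + 1) (C.lc (2 * j) U Z) < 0 := by
    rw [s_succ, hs, (C.dt_lc_even j U Z).2]
    linarith
  refine ⟨hT, ?_, ?_⟩
  · have := (C.s_strictAnti hT).antitone (Nat.zero_le j)
    have this' : C.s j (C.lc (2 * j) U Z) ≤ C.s 0 (C.lc (2 * j) U Z) := this
    rw [hs] at this'
    linarith
  · have := (C.s_strictAnti hT).antitone (Nat.succ_le_of_lt hj)
    exact lt_of_le_of_lt this hs'

theorem gen_dom (p : C.Ind) : C.Dom (C.gen p) := by
  obtain ⟨h1, h2, h3⟩ := idx_facts p.2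
  exact C.dom_lc p.1.2 h1 h2 h3

theorem dom_iff (z : QA R m) : C.Dom z ↔ z ∈ Set.range C.gen := by
  constructor
  · rintro ⟨hT, h0, hl⟩
    classical
    have hex : ∃ j, C.s j z < 0 := ⟨_, hl⟩
    have hj0 := Nat.find_spec hex
    have hjl : Nat.find hex ≤ C.l := Nat.find_min' hex hl
    have hjpos : Nat.find hex ≠ 0 := by
      intro h
      rw [h] at hj0
      linarith
    obtain ⟨j, hj⟩ : ∃ j, Nat.find hex = j + 1 := ⟨Nat.find hex - 1, by omega⟩
    have hjm : ¬ C.s j z < 0 := Nat.find_min hex (by omega)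
    rw [hj] at hj0 hjl
    push Not at hjm
    have hneg := C.dt_neg (C.T2_odd j) hT
    rw [s_succ] at hj0
    obtain ⟨p, hp1, hp2⟩ := idx_mk (κ := C.κ (2 * j)) (a := -dt (C.α (2 * j + 1)) z) (b := C.s j z)
      (by linarith) hjm (by linarith)
    refine ⟨⟨⟨j, hjl⟩, p⟩, ?_⟩
    unfold gen
    simp only
    rw [hp1, hp2]
    exact (C.lc_coords j z).symm
  · rintro ⟨p, rfl⟩
    exact C.gen_dom p

theorem gen_inj : Function.Injective C.gen := by
  intro p p' h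
  obtain ⟨h1, h2, h3⟩ := idx_facts p.2
  obtain ⟨h1', h2', h3'⟩ := idx_facts p'.2
  have hT := (C.gen_dom p).1
  have key : ∀ p : C.Ind, C.s (p.1 : ℕ) (C.gen p) = ((p.2.2 : ℕ) : ℤ) ∧
      C.s ((p.1 : ℕ) + 1) (C.gen p) < 0 ∧ dt (C.α (2 * (p.1 : ℕ) + 1)) (C.gen p) = -(p.2.1 : ℤ) := by
    intro p
    obtain ⟨h1, h2, h3⟩ := idx_facts p.2
    have a1 := C.dt_lc_even (p.1 : ℕ) (p.2.1 : ℤ) ((p.2.2 : ℕ) : ℤ)
    refine ⟨a1.1, ?_, a1.2⟩
    rw [s_succ]
    have a2 : C.s (p.1 : ℕ) (C.gen p) = ((p.2.2 : ℕ) : ℤ) := a1.1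
    have a3 : dt (C.α (2 * (p.1 : ℕ) + 1)) (C.gen p) = -(p.2.1 : ℤ) := a1.2
    rw [a2, a3]
    linarith
  have hlt : ∀ p p' : C.Ind, C.gen p = C.gen p' → ¬ ((p.1 : ℕ) < (p'.1 : ℕ)) := by
    intro p p' h hlt
    have a := (key p).2.1
    have b := (key p').1
    have hT := (C.gen_dom p').1
    have c := (C.s_strictAnti hT).antitone (Nat.succ_le_of_lt hlt)
    have c' : C.s (p'.1 : ℕ) (C.gen p') ≤ C.s (Nat.succ (p.1 : ℕ)) (C.gen p') := c
    rw [h] at a
    have d : (0 : ℤ) ≤ ((p'.2.2 : ℕ) : ℤ) := Int.natCast_nonneg _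
    have : C.s ((p.1 : ℕ) + 1) (C.gen p') = C.s (Nat.succ (p.1 : ℕ)) (C.gen p') := rfl
    linarith
  have hj : (p.1 : ℕ) = (p'.1 : ℕ) := by
    rcases lt_trichotomy (p.1 : ℕ) (p'.1 : ℕ) with h' | h' | h'
    · exact absurd h' (hlt p p' h)
    · exact h'
    · exact absurd h' (hlt p' p h.symm)
  obtain ⟨j, x⟩ := p
  obtain ⟨j', x'⟩ := p'
  have hjj : j = j' := Fin.ext hj
  subst hjj
  congr 1
  have k1 := key ⟨j, x⟩
  have k2 := key ⟨j, x'⟩
  rw [h] at k1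
  apply idx_ext
  · have a := k1.2.2
    have b := k2.2.2
    simp only at a b
    linarith
  · have a := k1.1
    have b := k2.1
    simp only at a b
    rw [← a, ← b]

theorem D_ge (C : Cyc R m) : 5 ≤ m ^ 2 + 4 * R := by
  have h1 := C.qpos 1
  rw [C.q1] at h1
  have h2 := C.m_pos
  nlinarith

/-- small norms -/
theorem small_norm (p : C.Ind) : (∃ n, QuadraticAlgebra.norm (C.gen p) = C.q n * (p.2.1 : ℤ) ^ 2 ∧
    n = 2 * (p.1 : ℕ) ∧ (p.2.2 : ℕ) = 0) ∨
    m ^ 2 + 4 * R < 4 * QuadraticAlgebra.norm (C.gen p) ^ 2 := by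
  obtain ⟨h1, h2, h3⟩ := idx_facts p.2
  unfold gen
  rw [norm_even]
  rcases h2.eq_or_lt with h4 | h4
  · left
    refine ⟨_, ?_, rfl, by exact_mod_cast h4.symm⟩
    rw [← h4]
    unfold fv; ring
  · right
    rw [← C.disc (2 * (p.1 : ℕ))]
    exact fv_large (C.κpos _) (C.qpos _) (C.qpos _) (C.pos' _) h4 h3

theorem hone (z : QA R m) (hz : C.Dom z) (h : QuadraticAlgebra.norm z = 1) : z = 1 := by
  obtain ⟨p, rfl⟩ := (C.dom_iff z).mp hz
  obtain ⟨h1, h2, h3⟩ := idx_facts p.2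
  rcases C.small_norm p with ⟨n, hn, hn2, hz0⟩ | h4
  · rw [h] at hn
    have h5 : C.q n ∣ 1 := ⟨_, hn⟩
    have h6 : C.q n = 1 := Int.eq_one_of_dvd_one (C.qpos n).le h5
    have h7 := C.qone n h6
    rw [h6, one_mul] at hn
    have h8 : (p.2.1 : ℤ) = 1 := by nlinarith
    have h9 : (p.1 : ℕ) = 0 := by
      rw [hn2] at h7
      have hl := C.hl
      have hlt := p.1.2
      have hd : C.l ∣ 2 * (p.1 : ℕ) := Nat.dvd_of_mod_eq_zero h7
      have hc : Nat.Coprime C.l 2 := Nat.Coprime.symm (Nat.coprime_two_left.mpr (Nat.odd_iff.mpr hl))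
      have hd2 : C.l ∣ (p.1 : ℕ) := hc.dvd_of_dvd_mul_left hd
      exact Nat.eq_zero_of_dvd_of_lt hd2 hlt
    obtain ⟨⟨j, hj⟩, ⟨U, Z⟩⟩ := p
    simp only at h9 h8 hz0
    subst h9
    unfold gen
    simp only
    rw [h8, hz0]
    unfold lc
    simp only [mul_zero, zero_add, α_zero, α_one]
    ext <;> simp
  · rw [h] at h4
    have := C.D_ge
    omega

end Cyc

section dom

variable [IsDomain (QA R m)]

theorem Cyc.surj (C : Cyc R m) {z : QA R m} (hz : z ≠ 0) :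
    ∃ z' : QA R m, C.Dom z' ∧ Ideal.span {z'} = Ideal.span {z} := by
  have hε : IsUnit (C.α C.l) := by
    rw [QuadraticAlgebra.isUnit_iff_norm_isUnit, C.norm_ε]
    exact isUnit_one.neg
  have key : ∀ z : QA R m, T1 z → ∃ z' : QA R m, C.Dom z' ∧ Ideal.span {z'} = Ideal.span {z} := by
    intro z h
    obtain ⟨j, hj⟩ := C.exists_zpow h
    exact ⟨_, hj, Ideal.span_singleton_mul_right_unit (Units.isUnit _) z⟩
  have key2 : ∀ z : QA R m, 0 < QuadraticAlgebra.norm z →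
      ∃ z' : QA R m, C.Dom z' ∧ Ideal.span {z'} = Ideal.span {z} := by
    intro z hN
    rcases type_cases C.D_pos hN.ne' with (h | h) | (h | h)
    · exact key z h
    · exact absurd h.1 (by linarith)
    · obtain ⟨z', h1, h2⟩ := key _ h
      exact ⟨z', h1, by rw [h2, Ideal.span_singleton_neg]⟩
    · exact absurd h.1 (by rw [QuadraticAlgebra.norm_neg]; linarith)
  rcases lt_or_gt_of_ne (norm_ne_zero hz) with h | h
  · obtain ⟨z', h1, h2⟩ := key2 (z * C.α C.l) (by rw [map_mul, C.norm_ε]; linarith)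
    exact ⟨z', h1, by rw [h2, Ideal.span_singleton_mul_right_unit hε]⟩
  · exact key2 z h

theorem Cyc.inj (C : Cyc R m) {z z' : QA R m} (hz : C.Dom z) (hz' : C.Dom z')
    (h : Ideal.span {z} = Ideal.span {z'}) : z = z' := by
  obtain ⟨η, hη⟩ := Ideal.span_singleton_eq_span_singleton.mp h
  have hηu : IsUnit (QuadraticAlgebra.norm (η : QA R m)) :=
    QuadraticAlgebra.isUnit_iff_norm_isUnit.mp η.isUnit
  have hη1 : QuadraticAlgebra.norm (η : QA R m) = 1 := by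
    rcases Int.isUnit_iff.mp hηu with h1 | h1
    · exact h1
    · exfalso
      have h2 := hz'.1.1
      rw [← hη, map_mul, h1] at h2
      linarith [hz.1.1]
  have hNj : ∀ j : ℤ, QuadraticAlgebra.norm ((C.eu ^ j : (QA R m)ˣ) : QA R m) = 1 := by
    intro j
    have h1 := (T1_zpow C.D_pos C.eu C.norm_e C.T1_e j).1
    have h2 : IsUnit (QuadraticAlgebra.norm ((C.eu ^ j : (QA R m)ˣ) : QA R m)) :=
      QuadraticAlgebra.isUnit_iff_norm_isUnit.mp (Units.isUnit _)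
    rcases Int.isUnit_iff.mp h2 with h3 | h3
    · exact h3
    · linarith
  have key : ∀ θ : (QA R m)ˣ, QuadraticAlgebra.norm (θ : QA R m) = 1 → T1 (θ : QA R m) →
      ∃ j : ℤ, (θ : QA R m) = ((C.eu ^ j : (QA R m)ˣ) : QA R m) := by
    intro θ hθ hT
    obtain ⟨j, hj⟩ := C.exists_zpow hT
    have h1 := C.hone _ hj (by rw [map_mul, hθ, hNj, one_mul])
    refine ⟨-j, ?_⟩
    rw [zpow_neg]
    exact (Units.eq_inv_of_mul_eq_one_right (u := C.eu ^ j) h1 :)
  rcases type_cases C.D_pos (z := (η : QA R m)) (by rw [hη1]; norm_num) with (h1 | h1) | (h1 | h1)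
  · obtain ⟨j, hj⟩ := key η hη1 h1
    rw [← hη, hj] at hz'
    have := C.unique_zpow hz hz'
    rw [← hη, hj, this]; simp
  · exact absurd h1.1 (by rw [hη1]; norm_num)
  · exfalso
    obtain ⟨j, hj⟩ := key (-η) (by rw [Units.val_neg, QuadraticAlgebra.norm_neg, hη1])
      (by rw [Units.val_neg]; exact h1)
    have h2 : T1 (z * ((C.eu ^ j : (QA R m)ˣ) : QA R m)) :=
      T1_mul C.D_pos hz.1 (T1_zpow C.D_pos C.eu C.norm_e C.T1_e j)
    rw [← hj, Units.val_neg, mul_neg, hη] at h2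
    have h3 := h2.2
    have h4 : QuadraticAlgebra.trace (-z') = - QuadraticAlgebra.trace z' := by simp
    rw [h4] at h3
    linarith [hz'.1.2]
  · exact absurd h1.1 (by rw [QuadraticAlgebra.norm_neg, hη1]; norm_num)

end dom

end Pool.Agent.N911
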