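import Pool.Agent.N911.A2

/-! The main identity for a cycle. -/

namespace Pool.Agent.N911

open H419R2 QuadraticAlgebra Module Finset Filter Topology

variable {R m : ℤ}

/-- analytic comparison -/
theorem compare1 {R m : ℤ} [IsDomain (QA R m)] [IsPrincipalIdealRing (QA R m)]
    {P : Type*} (gen : P → QA R m) (hφ : Function.Injective (fun p => Ideal.span {gen p}))
    (hr : ∀ I : Ideal (QA R m), I ≠ ⊥ ↔ I ∈ Set.range (fun p => Ideal.span {gen p}))
    {D q : ℕ} [NeZero q] (hD : (D : ℤ) = m ^ 2 + 4 * R) (hD1 : 1 < D) (hm : m % 2 = 1)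
    (hR : R % 2 = 1)
    (hcop : q.Coprime D) {F : ZMod q → ℝ} (hodd : ∀ x, F (-x) = -F x) {W : ℝ → ℝ} {c0 : ℝ}
    (hW : ∀ᶠ t in 𝓝[>] (0 : ℝ), HasSum (fun p => F (((QuadraticAlgebra.norm (gen p)).natAbs : ℕ)) *
      Real.exp (-(t * (QuadraticAlgebra.norm (gen p)).natAbs))) (W t))
    (hexp : HasExp W c0) :
    (∑ l ∈ range (q * D), ∑ a ∈ range q, (l : ℝ) * a * jacobiSym l D * F ((a * l : ℕ)))
        / (q * (q * D)) = c0 := by
  obtain ⟨hD2, hJ⟩ := jac_two hD hm hR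
  have hlim := Lside_limit hD1 hcop hD2 hJ hodd
  refine (hexp.congr ?_).unique hlim
  have hF0 : F 0 = 0 := by
    have := hodd 0
    rw [neg_zero] at this
    linarith
  filter_upwards [hW, self_mem_nhdsWithin] with t hWt ht
  have ht' : (0 : ℝ) < t := ht
  have hN : ∀ p, F (((QuadraticAlgebra.norm (gen p)).natAbs : ℕ)) *
      Real.exp (-(t * (QuadraticAlgebra.norm (gen p)).natAbs)) =
      (fun n : ℕ => F n * Real.exp (-(t * n))) (Ideal.absNorm (Ideal.span {gen p})) := by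
    intro p; rw [absNorm_span]
  rw [funext hN] at hWt
  have h1 := tsum_ideals (fun p => Ideal.span {gen p}) hφ hr
    (fun n : ℕ => F n * Real.exp (-(t * n))) (by simp [hF0]) hWt.summable
  have h2 := Lside_hasSum (f := fun n : ℕ => F n) hD1 (by simp [hF0])
    (Φ := ∑ x : ZMod q, |F x|)
    (fun j => Finset.single_le_sum (f := fun x => |F x|) (fun _ _ => abs_nonneg _)
      (Finset.mem_univ _)) ht'
  have h3 : (fun n : ℕ => F n * Real.exp (-(t * n)) * (cnt R m n : ℝ)) =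
      (fun n : ℕ => F n * Real.exp (-(t * n)) * (rr D n : ℝ)) := by
    funext n
    by_cases hn : n = 0
    · subst hn; simp [hF0]
    · have h4 := cnt_eq_rr hD hm hR n hn
      have h5 : (cnt R m n : ℝ) = (rr D n : ℝ) := by
        rw [← h4]; push_cast; rfl
      rw [h5]
  rw [h3] at h1
  have h6 := h1.unique h2
  rw [hWt.tsum_eq] at h6
  exact h6

theorem hasSum_sigma_fin {l : ℕ} {β : Fin l → Type*} {f : (Σ j, β j) → ℝ} {g : Fin l → ℝ}
    (h : ∀ j, HasSum (fun c => f ⟨j, c⟩) (g j)) : HasSum f (∑ j, g j) := by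
  have hs : Summable f := by
    rw [← summable_norm_iff, summable_sigma_of_nonneg (fun _ => norm_nonneg _)]
    exact ⟨fun j => (h j).summable.norm, Summable.of_finite⟩
  exact HasSum.sigma_of_hasSum (hasSum_fintype g) h hs

theorem SS_bz {q : ℕ} [NeZero q] {ψ : ZMod q → ZMod q → ℝ} (h2 : ∀ u w, ψ (-u) (-w) = ψ u w)
    (h0 : ψ 0 0 = 0) :
    SS (fun u w => ψ u w * (bz u * bz w)) = SS (fun u w => ψ u w * (B1 u * B1 w)) := by
  have a1 := SS_B1_zero (q := q) (ψ := ψ) h2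
  have a2 := SS_B1_zero (q := q) (ψ := fun u w => ψ w u) (fun u w => h2 w u)
  rw [SS_swap] at a2
  have a3 : SS (fun u w : ZMod q => ψ u w * ((if u = 0 then 1 / 2 else 0) *
      (if w = 0 then 1 / 2 else 0))) = 0 := by
    unfold SS
    rw [Finset.sum_eq_single 0]
    · rw [Finset.sum_eq_single 0]
      · beta_reduce; rw [h0]; ring
      · intro y _ hy
        beta_reduce; rw [if_neg hy]; ring
      · intro h; exact absurd (Finset.mem_univ _) h
    · intro x _ hx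
      apply Finset.sum_eq_zero
      intro y _
      beta_reduce; rw [if_neg hx]; ring
    · intro h; exact absurd (Finset.mem_univ _) h
  have a4 : SS (fun u w => ψ u w * (bz u * bz w)) =
      SS (fun u w => (ψ u w * (B1 u * B1 w) - (1 / 2) * (ψ u w * (2 * B1 u * (if w = 0 then 1 / 2 else 0))))
        + (-(1 / 2) * (ψ u w * (2 * B1 w * (if u = 0 then 1 / 2 else 0))) +
          ψ u w * ((if u = 0 then 1 / 2 else 0) * (if w = 0 then 1 / 2 else 0)))) := by
    apply SS_congr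
    intro u w
    rw [bz_eq u, bz_eq w]
    ring
  rw [a4, SS_add, SS_sub, SS_mul, a1, SS_add, SS_mul, a2, a3]
  ring

theorem SS_shear {q : ℕ} [NeZero q] (κ : ZMod q) (h : ZMod q → ZMod q → ℝ) :
    SS h = SS (fun x y => h x (κ * x + y)) := by
  unfold SS
  apply Finset.sum_congr rfl
  intro x _
  exact (Equiv.sum_comp (Equiv.addLeft (κ * x)) (fun y => h x y)).symm

namespace Cyc

variable (C : Cyc R m)

/-- the wedge at `n` -/
def wd (n : ℕ) : Wedge where
  κ := C.κ n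
  a := ((C.q n : ℤ) : ℝ)
  b := ((C.b n : ℤ) : ℝ)
  d := ((-C.q (n + 1) : ℤ) : ℝ)
  δ := 1
  hδ := one_pos
  hpos := by
    rintro σ ⟨h1, h2⟩
    have hκ : (0 : ℝ) < C.κ n := by exact_mod_cast C.κpos n
    have hA : (1 : ℝ) ≤ ((C.q n : ℤ) : ℝ) := by exact_mod_cast C.qpos n
    have hC : (1 : ℝ) ≤ ((C.q (n + 1) : ℤ) : ℝ) := by exact_mod_cast C.qpos (n + 1)
    have hA' : (1 : ℝ) ≤ ((C.q (n + 2) : ℤ) : ℝ) := by exact_mod_cast C.qpos (n + 2)
    have hr := C.recq n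
    have hr' : ((C.q (n + 2) : ℤ) : ℝ) = ((C.q n : ℤ) : ℝ) + ((C.b n : ℤ) : ℝ) * C.κ n -
      ((C.q (n + 1) : ℤ) : ℝ) * (C.κ n : ℝ) ^ 2 := by
      rw [hr]; push_cast; ring
    have h : (C.κ n : ℝ) * (((C.q n : ℤ) : ℝ) + ((C.b n : ℤ) : ℝ) * σ +
        ((-C.q (n + 1) : ℤ) : ℝ) * σ ^ 2) = ((C.q n : ℤ) : ℝ) * (C.κ n - σ) +
        ((C.q (n + 2) : ℤ) : ℝ) * σ + C.κ n * ((C.q (n + 1) : ℤ) : ℝ) * (σ * (C.κ n - σ)) := by
      rw [hr']; push_cast; ring
    have h3 : 0 ≤ C.κ n - σ := by linarith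
    have h4 : (C.κ n - σ) ≤ ((C.q n : ℤ) : ℝ) * (C.κ n - σ) := by nlinarith
    have h5 : σ ≤ ((C.q (n + 2) : ℤ) : ℝ) * σ := by nlinarith
    have h6 : 0 ≤ C.κ n * ((C.q (n + 1) : ℤ) : ℝ) * (σ * (C.κ n - σ)) := by positivity
    have h7 : (C.κ n : ℝ) * 1 ≤ (C.κ n : ℝ) * (((C.q n : ℤ) : ℝ) + ((C.b n : ℤ) : ℝ) * σ +
        ((-C.q (n + 1) : ℤ) : ℝ) * σ ^ 2) := by
      rw [h]; linarith
    exact le_of_mul_le_mul_left h7 hκ

section sums

variable {N : ℕ} [NeZero N] (F : ZMod N → ℝ)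

/-- form modulo `N` -/
def fz (N : ℕ) (n : ℕ) (u w : ZMod N) : ZMod N :=
  (C.q n : ZMod N) * u ^ 2 + (C.b n : ZMod N) * (u * w) - (C.q (n + 1) : ZMod N) * w ^ 2

omit [NeZero N] in
theorem fz_step (n : ℕ) (u w : ZMod N) :
    C.fz N n u ((C.κ n : ZMod N) * u + w) = -C.fz N (n + 1) w u := by
  unfold fz
  have h1 : (C.q (n + 1 + 1) : ZMod N) = (C.q n : ZMod N) + (C.b n : ZMod N) * (C.κ n : ZMod N) -
      (C.q (n + 1) : ZMod N) * (C.κ n : ZMod N) ^ 2 := by
    rw [show n + 1 + 1 = n + 2 from rfl, C.recq]; push_cast; ring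
  have h2 : (C.b (n + 1) : ZMod N) = 2 * (C.κ n : ZMod N) * (C.q (n + 1) : ZMod N) - (C.b n : ZMod N) := by
    rw [C.recb]; push_cast; ring
  rw [h1, h2]
  ring

/-- first sum -/
noncomputable def EE (n : ℕ) : ℝ := SS (fun u w => F (C.fz N n u w) * (B1 u * B1 w))

/-- second sum -/
noncomputable def YY (n : ℕ) : ℝ := SS (fun u w => F (C.fz N n u w) * B2 w)

variable {F}

theorem XX_eq (hodd : ∀ x, F (-x) = -F x) (n : ℕ) :
    SS (fun u w => F (C.fz N n u w) * B2 u) = - C.YY F (n + 1) := by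
  rw [SS_shear (C.κ n : ZMod N)]
  unfold YY
  rw [SS_swap (fun u w => F (C.fz N (n + 1) u w) * B2 w)]
  have : SS (fun x y => F (C.fz N n x ((C.κ n : ZMod N) * x + y)) * B2 x) =
      SS (fun x y => (-1) * (F (C.fz N (n + 1) y x) * B2 x)) := by
    apply SS_congr
    intro x y
    rw [C.fz_step, hodd]; ring
  rw [this, SS_mul]; ring

theorem C0_wd (hodd : ∀ x, F (-x) = -F x) (n : ℕ) :
    (C.wd n).C0 N (fun u w => F (C.fz N n u w)) =
      C.EE F n + C.EE F (n + 1) + C.κ n / 2 * C.YY F (n + 1) +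
        C.b (n + 1) / (4 * C.q (n + 2)) * C.YY F (n + 2) + C.b n / (4 * C.q n) * C.YY F n := by
  have hF0 : F 0 = 0 := by
    have := hodd 0
    rw [neg_zero] at this
    linarith
  have hev : ∀ n (u w : ZMod N), F (C.fz N n (-u) (-w)) = F (C.fz N n u w) := by
    intro n u w; congr 1; unfold fz; ring
  have h00 : ∀ n, F (C.fz N n 0 0) = 0 := by
    intro n
    have : C.fz N n 0 0 = 0 := by unfold fz; ring
    rw [this, hF0]
  have hC := (C.wd n).C0_eq (fun u w => F (C.fz N n u w))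
  have hκ : (((C.wd n).κ : ℕ) : ZMod N) = (C.κ n : ZMod N) := rfl
  have e1 : SS (fun u w => F (C.fz N n u w) * B2 u) = - C.YY F (n + 1) := C.XX_eq hodd n
  have e2 : SS (fun u w : ZMod N => F (C.fz N n u (((C.wd n).κ : ℕ) * u + w)) * (bz u * bz w)) =
      - C.EE F (n + 1) := by
    unfold EE
    rw [← SS_bz (hev (n + 1)) (h00 (n + 1)),
      SS_swap (fun u w : ZMod N => F (C.fz N (n + 1) u w) * (bz u * bz w))]
    have : SS (fun u w : ZMod N => F (C.fz N n u (((C.wd n).κ : ℕ) * u + w)) * (bz u * bz w)) =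
      SS (fun x y => (-1) * (F (C.fz N (n + 1) y x) * (bz y * bz x))) := by
      apply SS_congr
      intro x y
      rw [hκ, C.fz_step, hodd]; ring
    rw [this, SS_mul]; ring
  have e3 : SS (fun u w : ZMod N => F (C.fz N n u w) * (bz u * bz w)) = C.EE F n :=
    SS_bz (hev n) (h00 n)
  have e4 : SS (fun u w : ZMod N => F (C.fz N n u (((C.wd n).κ : ℕ) * u + w)) * B2 w) =
      C.YY F (n + 2) := by
    have h1 := C.XX_eq hodd (n + 1)
    have h2 : SS (fun u w : ZMod N => F (C.fz N n u (((C.wd n).κ : ℕ) * u + w)) * B2 w) =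
      SS (fun x y => (-1) * (F (C.fz N (n + 1) y x) * B2 y)) := by
      apply SS_congr
      intro x y
      rw [hκ, C.fz_step, hodd]; ring
    rw [h2, SS_mul, ← SS_swap (fun x y => F (C.fz N (n + 1) x y) * B2 x), h1]; ring
  have g1 : (C.wd n).gs (C.wd n).κ = C.q (n + 2) := by
    have hr := C.recq n
    have hr' : ((C.q (n + 2) : ℤ) : ℝ) = ((C.q n : ℤ) : ℝ) + ((C.b n : ℤ) : ℝ) * C.κ n -
      ((C.q (n + 1) : ℤ) : ℝ) * (C.κ n : ℝ) ^ 2 := by
      rw [hr]; push_cast; ring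
    simp only [Wedge.gs, wd]
    rw [hr']; push_cast; ring
  have g2 : (C.wd n).gs 0 = C.q n := by simp [Wedge.gs, wd]
  have g3 : (C.wd n).b + 2 * (C.wd n).d * (C.wd n).κ = - C.b (n + 1) := by
    have hr := C.recb n
    have hr' : ((C.b (n + 1) : ℤ) : ℝ) = 2 * C.κ n * C.q (n + 1) - C.b n := by
      rw [hr]; push_cast; ring
    simp only [wd]
    rw [hr']; push_cast; ring
  have g4 : (C.wd n).b = C.b n := rfl
  have g5 : (((C.wd n).κ : ℕ) : ℝ) = C.κ n := rfl
  have e5 : SS (fun u w => F (C.fz N n u w) * B2 w) = C.YY F n := rfl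
  rw [hC, e1, e2, e3, e4, g1, g2, g3, g4, g5, e5]
  ring

/-- summand -/
noncomputable def HH (F : ZMod N → ℝ) (n : ℕ) : ℝ := C.EE F n + C.κ n / 2 * C.YY F (n + 1)

/-- telescoping term -/
noncomputable def WW (F : ZMod N → ℝ) (n : ℕ) : ℝ := C.b n / (4 * C.q n) * C.YY F n

theorem C0_wd' (hodd : ∀ x, F (-x) = -F x) (n : ℕ) :
    (C.wd n).C0 N (fun u w => F (C.fz N n u w)) =
      C.HH F n + C.HH F (n + 1) + C.WW F n - C.WW F (n + 2) := by
  rw [C.C0_wd hodd]
  unfold HH WW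
  have hr' : ((C.b (n + 1 + 1) : ℤ) : ℝ) = 2 * C.κ (n + 1) * C.q (n + 2) - C.b (n + 1) := by
    rw [C.recb (n + 1)]; push_cast; ring
  have hq : (C.q (n + 2) : ℝ) ≠ 0 := by
    have := C.qpos (n + 2)
    have h : (0 : ℝ) < C.q (n + 2) := by exact_mod_cast this
    exact h.ne'
  have hr2 : (C.b (n + 1) : ℝ) / (4 * C.q (n + 2)) = C.κ (n + 1) / 2 - C.b (n + 2) / (4 * C.q (n + 2)) := by
    have : (C.b (n + 2) : ℝ) = 2 * C.κ (n + 1) * C.q (n + 2) - C.b (n + 1) := hr'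
    rw [this]
    field_simp
    ring
  rw [hr2]
  ring

theorem sum_C0 (hodd : ∀ x, F (-x) = -F x) (k : ℕ) :
    ∑ j ∈ range k, (C.wd (2 * j)).C0 N (fun u w => F (C.fz N (2 * j) u w)) =
      ∑ n ∈ range (2 * k), C.HH F n + C.WW F 0 - C.WW F (2 * k) := by
  induction k with
  | zero => simp
  | succ k ih =>
    rw [Finset.sum_range_succ, ih, C.C0_wd' hodd, show 2 * (k + 1) = 2 * k + 1 + 1 by ring,
      Finset.sum_range_succ, Finset.sum_range_succ]
    ring

omit [NeZero N] in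
theorem fz_per (n : ℕ) (u w : ZMod N) : C.fz N (n + C.l) u w = C.fz N n u w := by
  unfold fz
  rw [C.qper, C.bper, show n + C.l + 1 = (n + 1) + C.l by ring, C.qper]

theorem YY_per (n : ℕ) : C.YY F (n + C.l) = C.YY F n := by
  unfold YY
  simp only [fz_per]

theorem EE_per (n : ℕ) : C.EE F (n + C.l) = C.EE F n := by
  unfold EE
  simp only [fz_per]

theorem HH_per (n : ℕ) : C.HH F (n + C.l) = C.HH F n := by
  unfold HH
  rw [EE_per, C.κper, show n + C.l + 1 = (n + 1) + C.l by ring, YY_per]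

theorem WW_per (n : ℕ) : C.WW F (n + C.l) = C.WW F n := by
  unfold WW
  rw [YY_per, C.bper, C.qper]

theorem sum_C0' (hodd : ∀ x, F (-x) = -F x) :
    ∑ j ∈ range C.l, (C.wd (2 * j)).C0 N (fun u w => F (C.fz N (2 * j) u w)) =
      2 * ∑ n ∈ range C.l, C.HH F n := by
  rw [C.sum_C0 hodd, two_mul C.l]
  have h1 := C.WW_per (F := F) C.l
  have h2 := C.WW_per (F := F) 0
  rw [zero_add] at h2
  rw [h1, h2, Finset.sum_range_add]
  have h3 : ∑ x ∈ range C.l, C.HH F (C.l + x) = ∑ n ∈ range C.l, C.HH F n := by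
    apply Finset.sum_congr rfl
    intro x _
    rw [add_comm, HH_per]
  rw [h3]
  ring

end sums

/-- The main identity. -/
theorem main_identity [IsDomain (QA R m)] [IsPrincipalIdealRing (QA R m)]
    {D N : ℕ} [NeZero N] (hD : (D : ℤ) = m ^ 2 + 4 * R) (hD1 : 1 < D) (hm : m % 2 = 1)
    (hR : R % 2 = 1) (hcop : N.Coprime D) {F : ZMod N → ℝ} (hodd : ∀ x, F (-x) = -F x) :
    (∑ l ∈ range (N * D), ∑ a ∈ range N, (l : ℝ) * a * jacobiSym l D * F ((a * l : ℕ)))
        / (N * (N * D)) = 2 * ∑ n ∈ range C.l, C.HH F n := by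
  rw [← C.sum_C0' hodd]
  have hΦ : ∀ x, |F x| ≤ ∑ x : ZMod N, |F x| := fun x =>
    Finset.single_le_sum (f := fun x => |F x|) (fun _ _ => abs_nonneg _) (Finset.mem_univ x)
  rw [← Fin.sum_univ_eq_sum_range
    (fun j => (C.wd (2 * j)).C0 N (fun u w => F (C.fz N (2 * j) u w))) C.l]
  have hfz : ∀ n, (fun (u w : ℕ) => F (C.fz N n u w)) = (fun u w : ℕ => F ((C.q n : ZMod N) * (u : ZMod N) ^ 2 +
      (C.b n : ZMod N) * u * w + ((-C.q (n + 1) : ℤ) : ZMod N) * (w : ZMod N) ^ 2)) := by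
    intro n
    funext u w
    congr 1
    unfold fz
    push_cast; ring
  have hexpf : ∀ n, HasExp ((C.wd n).WS (fun u w => F (C.fz N n u w)))
      ((C.wd n).C0 N (fun u w => F (C.fz N n u w))) := by
    intro n
    have h := (C.wd n).hasExp F (C.q n) (C.b n) (-C.q (n + 1))
    rw [hfz n]
    exact h
  refine compare1 C.gen ?_ ?_ hD hD1 hm hR hcop hodd
    (W := fun t => ∑ j : Fin C.l, (C.wd (2 * (j : ℕ))).WS (fun u w => F (C.fz N (2 * (j : ℕ)) u w)) t)
    ?_ ?_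
  · intro p p' h
    exact C.gen_inj (C.inj (C.gen_dom p) (C.gen_dom p') h)
  · intro I
    constructor
    · intro hI
      obtain ⟨z, rfl⟩ := exists_gen I
      have hz : z ≠ 0 := by
        rintro rfl; simp at hI
      obtain ⟨z', h1, h2⟩ := C.surj hz
      obtain ⟨p, rfl⟩ := (C.dom_iff z').mp h1
      exact ⟨p, h2⟩
    · rintro ⟨p, rfl⟩
      simp only [ne_eq, Ideal.span_singleton_eq_bot]
      intro h
      have h1 := (C.gen_dom p).1.1
      rw [h] at h1
      simp at h1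
  · have hsm : ∀ᶠ t in 𝓝[>] (0 : ℝ), ∀ j : Fin C.l, 0 < t ∧ t * (C.wd (2 * (j : ℕ))).Γ ≤ 1 := by
      rw [Filter.eventually_all]
      intro j
      exact (C.wd (2 * (j : ℕ))).small
    filter_upwards [hsm] with t ht
    apply hasSum_sigma_fin
    intro j
    have := (C.wd (2 * (j : ℕ))).hasSum_int hΦ (a := C.q (2 * j)) (b := C.b (2 * j))
      (d := -C.q (2 * j + 1)) rfl rfl rfl (ht j).1 (ht j).2
    rw [hfz]
    refine (congrArg (fun g : Idx (C.κ (2 * (j : ℕ))) → ℝ => HasSum g _) (funext fun p => ?_)).mpr this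
    have e : (QuadraticAlgebra.norm (C.gen ⟨j, p⟩)).natAbs =
        (C.q (2 * j) * (p.1 : ℤ) ^ 2 + C.b (2 * j) * p.1 * ((p.2 : ℕ) : ℤ) +
          -C.q (2 * j + 1) * ((p.2 : ℕ) : ℤ) ^ 2).natAbs := by
      unfold gen
      rw [norm_even]
      unfold fv
      congr 1
      ring
    rw [e]
  · have : ∀ s : Finset (Fin C.l), HasExp
        (fun t => ∑ j ∈ s, (C.wd (2 * (j : ℕ))).WS (fun u w => F (C.fz N (2 * (j : ℕ)) u w)) t)
        (∑ j ∈ s, (C.wd (2 * (j : ℕ))).C0 N (fun u w => F (C.fz N (2 * (j : ℕ)) u w))) := by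
      classical
      intro s
      induction s using Finset.induction_on with
      | empty =>
        refine ⟨0, 0, 0, ?_⟩
        filter_upwards with t
        simp
      | insert j s hj ih =>
        have h1 := HasExp.add (hexpf (2 * (j : ℕ))) ih
        simp only [Finset.sum_insert hj]
        exact h1
    exact this Finset.univ

end Cyc

end Pool.Agent.N911
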