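import Pool.Agent.N911.A5

/-! From periods 1, 3, 5 to `Good5`. -/

namespace Pool.Agent.N911

open H419R2 QuadraticAlgebra Module Finset

theorem good1 {t : ℕ} (ht0 : 0 < t) {D : ℕ} (hD : (D : ℤ) = (t : ℤ) ^ 2 + 4 * 1)
    (hsf : Squarefree (D : ℤ)) (ht : t % 2 = 1)
    {K : Type*} [Field K] [NumberField K] (hK : Module.finrank ℚ K = 2) {x : K}
    (hx : x ^ 2 = ((D : ℤ) : K)) (hcl : NumberField.classNumber K = 1) :
    Good5 t 1 0 0 D := by
  refine good_of_cyc (cyc1 t ht0) hD hsf ht (by ring) (fun n => Or.inl rfl) ?_ hK hx hcl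
  intro N hN F _
  exact rel1 t ht0

theorem good3 {t a : ℕ} {P : ℤ} (ht0 : 0 < t) (ha : 0 < a) (hP : 1 < P)
    (hc : 1 + a * t - (a : ℤ) ^ 2 * P = P)
    {D : ℕ} (hD : (D : ℤ) = (t : ℤ) ^ 2 + 4 * P)
    (hsf : Squarefree (D : ℤ)) (ht : t % 2 = 1)
    {K : Type*} [Field K] [NumberField K] (hK : Module.finrank ℚ K = 2) {x : K}
    (hx : x ^ 2 = ((D : ℤ) : K)) (hcl : NumberField.classNumber K = 1) :
    Good5 t P a 0 D := by
  refine good_of_cyc (cyc3 a t P ha ht0 hP hc) hD hsf ht (by rw [hc]; ring) ?_ ?_ hK hx hcl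
  · intro n
    have : (cyc3 a t P ha ht0 hP hc).q n = v3 1 P P n := rfl
    rw [this]
    unfold v3
    split_ifs
    · left; rfl
    · right; left; rfl
    · right; left; rfl
  · intro N hN F hodd
    exact rel3 hodd a t P ha ht0 hP hc

theorem good5 {t a b : ℕ} {P : ℤ} (ht0 : 0 < t) (ha : 0 < a) (hb : 0 < b) (hP : 1 < P)
    (hQ : 1 < 1 + a * t - (a : ℤ) ^ 2 * P)
    (hc : P + b * (2 * a * P - t) - (b : ℤ) ^ 2 * (1 + a * t - (a : ℤ) ^ 2 * P) =
      1 + a * t - (a : ℤ) ^ 2 * P)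
    {D : ℕ} (hD : (D : ℤ) = (t : ℤ) ^ 2 + 4 * P)
    (hsf : Squarefree (D : ℤ)) (ht : t % 2 = 1)
    {K : Type*} [Field K] [NumberField K] (hK : Module.finrank ℚ K = 2) {x : K}
    (hx : x ^ 2 = ((D : ℤ) : K)) (hcl : NumberField.classNumber K = 1) :
    Good5 t P a b D := by
  refine good_of_cyc (cyc5 a b t P _ ha hb ht0 hP hQ rfl hc) hD hsf ht hc ?_ ?_ hK hx hcl
  · intro n
    have : (cyc5 a b t P _ ha hb ht0 hP hQ rfl hc).q n =
      v5 1 P (1 + a * t - (a : ℤ) ^ 2 * P) (1 + a * t - (a : ℤ) ^ 2 * P) P n := rfl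
    rw [this]
    unfold v5
    split_ifs
    · left; rfl
    · right; left; rfl
    · right; right; rfl
    · right; right; rfl
    · right; left; rfl
  · intro N hN F hodd
    exact rel5 hodd a b t P _ ha hb ht0 hP hQ rfl hc

/-- the parameters of a period of length 1, 3 or 5 -/
def Par (t P a b : ℤ) : Prop :=
  0 < t ∧ 1 ≤ P ∧ ((P = 1 ∧ a = 0 ∧ b = 0) ∨
    (1 < P ∧ 0 < a ∧ b = 0 ∧ 1 + a * t - a ^ 2 * P = P) ∨
    (1 < P ∧ 0 < a ∧ 0 < b ∧ 1 < 1 + a * t - a ^ 2 * P ∧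
      P + b * (2 * a * P - t) - b ^ 2 * (1 + a * t - a ^ 2 * P) = 1 + a * t - a ^ 2 * P))

theorem good_of_par {t P a b : ℤ} (h : Par t P a b) {D : ℕ} (hD : (D : ℤ) = t ^ 2 + 4 * P)
    (hsf : Squarefree (D : ℤ)) (ht : t % 2 = 1)
    {K : Type*} [Field K] [NumberField K] (hK : Module.finrank ℚ K = 2) {x : K}
    (hx : x ^ 2 = ((D : ℤ) : K)) (hcl : NumberField.classNumber K = 1) :
    Good5 t P a b D := by
  obtain ⟨h1, h2, h3⟩ := h
  obtain ⟨t', rfl⟩ := Int.eq_ofNat_of_zero_le h1.le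
  have ht0 : 0 < t' := by exact_mod_cast h1
  have ht' : t' % 2 = 1 := by exact_mod_cast ht
  rcases h3 with ⟨rfl, rfl, rfl⟩ | ⟨hP, ha, rfl, hc⟩ | ⟨hP, ha, hb, hQ, hc⟩
  · exact good1 ht0 hD hsf ht' hK hx hcl
  · obtain ⟨a', rfl⟩ := Int.eq_ofNat_of_zero_le ha.le
    have ha0 : 0 < a' := by exact_mod_cast ha
    exact good3 ht0 ha0 hP hc hD hsf ht' hK hx hcl
  · obtain ⟨a', rfl⟩ := Int.eq_ofNat_of_zero_le ha.le
    obtain ⟨b', rfl⟩ := Int.eq_ofNat_of_zero_le hb.le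
    have ha0 : 0 < a' := by exact_mod_cast ha
    have hb0 : 0 < b' := by exact_mod_cast hb
    exact good5 ht0 ha0 hb0 hP hQ hc hD hsf ht' hK hx hcl

/-- in period 5, `Q = 1` forces `P = 1` -/
theorem P_one {t P a b : ℤ} (ha : 0 < a) (hb : 0 < b) (hP : 1 ≤ P)
    (hQ : 1 + a * t - a ^ 2 * P = 1)
    (hc : P + b * (2 * a * P - t) - b ^ 2 * (1 + a * t - a ^ 2 * P) = 1 + a * t - a ^ 2 * P) :
    P = 1 := by
  have h1 : t = a * P := by
    have : a * (t - a * P) = 0 := by linear_combination hQ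
    rcases mul_eq_zero.mp this with h | h
    · omega
    · linarith
  rw [hQ] at hc
  have h2 : P * (1 + a * b) = 1 + b ^ 2 := by
    rw [h1] at hc
    linear_combination hc
  have d1 : (1 + a * b) ∣ 1 + b ^ 2 := ⟨P, by linear_combination -h2⟩
  have d2 : (1 + a * b) ∣ 1 + a ^ 2 := by
    have : 1 + a ^ 2 = a ^ 2 * (1 + b ^ 2) - (a * b - 1) * (1 + a * b) := by ring
    rw [this]
    exact dvd_sub (d1.mul_left _) (Dvd.intro_left _ rfl)
  have l1 := Int.le_of_dvd (by positivity) d1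
  have l2 := Int.le_of_dvd (by positivity) d2
  have hab : a = b := by nlinarith
  subst hab
  have h3 : (P - 1) * (1 + a * a) = 0 := by linear_combination h2
  rcases mul_eq_zero.mp h3 with h | h
  · omega
  · nlinarith

/-- classification of the data of a period of length 5 -/
theorem par5 {t P a b : ℤ} (ht : 0 < t) (ha : 0 < a) (hb : 0 < b) (hP : 1 ≤ P)
    (hQ : 1 ≤ 1 + a * t - a ^ 2 * P)
    (hc : P + b * (2 * a * P - t) - b ^ 2 * (1 + a * t - a ^ 2 * P) = 1 + a * t - a ^ 2 * P) :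
    ∃ a' b', Par t P a' b' := by
  rcases hP.eq_or_lt with h | h
  · exact ⟨0, 0, ht, hP, Or.inl ⟨h.symm, rfl, rfl⟩⟩
  · rcases hQ.eq_or_lt with h' | h'
    · exact absurd (P_one ha hb hP h'.symm hc) (by omega)
    · exact ⟨a, b, ht, hP, Or.inr (Or.inr ⟨h, ha, hb, h', hc⟩)⟩

/-- classification of the data of a period of length 3 -/
theorem par3 {t P a : ℤ} (ht : 0 < t) (ha : 0 < a) (hP : 1 ≤ P)
    (hc : 1 + a * t - a ^ 2 * P = P) : ∃ a' b', Par t P a' b' := by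
  rcases hP.eq_or_lt with h | h
  · exact ⟨0, 0, ht, hP, Or.inl ⟨h.symm, rfl, rfl⟩⟩
  · exact ⟨a, 0, ht, hP, Or.inr (Or.inl ⟨h, ha, rfl, hc⟩)⟩

end Pool.Agent.N911
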