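import Pool.Agent.N911.N2
import Pool.Agent.N911.C1

/-! The discriminants divisible by four, and the final classification. -/

set_option maxHeartbeats 4000000

namespace Pool.Agent.N911

open H419R2 QuadraticAlgebra Module Finset

section even

variable {K : Type*} [Field K] [NumberField K]

theorem integral_coords_even {n d : ℤ} (hsf : Squarefree d) (h4 : d % 4 = 2 ∨ d % 4 = 3)
    (hd1 : 1 < d) (hK : finrank ℚ K = 2) {x : K}
    (hx : x ^ 2 = (d : K)) {y : K} (hy : IsIntegral ℤ y) :
    ∃ u w : ℤ, y = (u : K) + (w : K) * ((n : K) + x) := by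
  have hns := not_sq_of_squarefree hsf hd1
  obtain ⟨p, q, rfl⟩ := exists_coords hns hK hx y
  by_cases hq : q = 0
  · subst hq
    simp only [Rat.cast_zero, zero_mul, add_zero] at hy
    have hp : IsIntegral ℤ p := by
      have : IsIntegral ℤ (algebraMap ℚ K p) := by simpa using hy
      exact (isIntegral_algebraMap_iff (algebraMap ℚ K).injective).mp this
    obtain ⟨n, hn⟩ := IsIntegrallyClosed.isIntegral_iff.mp hp
    have hn' : (n : ℚ) = p := by simpa using hn
    refine ⟨n, 0, ?_⟩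
    rw [← hn']
    push_cast
    ring
  · obtain ⟨⟨a, ha⟩, ⟨b, hb⟩⟩ := two_int_of_integral hns hx hq hy
    have h5 : (d : ℚ) * (2 * q) ^ 2 = ((a ^ 2 - 4 * b : ℤ) : ℚ) := by
      push_cast
      rw [ha, hb]; ring
    obtain ⟨c, hc⟩ := int_of_squarefree_mul_sq hsf h5
    have h6 : d * c ^ 2 = a ^ 2 - 4 * b := by
      rw [← hc] at h5
      exact_mod_cast h5
    have hpar : a % 2 = 0 ∧ c % 2 = 0 := by
      have h7 : (a ^ 2 - d * c ^ 2) % 4 = 0 := by rw [h6]; ring_nf; omega
      obtain ⟨a', ha'⟩ : ∃ a', a = 4 * a' + a % 4 := ⟨a / 4, by omega⟩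
      obtain ⟨c', hc'⟩ : ∃ c', c = 4 * c' + c % 4 := ⟨c / 4, by omega⟩
      have ha4 : a % 4 = 0 ∨ a % 4 = 1 ∨ a % 4 = 2 ∨ a % 4 = 3 := by omega
      have hc4 : c % 4 = 0 ∨ c % 4 = 1 ∨ c % 4 = 2 ∨ c % 4 = 3 := by omega
      rcases h4 with h4 | h4 <;> rcases ha4 with h | h | h | h <;> rcases hc4 with h' | h' | h' | h' <;>
      simp [Int.sub_emod, Int.mul_emod, pow_two, h, h', h4] at h7 <;> omega
    obtain ⟨u, hu⟩ : ∃ u, a = 2 * u := ⟨a / 2, by omega⟩
    obtain ⟨w, hw⟩ : ∃ w, c = 2 * w := ⟨c / 2, by omega⟩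
    refine ⟨u - n * w, w, ?_⟩
    have hp : p = (u : ℚ) := by
      have : (2 : ℚ) * p = 2 * u := by rw [← ha, hu]; push_cast; ring
      linarith
    have hq' : q = (w : ℚ) := by
      have : (2 : ℚ) * q = 2 * w := by rw [← hc, hw]; push_cast; ring
      linarith
    rw [hp, hq']
    push_cast
    ring

/-- The embedding of `ℤ[ω]` in `K`. -/
noncomputable def embE {n R d : ℤ} (hd : d = n ^ 2 + R) {x : K} (hx : x ^ 2 = (d : K)) :
    QA R (2 * n) →ₐ[ℤ] K :=
  QuadraticAlgebra.lift ⟨(n : K) + x, by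
    have hD' : (d : K) = (n : K) ^ 2 + R := by rw [hd]; push_cast; ring
    simp only [zsmul_eq_mul]
    rw [hD'] at hx
    push_cast
    linear_combination hx⟩

theorem embE_apply {n R d : ℤ} (hd : d = n ^ 2 + R) {x : K} (hx : x ^ 2 = (d : K))
    (z : QA R (2 * n)) : embE hd hx z = (z.re : K) + (z.im : K) * ((n : K) + x) := by
  simp [embE, QuadraticAlgebra.lift, Algebra.smul_def]

theorem pid_even {n R d : ℤ} (hd : d = n ^ 2 + R)
    (hsf : Squarefree d) (h4 : d % 4 = 2 ∨ d % 4 = 3) (hd1 : 1 < d) (hK : finrank ℚ K = 2) {x : K}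
    (hx : x ^ 2 = (d : K)) (hcl : NumberField.classNumber K = 1) :
    IsPrincipalIdealRing (QA R (2 * n)) := by
  have hns := not_sq_of_squarefree hsf hd1
  have hxr : ∀ p q : ℤ, (p : K) + (q : K) * ((n : K) + x) = 0 → p = 0 ∧ q = 0 := by
    intro p q h
    by_cases hq : q = 0
    · subst hq
      simp at h
      exact ⟨h, rfl⟩
    · exfalso
      apply hns
      refine ⟨-(p + q * n) / q, ?_⟩
      have hq' : (q : K) ≠ 0 := by exact_mod_cast hq
      have hxe : x = ((-(p + q * n) / q : ℚ) : K) := by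
        push_cast
        rw [eq_div_iff hq']
        linear_combination h
      have h3 : (((-(p + q * n) / q) ^ 2 : ℚ) : K) = ((d : ℚ) : K) := by
        push_cast
        rw [hxe] at hx
        push_cast at hx
        exact hx
      exact_mod_cast h3
  letI : Algebra (QA R (2 * n)) K := (embE hd hx).toRingHom.toAlgebra
  have hmap : ∀ z : QA R (2 * n), algebraMap (QA R (2 * n)) K z =
      (z.re : K) + (z.im : K) * ((n : K) + x) := fun z => embE_apply hd hx z
  haveI : IsIntegralClosure (QA R (2 * n)) ℤ K := by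
    refine ⟨?_, ?_⟩
    · intro z w hzw
      rw [hmap, hmap] at hzw
      have := hxr (z.re - w.re) (z.im - w.im) (by push_cast; linear_combination hzw)
      ext
      · linarith [this.1]
      · linarith [this.2]
    · intro y
      constructor
      · intro hy
        obtain ⟨u, w, h⟩ := integral_coords_even (n := n) hsf h4 hd1 hK hx hy
        exact ⟨⟨u, w⟩, by rw [hmap, h]⟩
      · rintro ⟨z, rfl⟩
        have : IsIntegral ℤ z := by
          refine ⟨Polynomial.X ^ 2 - Polynomial.C (QuadraticAlgebra.trace z) * Polynomial.X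
            + Polynomial.C (QuadraticAlgebra.norm z), ?_, ?_⟩
          · monicity!
          · rw [← Polynomial.aeval_def]
            simp only [map_add, map_sub, map_pow, map_mul, Polynomial.aeval_X, Polynomial.aeval_C]
            have := QuadraticAlgebra.sq_sub_trace_smul_add_norm_eq_zero z
            simpa [Algebra.smul_def] using this
        exact this.map (embE hd hx)
  haveI : IsScalarTower ℤ (QA R (2 * n)) K := IsScalarTower.of_algebraMap_eq (fun n => by simp)
  have e : NumberField.RingOfIntegers K ≃ₐ[ℤ] QA R (2 * n) :=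
    IsIntegralClosure.equiv ℤ (NumberField.RingOfIntegers K) K (QA R (2 * n))
  rw [NumberField.classNumber_eq_one_iff] at hcl
  exact IsPrincipalIdealRing.of_surjective e.toRingEquiv e.surjective

end even

theorem isDomain_even {n R d : ℤ} (hd : d = n ^ 2 + R) (hns : ¬ ∃ q : ℚ, q ^ 2 = d) :
    IsDomain (QA R (2 * n)) := by
  have hn : ∀ z : QA R (2 * n), QuadraticAlgebra.norm z = 0 → z = 0 := by
    intro z hz
    rw [norm_eq] at hz
    have h1 : (z.re + n * z.im) ^ 2 = d * z.im ^ 2 := by rw [hd]; linear_combination hz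
    have him : z.im = 0 := by
      by_contra h
      apply hns
      refine ⟨(z.re + n * z.im) / z.im, ?_⟩
      have h' : (z.im : ℚ) ≠ 0 := by exact_mod_cast h
      have h2 : ((z.re : ℚ) + n * z.im) ^ 2 = d * (z.im : ℚ) ^ 2 := by exact_mod_cast h1
      field_simp
      linear_combination h2
    have hre : z.re = 0 := by
      rw [him] at h1
      have : z.re ^ 2 = 0 := by linear_combination h1
      exact pow_eq_zero_iff (two_ne_zero) |>.mp this
    ext
    · simpa using hre
    · simpa using him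
  have : NoZeroDivisors (QA R (2 * n)) := by
    refine ⟨?_⟩
    intro a b hab
    have : QuadraticAlgebra.norm a * QuadraticAlgebra.norm b = 0 := by
      rw [← map_mul, hab]; simp
    rcases mul_eq_zero.mp this with h | h
    · left; exact hn a h
    · right; exact hn b h
  exact NoZeroDivisors.to_isDomain _

/-- splitting primes for a cycle given by parameters -/
theorem split_par {t P a b : ℤ} (h : Par t P a b) [IsDomain (QA P t)]
    [IsPrincipalIdealRing (QA P t)] {D : ℕ} (hD : (D : ℤ) = t ^ 2 + 4 * P) {l : ℕ} (hl : l.Prime)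
    (hlD : 4 * (l : ℤ) ^ 2 ≤ D) (hw : ∃ w0 : ℤ, (l : ℤ) ∣ w0 ^ 2 + t * w0 - P) :
    (l : ℤ) = P ∨ (l : ℤ) = 1 + a * t - a ^ 2 * P := by
  have key : ∀ x : ℤ, (x = 1 ∨ x = P ∨ x = 1 + a * t - a ^ 2 * P) → x = l →
      (l : ℤ) = P ∨ (l : ℤ) = 1 + a * t - a ^ 2 * P := by
    intro x hx hxl
    rcases hx with h | h | h
    · exfalso
      rw [h] at hxl
      have : l = 1 := by exact_mod_cast hxl.symm
      exact hl.one_lt.ne' this
    · left; rw [← hxl, h]
    · right; rw [← hxl, h]
  obtain ⟨h1, h2, h3⟩ := h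
  obtain ⟨t', rfl⟩ := Int.eq_ofNat_of_zero_le h1.le
  have ht0 : 0 < t' := by exact_mod_cast h1
  rcases h3 with ⟨rfl, rfl, rfl⟩ | ⟨hP, ha, rfl, hc⟩ | ⟨hP, ha, hb, hQ, hc⟩
  · obtain ⟨n, hn⟩ := (cyc1 t' ht0).split_norm hD hl hlD hw
    exact key _ (Or.inl rfl) hn
  · obtain ⟨a', rfl⟩ := Int.eq_ofNat_of_zero_le ha.le
    have ha0 : 0 < a' := by exact_mod_cast ha
    obtain ⟨n, hn⟩ := (cyc3 a' t' P ha0 ht0 hP hc).split_norm hD hl hlD hw
    refine key _ ?_ hn
    have : (cyc3 a' t' P ha0 ht0 hP hc).q n = v3 1 P P n := rfl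
    rw [this]
    unfold v3
    split_ifs
    · left; rfl
    · right; left; rfl
    · right; left; rfl
  · obtain ⟨a', rfl⟩ := Int.eq_ofNat_of_zero_le ha.le
    obtain ⟨b', rfl⟩ := Int.eq_ofNat_of_zero_le hb.le
    have ha0 : 0 < a' := by exact_mod_cast ha
    have hb0 : 0 < b' := by exact_mod_cast hb
    obtain ⟨n, hn⟩ := (cyc5 a' b' t' P _ ha0 hb0 ht0 hP hQ rfl hc).split_norm hD hl hlD hw
    refine key _ ?_ hn
    have : (cyc5 a' b' t' P _ ha0 hb0 ht0 hP hQ rfl hc).q n =
      v5 1 P (1 + a' * t' - (a' : ℤ) ^ 2 * P) (1 + a' * t' - (a' : ℤ) ^ 2 * P) P n := rfl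
    rw [this]
    unfold v5
    split_ifs
    · left; rfl
    · right; left; rfl
    · right; right; rfl
    · right; right; rfl
    · right; left; rfl

/-- no field with `d ≡ 2, 3 (mod 4)` except `d = 2` -/
theorem even_final {n P a b : ℤ} (h : Par (2 * n) P a b) {d : ℕ} (hd : (d : ℤ) = n ^ 2 + P)
    (hsf : Squarefree (d : ℤ)) (h4 : d % 4 = 2 ∨ d % 4 = 3) (hd1 : 1 < d)
    {K : Type*} [Field K] [NumberField K] (hK : Module.finrank ℚ K = 2) {x : K}
    (hx : x ^ 2 = ((d : ℤ) : K)) (hcl : NumberField.classNumber K = 1) : d = 2 := by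
  have hd1' : (1 : ℤ) < d := by exact_mod_cast hd1
  have h4' : (d : ℤ) % 4 = 2 ∨ (d : ℤ) % 4 = 3 := by omega
  have hns := not_sq_of_squarefree hsf hd1'
  have i1 : IsDomain (QA P (2 * n)) := isDomain_even hd hns
  have i2 : IsPrincipalIdealRing (QA P (2 * n)) := pid_even hd hsf h4' hd1' hK hx hcl
  have hpar := h
  obtain ⟨hn, hP, h3⟩ := h
  by_cases hd4 : 4 ≤ d
  · exfalso
    have hD : ((4 * d : ℕ) : ℤ) = (2 * n) ^ 2 + 4 * P := by push_cast; rw [hd]; ring
    have h5 := split_par hpar hD Nat.prime_two (by push_cast; omega) ⟨P, by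
      have : P ^ 2 + 2 * n * P - P = 2 * (n * P) + P * (P - 1) := by ring
      rw [this]
      apply dvd_add (Dvd.intro _ rfl)
      rcases Int.emod_two_eq_zero_or_one P with h | h
      · exact Dvd.dvd.mul_right (Int.dvd_of_emod_eq_zero h) _
      · exact Dvd.dvd.mul_left (Int.dvd_of_emod_eq_zero (by omega)) _⟩
    rcases h3 with ⟨rfl, rfl, rfl⟩ | h3
    · rcases h5 with h | h <;> norm_num at h
    · obtain ⟨s, hts, hs, hsP, ha, hb, hbP, hP1, he⟩ := shape h3
      rcases h5 with h | h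
      · have hP2 : P = 2 := by rw [← h]; rfl
        subst hP2
        omega
      · have h6 : 1 + a * s = 2 := by
          rw [hts] at h
          push_cast at h
          linear_combination -h
        have ha1 : a = 1 := by nlinarith
        subst ha1
        have hs1 : s = 1 := by linarith
        subst hs1
        have h7 : (P - 2 * b + 1) * (1 + b) = 3 := by linear_combination he
        have h8 : (1 + b) ∣ 3 := ⟨P - 2 * b + 1, by linear_combination -h7⟩
        have h9 := Int.le_of_dvd (by norm_num) h8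
        have hb' : b = 0 ∨ b = 1 ∨ b = 2 := by omega
        rcases hb' with rfl | rfl | rfl
        · omega
        · norm_num at h8
        · omega
  · have : d = 2 ∨ d = 3 := by omega
    rcases this with rfl | rfl
    · rfl
    · exfalso
      have hn1 : n = 1 := by
        push_cast at hd
        nlinarith
      subst hn1
      have hP2 : P = 2 := by push_cast at hd; linarith
      subst hP2
      rcases h3 with ⟨h, _, _⟩ | h3
      · norm_num at h
      · obtain ⟨s, hts, hs, hsP, ha, hb, hbP, hP1, he⟩ := shape h3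
        nlinarith

/-! ### Continued fractions -/

/-- The canonical generator of the ring of integers of `ℚ(√d)`. -/
noncomputable def omega (d : ℕ) : ℝ := if d % 4 = 1 then (1 + √(d : ℝ)) / 2 else √(d : ℝ)

/-- The period length of the simple continued fraction of `omega d`. -/
noncomputable def perLen (d : ℕ) : ℕ :=
  sInf {l : ℕ | 0 < l ∧ nextQ^[l + 1] (omega d) = nextQ (omega d)}

theorem perLen_spec {d : ℕ} (h : Odd (perLen d)) (h5 : perLen d ≤ 5) :
    ∃ l, (l = 1 ∨ l = 3 ∨ l = 5) ∧ nextQ^[l + 1] (omega d) = nextQ (omega d) := by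
  have h0 : perLen d ≠ 0 := by
    intro h'
    rw [h'] at h
    exact absurd h (by decide)
  have hne : {l : ℕ | 0 < l ∧ nextQ^[l + 1] (omega d) = nextQ (omega d)}.Nonempty := by
    by_contra hc
    rw [Set.not_nonempty_iff_eq_empty] at hc
    apply h0
    unfold perLen
    rw [hc]
    exact Nat.sInf_empty
  have h1 := Nat.sInf_mem hne
  refine ⟨perLen d, ?_, h1.2⟩
  obtain ⟨k, hk⟩ := h
  omega

theorem nextQ_shift (x : ℝ) (n : ℤ) (l : ℕ) (h : nextQ^[l + 1] x = nextQ x) :
    nextQ^[l + 1] (x + n) = nextQ (x + n) := by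
  have h1 : nextQ (x + n) = nextQ x := by
    unfold nextQ
    rw [Int.fract_add_intCast]
  rw [Function.iterate_succ_apply, h1, ← Function.iterate_succ_apply, h]

/-- The classification. -/
theorem classification {d : ℕ} (hsf : Squarefree d) (hd1 : 1 < d)
    {K : Type*} [Field K] [NumberField K] (hK : Module.finrank ℚ K = 2) {x : K}
    (hx : x ^ 2 = (d : K)) (hcl : NumberField.classNumber K = 1)
    (hodd : Odd (perLen d)) (h5 : perLen d ≤ 5) : d = 2 ∨ d ∈ Fin29 := by
  obtain ⟨l, hl, hper⟩ := perLen_spec hodd h5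
  have hsf' : Squarefree (d : ℤ) := Int.squarefree_natCast.mpr hsf
  have hd1' : (1 : ℤ) < d := by exact_mod_cast hd1
  have hns := not_sq_of_squarefree hsf' hd1'
  have hx' : x ^ 2 = ((d : ℤ) : K) := by rw [hx]; push_cast; rfl
  have hirr : Irrational (√(d : ℝ)) := by
    rintro ⟨q, hq⟩
    apply hns
    refine ⟨q, ?_⟩
    have h1 : ((q : ℝ)) ^ 2 = d := by
      rw [hq]
      exact Real.sq_sqrt (by positivity)
    have h2 : ((q ^ 2 : ℚ) : ℝ) = ((d : ℚ) : ℝ) := by push_cast; exact h1
    have h3 : q ^ 2 = (d : ℚ) := by exact_mod_cast h2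
    rw [h3]; push_cast; rfl
  have hsq : √(d : ℝ) ^ 2 = d := Real.sq_sqrt (by positivity)
  have hs1 : 1 < √(d : ℝ) := by
    rw [show (1 : ℝ) = √1 by simp]
    apply Real.sqrt_lt_sqrt (by norm_num)
    exact_mod_cast hd1
  by_cases h4 : d % 4 = 1
  · right
    have ho : omega d = (1 + √(d : ℝ)) / 2 := by unfold omega; rw [if_pos h4]
    rw [ho] at hper
    obtain ⟨n, hn⟩ : ∃ n : ℤ, n = ⌊(1 + √(d : ℝ)) / 2⌋ := ⟨_, rfl⟩
    have hn1 : 1 ≤ n := by
      rw [hn]
      apply Int.le_floor.mpr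
      push_cast
      linarith
    have hfl : (n : ℝ) ≤ (1 + √(d : ℝ)) / 2 := by rw [hn]; exact Int.floor_le _
    have hfl2 : (1 + √(d : ℝ)) / 2 < n + 1 := by rw [hn]; exact Int.lt_floor_add_one _
    have hsh := nextQ_shift _ (n - 1) l hper
    set α : ℝ := (1 + √(d : ℝ)) / 2 + ((n - 1 : ℤ) : ℝ) with hα
    have hα' : α = ((2 * n - 1 : ℤ) + √(d : ℝ)) / 2 := by rw [hα]; push_cast; ring
    have hαirr : Irrational α := by
      rw [hα']
      exact ((hirr.intCast_add _).div_natCast (m := 2) (by norm_num))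
    obtain ⟨P, hP⟩ : ∃ P : ℤ, (d : ℤ) = (2 * n - 1) ^ 2 + 4 * P := by
      refine ⟨((d : ℤ) - (2 * n - 1) ^ 2) / 4, ?_⟩
      have : ((d : ℤ) - (2 * n - 1) ^ 2) % 4 = 0 := by
        have e : (d : ℤ) - (2 * n - 1) ^ 2 = d - 1 - 4 * (n ^ 2 - n) := by ring
        rw [e]; omega
      omega
    have hPr : (d : ℝ) = (2 * n - 1) ^ 2 + 4 * P := by exact_mod_cast hP
    have hq : α ^ 2 = ((2 * n - 1 : ℤ) : ℝ) * α + P := by
      rw [hα']
      push_cast
      linear_combination (1 / 4) * hsq + (1 / 4) * hPr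
    have ht : (0 : ℤ) < 2 * n - 1 := by omega
    have hstr : (n : ℝ) < (1 + √(d : ℝ)) / 2 := by
      refine lt_of_le_of_ne hfl ?_
      intro h
      apply hirr
      refine ⟨2 * n - 1, ?_⟩
      push_cast
      linarith
    have hb1 : ((2 * n - 1 : ℤ) : ℝ) < α := by rw [hα]; push_cast; linarith
    have hb2 : α < ((2 * n - 1 : ℤ) : ℝ) + 1 := by rw [hα]; push_cast; linarith
    obtain ⟨a, b, hpar⟩ := par_of_per hq hαirr ht hb1 hb2 hl hsh
    have hodd' : (2 * n - 1) % 2 = 1 := by omega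
    have G := good_of_par hpar hP hsf' hodd' hK hx' hcl
    exact final_par hpar hodd' G
  · left
    have h4' : d % 4 = 2 ∨ d % 4 = 3 := by
      have h0 : d % 4 ≠ 0 := by
        intro h0
        have h1 : (2 * 2) ∣ d := by omega
        have h2 := hsf 2 h1
        exact absurd h2 (by decide)
      omega
    have ho : omega d = √(d : ℝ) := by unfold omega; rw [if_neg h4]
    rw [ho] at hper
    obtain ⟨n, hn⟩ : ∃ n : ℤ, n = ⌊√(d : ℝ)⌋ := ⟨_, rfl⟩
    have hn1 : 1 ≤ n := by
      rw [hn]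
      apply Int.le_floor.mpr
      push_cast
      linarith
    have hfl : (n : ℝ) ≤ √(d : ℝ) := by rw [hn]; exact Int.floor_le _
    have hfl2 : √(d : ℝ) < n + 1 := by rw [hn]; exact Int.lt_floor_add_one _
    have hsh := nextQ_shift _ n l hper
    set α : ℝ := √(d : ℝ) + ((n : ℤ) : ℝ) with hα
    have hαirr : Irrational α := hirr.add_intCast _
    obtain ⟨P, hP⟩ : ∃ P : ℤ, (d : ℤ) = n ^ 2 + P := ⟨d - n ^ 2, by ring⟩
    have hPr : (d : ℝ) = n ^ 2 + P := by exact_mod_cast hP
    have hq : α ^ 2 = ((2 * n : ℤ) : ℝ) * α + P := by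
      rw [hα]
      push_cast
      linear_combination hsq + hPr
    have ht : (0 : ℤ) < 2 * n := by omega
    have hstr : (n : ℝ) < √(d : ℝ) := by
      refine lt_of_le_of_ne hfl ?_
      intro h
      exact hirr ⟨n, by push_cast; exact h⟩
    have hb1 : ((2 * n : ℤ) : ℝ) < α := by rw [hα]; push_cast; linarith
    have hb2 : α < ((2 * n : ℤ) : ℝ) + 1 := by rw [hα]; push_cast; linarith
    obtain ⟨a, b, hpar⟩ := par_of_per hq hαirr ht hb1 hb2 hl hsh
    exact even_final hpar hP hsf' h4' hd1 hK hx' hcl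

end Pool.Agent.N911
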