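import Pool.Agent.N911.K4

/-! Soundness of the local enumerations. -/

namespace Pool.Agent.N911

open H419R2 Finset

/-- check of the table of inverses -/
def chkI (l I : ℕ) : Bool :=
  allN l (fun x => imp (Nat.beq (Nat.gcd x l) 1) (Nat.beq (Nat.mod (Nat.mul x (look I x)) l) 1))

theorem chkI_sound {l I x : ℕ} (hl : 1 < l) (h : chkI l I = true) (hx : x < l)
    (hu : IsUnit (x : ZMod l)) : (x : ZMod l) * (look I x : ℕ) = 1 := by
  unfold chkI at h
  rw [allN_iff] at h
  have h1 := h x hx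
  have h2 : Nat.gcd x l = 1 := (ZMod.isUnit_iff_coprime x l).mp hu
  have h3 : Nat.beq (Nat.gcd x l) 1 = true := by rw [h2]; rfl
  have h4 : x * look I x % l = 1 := Nat.eq_of_beq_eq_true (imp_true h1 h3)
  have h5 : ((x * look I x : ℕ) : ZMod l) = ((1 : ℕ) : ZMod l) := by
    rw [ZMod.natCast_eq_natCast_iff', h4, Nat.mod_eq_of_lt hl]
  push_cast at h5
  exact h5

/-- the leaf at the actual data -/
def At (z : Dat) (l : ℕ) (f : Leaf) : Prop :=
  f (res z.a l) (res z.b l) (res z.t l) (7 * res z.P l) (7 * res z.R l) (pk l z.t z.P)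
    (pk l (z.B1 * z.Pi) (z.R * z.Pi)) (pk l (z.B2 * z.Ri) 1) = true

/-- local hypotheses -/
structure LOK (z : Dat) (l I : ℕ) : Prop where
  l1 : 1 < l
  hI : chkI l I = true
  hP : ((z.P * z.Pi : ℤ) : ZMod l) = 1
  hR : ((z.R * z.Ri : ℤ) : ZMod l) = 1

theorem inv_of {l I : ℕ} (hl : 1 < l) (hI : chkI l I = true) {x y : ℤ}
    (h : ((x * y : ℤ) : ZMod l) = 1) : ((look I (res x l) : ℕ) : ZMod l) = y := by
  have hx : ((res x l : ℕ) : ZMod l) = x := res_cast' x (by omega)
  push_cast at h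
  have hu : IsUnit ((res x l : ℕ) : ZMod l) := by
    rw [hx]
    exact IsUnit.of_mul_eq_one _ h
  have h2 := chkI_sound hl hI (res_lt x (by omega)) hu
  rw [hx] at h2
  linear_combination (-(((look I (res x l) : ℕ) : ZMod l))) * h + (y : ZMod l) * h2

theorem geo_sound {z : Dat} {l I : ℕ} (H : LOK z l I) {f : Leaf}
    (h : geo l I (res z.a l) (res z.b l) (res z.t l) (res z.P l) f = true) : At z l f := by
  have hl := H.l1
  have hl0 : 0 < l := by omega
  have ca := res_cast' z.a hl0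
  have cb := res_cast' z.b hl0
  have ct := res_cast' z.t hl0
  have cP := res_cast' z.P hl0
  have cl : ((l : ℕ) : ZMod l) = 0 := CharP.cast_eq_zero _ _
  have ci := inv_of hl H.hI H.hP
  have cj := inv_of hl H.hI H.hR
  have hB : Nat.mod (Nat.add (Nat.mul (Nat.mul 2 (res z.a l)) (res z.P l))
      (Nat.sub l (res z.t l))) l = res z.B1 l := by
    apply mod_res hl0
    change ((2 * res z.a l * res z.P l + (l - res z.t l) : ℕ) : ZMod l) = _
    push_cast
    rw [Nat.cast_sub (res_lt z.t hl0).le, ca, cP, ct, cl]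
    unfold Dat.B1
    push_cast
    ring
  have hR : Nat.mod (Nat.add (Nat.add 1 (Nat.mul (res z.a l) (res z.t l)))
      (Nat.mul (Nat.mul (res z.a l) (res z.a l)) (Nat.sub l (res z.P l)))) l = res z.R l := by
    apply mod_res hl0
    change ((1 + res z.a l * res z.t l + res z.a l * res z.a l * (l - res z.P l) : ℕ) : ZMod l) = _
    push_cast
    rw [Nat.cast_sub (res_lt z.P hl0).le, ca, cP, ct, cl]
    unfold Dat.R
    push_cast
    ring
  have cB := res_cast' z.B1 hl0
  have cR := res_cast' z.R hl0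
  unfold geo at h
  simp only [force_eq, hB, hR] at h
  have h1 : Nat.mod (Nat.mul (res z.B1 l) (look I (res z.P l))) l = res (z.B1 * z.Pi) l := by
    apply mod_res hl0
    change ((res z.B1 l * look I (res z.P l) : ℕ) : ZMod l) = _
    push_cast
    rw [cB, ci]
  have h2 : Nat.mod (Nat.mul (res z.R l) (look I (res z.P l))) l = res (z.R * z.Pi) l := by
    apply mod_res hl0
    change ((res z.R l * look I (res z.P l) : ℕ) : ZMod l) = _
    push_cast
    rw [cR, ci]
  have h3 : Nat.mod (Nat.mul (Nat.add (Nat.mul (Nat.mul 2 (res z.b l)) (res z.R l))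
      (Nat.sub l (res z.B1 l))) (look I (res z.R l))) l = res (z.B2 * z.Ri) l := by
    apply mod_res hl0
    change (((2 * res z.b l * res z.R l + (l - res z.B1 l)) * look I (res z.R l) : ℕ) : ZMod l) = _
    push_cast
    rw [Nat.cast_sub (res_lt z.B1 hl0).le, cB, cR, cb, cj, cl]
    unfold Dat.B2
    push_cast
    ring
  have h4 : res 1 l = 1 := by
    symm
    apply res_unique hl
    push_cast; rfl
  rw [h1, h2, h3] at h
  unfold At pk
  rw [h4]
  exact h

theorem tge_sound {z : Dat} {l I Q : ℕ} (H : LOK z l I) (h4 : l ≠ 4) (hV : V l z.t z.P)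
    (hQ : chkIq l Q = true) {f : Leaf}
    (h : tge l I Q (res z.a l) (res z.b l) (res z.t l) (res z.P l) f = true) : At z l f := by
  have hl := H.l1
  have hl0 : 0 < l := by omega
  unfold tge at h
  have h1 : tb Q (Nat.mod (Nat.add (Nat.mul (res z.t l) (res z.t l)) (Nat.mul 4 (res z.P l))) l) =
      false := by
    by_contra hc
    have hc' := Bool.eq_true_of_not_eq_false hc
    have h2 := tb_square hl0 hQ hc'
    unfold V at hV
    rw [if_neg h4] at hV
    apply hV
    have h3 : ((Nat.add (Nat.mul (res z.t l) (res z.t l)) (Nat.mul 4 (res z.P l)) : ℕ) : ZMod l) =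
        ((z.t ^ 2 + 4 * z.P : ℤ) : ZMod l) := by
      change ((res z.t l * res z.t l + 4 * res z.P l : ℕ) : ZMod l) = _
      push_cast
      rw [res_cast' z.t hl0, res_cast' z.P hl0]
      ring
    rw [h3] at h2
    exact h2
  rw [h1] at h
  exact geo_sound H h

/-- the constraint -/
def Con (z : Dat) : Prop := z.P + z.b * z.B1 - z.b ^ 2 * z.R = z.R

theorem con_eq {z : Dat} (h : Con z) : z.P * ((1 + z.a * z.b) ^ 2 + z.a ^ 2) =
    z.t * (z.b * (1 + z.a * z.b) + z.a) + (1 + z.b ^ 2) := by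
  unfold Con Dat.B1 Dat.R at h
  linear_combination h

/-- continuants at the actual data -/
structure Q012 (z : Dat) (l q0 q1 q2 : ℕ) : Prop where
  q0l : q0 < l
  c0 : (q0 : ZMod l) = (1 + z.a * z.b) ^ 2 + z.a ^ 2
  c1 : (q1 : ZMod l) = z.b * (1 + z.a * z.b) + z.a
  c2 : (q2 : ZMod l) = 1 + z.b ^ 2

theorem cont_sound {z : Dat} {l : ℕ} (hl0 : 0 < l) {g : ℕ → ℕ → ℕ → Bool}
    (h : cont l (res z.a l) (res z.b l) g = true) :
    ∃ q0 q1 q2, Q012 z l q0 q1 q2 ∧ g q0 q1 q2 = true := by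
  have ca := res_cast' z.a hl0
  have cb := res_cast' z.b hl0
  unfold cont at h
  simp only [force_eq] at h
  have hc : ((Nat.mod (Nat.add 1 (Nat.mul (res z.a l) (res z.b l))) l : ℕ) : ZMod l) =
      1 + z.a * z.b := by
    change (((1 + res z.a l * res z.b l) % l : ℕ) : ZMod l) = _
    rw [ZMod.natCast_mod]
    push_cast
    rw [ca, cb]
  set c := Nat.mod (Nat.add 1 (Nat.mul (res z.a l) (res z.b l))) l with hcd
  refine ⟨_, _, _, ⟨Nat.mod_lt _ hl0, ?_, ?_, ?_⟩, h⟩
  · change (((c * c + res z.a l * res z.a l) % l : ℕ) : ZMod l) = _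
    rw [ZMod.natCast_mod]
    push_cast
    rw [ca, hc]
    ring
  · change (((res z.b l * c + res z.a l) % l : ℕ) : ZMod l) = _
    rw [ZMod.natCast_mod]
    push_cast
    rw [ca, cb, hc]
  · change (((1 + res z.b l * res z.b l) % l : ℕ) : ZMod l) = _
    rw [ZMod.natCast_mod]
    push_cast
    rw [cb]
    ring

theorem enP_sound {z : Dat} {l I Q : ℕ} (H : LOK z l I) (hp : l.Prime) (hV : V l z.t z.P)
    (hQ : chkIq l Q = true) (hcon : Con z) {q0 q1 q2 : ℕ} (hq : Q012 z l q0 q1 q2) {f : Leaf}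
    (h : enP l I Q (res z.a l) (res z.b l) q0 q1 q2 (res z.t l) f = true) : At z l f := by
  have hl := H.l1
  have hl0 : 0 < l := by omega
  have hF := Fact.mk hp
  have h4 : l ≠ 4 := by rintro rfl; exact absurd hp (by norm_num)
  have c1 := hq.c1
  have c2 := hq.c2
  have c0 := hq.c0
  have ct := res_cast' z.t hl0
  have ce : (z.P : ZMod l) * ((1 + z.a * z.b) ^ 2 + z.a ^ 2) =
      z.t * (z.b * (1 + z.a * z.b) + z.a) + (1 + z.b ^ 2) := by
    have := congrArg (fun x : ℤ => (x : ZMod l)) (con_eq hcon)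
    push_cast at this
    exact this
  unfold enP at h
  rw [force_eq] at h
  have hv : ((Nat.mod (Nat.add (Nat.mul (res z.t l) q1) q2) l : ℕ) : ZMod l) =
      z.P * (q0 : ZMod l) := by
    change (((res z.t l * q1 + q2) % l : ℕ) : ZMod l) = _
    rw [ZMod.natCast_mod]
    push_cast
    rw [ct, c1, c2, c0, ce]
  set v := Nat.mod (Nat.add (Nat.mul (res z.t l) q1) q2) l with hvd
  cases q0 with
  | zero =>
    change imp (Nat.beq v 0) (allN l (fun P => tge l I Q (res z.a l) (res z.b l) (res z.t l) P f)) =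
      true at h
    have h1 : v = 0 := by
      rw [Nat.cast_zero, mul_zero] at hv
      have h2 : v < l := Nat.mod_lt _ hl0
      rw [ZMod.natCast_eq_zero_iff] at hv
      exact Nat.eq_zero_of_dvd_of_lt hv h2
    have h2 := imp_true h (by rw [h1]; rfl)
    rw [allN_iff] at h2
    exact tge_sound H h4 hV hQ (h2 _ (res_lt z.P hl0))
  | succ n =>
    change force (Nat.mod (Nat.mul v (look I (n + 1))) l)
      (fun P => tge l I Q (res z.a l) (res z.b l) (res z.t l) P f) = true at h
    rw [force_eq] at h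
    have hu : IsUnit ((n + 1 : ℕ) : ZMod l) := by
      rw [isUnit_iff_ne_zero]
      intro h0
      rw [ZMod.natCast_eq_zero_iff] at h0
      have := Nat.le_of_dvd (by omega) h0
      have := hq.q0l
      omega
    have h5 := chkI_sound hl H.hI hq.q0l hu
    have h6 : Nat.mod (Nat.mul v (look I (n + 1))) l = res z.P l := by
      apply mod_res hl0
      change ((v * look I (n + 1) : ℕ) : ZMod l) = _
      push_cast
      push_cast at hv h5
      rw [hv, mul_assoc, h5, mul_one]
    rw [h6] at h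
    exact tge_sound H h4 hV hQ h

theorem enF_sound {z : Dat} {l I Q tbd : ℕ} (H : LOK z l I) (hp : l.Prime) (hV : V l z.t z.P)
    (hQ : chkIq l Q = true) (hcon : Con z) {f : Leaf} (htb : res z.t l < tbd)
    (h : enF l I Q (res z.a l) tbd f = true) : At z l f := by
  have hl := H.l1
  have hl0 : 0 < l := by omega
  unfold enF at h
  rw [allN_iff] at h
  obtain ⟨q0, q1, q2, hq, h2⟩ := cont_sound hl0 (h _ (res_lt z.b hl0))
  rw [allN_iff] at h2
  exact enP_sound H hp hV hQ hcon hq (h2 _ htb)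

theorem nrm_sound {z : Dat} {l I K T A B K' T' A' B' : ℕ} (H : LOK z l I) (hp : l.Prime)
    (h1 : Lin z l K T A B) (h2 : Lin z l K' T' A' B') {g : ℕ → ℕ → ℕ → ℕ → ℕ → ℕ → Bool}
    (h : nrm l I K T A B K' T' A' B' g = true) :
    ∃ dk du dv k u v : ℕ, dv < l ∧ ((dk : ZMod l) + du * z.a + dv * z.b = 0) ∧
      ((z.t : ZMod l) = k + u * z.a + v * z.b) ∧ g dk du dv k u v = true := by
  have hl := H.l1
  have hl0 : 0 < l := by omega
  have hF := Fact.mk hp
  have cl : ((l : ℕ) : ZMod l) = 0 := CharP.cast_eq_zero _ _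
  have ml : ∀ x : ℕ, ((Nat.mod x l : ℕ) : ZMod l) = x := fun x => by
    change ((x % l : ℕ) : ZMod l) = _
    rw [ZMod.natCast_mod]
  unfold nrm at h
  rw [cj_true, cj_true] at h
  obtain ⟨hT, hT', h⟩ := h
  have hT := Nat.le_of_ble_eq_true hT
  have hT' := Nat.le_of_ble_eq_true hT'
  have hi : ∀ T : ℕ, 1 ≤ Nat.mod T l → (T : ZMod l) * (look I (Nat.mod T l) : ℕ) = 1 := by
    intro T hT
    have hlt : Nat.mod T l < l := Nat.mod_lt _ hl0
    have hu : IsUnit ((Nat.mod T l : ℕ) : ZMod l) := by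
      rw [isUnit_iff_ne_zero]
      intro h0
      rw [ZMod.natCast_eq_zero_iff] at h0
      have := Nat.le_of_dvd (by omega) h0
      omega
    have := chkI_sound hl H.hI hlt hu
    rw [ml] at this
    exact this
  have hi1 := hi T hT
  have hi2 := hi T' hT'
  simp only [force_eq] at h
  set i := look I (Nat.mod T l) with hid
  set i' := look I (Nat.mod T' l) with hid'
  have hlt : ∀ x : ℕ, Nat.mod x l ≤ l := fun x => (Nat.mod_lt x hl0).le
  have cs : ∀ x : ℕ, ((Nat.sub l (Nat.mod x l) : ℕ) : ZMod l) = -x := by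
    intro x
    change ((l - Nat.mod x l : ℕ) : ZMod l) = _
    rw [Nat.cast_sub (hlt x), cl, ml, zero_sub]
  have cadd : ∀ x y : ℕ, ((Nat.add x y : ℕ) : ZMod l) = x + y := fun x y => Nat.cast_add x y
  have cmul : ∀ x y : ℕ, ((Nat.mul x y : ℕ) : ZMod l) = x * y := fun x y => Nat.cast_mul x y
  unfold Lin at h1 h2
  refine ⟨_, _, _, _, _, _, (Nat.mod_lt _ hl0 : Nat.mod _ l < l), ?_, ?_, h⟩
  · rw [ml, ml, ZMod.natCast_mod, cadd, cadd, cadd, cs, cs, cs, ml, ml, ml, cmul, cmul, cmul, cmul, cmul, cmul]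
    linear_combination (i : ZMod l) * h1 - (i' : ZMod l) * h2 - (z.t : ZMod l) * hi1 +
      (z.t : ZMod l) * hi2
  · rw [cs, cs, cs, cmul, cmul, cmul]
    linear_combination (i : ZMod l) * h1 - (z.t : ZMod l) * hi1

theorem enB_sound {z : Dat} {l I dk du dv k u v : ℕ} (H : LOK z l I) (hp : l.Prime)
    (hdv : dv < l) (h1 : (dk : ZMod l) + du * z.a + dv * z.b = 0)
    (h2 : (z.t : ZMod l) = k + u * z.a + v * z.b) {g : ℕ → ℕ → Bool}
    (h : enB l I (res z.a l) dk du dv k u v g = true) : g (res z.b l) (res z.t l) = true := by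
  have hl := H.l1
  have hl0 : 0 < l := by omega
  have hF := Fact.mk hp
  have ca := res_cast' z.a hl0
  have cb := res_cast' z.b hl0
  have cl : ((l : ℕ) : ZMod l) = 0 := CharP.cast_eq_zero _ _
  have ht : Nat.mod (Nat.add k (Nat.add (Nat.mul u (res z.a l)) (Nat.mul v (res z.b l)))) l =
      res z.t l := by
    apply mod_res hl0
    change ((k + (u * res z.a l + v * res z.b l) : ℕ) : ZMod l) = _
    push_cast
    rw [ca, cb, h2]
    ring
  have hw : ((Nat.mod (Nat.add dk (Nat.mul du (res z.a l))) l : ℕ) : ZMod l) = dk + du * z.a := by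
    change (((dk + du * res z.a l) % l : ℕ) : ZMod l) = _
    rw [ZMod.natCast_mod]
    push_cast
    rw [ca]
  unfold enB at h
  set w := Nat.mod (Nat.add dk (Nat.mul du (res z.a l))) l with hwd
  have hwl : w < l := Nat.mod_lt _ hl0
  cases dv with
  | zero =>
    change imp (Nat.beq w 0) (allN l (fun b => force (Nat.mod (Nat.add k
      (Nat.add (Nat.mul u (res z.a l)) (Nat.mul v b))) l) (fun t => g b t))) = true at h
    have h3 : w = 0 := by
      rw [Nat.cast_zero, zero_mul, add_zero, ← hw, ZMod.natCast_eq_zero_iff] at h1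
      exact Nat.eq_zero_of_dvd_of_lt h1 hwl
    have h4 := imp_true h (by rw [h3]; rfl)
    rw [allN_iff] at h4
    have h5 := h4 _ (res_lt z.b hl0)
    rw [force_eq, ht] at h5
    exact h5
  | succ n =>
    change force (Nat.mod (Nat.mul (Nat.sub l w) (look I (n + 1))) l) (fun b =>
      force (Nat.mod (Nat.add k (Nat.add (Nat.mul u (res z.a l)) (Nat.mul v b))) l)
      (fun t => g b t)) = true at h
    rw [force_eq, force_eq] at h
    have hu : IsUnit ((n + 1 : ℕ) : ZMod l) := by
      rw [isUnit_iff_ne_zero]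
      intro h0
      rw [ZMod.natCast_eq_zero_iff] at h0
      have := Nat.le_of_dvd (by omega) h0
      omega
    have h5 := chkI_sound hl H.hI hdv hu
    have h6 : Nat.mod (Nat.mul (Nat.sub l w) (look I (n + 1))) l = res z.b l := by
      apply mod_res hl0
      change (((l - w) * look I (n + 1) : ℕ) : ZMod l) = _
      rw [Nat.cast_mul, Nat.cast_sub hwl.le, hw, cl]
      linear_combination (-(((look I (n + 1) : ℕ)) : ZMod l)) * h1 + (z.b : ZMod l) * h5
    rw [h6, ht] at h
    exact h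

theorem enL_sound {z : Dat} {l I Q K T A B K' T' A' B' : ℕ} (H : LOK z l I) (hp : l.Prime)
    (hV : V l z.t z.P) (hQ : chkIq l Q = true) (hcon : Con z)
    (h1 : Lin z l K T A B) (h2 : Lin z l K' T' A' B') {f : Leaf}
    (h : enL l I Q K T A B K' T' A' B' f = true) : At z l f := by
  have hl := H.l1
  have hl0 : 0 < l := by omega
  unfold enL at h
  obtain ⟨dk, du, dv, k, u, v, hdv, e1, e2, h3⟩ := nrm_sound H hp h1 h2 h
  rw [allN_iff] at h3
  have h4 := enB_sound H hp hdv e1 e2 (h3 _ (res_lt z.a hl0))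
  obtain ⟨q0, q1, q2, hq, h5⟩ := cont_sound hl0 h4
  exact enP_sound H hp hV hQ hcon hq h5

/-- some row satisfies `f` -/
noncomputable def RL.any (L : RL) (f : ℕ → ℕ → Bool) : Bool :=
  @RL.rec (fun _ => Bool) false (fun a r _ ih => or (f a r) ih) L

theorem RL.all_any {L : RL} {f g : ℕ → ℕ → Bool} (h : L.all f = true) (h' : L.any g = true) :
    ∃ a r, f a r = true ∧ g a r = true := by
  induction L with
  | nil => exact absurd h' (by simp [RL.any])
  | cons a r l ih =>
    have e1 : (RL.cons a r l).all f = cj (f a r) (l.all f) := rfl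
    have e2 : (RL.cons a r l).any g = or (g a r) (l.any g) := rfl
    rw [e1, cj_true] at h
    rw [e2, Bool.or_eq_true] at h'
    rcases h' with h' | h'
    · exact ⟨a, r, h.1, h'⟩
    · exact ih h.2 h'

/-- packing -/
def pack (P R k0 k1 k2 : ℕ) : ℕ :=
  Nat.add P (Nat.add (Nat.mul 256 R) (Nat.add (Nat.mul 65536 k0) (Nat.add (Nat.mul 268435456 k1)
    (Nat.mul 1099511627776 k2))))

/-- check of the rows -/
noncomputable def chkRows (l I Q : ℕ) (rows : RL) : Bool :=
  allN l (fun a => rows.any (fun a' row => and (Nat.beq a' a)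
    (enF l I Q a l (fun _ b t P R k0 k1 k2 =>
      Nat.beq (Nat.mod (Nat.shiftRight row (Nat.mul 56 (Nat.add (Nat.mul l b) t)))
        72057594037927936) (pack P R k0 k1 k2)))))

theorem enT_sound {z : Dat} {l I Q K T A B K' T' A' B' : ℕ} {rows : RL} (H : LOK z l I)
    (hp : l.Prime) (hV : V l z.t z.P) (hQ : chkIq l Q = true) (hcon : Con z)
    (hl24 : l ≤ 24) (hrows : chkRows l I Q rows = true)
    (h1 : Lin z l K T A B) (h2 : Lin z l K' T' A' B') {f : Leaf}
    (h : enT l I rows K T A B K' T' A' B' f = true) : At z l f := by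
  have hl := H.l1
  have hl0 : 0 < l := by omega
  unfold enT at h
  obtain ⟨dk, du, dv, k, u, v, hdv, e1, e2, h3⟩ := nrm_sound H hp h1 h2 h
  unfold chkRows at hrows
  rw [allN_iff] at hrows
  obtain ⟨a, r, h4, h5⟩ := RL.all_any h3 (hrows _ (res_lt z.a hl0))
  rw [Bool.and_eq_true] at h5
  have ha : a = res z.a l := Nat.eq_of_beq_eq_true h5.1
  subst ha
  have h6 := enB_sound H hp hdv e1 e2 h4
  have h7 := enF_sound H hp hV hQ hcon (res_lt z.t hl0) h5.2
  unfold At at h7 ⊢
  have h8 := Nat.eq_of_beq_eq_true h7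
  unfold rowE at h6
  rw [force_eq, h8] at h6
  have hb : ∀ x : ℤ, res x l < 24 := fun x => lt_of_lt_of_le (res_lt x hl0) hl24
  have hP : 0 < res z.P l := by
    rcases Nat.eq_zero_or_pos (res z.P l) with h0 | h0
    · exfalso
      have hc := res_cast' z.P hl0
      rw [h0, Nat.cast_zero] at hc
      have hP := H.hP
      push_cast at hP
      rw [← hc, zero_mul] at hP
      have hF := Fact.mk hp
      exact zero_ne_one hP
    · exact h0
  have bpk : ∀ x y : ℤ, pk l x y < 4096 := by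
    intro x y
    unfold pk
    have b1 := hb x
    have b2 := hb y
    have b3 : res x l * l ≤ 23 * 24 := Nat.mul_le_mul (by omega) hl24
    omega
  have bP := hb z.P
  have bR := hb z.R
  have b0 := bpk z.t z.P
  have b1 := bpk (z.B1 * z.Pi) (z.R * z.Pi)
  have b2 := bpk (z.B2 * z.Ri) 1
  generalize hk0 : pk l z.t z.P = k0 at *
  generalize hk1 : pk l (z.B1 * z.Pi) (z.R * z.Pi) = k1 at *
  generalize hk2 : pk l (z.B2 * z.Ri) 1 = k2 at *
  generalize res z.P l = P at *
  generalize res z.R l = R at *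
  have hpk : pack (7 * P) (7 * R) k0 k1 k2 =
      7 * P + (256 * (7 * R) + (65536 * k0 + (268435456 * k1 + 1099511627776 * k2))) := rfl
  obtain ⟨n, hn⟩ : ∃ n, pack (7 * P) (7 * R) k0 k1 k2 = n + 1 :=
    ⟨pack (7 * P) (7 * R) k0 k1 k2 - 1, by omega⟩
  rw [hn] at h6
  change f (res z.a l) (res z.b l) (res z.t l) ((n + 1) % 256) (((n + 1) >>> 8) % 256)
    (((n + 1) >>> 16) % 4096) (((n + 1) >>> 28) % 4096) ((n + 1) >>> 40) = true at h6
  rw [← hn, hpk] at h6
  simp only [Nat.shiftRight_eq_div_pow] at h6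
  set S := 7 * P + (256 * (7 * R) + (65536 * k0 + (268435456 * k1 + 1099511627776 * k2))) with hS
  have g1 : S % 256 = 7 * P := by omega
  have g2 : S / 2 ^ 8 % 256 = 7 * R := by
    have : S / 2 ^ 8 = 7 * R + 256 * (k0 + 4096 * (k1 + 4096 * k2)) := by
      rw [show 2 ^ 8 = 256 by norm_num]; omega
    rw [this]; omega
  have g3 : S / 2 ^ 16 % 4096 = k0 := by
    have : S / 2 ^ 16 = k0 + 4096 * (k1 + 4096 * k2) := by
      rw [show 2 ^ 16 = 65536 by norm_num]; omega
    rw [this]; omega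
  have g4 : S / 2 ^ 28 % 4096 = k1 := by
    have : S / 2 ^ 28 = k1 + 4096 * k2 := by
      rw [show 2 ^ 28 = 268435456 by norm_num]; omega
    rw [this]; omega
  have g5 : S / 2 ^ 40 = k2 := by
    rw [show 2 ^ 40 = 1099511627776 by norm_num]; omega
  rw [g1, g2, g3, g4, g5] at h6
  exact h6

/-- some entry satisfies `f` -/
noncomputable def LL.any (L : LL) (f : Leaf) : Bool :=
  @LL.rec (fun _ => Bool) false (fun a b t P R k0 k1 k2 _ ih => or (f a b t P R k0 k1 k2) ih) L

/-- equality of leaves -/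
def eqL (a b t P R k0 k1 k2 : ℕ) : Leaf := fun a' b' t' P' R' k0' k1' k2' =>
  cj (Nat.beq a a') (cj (Nat.beq b b') (cj (Nat.beq t t') (cj (Nat.beq P P') (cj (Nat.beq R R')
    (cj (Nat.beq k0 k0') (cj (Nat.beq k1 k1') (Nat.beq k2 k2')))))))

theorem LL.all_any {L : LL} {f : Leaf} {a b t P R k0 k1 k2 : ℕ} (h : L.all f = true)
    (h' : L.any (eqL a b t P R k0 k1 k2) = true) : f a b t P R k0 k1 k2 = true := by
  induction L with
  | nil => exact absurd h' (by simp [LL.any])
  | cons a' b' t' P' R' k0' k1' k2' l ih =>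
    have e1 : (LL.cons a' b' t' P' R' k0' k1' k2' l).all f =
      cj (f a' b' t' P' R' k0' k1' k2') (l.all f) := rfl
    have e2 : (LL.cons a' b' t' P' R' k0' k1' k2' l).any (eqL a b t P R k0 k1 k2) =
      or (eqL a b t P R k0 k1 k2 a' b' t' P' R' k0' k1' k2') (l.any (eqL a b t P R k0 k1 k2)) := rfl
    rw [e1, cj_true] at h
    rw [e2, Bool.or_eq_true] at h'
    rcases h' with h' | h'
    · unfold eqL at h'
      simp only [cj_true] at h'
      obtain ⟨h1, h2, h3, h4, h5, h6, h7, h8⟩ := h'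
      rw [Nat.eq_of_beq_eq_true h1, Nat.eq_of_beq_eq_true h2, Nat.eq_of_beq_eq_true h3,
        Nat.eq_of_beq_eq_true h4, Nat.eq_of_beq_eq_true h5, Nat.eq_of_beq_eq_true h6,
        Nat.eq_of_beq_eq_true h7, Nat.eq_of_beq_eq_true h8]
      exact h.1
    · exact ih h.2 h'

/-- check of a list -/
noncomputable def chkLL (l I Q : ℕ) (L : LL) : Bool :=
  allN l (fun a => enF l I Q a l (fun a b t P R k0 k1 k2 => L.any (eqL a b t P R k0 k1 k2)))

theorem LL_sound {z : Dat} {l I Q : ℕ} {L : LL} (H : LOK z l I)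
    (hp : l.Prime) (hV : V l z.t z.P) (hQ : chkIq l Q = true) (hcon : Con z)
    (hL : chkLL l I Q L = true) {f : Leaf} (h : L.all f = true) : At z l f := by
  have hl0 : 0 < l := by have := H.l1; omega
  unfold chkLL at hL
  rw [allN_iff] at hL
  have h7 := enF_sound H hp hV hQ hcon (res_lt z.t hl0) (hL _ (res_lt z.a hl0))
  unfold At at h7 ⊢
  exact LL.all_any h h7

/-- check of the list modulo 4 -/
noncomputable def chkL4 (I : ℕ) (L : LL) : Bool :=
  allN 4 (fun a => allN 4 (fun b => cont 4 a b (fun q0 q1 q2 => allN 4 (fun t => allN 4 (fun P =>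
    imp (Nat.beq (Nat.mod t 2) 1) (imp (Nat.beq (Nat.mod P 2) 1)
      (imp (Nat.beq (Nat.mod (Nat.mul P q0) 4) (Nat.mod (Nat.add (Nat.mul t q1) q2) 4))
        (geo 4 I a b t P (fun a b t P R k0 k1 k2 => L.any (eqL a b t P R k0 k1 k2))))))))))

theorem L4_sound {z : Dat} {I : ℕ} {L : LL} (H : LOK z 4 I) (hV : V 4 z.t z.P) (hcon : Con z)
    (hL : chkL4 I L = true) {f : Leaf} (h : L.all f = true) : At z 4 f := by
  unfold chkL4 at hL
  rw [allN_iff] at hL
  have h1 := hL _ (res_lt z.a (by norm_num))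
  rw [allN_iff] at h1
  obtain ⟨q0, q1, q2, hq, h2⟩ := cont_sound (by norm_num) (h1 _ (res_lt z.b (by norm_num)))
  rw [allN_iff] at h2
  have h3 := h2 _ (res_lt z.t (by norm_num))
  rw [allN_iff] at h3
  have h4 := h3 _ (res_lt z.P (by norm_num))
  unfold V at hV
  rw [if_pos rfl] at hV
  have e1 := res_int z.t (M := 4) (by norm_num)
  have e2 := res_int z.P (M := 4) (by norm_num)
  have h5 : Nat.beq (Nat.mod (res z.t 4) 2) 1 = true := by
    have : Nat.mod (res z.t 4) 2 = 1 := by
      change res z.t 4 % 2 = 1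
      omega
    rw [this]; rfl
  have h6 : Nat.beq (Nat.mod (res z.P 4) 2) 1 = true := by
    have : Nat.mod (res z.P 4) 2 = 1 := by
      change res z.P 4 % 2 = 1
      omega
    rw [this]; rfl
  have h7 := imp_true (imp_true h4 h5) h6
  have ce := congrArg (fun x : ℤ => (x : ZMod 4)) (con_eq hcon)
  push_cast at ce
  have h8 : ((res z.P 4 * q0 : ℕ) : ZMod 4) = ((res z.t 4 * q1 + q2 : ℕ) : ZMod 4) := by
    push_cast
    rw [res_cast' z.P (by norm_num), res_cast' z.t (by norm_num), hq.c0, hq.c1, hq.c2]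
    exact ce
  rw [ZMod.natCast_eq_natCast_iff'] at h8
  have h9 : Nat.beq (Nat.mod (Nat.mul (res z.P 4) q0) 4)
      (Nat.mod (Nat.add (Nat.mul (res z.t 4) q1) q2) 4) = true := by
    change Nat.beq (res z.P 4 * q0 % 4) ((res z.t 4 * q1 + q2) % 4) = true
    rw [h8]; exact Nat.beq_refl _
  have h10 := geo_sound H (imp_true h7 h9)
  unfold At at h10 ⊢
  exact LL.all_any h h10

end Pool.Agent.N911
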