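import Pool.Agent.N911.K7
import Pool.Agent.N911.A6

/-! The contradiction for integer data without small split primes. -/

set_option maxRecDepth 100000

namespace Pool.Agent.N911

open H419R2 Finset

/-- the modulus as a natural number -/
def M0n : ℕ := 4 * 3 * 5 * 7 * 13 * 19 * 37 * 73

theorem M0_eq : M0 = (M0n : ℤ) := by unfold M0 M0n; norm_num

theorem mkSys {z : Dat} (con : Con z) (hP : M0 ∣ z.P * z.Pi - 1) (hR : M0 ∣ z.R * z.Ri - 1)
    (tod : z.t % 2 = 1) (Pod : z.P % 2 = 1)
    (nsq : ∀ l : ℕ, l ∈ [3, 5, 7, 13, 19, 37, 73] → ¬ IsSquare ((z.t ^ 2 + 4 * z.P : ℤ) : ZMod l))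
    (hrel : ∀ c : CD, c.OK → c.q ∣ M0n → c.p ∣ M0n → ∀ _ : NeZero c.q,
      RelM (chi c.q c.p c.T) z.t z.P z.a z.b = 0) : Sys z := by
  have key : ∀ c : CD, c.OK → c.q ∣ M0n → c.p ∣ M0n → NRel c z := by
    intro c hc h1 h2
    have h3 : (c.q : ℤ) ∣ M0 := by rw [M0_eq]; exact Int.natCast_dvd_natCast.mpr h1
    exact nrel_of hc (Sys.one_of (z := z) hP h3) (Sys.one_of (z := z) hR h3) (hrel c hc h1 h2)
  exact
  { con := con
    hP := hP
    hR := hR
    tod := tod
    Pod := Pod
    nsq := nsq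
    r148_7 := key _ c148_7_ok (by decide +kernel) (by decide +kernel)
    r148_19 := key _ c148_19_ok (by decide +kernel) (by decide +kernel)
    r259_0 := key _ c259_19_0_ok (by decide +kernel) (by decide +kernel)
    r259_1 := key _ c259_19_1_ok (by decide +kernel) (by decide +kernel)
    r259_2 := key _ c259_19_2_ok (by decide +kernel) (by decide +kernel)
    r133_37 := key _ c133_37_ok (by decide +kernel) (by decide +kernel)
    r111_0 := key _ c111_19_0_ok (by decide +kernel) (by decide +kernel)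
    r111_1 := key _ c111_19_1_ok (by decide +kernel) (by decide +kernel)
    r228 := key _ c228_7_ok (by decide +kernel) (by decide +kernel)
    r140 := key _ c140_13_ok (by decide +kernel) (by decide +kernel)
    r95 := key _ c95_13_ok (by decide +kernel) (by decide +kernel)
    r105 := key _ c105_13_ok (by decide +kernel) (by decide +kernel)
    r185 := key _ c185_13_ok (by decide +kernel) (by decide +kernel)
    r133_13 := key _ c133_13_ok (by decide +kernel) (by decide +kernel)
    r91 := key _ c91_37_ok (by decide +kernel) (by decide +kernel)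
    r133_73 := key _ c133_73_ok (by decide +kernel) (by decide +kernel)
    r247_0 := key _ c247_73_0_ok (by decide +kernel) (by decide +kernel)
    r247_1 := key _ c247_73_1_ok (by decide +kernel) (by decide +kernel)
    r259_73 := key _ c259_73_ok (by decide +kernel) (by decide +kernel) }

theorem RelM_neg {N : ℕ} [NeZero N] {M : Type*} [CommRing M] (f : ZMod N → M) (t P a b : ℤ) :
    RelM f (-t) P (-a) (-b) = -RelM f t P a b := by
  unfold RelM
  have e1 : (2 * -a * P - -t) = -(2 * a * P - t) := by ring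
  have e2 : (1 + -a * -t - (-a) ^ 2 * P) = 1 + a * t - a ^ 2 * P := by ring
  rw [e1, e2]
  have e3 : (2 * -b * (1 + a * t - a ^ 2 * P) - -(2 * a * P - t)) =
    -(2 * b * (1 + a * t - a ^ 2 * P) - (2 * a * P - t)) := by ring
  rw [e3]
  simp only [Int.cast_neg (R := ZMod N), SE_neg, SY_neg]
  push_cast
  ring

/-- the classes of all runs -/
def AllRun : Prop := ∀ a < 37, run c133_73 c247_73_0 c247_73_1 c259_73 a = true

theorem isCoprime_M0 {x : ℤ} (h2 : x % 2 = 1)
    (h : ∀ l : ℕ, l ∈ [3, 5, 7, 13, 19, 37, 73] → ¬ (l : ℤ) ∣ x) : IsCoprime x M0 := by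
  have hp : ∀ l : ℕ, l.Prime → ¬ (l : ℤ) ∣ x → IsCoprime x (l : ℤ) := by
    intro l hl hx
    have h3 := (Nat.prime_iff_prime_int.mp hl)
    exact ((Prime.coprime_iff_not_dvd h3).mpr hx).symm
  have k : IsCoprime x 2 := by
    refine ⟨1, -(x / 2), ?_⟩
    omega
  have h3 := hp 3 (by norm_num) (h 3 (by simp))
  have h5 := hp 5 (by norm_num) (h 5 (by simp))
  have h7 := hp 7 (by norm_num) (h 7 (by simp))
  have h13 := hp 13 (by norm_num) (h 13 (by simp))
  have h19 := hp 19 (by norm_num) (h 19 (by simp))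
  have h37 := hp 37 (by norm_num) (h 37 (by simp))
  have h73 := hp 73 (by norm_num) (h 73 (by simp))
  have e : M0 = 2 * 2 * (3 : ℕ) * (5 : ℕ) * (7 : ℕ) * (13 : ℕ) * (19 : ℕ) * (37 : ℕ) * (73 : ℕ) := by
    unfold M0; norm_num
  rw [e]
  exact ((((((((k.mul_right k).mul_right h3).mul_right h5).mul_right h7).mul_right
    h13).mul_right h19).mul_right h37).mul_right h73)

theorem core (hrun : AllRun) {t P a b : ℤ} {D : ℕ} (G : Good5 t P a b D) (hP2 : P % 2 = 1)
    (ht : t % 2 = 1)
    (hin : ∀ l : ℕ, l ∈ [3, 5, 7, 13, 19, 37, 73] → ¬ IsSquare ((t ^ 2 + 4 * P : ℤ) : ZMod l)) :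
    False := by
  obtain ⟨R, hR⟩ : ∃ R, R = 1 + a * t - a ^ 2 * P := ⟨_, rfl⟩
  obtain ⟨B, hB⟩ : ∃ B, B = 2 * a * P - t := ⟨_, rfl⟩
  have hDi : ∀ l : ℕ, l ∈ [3, 5, 7, 13, 19, 37, 73] → ¬ (l : ℤ) ∣ (t ^ 2 + 4 * P) := by
    intro l hl hd
    apply hin l hl
    rw [(ZMod.intCast_zmod_eq_zero_iff_dvd _ _).mpr hd]
    exact ⟨0, by simp⟩
  have hcP : IsCoprime P M0 := by
    apply isCoprime_M0 hP2
    intro l hl hd
    apply hin l hl
    have : ((P : ℤ) : ZMod l) = 0 := (ZMod.intCast_zmod_eq_zero_iff_dvd _ _).mpr hd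
    push_cast
    rw [this]
    exact ⟨t, by ring⟩
  have hRodd : R % 2 = 1 := by
    obtain ⟨t', ht'⟩ : ∃ k, t = 2 * k + 1 := ⟨t / 2, by omega⟩
    obtain ⟨P', hP'⟩ : ∃ k, P = 2 * k + 1 := ⟨P / 2, by omega⟩
    rw [hR, ht', hP']
    have h3 : (a * (a - 1)) % 2 = 0 := by
      rcases Int.emod_two_eq_zero_or_one a with h | h
      · rw [Int.mul_emod, h, zero_mul]; rfl
      · rw [Int.mul_emod, show (a - 1) % 2 = 0 by omega, mul_zero]; rfl
    have e : 1 + a * (2 * t' + 1) - a ^ 2 * (2 * P' + 1) =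
        1 - a * (a - 1) + 2 * (a * t' - a ^ 2 * P') := by ring
    rw [e]
    omega
  have hcR : IsCoprime R M0 := by
    apply isCoprime_M0 hRodd
    intro l hl hd
    apply hin l hl
    have h0 : ((R : ℤ) : ZMod l) = 0 := (ZMod.intCast_zmod_eq_zero_iff_dvd _ _).mpr hd
    have e : t ^ 2 + 4 * P = B ^ 2 + 4 * P * R := by rw [hR, hB]; ring
    rw [e]
    push_cast
    rw [h0]
    exact ⟨B, by ring⟩
  obtain ⟨Pi, u, hPi⟩ := hcP
  obtain ⟨Ri, v, hRi⟩ := hcR
  have hP' : M0 ∣ P * Pi - 1 := ⟨-u, by linear_combination hPi⟩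
  have hR' : M0 ∣ R * Ri - 1 := ⟨-v, by linear_combination hRi⟩
  have hcD : Nat.Coprime M0n D := by
    have h1 : IsCoprime ((D : ℤ)) M0 := by
      rw [G.hD]
      apply isCoprime_M0 _ hDi
      obtain ⟨t', ht'⟩ : ∃ k, t = 2 * k + 1 := ⟨t / 2, by omega⟩
      rw [ht']
      have e : (2 * t' + 1) ^ 2 + 4 * P = 1 + 2 * (2 * t' ^ 2 + 2 * t' + 2 * P) := by ring
      rw [e]
      omega
    rw [M0_eq] at h1
    exact (Nat.isCoprime_iff_coprime.mp h1).symm
  have hrel : ∀ c : CD, c.OK → c.q ∣ M0n → c.p ∣ M0n → ∀ _ : NeZero c.q,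
      RelM (chi c.q c.p c.T) t P a b = 0 := by
    intro c hc h1 h2 _
    have h3 : ¬ (c.p : ℤ) ∣ D := by
      intro h
      have h4 : c.p ∣ D := by exact_mod_cast h
      have h5 : c.p ∣ 1 := by
        rw [← hcD]
        exact Nat.dvd_gcd h2 h4
      exact hc.pp.one_lt.ne' (Nat.dvd_one.mp h5)
    exact G.rel_mod hP2 hc.pp hc.p2 h3 (Nat.Coprime.coprime_dvd_left h1 hcD) _ (chi_mul hc.mul)
      (chi_neg hc.q1 hc.mul hc.oth) (chi_sum hc.oth)
  by_cases hs : res t 37 < 19
  · have S : Sys ⟨t, P, a, b, Pi, Ri⟩ := by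
      apply mkSys
      · exact G.con
      · exact hP'
      · rw [hR] at hR'; exact hR'
      · exact ht
      · exact hP2
      · exact hin
      · exact hrel
    exact run_sound S hs (hrun _ (res_lt a (by norm_num)))
  · have S : Sys ⟨-t, P, -a, -b, Pi, Ri⟩ := by
      apply mkSys
      · have := G.con
        unfold Con Dat.B1 Dat.R
        simp only
        linear_combination this
      · exact hP'
      · have e : (1 + -a * -t - (-a) ^ 2 * P) = R := by rw [hR]; ring
        unfold Dat.R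
        simp only
        rw [e]
        exact hR'
      · simp only
        omega
      · exact hP2
      · intro l hl
        simp only
        rw [neg_sq]
        exact hin l hl
      · intro c hc h1 h2 i
        simp only
        rw [RelM_neg, hrel c hc h1 h2 i, neg_zero]
    have hs' : res (-t) 37 < 19 := by
      have e1 := res_int t (M := 37) (by norm_num)
      have e2 := res_int (-t) (M := 37) (by norm_num)
      have h1 := res_lt t (M := 37) (by norm_num)
      have h2 := res_lt (-t) (M := 37) (by norm_num)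
      have h3 : (t % 37 + (-t) % 37) % 37 = 0 := by
        rw [← Int.add_emod]; simp
      have e1' : ((res t 37 : ℕ) : ℤ) = t % 37 := e1
      have e2' : ((res (-t) 37 : ℕ) : ℤ) = (-t) % 37 := e2
      rw [← e1', ← e2'] at h3
      clear e1 e2 e1' e2'
      have h4 : (res t 37 + res (-t) 37) % 37 = 0 := by exact_mod_cast h3
      clear h3
      generalize res t 37 = u at *
      generalize res (-t) 37 = v at *
      omega
    exact run_sound S hs' (hrun _ (res_lt (-a) (by norm_num)))

end Pool.Agent.N911
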