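import Pool.Agent.N911.K5
import Pool.Agent.N911.A6

/-! The finitely many remaining discriminants. -/

set_option maxRecDepth 100000

namespace Pool.Agent.N911

open H419R2 Finset

/-- bounded existential quantifier -/
def anyN (n : ℕ) (f : ℕ → Bool) : Bool :=
  @Nat.rec (fun _ => Bool) false (fun i ih => @Bool.rec (fun _ => Bool) ih true (f i)) n

theorem anyN_true {n : ℕ} {f : ℕ → Bool} (h : anyN n f = true) : ∃ i < n, f i = true := by
  induction n with
  | zero => exact absurd h (by simp [anyN])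
  | succ n ih =>
    have e : anyN (n + 1) f = @Bool.rec (fun _ => Bool) (anyN n f) true (f n) := rfl
    rw [e] at h
    cases hf : f n with
    | true => exact ⟨n, Nat.lt_succ_self n, hf⟩
    | false =>
      rw [hf] at h
      obtain ⟨i, hi, h2⟩ := ih h
      exact ⟨i, Nat.lt_succ_of_lt hi, h2⟩

/-- small primes -/
def PLst : List ℕ := [2, 3, 5, 7, 11, 13, 17, 19, 23, 29, 31, 37, 41, 43, 47, 53, 59, 61, 67, 71, 73]

/-- the final list -/
def Fin29 : List ℕ := [5, 13, 17, 29, 37, 41, 53, 61, 101, 149, 157, 173, 181, 197, 269, 293, 317,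
  397, 461, 557, 677, 773, 941, 1013, 1877, 2477, 2693, 3533, 4253]

/-- witness at one prime -/
def wit1 (t P R D l : ℕ) : Bool :=
  cj (Nat.ble (Nat.mul 4 (Nat.mul l l)) D) (cj (not (Nat.beq l P)) (cj (not (Nat.beq l R))
    (anyN l (fun w => Nat.beq (Nat.mod (Nat.add (Nat.mul w w) (Nat.mul t w)) l) (Nat.mod P l)))))

/-- witness -/
def wit (t P R D : ℕ) : Bool := anyL PLst (fun l => wit1 t P R D l)

theorem wit_sound {t P R D : ℕ} {a b : ℤ} (G : Good5 t P a b D)
    (hR : (R : ℤ) = 1 + a * t - a ^ 2 * P) (h : wit t P R D = true) : False := by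
  unfold wit at h
  rw [anyL_iff] at h
  obtain ⟨l, hl, h1⟩ := h
  have hp : l.Prime := by
    have : ∀ l ∈ PLst, l.Prime := by
      unfold PLst
      simp only [List.mem_cons, List.not_mem_nil, or_false, forall_eq_or_imp, forall_eq]
      norm_num
    exact this l hl
  unfold wit1 at h1
  simp only [cj_true] at h1
  obtain ⟨h2, h3, h4, h5⟩ := h1
  have h2' : 4 * (l * l) ≤ D := Nat.le_of_ble_eq_true h2
  obtain ⟨w, _, h6⟩ := anyN_true h5
  have h6' : (w * w + t * w) % l = P % l := Nat.eq_of_beq_eq_true h6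
  have h7 : (l : ℤ) ∣ (w : ℤ) ^ 2 + t * w - P := by
    have h8 : (w * w + t * w) ≡ P [MOD l] := h6'
    have h9 := (Nat.modEq_iff_dvd.mp h8)
    push_cast at h9
    have : (w : ℤ) ^ 2 + t * w - P = -((P : ℤ) - (w * w + t * w)) := by ring
    rw [this]
    exact (dvd_neg).mpr h9
  have h10 := G.split l hp (by
    have : (4 * (l * l) : ℤ) ≤ D := by exact_mod_cast h2'
    linarith) ⟨w, h7⟩
  rcases h10 with h | h
  · have : l = P := by exact_mod_cast h
    subst this
    simp at h3
  · rw [← hR] at h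
    have : l = R := by exact_mod_cast h
    subst this
    simp at h4

/-- membership in the final list -/
def inL (D : ℕ) : Bool := anyL Fin29 (fun x => Nat.beq x D)

theorem inL_sound {D : ℕ} (h : inL D = true) : D ∈ Fin29 := by
  unfold inL at h
  rw [anyL_iff] at h
  obtain ⟨x, hx, h1⟩ := h
  rw [← Nat.eq_of_beq_eq_true h1]; exact hx

/-- discriminant -/
def dsc (t P : ℕ) : ℕ := Nat.add (Nat.mul t t) (Nat.mul 4 P)

/-- small case, period 1 -/
def chkS1 : Bool := allN 73 (fun i => force (Nat.add (Nat.mul 2 i) 1) (fun t =>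
  force (dsc t 1) (fun D => or (inL D) (wit t 1 1 D))))

/-- the equation -/
def eqn (P R a b s : ℕ) : Bool :=
  Nat.beq (Nat.mul P (Nat.add 1 (Nat.mul a b)))
    (Nat.add (Nat.mul R (Nat.add 1 (Nat.mul b b))) (Nat.mul b s))

/-- small case, period 3 and 5 -/
def chkS5 (lo n : ℕ) : Bool := allN n (fun i => force (Nat.add (Nat.mul 2 (Nat.add lo i)) 1) (fun t =>
  allN (Nat.sub t 2) (fun P' => force (Nat.add P' 2) (fun P => force (dsc t P) (fun D =>
    @Bool.rec (fun _ => Bool)
    (allN (Nat.div t P) (fun a' => force (Nat.add a' 1) (fun a =>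
      force (Nat.sub t (Nat.mul a P)) (fun s => force (Nat.add 1 (Nat.mul a s)) (fun R =>
        or (wit t P R D) (allN P (fun b => not (eqn P R a b s)))))))) true (inL D))))))

/-- check of a candidate -/
def cand (l s b a : ℕ) : Bool :=
  imp (Nat.ble 1 a) (force (Nat.add 1 (Nat.mul a s)) (fun R => imp (eqn l R a b s)
    (force (Nat.add s (Nat.mul a l)) (fun t => force (dsc t l) (fun D =>
      or (Nat.ble D 21315) (or (Nat.beq (Nat.mod t 2) 0) (wit t l R D)))))))

/-- case `P = l` -/
def chkP (l : ℕ) : Bool := allN l (fun s => imp (Nat.ble 1 s) (allN l (fun b =>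
  force (Nat.mul l b) (fun c1 => force (Nat.mul s (Nat.add 1 (Nat.mul b b))) (fun c2 =>
  force (Nat.add (Nat.add 1 (Nat.mul b b)) (Nat.mul b s)) (fun n1 =>
    cj (force (Nat.div (Nat.sub n1 l) (Nat.sub c1 c2)) (fun a => cand l s b a))
      (cj (force (Nat.div (Nat.sub l n1) (Nat.sub c2 c1)) (fun a => cand l s b a))
        (imp (Nat.beq c1 c2) (not (Nat.beq n1 l))))))))))

/-- case `R = l` -/
def chkQ (l : ℕ) : Bool := allN l (fun a' => force (Nat.add a' 1) (fun a =>
  imp (Nat.beq (Nat.mod (Nat.sub l 1) a) 0) (force (Nat.div (Nat.sub l 1) a) (fun s =>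
    allN (Nat.add (Nat.mul a l) 1) (fun b =>
      force (Nat.add (Nat.mul l (Nat.add 1 (Nat.mul b b))) (Nat.mul b s)) (fun num =>
      force (Nat.add 1 (Nat.mul a b)) (fun den => imp (Nat.beq (Nat.mod num den) 0)
        (force (Nat.div num den) (fun P => force (Nat.add s (Nat.mul a P)) (fun t =>
          force (dsc t P) (fun D =>
          or (Nat.ble D 21315) (or (Nat.beq (Nat.mod t 2) 0) (wit t P l D)))))))))))))

/-- the primes used -/
def L8 : List ℕ := [2, 3, 5, 7, 13, 19, 37, 73]

theorem okS1 : chkS1 = true := by decide +kernel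
theorem okP : allL L8 chkP = true := by decide +kernel
theorem okQ : allL L8 chkQ = true := by decide +kernel
theorem okS5_0 : chkS5 0 40 = true := by decide +kernel
theorem okS5_1 : chkS5 40 18 = true := by decide +kernel
theorem okS5_2 : chkS5 58 15 = true := by decide +kernel

end Pool.Agent.N911
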