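import Pool.Agent.N911.K3
import Pool.Agent.N911.D1
import Pool.Agent.N911.D3

/-! The search. -/

set_option maxRecDepth 1000000

namespace Pool.Agent.N911

open H419R2

theorem run_21 : run c133_73 c247_73_0 c247_73_1 c259_73 21 = true := by decide +kernel
theorem run_22 : run c133_73 c247_73_0 c247_73_1 c259_73 22 = true := by decide +kernel
theorem run_23 : run c133_73 c247_73_0 c247_73_1 c259_73 23 = true := by decide +kernel

end Pool.Agent.N911
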