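import Pool.Agent.N911.W1
import Pool.Agent.N911.W2
import Pool.Agent.N911.W3
import Pool.Agent.N911.W4
import Pool.Agent.N911.W5
import Pool.Agent.N911.W6
import Pool.Agent.N911.W7
import Pool.Agent.N911.W8
import Pool.Agent.N911.W9
import Pool.Agent.N911.W10
import Pool.Agent.N911.W11
import Pool.Agent.N911.W12
import Pool.Agent.N911.W13
import Pool.Agent.N911.K8

/-! All runs of the search. -/

set_option maxRecDepth 100000

namespace Pool.Agent.N911

open H419R2

theorem allRun : AllRun := by
  intro a ha
  match a, ha with
  | 0, _ => exact run_0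
  | 1, _ => exact run_1
  | 2, _ => exact run_2
  | 3, _ => exact run_3
  | 4, _ => exact run_4
  | 5, _ => exact run_5
  | 6, _ => exact run_6
  | 7, _ => exact run_7
  | 8, _ => exact run_8
  | 9, _ => exact run_9
  | 10, _ => exact run_10
  | 11, _ => exact run_11
  | 12, _ => exact run_12
  | 13, _ => exact run_13
  | 14, _ => exact run_14
  | 15, _ => exact run_15
  | 16, _ => exact run_16
  | 17, _ => exact run_17
  | 18, _ => exact run_18
  | 19, _ => exact run_19
  | 20, _ => exact run_20
  | 21, _ => exact run_21
  | 22, _ => exact run_22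
  | 23, _ => exact run_23
  | 24, _ => exact run_24
  | 25, _ => exact run_25
  | 26, _ => exact run_26
  | 27, _ => exact run_27
  | 28, _ => exact run_28
  | 29, _ => exact run_29
  | 30, _ => exact run_30
  | 31, _ => exact run_31
  | 32, _ => exact run_32
  | 33, _ => exact run_33
  | 34, _ => exact run_34
  | 35, _ => exact run_35
  | 36, _ => exact run_36
  | n + 37, h => exact absurd h (by omega)

end Pool.Agent.N911
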