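import Pool.Agent.N911.N1
import Pool.Agent.N911.WW

/-! The classification in terms of the parameters. -/

set_option maxRecDepth 100000

namespace Pool.Agent.N911

open H419R2 Finset

theorem shape {t P a b : ℤ} (h : (1 < P ∧ 0 < a ∧ b = 0 ∧ 1 + a * t - a ^ 2 * P = P) ∨
    (1 < P ∧ 0 < a ∧ 0 < b ∧ 1 < 1 + a * t - a ^ 2 * P ∧
      P + b * (2 * a * P - t) - b ^ 2 * (1 + a * t - a ^ 2 * P) = 1 + a * t - a ^ 2 * P)) :
    ∃ s : ℤ, t = s + a * P ∧ 1 ≤ s ∧ s < P ∧ 0 < a ∧ 0 ≤ b ∧ b < P ∧ 1 < P ∧
      P * (1 + a * b) = (1 + a * s) * (1 + b * b) + b * s := by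
  refine ⟨t - a * P, by ring, ?_⟩
  obtain ⟨s, hs⟩ : ∃ s, s = t - a * P := ⟨_, rfl⟩
  rw [← hs]
  have ht : t = s + a * P := by rw [hs]; ring
  subst ht
  rcases h with ⟨hP, ha, rfl, hc⟩ | ⟨hP, ha, hb, hR, hc⟩
  · have h1 : 1 + a * s = P := by linear_combination hc
    have h2 : 1 ≤ s := by
      by_contra h
      have : s ≤ 0 := by omega
      nlinarith
    refine ⟨h2, by nlinarith, ha, le_refl _, by linarith, hP, by linear_combination -h1⟩
  · have h1 : 1 + a * (s + a * P) - a ^ 2 * P = 1 + a * s := by ring
    rw [h1] at hR hc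
    have h2 : 1 ≤ s := by
      by_contra h
      have : s ≤ 0 := by omega
      nlinarith
    have he : P * (1 + a * b) = (1 + a * s) * (1 + b * b) + b * s := by linear_combination hc
    have h3 : s < P := by
      by_contra h
      have h4 : P ≤ s := by omega
      have h5 : 0 ≤ (s - P) * (a * (1 + b * b) + b) := mul_nonneg (by omega) (by positivity)
      have h6 : 0 ≤ P * (a - 1) := mul_nonneg (by omega) (by omega)
      have h7 : 0 ≤ a * P * b * (b - 1) := mul_nonneg (by positivity) (by omega)
      have h8 : 0 < b * P := by positivity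
      nlinarith
    have h4 : b < P := by
      by_contra h
      have h5 : P ≤ b := by omega
      have h6 : 0 ≤ (s - 1) * (a * (1 + b * b) + b) := mul_nonneg (by omega) (by positivity)
      have h7 : 0 ≤ (b - P) * (1 + a * b) := mul_nonneg (by omega) (by positivity)
      nlinarith
    exact ⟨h2, h3, ha, hb.le, h4, hP, he⟩

theorem eqn_true {P R a b s : ℕ} (h : P * (1 + a * b) = R * (1 + b * b) + b * s) :
    eqn P R a b s = true := by
  unfold eqn
  change Nat.beq (P * (1 + a * b)) (R * (1 + b * b) + b * s) = true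
  rw [h]; exact Nat.beq_refl _

theorem not_true_of {x : Bool} (h : x = true) : (!x) = false := by rw [h]; rfl

theorem small_case {t P a b s D : ℕ} (G : Good5 t P a b D) (ht : t = s + a * P)
    (hs : 1 ≤ s) (ha : 1 ≤ a) (hb : b < P) (hP : 1 < P)
    (he : P * (1 + a * b) = (1 + a * s) * (1 + b * b) + b * s) (hodd : t % 2 = 1)
    (hD : D = t * t + 4 * P) (hlt : D < 21316) : D ∈ Fin29 := by
  have hR : ((1 + a * s : ℕ) : ℤ) = 1 + (a : ℤ) * t - (a : ℤ) ^ 2 * P := by
    rw [ht]; push_cast; ring
  have htl : t < 146 := by nlinarith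
  have hPt : P + 1 ≤ t := by nlinarith
  have key : ∀ lo n : ℕ, chkS5 lo n = true → lo ≤ t / 2 → t / 2 < lo + n → D ∈ Fin29 := by
    intro lo n h h1 h2
    unfold chkS5 at h
    rw [allN_iff] at h
    have h3 := h (t / 2 - lo) (by omega)
    rw [force_eq] at h3
    have e1 : Nat.add (Nat.mul 2 (Nat.add lo (t / 2 - lo))) 1 = t := by
      change 2 * (lo + (t / 2 - lo)) + 1 = t
      omega
    rw [e1, allN_iff] at h3
    have h4 := h3 (P - 2) (by change P - 2 < t - 2; omega)
    rw [force_eq, force_eq] at h4
    have e2 : Nat.add (P - 2) 2 = P := by change P - 2 + 2 = P; omega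
    have e3 : dsc t P = D := hD.symm
    rw [e2, e3] at h4
    cases hI : inL D with
    | true => exact inL_sound hI
    | false =>
      rw [hI] at h4
      change allN (Nat.div t P) _ = true at h4
      rw [allN_iff] at h4
      have h5 := h4 (a - 1) (by
        change a - 1 < t / P
        have : a ≤ t / P := (Nat.le_div_iff_mul_le (by omega)).mpr (by rw [ht]; omega)
        omega)
      simp only [force_eq] at h5
      have e4 : Nat.add (a - 1) 1 = a := by change a - 1 + 1 = a; omega
      have e5 : Nat.sub t (Nat.mul a P) = s := by change t - a * P = s; rw [ht]; omega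
      rw [e4, e5, Bool.or_eq_true] at h5
      exfalso
      rcases h5 with h5 | h5
      · exact wit_sound G hR h5
      · rw [allN_iff] at h5
        have h6 := h5 b hb
        have h7 := eqn_true he
        have h8 : Nat.add 1 (Nat.mul a s) = 1 + a * s := rfl
        rw [h8, h7] at h6
        exact absurd h6 (by simp)
  rcases lt_or_ge (t / 2) 40 with h | h
  · exact key 0 40 okS5_0 (by omega) (by omega)
  · rcases lt_or_ge (t / 2) 58 with h' | h'
    · exact key 40 18 okS5_1 h (by omega)
    · exact key 58 15 okS5_2 h' (by omega)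

theorem big_cand {l s b a D : ℕ} (h : cand l s b a = true) (ha : 1 ≤ a)
    (he : l * (1 + a * b) = (1 + a * s) * (1 + b * b) + b * s)
    (hD : D = (s + a * l) * (s + a * l) + 4 * l) (hodd : (s + a * l) % 2 = 1) (hbig : 21316 ≤ D) :
    wit (s + a * l) l (1 + a * s) D = true := by
  unfold cand at h
  have h1 := imp_true h (Nat.ble_eq_true_of_le ha)
  rw [force_eq] at h1
  have h2 := imp_true h1 (eqn_true he)
  rw [force_eq, force_eq] at h2
  have e1 : Nat.add s (Nat.mul a l) = s + a * l := rfl
  have e2 : Nat.add 1 (Nat.mul a s) = 1 + a * s := rfl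
  have e3 : dsc (s + a * l) l = D := hD.symm
  rw [e1, e2, e3, Bool.or_eq_true, Bool.or_eq_true] at h2
  rcases h2 with h2 | h2 | h2
  · have := Nat.le_of_ble_eq_true h2
    omega
  · have : (s + a * l) % 2 = 0 := Nat.eq_of_beq_eq_true h2
    omega
  · exact h2

theorem big_P {t a b s l D : ℕ} (G : Good5 t l a b D) (hl : chkP l = true) (ht : t = s + a * l)
    (hs : 1 ≤ s) (hsl : s < l) (ha : 1 ≤ a) (hb : b < l)
    (he : l * (1 + a * b) = (1 + a * s) * (1 + b * b) + b * s) (hodd : t % 2 = 1)
    (hD : D = t * t + 4 * l) (hbig : 21316 ≤ D) : False := by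
  have hR : ((1 + a * s : ℕ) : ℤ) = 1 + (a : ℤ) * t - (a : ℤ) ^ 2 * l := by
    rw [ht]; push_cast; ring
  unfold chkP at hl
  rw [allN_iff] at hl
  have h1 := imp_true (hl s hsl) (Nat.ble_eq_true_of_le hs)
  rw [allN_iff] at h1
  have h2 := h1 b hb
  simp only [force_eq, cj_true] at h2
  obtain ⟨h3, h4, h5⟩ := h2
  subst ht
  have e : a * (l * b) + l = a * (s * (1 + b * b)) + (1 + b * b + b * s) := by
    nlinarith [he]
  rcases lt_trichotomy (l * b) (s * (1 + b * b)) with h | h | h
  · have hq : Nat.div (Nat.sub l (Nat.add (Nat.add 1 (Nat.mul b b)) (Nat.mul b s)))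
        (Nat.sub (Nat.mul s (Nat.add 1 (Nat.mul b b))) (Nat.mul l b)) = a := by
      change (l - (1 + b * b + b * s)) / (s * (1 + b * b) - l * b) = a
      obtain ⟨k, hk⟩ : ∃ k, s * (1 + b * b) = l * b + k := ⟨_, (Nat.add_sub_cancel' h.le).symm⟩
      have hk0 : 0 < k := by omega
      have : l - (1 + b * b + b * s) = a * k := by
        rw [hk, Nat.mul_add] at e
        omega
      rw [this, hk, Nat.add_sub_cancel_left]
      exact Nat.mul_div_cancel _ hk0
    rw [hq] at h4
    exact wit_sound G hR (big_cand h4 ha he hD hodd hbig)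
  · have e1 : Nat.beq (Nat.mul l b) (Nat.mul s (Nat.add 1 (Nat.mul b b))) = true := by
      change Nat.beq (l * b) (s * (1 + b * b)) = true
      rw [h]; exact Nat.beq_refl _
    have h6 := imp_true h5 e1
    rw [h] at e
    have e2 : l = 1 + b * b + b * s := by omega
    have e3 : Nat.beq (Nat.add (Nat.add 1 (Nat.mul b b)) (Nat.mul b s)) l = true := by
      change Nat.beq (1 + b * b + b * s) l = true
      rw [← e2]; exact Nat.beq_refl _
    rw [e3] at h6
    exact absurd h6 (by simp)
  · have hq : Nat.div (Nat.sub (Nat.add (Nat.add 1 (Nat.mul b b)) (Nat.mul b s)) l)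
        (Nat.sub (Nat.mul l b) (Nat.mul s (Nat.add 1 (Nat.mul b b)))) = a := by
      change ((1 + b * b + b * s) - l) / (l * b - s * (1 + b * b)) = a
      obtain ⟨k, hk⟩ : ∃ k, l * b = s * (1 + b * b) + k := ⟨_, (Nat.add_sub_cancel' h.le).symm⟩
      have hk0 : 0 < k := by omega
      have : (1 + b * b + b * s) - l = a * k := by
        rw [hk, Nat.mul_add] at e
        omega
      rw [this, hk, Nat.add_sub_cancel_left]
      exact Nat.mul_div_cancel _ hk0
    rw [hq] at h3
    exact wit_sound G hR (big_cand h3 ha he hD hodd hbig)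

theorem big_Q {t P a b s l D : ℕ} (G : Good5 t P a b D) (hl : chkQ l = true) (ht : t = s + a * P)
    (hs : 1 ≤ s) (ha : 1 ≤ a) (hRl : 1 + a * s = l)
    (he : P * (1 + a * b) = (1 + a * s) * (1 + b * b) + b * s) (hodd : t % 2 = 1)
    (hD : D = t * t + 4 * P) (hbig : 21316 ≤ D) : False := by
  have hR : ((1 + a * s : ℕ) : ℤ) = 1 + (a : ℤ) * t - (a : ℤ) ^ 2 * P := by
    rw [ht]; push_cast; ring
  unfold chkQ at hl
  rw [allN_iff] at hl
  have h1 := hl (a - 1) (by
    have : a ≤ a * s := Nat.le_mul_of_pos_right a hs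
    omega)
  rw [force_eq] at h1
  have e1 : Nat.add (a - 1) 1 = a := by change a - 1 + 1 = a; omega
  rw [e1] at h1
  have e2 : Nat.sub l 1 = a * s := by change l - 1 = a * s; omega
  rw [e2] at h1
  have e3 : Nat.mod (a * s) a = 0 := Nat.mul_mod_right a s
  have e4 : Nat.div (a * s) a = s := Nat.mul_div_cancel_left s (by omega)
  have h2 := imp_true h1 (by rw [e3]; rfl)
  rw [e4, force_eq, allN_iff] at h2
  have hbl : b ≤ a * l := by
    have d1 : ((1 + a * b : ℕ) : ℤ) ∣ ((1 + a * a * l : ℕ) : ℤ) := by
      have he' : (P : ℤ) * (1 + a * b) = (1 + a * s) * (1 + b * b) + b * s := by exact_mod_cast he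
      have hl' : (1 : ℤ) + a * s = l := by exact_mod_cast hRl
      refine ⟨(a : ℤ) ^ 2 * P - l * (a * b - 1) - a * s, ?_⟩
      push_cast
      have hs' : (a : ℤ) * s = l - 1 := by linarith
      rw [← hl'] 
      linear_combination (-(a : ℤ) ^ 2) * he'
    have d2 : (1 + a * b) ∣ (1 + a * a * l) := by exact_mod_cast d1
    have d3 := Nat.le_of_dvd (by omega) d2
    have d4 : a * b ≤ a * (a * l) := by nlinarith
    exact Nat.le_of_mul_le_mul_left d4 (by omega)
  have h3 := h2 b (by change b < a * l + 1; omega)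
  simp only [force_eq] at h3
  have e5 : Nat.add (Nat.mul l (Nat.add 1 (Nat.mul b b))) (Nat.mul b s) = P * (1 + a * b) := by
    change l * (1 + b * b) + b * s = P * (1 + a * b)
    rw [he, hRl]
  have e6 : Nat.add 1 (Nat.mul a b) = 1 + a * b := rfl
  rw [e5, e6] at h3
  have e7 : Nat.mod (P * (1 + a * b)) (1 + a * b) = 0 := Nat.mul_mod_left _ _
  have e8 : Nat.div (P * (1 + a * b)) (1 + a * b) = P := Nat.mul_div_cancel _ (by omega)
  have h4 := imp_true h3 (by rw [e7]; rfl)
  have e9 : Nat.add s (Nat.mul a P) = t := ht.symm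
  have e10 : dsc t P = D := hD.symm
  rw [e8, e9, e10, Bool.or_eq_true, Bool.or_eq_true] at h4
  rcases h4 with h4 | h4 | h4
  · have := Nat.le_of_ble_eq_true h4
    omega
  · have : t % 2 = 0 := Nat.eq_of_beq_eq_true h4
    omega
  · rw [← hRl] at h4
    exact wit_sound G hR h4

theorem final_par {t P a b : ℤ} {D : ℕ} (hpar : Par t P a b) (hodd : t % 2 = 1)
    (G : Good5 t P a b D) : D ∈ Fin29 := by
  have hDD := G.hD
  -- split primes
  have hsp : ∀ l ∈ L8, l.Prime := by
    unfold L8
    simp only [List.mem_cons, List.not_mem_nil, or_false, forall_eq_or_imp, forall_eq]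
    norm_num
  have hs73 : ∀ l ∈ L8, l ≤ 73 := by
    unfold L8
    simp only [List.mem_cons, List.not_mem_nil, or_false, forall_eq_or_imp, forall_eq]
    norm_num
  by_cases hbig : 21316 ≤ D
  · by_cases hex : ∃ l ∈ L8, ∃ w0 : ℤ, (l : ℤ) ∣ w0 ^ 2 + t * w0 - P
    · obtain ⟨l, hl, hw⟩ := hex
      exfalso
      have hlp := hsp l hl
      have hl73 : (l : ℤ) ≤ 73 := by exact_mod_cast hs73 l hl
      have h1 := G.split l hlp (by
        have : (21316 : ℤ) ≤ D := by exact_mod_cast hbig
        nlinarith) hw
      obtain ⟨ht, hP, h3⟩ := hpar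
      rcases h3 with ⟨rfl, rfl, rfl⟩ | h3
      · have h4 : (l : ℤ) = 1 := by
          rcases h1 with h | h
          · exact h
          · rw [h]; ring
        exact hlp.one_lt.ne' (by exact_mod_cast h4)
      · obtain ⟨s, hts, hs, hsP, ha, hb, hbP, hP1, he⟩ := shape h3
        lift s to ℕ using (by omega)
        lift a to ℕ using ha.le
        lift b to ℕ using hb
        lift P to ℕ using (by omega)
        lift t to ℕ using ht.le
        have hts' : t = s + a * P := by exact_mod_cast hts
        have hs' : 1 ≤ s := by exact_mod_cast hs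
        have hsP' : s < P := by exact_mod_cast hsP
        have ha' : 1 ≤ a := by exact_mod_cast ha
        have hbP' : b < P := by exact_mod_cast hbP
        have he' : P * (1 + a * b) = (1 + a * s) * (1 + b * b) + b * s := by exact_mod_cast he
        have hodd' : t % 2 = 1 := by exact_mod_cast hodd
        have hD' : D = t * t + 4 * P := by
          have : (D : ℤ) = ((t * t + 4 * P : ℕ) : ℤ) := by rw [hDD]; push_cast; ring
          exact_mod_cast this
        rcases h1 with h | h
        · have : l = P := by exact_mod_cast h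
          subst this
          have := (allL_iff _ _).mp okP l hl
          exact big_P G this hts' hs' hsP' ha' hbP' he' hodd' hD' hbig
        · have h5 : 1 + a * s = l := by
            have : ((1 + a * s : ℕ) : ℤ) = l := by
              rw [h, hts]; push_cast; ring
            exact_mod_cast this
          have := (allL_iff _ _).mp okQ l hl
          exact big_Q G this hts' hs' ha' h5 he' hodd' hD' hbig
    · exfalso
      push Not at hex
      have hP2 : P % 2 = 1 := by
        by_contra hc
        exact hex 2 (by unfold L8; simp) 0 (by push_cast; omega)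
      refine core allRun G hP2 hodd ?_
      intro l hl hsq
      have hl8 : l ∈ L8 := by
        unfold L8
        exact List.mem_cons_of_mem _ hl
      have hl2 : l ≠ 2 := by
        rintro rfl
        simp at hl
      rw [← hDD] at hsq
      obtain ⟨w0, hw⟩ := root_of_square (hsp l hl8) hl2 hDD hsq
      exact hex l hl8 w0 hw
  · have hlt : D < 21316 := by omega
    obtain ⟨ht, hP, h3⟩ := hpar
    rcases h3 with ⟨rfl, rfl, rfl⟩ | h3
    · lift t to ℕ using ht.le
      have hodd' : t % 2 = 1 := by exact_mod_cast hodd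
      have hD' : D = t * t + 4 * 1 := by
        have : (D : ℤ) = ((t * t + 4 * 1 : ℕ) : ℤ) := by rw [hDD]; push_cast; ring
        exact_mod_cast this
      have htl : t < 146 := by nlinarith
      have h1 := okS1
      unfold chkS1 at h1
      rw [allN_iff] at h1
      have h2 := h1 (t / 2) (by omega)
      rw [force_eq, force_eq] at h2
      have e1 : Nat.add (Nat.mul 2 (t / 2)) 1 = t := by change 2 * (t / 2) + 1 = t; omega
      have e2 : dsc t 1 = D := hD'.symm
      rw [e1, e2, Bool.or_eq_true] at h2
      rcases h2 with h2 | h2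
      · exact inL_sound h2
      · exfalso
        exact wit_sound (P := 1) (R := 1) (by exact_mod_cast G) (by push_cast; ring) h2
    · obtain ⟨s, hts, hs, hsP, ha, hb, hbP, hP1, he⟩ := shape h3
      lift s to ℕ using (by omega)
      lift a to ℕ using ha.le
      lift b to ℕ using hb
      lift P to ℕ using (by omega)
      lift t to ℕ using ht.le
      have hts' : t = s + a * P := by exact_mod_cast hts
      have hs' : 1 ≤ s := by exact_mod_cast hs
      have ha' : 1 ≤ a := by exact_mod_cast ha
      have hbP' : b < P := by exact_mod_cast hbP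
      have hP1' : 1 < P := by exact_mod_cast hP1
      have he' : P * (1 + a * b) = (1 + a * s) * (1 + b * b) + b * s := by exact_mod_cast he
      have hodd' : t % 2 = 1 := by exact_mod_cast hodd
      have hD' : D = t * t + 4 * P := by
        have : (D : ℤ) = ((t * t + 4 * P : ℕ) : ℤ) := by rw [hDD]; push_cast; ring
        exact_mod_cast this
      exact small_case G hts' hs' ha' hbP' hP1' he' hodd' hD' hlt

end Pool.Agent.N911
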