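import Pool.Agent.N911.K2
import Pool.Agent.N911.K6
import Pool.Agent.H419R2.F2
import Pool.Agent.H419R2.F3
import Pool.Agent.H419R2.F5

/-! Checks of tables. -/

set_option maxRecDepth 100000

namespace Pool.Agent.N911

open H419R2

theorem ck_133_13_0 : chkG c133_13 (ent2 2 E133_13 7 19)
    (fun B C => or (vt 7 Q7 B C) (vt 19 Q19 B C)) 0 67 = true := by decide +kernel
theorem ck_148_19_0 : chkG c148_19 (ent2 1 E148_19 37 4)
    (fun B C => or (vt 37 Q37 B C) (vt 4 3 B C)) 0 75 = true := by decide +kernel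
theorem ck_185_0 : chkG c185_13 (ent2 2 E185 37 5)
    (fun B C => or (vt 37 Q37 B C) (vt 5 Q5 B C)) 0 51 = true := by decide +kernel

end Pool.Agent.N911
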