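import Pool.Agent.N911.K3

/-! Search functions for general palindromic periods.

`WL` is the first half of a period (outer letter first), `TL` a trace: for the forms
`(q, b, -q')` of the half period seven times the residue of `q` and the packed index of the
normalized form. -/

set_option maxRecDepth 100000

namespace Pool.Agent.N911

open H419R2

/-- letters -/
inductive WL where
  | nil : WL
  | cons (a : ℕ) (l : WL) : WL

/-- traces -/
inductive TL where
  | nil : TL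
  | cons (q k : ℕ) (l : TL) : TL

/-- the trace of normalized forms modulo `l` -/
noncomputable def mkT (l I : ℕ) (v : WL) : ℕ → ℕ → ℕ → (TL → Bool) → Bool :=
  @WL.rec (fun _ => ℕ → ℕ → ℕ → (TL → Bool) → Bool)
    (fun c B C g => force (Nat.mul 7 c) (fun q => force (Nat.mul 7 (Nat.add (Nat.mul B l) C))
      (fun k => g (TL.cons q k TL.nil))))
    (fun a _ ih c B C g => force (Nat.mul 7 c) (fun q =>
      force (Nat.mul 7 (Nat.add (Nat.mul B l) C)) (fun k => force (look I C) (fun i =>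
      force (Nat.mod (Nat.mul c C) l) (fun c' =>
      force (Nat.mod (Nat.mul (Nat.add (Nat.mul (Nat.mul 2 a) C) (Nat.sub l B)) i) l) (fun B' =>
      force (Nat.mod (Nat.mul (Nat.add (Nat.add 1 (Nat.mul a B)) (Nat.mul (Nat.mul a a)
        (Nat.sub l C))) i) l) (fun C' => ih c' B' C' (fun r => g (TL.cons q k r))))))))) v

/-- test for residues, then trace -/
noncomputable def tgW (l I Q : ℕ) (v : WL) (t P : ℕ) (f : ℕ → TL → Bool) : Bool :=
  @Bool.rec (fun _ => Bool) (mkT l I v 1 t P (fun r => f t r)) true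
    (tb Q (Nat.mod (Nat.add (Nat.mul t t) (Nat.mul 4 P)) l))

/-- all local solutions modulo an odd prime -/
noncomputable def enW (l I Q U x y : ℕ) (v : WL) (f : ℕ → TL → Bool) : Bool :=
  force (Nat.mod U l) (fun U => force (Nat.mod x l) (fun x => force (Nat.mod y l) (fun y =>
  allN l (fun t => force (Nat.mod (Nat.add (Nat.mul t x) y) l) (fun w =>
    @Nat.rec (fun _ => Bool)
      (imp (Nat.beq w 0) (allN l (fun P => tgW l I Q v t P f)))
      (fun _ _ => force (Nat.mod (Nat.mul w (look I U)) l) (fun P => tgW l I Q v t P f)) U)))))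

/-- one candidate modulo four -/
noncomputable def en41 (U x y : ℕ) (v : WL) (t P : ℕ) (f : ℕ → TL → Bool) : Bool :=
  imp (Nat.beq (Nat.mod (Nat.mul P U) 4) (Nat.mod (Nat.add (Nat.mul t x) y) 4))
    (mkT 4 I4 v 1 t P (fun r => f t r))

/-- all local solutions modulo four -/
noncomputable def en4 (U x y : ℕ) (v : WL) (f : ℕ → TL → Bool) : Bool :=
  cj (en41 U x y v 1 1 f) (cj (en41 U x y v 1 3 f) (cj (en41 U x y v 3 1 f) (en41 U x y v 3 3 f)))

/-- head of a trace -/
noncomputable def TL.hd (T : TL) (g : ℕ → ℕ → TL → Bool) : Bool :=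
  @TL.rec (fun _ => Bool) false (fun q k r _ => g q k r) T

/-- weighted sum over two traces: letters `v`, weight `w` of the `B2` sum at the first form,
accumulator `s` -/
noncomputable def R2 (gx ge : ℕ → ℕ → ℕ) (v : WL) : TL → TL → ℕ → ℕ → (ℕ → Bool) → Bool :=
  @WL.rec (fun _ => TL → TL → ℕ → ℕ → (ℕ → Bool) → Bool)
    (fun T T' w s k => T.hd (fun q i _ => T'.hd (fun q' i' _ =>
      force (ge i i') (fun e => force (Nat.add s (Nat.mul (gx q q')
        (Nat.add (Nat.mod e 128) (Nat.mul w (Nat.div e 128))))) k))))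
    (fun a _ ih T T' w s k => T.hd (fun q i r => T'.hd (fun q' i' r' =>
      force (ge i i') (fun e => force (Nat.add s (Nat.mul (gx q q')
        (Nat.add (Nat.mul 2 (Nat.mod e 128)) (Nat.mul w (Nat.div e 128)))))
        (fun s => ih r r' (Nat.mul 4 a) s k))))) v

/-- weighted sum over three traces -/
noncomputable def R3 (gx ge : ℕ → ℕ → ℕ → ℕ) (v : WL) :
    TL → TL → TL → ℕ → ℕ → (ℕ → Bool) → Bool :=
  @WL.rec (fun _ => TL → TL → TL → ℕ → ℕ → (ℕ → Bool) → Bool)
    (fun T T' T2 w s k => T.hd (fun q i _ => T'.hd (fun q' i' _ => T2.hd (fun q2 i2 _ =>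
      force (ge i i' i2) (fun e => force (Nat.add s (Nat.mul (gx q q' q2)
        (Nat.add (Nat.mod e 128) (Nat.mul w (Nat.div e 128))))) k)))))
    (fun a _ ih T T' T2 w s k => T.hd (fun q i r => T'.hd (fun q' i' r' =>
      T2.hd (fun q2 i2 r2 =>
      force (ge i i' i2) (fun e => force (Nat.add s (Nat.mul (gx q q' q2)
        (Nat.add (Nat.mul 2 (Nat.mod e 128)) (Nat.mul w (Nat.div e 128)))))
        (fun s => ih r r' r2 (Nat.mul 4 a) s k)))))) v

/-- image of a trace under slicing maps -/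
noncomputable def mapT (fx fe : ℕ → ℕ) (T : TL) : (TL → Bool) → Bool :=
  @TL.rec (fun _ => (TL → Bool) → Bool) (fun g => g TL.nil)
    (fun q k _ ih g => force (fx q) (fun x => force (fe k) (fun e =>
      ih (fun r => g (TL.cons x e r))))) T

/-- sum of a relation without `B2` part; the first trace has been sliced -/
noncomputable def R0 (v : WL) : TL → TL → ℕ → (ℕ → Bool) → Bool :=
  @WL.rec (fun _ => TL → TL → ℕ → (ℕ → Bool) → Bool)
    (fun T T' s k => T.hd (fun x e _ => T'.hd (fun q' i' _ =>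
      force (Nat.add (Nat.mul 2 s) (Nat.mul (sl1 x q') (sl1 e i'))) k)))
    (fun _ _ ih T T' s k => T.hd (fun x e r => T'.hd (fun q' i' r' =>
      force (Nat.add s (Nat.mul (sl1 x q') (sl1 e i'))) (fun s => ih r r' s k)))) v

/-- check of a relation without `B2` part; the first trace has been sliced -/
noncomputable def ck0 (p : ℕ) (v : WL) (T T' : TL) : Bool :=
  R0 v T T' 0 (fun s => Nat.beq (Nat.mod s p) 0)

/-- lists of traces -/
inductive SL where
  | nil : SL
  | cons (T : TL) (l : SL) : SL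

/-- all entries -/
noncomputable def SL.all (S : SL) (f : TL → Bool) : Bool :=
  @SL.rec (fun _ => Bool) true (fun T _ ih => cj (f T) ih) S

/-- one candidate modulo four, collected -/
noncomputable def cl41 (U x y : ℕ) (v : WL) (t P : ℕ) (S : SL) (g : SL → Bool) : Bool :=
  @Bool.rec (fun _ => Bool) (g S) (mkT 4 I4 v 1 t P (fun r => g (SL.cons r S)))
    (Nat.beq (Nat.mod (Nat.mul P U) 4) (Nat.mod (Nat.add (Nat.mul t x) y) 4))

/-- all local solutions modulo four, collected -/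
noncomputable def cl4 (U x y : ℕ) (v : WL) (g : SL → Bool) : Bool :=
  cl41 U x y v 1 1 SL.nil (fun S => cl41 U x y v 1 3 S (fun S => cl41 U x y v 3 1 S (fun S =>
    cl41 U x y v 3 3 S g)))

/-- the relation holds for `t` -/
noncomputable def ck2 (p : ℕ) (gx ge : ℕ → ℕ → ℕ) (v : WL) (T T' : TL) (t : ℕ) : Bool :=
  R2 gx ge v T T' (Nat.mul 2 t) 0 (fun s => Nat.beq (Nat.mod s p) 0)

/-- the relation holds for `t` -/
noncomputable def ck3 (p : ℕ) (gx ge : ℕ → ℕ → ℕ → ℕ) (v : WL) (T T' T2 : TL) (t : ℕ) : Bool :=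
  R3 gx ge v T T' T2 (Nat.mul 2 t) 0 (fun s => Nat.beq (Nat.mod s p) 0)

/-- coefficients of the relation -/
noncomputable def co2 (gx ge : ℕ → ℕ → ℕ) (v : WL) (T T' : TL) (g : ℕ → ℕ → Bool) : Bool :=
  R2 gx ge v T T' 0 0 (fun K => T.hd (fun _ i _ => T'.hd (fun _ i' _ =>
    force (Nat.mul 2 (Nat.div (ge i i') 128)) (fun c => g K c))))

/-- coefficients of the relation -/
noncomputable def co3 (gx ge : ℕ → ℕ → ℕ → ℕ) (v : WL) (T T' T2 : TL) (g : ℕ → ℕ → Bool) : Bool :=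
  R3 gx ge v T T' T2 0 0 (fun K => T.hd (fun _ i _ => T'.hd (fun _ i' _ => T2.hd (fun _ i2 _ =>
    force (Nat.mul 2 (Nat.div (ge i i' i2) 128)) (fun c => g K c)))))

/-- linear check -/
def ln (p K c t : ℕ) : Bool := Nat.beq (Nat.mod (Nat.add K (Nat.mul c t)) p) 0

noncomputable def x148_7 (a b : ℕ) : ℕ := sl1 (sl 4 X148_7 a) b
noncomputable def e148_7 (a b : ℕ) : ℕ := sl1 (sl 16 E148_7 a) b
noncomputable def x148_19 (a b : ℕ) : ℕ := sl1 (sl 4 X148_19 a) b
noncomputable def e148_19 (a b : ℕ) : ℕ := sl1 (sl 16 E148_19 a) b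
noncomputable def x259_0 (a b : ℕ) : ℕ := sl1 (sl 7 X259_0 a) b
noncomputable def e259_0 (a b : ℕ) : ℕ := sl2 (sl 98 E259_0 a) b
noncomputable def x259_1 (a b : ℕ) : ℕ := sl1 (sl 7 X259_1 a) b
noncomputable def e259_1 (a b : ℕ) : ℕ := sl2 (sl 98 E259_1 a) b
noncomputable def x259_2 (a b : ℕ) : ℕ := sl1 (sl 7 X259_2 a) b
noncomputable def e259_2 (a b : ℕ) : ℕ := sl1 (sl 49 E259_2 a) b
noncomputable def x133_37 (a b : ℕ) : ℕ := sl1 (sl 19 X133_37 a) b
noncomputable def e133_37 (a b : ℕ) : ℕ := sl2 (sl 722 E133_37 a) b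
noncomputable def x111_0 (a b : ℕ) : ℕ := sl1 (sl 3 X111_0 a) b
noncomputable def e111_0 (a b : ℕ) : ℕ := sl2 (sl 18 E111_0 a) b
noncomputable def x111_1 (a b : ℕ) : ℕ := sl1 (sl 3 X111_1 a) b
noncomputable def e111_1 (a b : ℕ) : ℕ := sl2 (sl 18 E111_1 a) b
noncomputable def x228 (a b c : ℕ) : ℕ := sl1 (sl 4 (sl 12 X228 a) b) c
noncomputable def e228 (a b c : ℕ) : ℕ := sl1 (sl 16 (sl 144 E228 a) b) c
noncomputable def x140 (a b c : ℕ) : ℕ := sl1 (sl 5 (sl 20 X140 a) b) c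
noncomputable def e140 (a b c : ℕ) : ℕ := sl1 (sl 25 (sl 400 E140 a) b) c
noncomputable def x95 (a b : ℕ) : ℕ := sl1 (sl 5 X95 a) b
noncomputable def e95 (a b : ℕ) : ℕ := sl2 (sl 50 E95 a) b
noncomputable def x105 (a b c : ℕ) : ℕ := sl1 (sl 5 (sl 15 X105 a) b) c
noncomputable def e105 (a b c : ℕ) : ℕ := sl2 (sl 50 (sl 450 E105 a) b) c
noncomputable def x185 (a b : ℕ) : ℕ := sl1 (sl 5 X185 a) b
noncomputable def e185 (a b : ℕ) : ℕ := sl2 (sl 50 E185 a) b
noncomputable def x133_13 (a b : ℕ) : ℕ := sl1 (sl 19 X133_13 a) b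
noncomputable def e133_13 (a b : ℕ) : ℕ := sl2 (sl 722 E133_13 a) b
noncomputable def x91 (a b : ℕ) : ℕ := sl1 (sl 13 X91 a) b
noncomputable def e91 (a b : ℕ) : ℕ := sl2 (sl 338 E91 a) b
noncomputable def x133_73 (c : CD) (a b : ℕ) : ℕ := chD c 57 77 a b
noncomputable def e133_73 (c : CD) (a b : ℕ) : ℕ := evD c 7 57 19 77 a b

/-- inverses modulo 9 -/
def I9 : ℕ := 578712622715715712
/-- squares modulo 9 -/
def Q9 : ℕ := 147
/-- inverses modulo 43 -/
def I43 : ℕ := 1342054438505760852092317306715690751715437566897414580136013218851198967137995204185129088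
/-- squares modulo 43 -/
def Q43 : ℕ := 3678700564051

/-- all local solutions modulo any number -/
noncomputable def enN (l I Q U x y : ℕ) (v : WL) (f : ℕ → TL → Bool) : Bool :=
  allN l (fun t => allN l (fun P =>
    imp (Nat.beq (Nat.mod (Nat.mul P U) l) (Nat.mod (Nat.add (Nat.mul t x) y) l))
      (tgW l I Q v t P f)))

noncomputable def x333 (c : CD) (a b : ℕ) : ℕ := chD c 37 297 a b
noncomputable def e333 (c : CD) (a b : ℕ) : ℕ := evD c 9 37 37 297 a b

/-- last stage, modulo 73 -/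
noncomputable def w73 (c : CD) (U x y : ℕ) (v : WL) (T7 T19 : TL) : Bool :=
  co2 (x133_73 c) (e133_73 c) v T7 T19 (fun K4 c4 =>
    enW 73 I73 Q73 U x y v (fun t _ => imp (ln 73 K4 c4 t) false))

/-- last stage, modulo 43 -/
noncomputable def w43 (c : CD) (U x y : ℕ) (v : WL) (t3 : ℕ) (T37 : TL) : Bool :=
  enN 9 I9 Q9 U x y v (fun t9 T9 => imp (Nat.beq (Nat.mod t9 3) t3)
    (co2 (x333 c) (e333 c) v T9 T37 (fun K c' =>
      enW 43 I43 Q43 U x y v (fun t _ => imp (ln 43 K c' t) false))))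

/-- last stages: modulo 13 and 73 -/
noncomputable def w13 (c c' : CD) (U x y : ℕ) (v : WL) (t37 t3 : ℕ) (T37 T7 T19 T3 T5 : TL) :
    Bool :=
  co2 x95 e95 v T19 T5 (fun K c0 => co3 x105 e105 v T7 T3 T5 (fun K1 c1 =>
  co2 x185 e185 v T37 T5 (fun K2 c2 => co2 x133_13 e133_13 v T7 T19 (fun K3 c3 =>
  enW 13 I13 Q13 U x y v (fun t T13 => imp (ln 13 K c0 t) (imp (ln 13 K1 c1 t)
    (imp (ln 13 K2 c2 t) (imp (ln 13 K3 c3 t)
    (imp (ck2 37 x91 e91 v T7 T13 t37)
      (@Bool.rec (fun _ => Bool) (w43 c' U x y v t3 T37) true (w73 c U x y v T7 T19)))))))))))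

/-- stages modulo 3, 4, 5 -/
noncomputable def w3 (c cc : CD) (U x y : ℕ) (v : WL) (t37 : ℕ) (S4 : SL) (T37 A7 A19 T7 : TL)
    (t19 : ℕ) (T19 : TL) : Bool :=
  enW 3 I3 Q3 U x y v (fun t3 T3 =>
    imp (ck2 19 x111_0 e111_0 v T37 T3 t19) (imp (ck2 19 x111_1 e111_1 v T37 T3 t19)
    (S4.all (fun T4 => imp (ck0 7 v A7 T4) (imp (ck0 19 v A19 T4)
      (imp (ck3 7 x228 e228 v T19 T3 T4 0)
      (enW 5 I5 Q5 U x y v (fun _ T5 => imp (ck3 13 x140 e140 v T7 T4 T5 0)
        (w13 c cc U x y v t37 t3 T37 T7 T19 T3 T5)))))))))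

/-- stage modulo 7 and 19 -/
noncomputable def w7 (c cc : CD) (U x y : ℕ) (v : WL) (t37 : ℕ) (S4 : SL) (T37 A7 A19 : TL) : Bool :=
  mapT (sl 7 X259_2) (sl 49 E259_2) T37 (fun A =>
  enW 7 I7 Q7 U x y v (fun _ T7 => imp (ck0 19 v A T7)
    (co2 x259_0 e259_0 v T37 T7 (fun K c0 => co2 x259_1 e259_1 v T37 T7 (fun K1 c1 =>
      enW 19 I19 Q19 U x y v (fun t19 T19 => imp (ln 19 K c0 t19) (imp (ln 19 K1 c1 t19)
        (imp (ck2 37 x133_37 e133_37 v T7 T19 t37)
          (w3 c cc U x y v t37 S4 T37 A7 A19 T7 t19 T19)))))))))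

/-- all residues for one word are impossible -/
noncomputable def wOK (c cc : CD) (U x y : ℕ) (v : WL) : Bool :=
  cl4 U x y v (fun S4 => enW 37 I37 Q37 U x y v (fun t37 T37 =>
    mapT (sl 4 X148_7) (sl 16 E148_7) T37 (fun A7 =>
    mapT (sl 4 X148_19) (sl 16 E148_19) T37 (fun A19 =>
    @Bool.rec (fun _ => Bool) (w7 c cc U x y v t37 S4 T37 A7 A19) true
      (S4.all (fun T4 => imp (ck0 7 v A7 T4) (imp (ck0 19 v A19 T4) false)))))))

/-- traversal of all words with `U ≤ F`; `check` is applied if `lo ≤ U < hi` -/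
noncomputable def walk (F lo hi : ℕ) (check : WL → ℕ → ℕ → ℕ → Bool) (fuel : ℕ) :
    WL → ℕ → ℕ → ℕ → ℕ → Bool :=
  @Nat.rec (fun _ => WL → ℕ → ℕ → ℕ → ℕ → Bool) (fun _ _ _ _ _ => false)
    (fun _ ih v U x y a =>
      force (Nat.add y (Nat.add (Nat.mul (Nat.mul 2 a) x) (Nat.mul (Nat.mul a a) U))) (fun U' =>
      @Bool.rec (fun _ => Bool) true
        (force (Nat.add x (Nat.mul a U)) (fun x' =>
          cj (@Bool.rec (fun _ => Bool) true (@Bool.rec (fun _ => Bool)
              (check (WL.cons a v) U' x' U) true (Nat.ble hi U')) (Nat.ble lo U'))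
            (cj (ih (WL.cons a v) U' x' U 1) (force (Nat.succ a) (fun b => ih v U x y b)))))
        (Nat.ble U' F))) fuel

end Pool.Agent.N911
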