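import Pool.Agent.H419R2.A3
import Mathlib

/-! The discriminants divisible by four. -/

set_option maxHeartbeats 4000000

namespace Pool.Agent.N911.Ev

open H419R2 QuadraticAlgebra Module Finset

section even

variable {K : Type*} [Field K] [NumberField K]

theorem integral_coords_even {n d : ℤ} (hsf : Squarefree d) (h4 : d % 4 = 2 ∨ d % 4 = 3)
    (hd1 : 1 < d) (hK : finrank ℚ K = 2) {x : K}
    (hx : x ^ 2 = (d : K)) {y : K} (hy : IsIntegral ℤ y) :
    ∃ u w : ℤ, y = (u : K) + (w : K) * ((n : K) + x) := by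
  have hns := not_sq_of_squarefree hsf hd1
  obtain ⟨p, q, rfl⟩ := exists_coords hns hK hx y
  by_cases hq : q = 0
  · subst hq
    simp only [Rat.cast_zero, zero_mul, add_zero] at hy
    have hp : IsIntegral ℤ p := by
      have : IsIntegral ℤ (algebraMap ℚ K p) := by simpa using hy
      exact (isIntegral_algebraMap_iff (algebraMap ℚ K).injective).mp this
    obtain ⟨n, hn⟩ := IsIntegrallyClosed.isIntegral_iff.mp hp
    have hn' : (n : ℚ) = p := by simpa using hn
    refine ⟨n, 0, ?_⟩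
    rw [← hn']
    push_cast
    ring
  · obtain ⟨⟨a, ha⟩, ⟨b, hb⟩⟩ := two_int_of_integral hns hx hq hy
    have h5 : (d : ℚ) * (2 * q) ^ 2 = ((a ^ 2 - 4 * b : ℤ) : ℚ) := by
      push_cast
      rw [ha, hb]; ring
    obtain ⟨c, hc⟩ := int_of_squarefree_mul_sq hsf h5
    have h6 : d * c ^ 2 = a ^ 2 - 4 * b := by
      rw [← hc] at h5
      exact_mod_cast h5
    have hpar : a % 2 = 0 ∧ c % 2 = 0 := by
      have h7 : (a ^ 2 - d * c ^ 2) % 4 = 0 := by rw [h6]; ring_nf; omega
      obtain ⟨a', ha'⟩ : ∃ a', a = 4 * a' + a % 4 := ⟨a / 4, by omega⟩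
      obtain ⟨c', hc'⟩ : ∃ c', c = 4 * c' + c % 4 := ⟨c / 4, by omega⟩
      have ha4 : a % 4 = 0 ∨ a % 4 = 1 ∨ a % 4 = 2 ∨ a % 4 = 3 := by omega
      have hc4 : c % 4 = 0 ∨ c % 4 = 1 ∨ c % 4 = 2 ∨ c % 4 = 3 := by omega
      rcases h4 with h4 | h4 <;> rcases ha4 with h | h | h | h <;> rcases hc4 with h' | h' | h' | h' <;>
      simp [Int.sub_emod, Int.mul_emod, pow_two, h, h', h4] at h7 <;> omega
    obtain ⟨u, hu⟩ : ∃ u, a = 2 * u := ⟨a / 2, by omega⟩
    obtain ⟨w, hw⟩ : ∃ w, c = 2 * w := ⟨c / 2, by omega⟩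
    refine ⟨u - n * w, w, ?_⟩
    have hp : p = (u : ℚ) := by
      have : (2 : ℚ) * p = 2 * u := by rw [← ha, hu]; push_cast; ring
      linarith
    have hq' : q = (w : ℚ) := by
      have : (2 : ℚ) * q = 2 * w := by rw [← hc, hw]; push_cast; ring
      linarith
    rw [hp, hq']
    push_cast
    ring

/-- The embedding of `ℤ[ω]` in `K`. -/
noncomputable def embE {n R d : ℤ} (hd : d = n ^ 2 + R) {x : K} (hx : x ^ 2 = (d : K)) :
    QA R (2 * n) →ₐ[ℤ] K :=
  QuadraticAlgebra.lift ⟨(n : K) + x, by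
    have hD' : (d : K) = (n : K) ^ 2 + R := by rw [hd]; push_cast; ring
    simp only [zsmul_eq_mul]
    rw [hD'] at hx
    push_cast
    linear_combination hx⟩

theorem embE_apply {n R d : ℤ} (hd : d = n ^ 2 + R) {x : K} (hx : x ^ 2 = (d : K))
    (z : QA R (2 * n)) : embE hd hx z = (z.re : K) + (z.im : K) * ((n : K) + x) := by
  simp [embE, QuadraticAlgebra.lift, Algebra.smul_def]

theorem pid_even {n R d : ℤ} (hd : d = n ^ 2 + R)
    (hsf : Squarefree d) (h4 : d % 4 = 2 ∨ d % 4 = 3) (hd1 : 1 < d) (hK : finrank ℚ K = 2) {x : K}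
    (hx : x ^ 2 = (d : K)) (hcl : NumberField.classNumber K = 1) :
    IsPrincipalIdealRing (QA R (2 * n)) := by
  have hns := not_sq_of_squarefree hsf hd1
  have hxr : ∀ p q : ℤ, (p : K) + (q : K) * ((n : K) + x) = 0 → p = 0 ∧ q = 0 := by
    intro p q h
    by_cases hq : q = 0
    · subst hq
      simp at h
      exact ⟨h, rfl⟩
    · exfalso
      apply hns
      refine ⟨-(p + q * n) / q, ?_⟩
      have hq' : (q : K) ≠ 0 := by exact_mod_cast hq
      have hxe : x = ((-(p + q * n) / q : ℚ) : K) := by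
        push_cast
        rw [eq_div_iff hq']
        linear_combination h
      have h3 : (((-(p + q * n) / q) ^ 2 : ℚ) : K) = ((d : ℚ) : K) := by
        push_cast
        rw [hxe] at hx
        push_cast at hx
        exact hx
      exact_mod_cast h3
  letI : Algebra (QA R (2 * n)) K := (embE hd hx).toRingHom.toAlgebra
  have hmap : ∀ z : QA R (2 * n), algebraMap (QA R (2 * n)) K z =
      (z.re : K) + (z.im : K) * ((n : K) + x) := fun z => embE_apply hd hx z
  haveI : IsIntegralClosure (QA R (2 * n)) ℤ K := by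
    refine ⟨?_, ?_⟩
    · intro z w hzw
      rw [hmap, hmap] at hzw
      have := hxr (z.re - w.re) (z.im - w.im) (by push_cast; linear_combination hzw)
      ext
      · linarith [this.1]
      · linarith [this.2]
    · intro y
      constructor
      · intro hy
        obtain ⟨u, w, h⟩ := integral_coords_even (n := n) hsf h4 hd1 hK hx hy
        exact ⟨⟨u, w⟩, by rw [hmap, h]⟩
      · rintro ⟨z, rfl⟩
        have : IsIntegral ℤ z := by
          refine ⟨Polynomial.X ^ 2 - Polynomial.C (QuadraticAlgebra.trace z) * Polynomial.X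
            + Polynomial.C (QuadraticAlgebra.norm z), ?_, ?_⟩
          · monicity!
          · rw [← Polynomial.aeval_def]
            simp only [map_add, map_sub, map_pow, map_mul, Polynomial.aeval_X, Polynomial.aeval_C]
            have := QuadraticAlgebra.sq_sub_trace_smul_add_norm_eq_zero z
            simpa [Algebra.smul_def] using this
        exact this.map (embE hd hx)
  haveI : IsScalarTower ℤ (QA R (2 * n)) K := IsScalarTower.of_algebraMap_eq (fun n => by simp)
  have e : NumberField.RingOfIntegers K ≃ₐ[ℤ] QA R (2 * n) :=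
    IsIntegralClosure.equiv ℤ (NumberField.RingOfIntegers K) K (QA R (2 * n))
  rw [NumberField.classNumber_eq_one_iff] at hcl
  exact IsPrincipalIdealRing.of_surjective e.toRingEquiv e.surjective

end even

theorem isDomain_even {n R d : ℤ} (hd : d = n ^ 2 + R) (hns : ¬ ∃ q : ℚ, q ^ 2 = d) :
    IsDomain (QA R (2 * n)) := by
  have hn : ∀ z : QA R (2 * n), QuadraticAlgebra.norm z = 0 → z = 0 := by
    intro z hz
    rw [norm_eq] at hz
    have h1 : (z.re + n * z.im) ^ 2 = d * z.im ^ 2 := by rw [hd]; linear_combination hz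
    have him : z.im = 0 := by
      by_contra h
      apply hns
      refine ⟨(z.re + n * z.im) / z.im, ?_⟩
      have h' : (z.im : ℚ) ≠ 0 := by exact_mod_cast h
      have h2 : ((z.re : ℚ) + n * z.im) ^ 2 = d * (z.im : ℚ) ^ 2 := by exact_mod_cast h1
      field_simp
      linear_combination h2
    have hre : z.re = 0 := by
      rw [him] at h1
      have : z.re ^ 2 = 0 := by linear_combination h1
      exact pow_eq_zero_iff (two_ne_zero) |>.mp this
    ext
    · simpa using hre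
    · simpa using him
  have : NoZeroDivisors (QA R (2 * n)) := by
    refine ⟨?_⟩
    intro a b hab
    have : QuadraticAlgebra.norm a * QuadraticAlgebra.norm b = 0 := by
      rw [← map_mul, hab]; simp
    rcases mul_eq_zero.mp this with h | h
    · left; exact hn a h
    · right; exact hn b h
  exact NoZeroDivisors.to_isDomain _


/-- two elements of norms `-1` and `2` -/
theorem pell_two {d : ℕ} (hsf : Squarefree d) (hd : 2 < d) {S V a b : ℤ}
    (h1 : S ^ 2 - d * V ^ 2 = -1) (h2 : a ^ 2 - d * b ^ 2 = 2) : False := by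
  have hd0 : (0 : ℤ) < d := by exact_mod_cast (by omega : 0 < d)
  have hd1 : ((1 : ℕ) : ℤ) < d := by exact_mod_cast (by omega : 1 < d)
  have hnsq : ¬ IsSquare (d : ℤ) := by
    rintro ⟨r, hr⟩
    have h3 : (d : ℤ) = (r.natAbs * r.natAbs : ℕ) := by rw [hr]; push_cast; rw [abs_mul_abs_self]
    have h4 : d = r.natAbs * r.natAbs := by exact_mod_cast h3
    have h5 := hsf r.natAbs ⟨1, by rw [mul_one]; exact h4⟩
    rw [Nat.isUnit_iff] at h5
    rw [h5] at h4
    omega
  obtain ⟨f, hf⟩ := Pell.IsFundamental.exists_of_not_isSquare hd0 hnsq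
  obtain ⟨E, hEx, hEy⟩ : ∃ E : Pell.Solution₁ (d : ℤ), E.x = d * b ^ 2 + 1 ∧ E.y = a * b :=
    ⟨Pell.Solution₁.mk (d * b ^ 2 + 1) (a * b) (by
      linear_combination (-(d : ℤ) * b ^ 2) * h2), rfl, rfl⟩
  obtain ⟨W, hWx, hWy⟩ : ∃ W : Pell.Solution₁ (d : ℤ), W.x = S ^ 2 + d * V ^ 2 ∧
      W.y = 2 * S * V :=
    ⟨Pell.Solution₁.mk (S ^ 2 + d * V ^ 2) (2 * S * V) (by
      linear_combination (S ^ 2 - d * V ^ 2 - 1) * h1), rfl, rfl⟩
  have hpow : ∀ g : Pell.Solution₁ (d : ℤ), 0 < g.x → ∃ n : ℤ, g = f ^ n := by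
    intro g hg
    obtain ⟨n, hn | hn⟩ := hf.eq_zpow_or_neg_zpow g
    · exact ⟨n, hn⟩
    · exfalso
      have h3 := Pell.Solution₁.x_zpow_pos hf.x_pos n
      rw [hn, Pell.Solution₁.x_neg] at hg
      linarith
  obtain ⟨n, hn⟩ := hpow E (by rw [hEx]; positivity)
  obtain ⟨m, hm⟩ := hpow W (by
    rw [hWx]
    have : S ^ 2 + d * V ^ 2 = 2 * S ^ 2 + 1 := by linear_combination -h1
    rw [this]; positivity)
  -- `m` is odd
  have hmodd : ¬ ∃ k, m = 2 * k := by
    rintro ⟨k, rfl⟩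
    have hc := (f ^ k).prop
    have hW2 : W = f ^ k * f ^ k := by rw [hm, two_mul, zpow_add]
    have hx2 : W.x = (f ^ k).x * (f ^ k).x + d * ((f ^ k).y * (f ^ k).y) := by
      rw [hW2, Pell.Solution₁.x_mul]
    rw [hWx] at hx2
    have h3 : (d : ℤ) * (V ^ 2 - (f ^ k).y ^ 2) = 1 := by
      have : 2 * ((d : ℤ) * (V ^ 2 - (f ^ k).y ^ 2)) = 2 := by
        linear_combination hx2 - h1 + hc
      linarith
    have h4 : (d : ℤ) ∣ 1 := ⟨_, h3.symm⟩
    have h5 := Int.le_of_dvd one_pos h4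
    omega
  -- `E` is a square
  obtain ⟨M, N, e, he, hMN, hx, hy⟩ : ∃ M N e : ℤ, e ^ 2 = 1 ∧ M ^ 2 - d * N ^ 2 = e ∧
      E.x = M ^ 2 + d * N ^ 2 ∧ E.y = 2 * M * N := by
    rcases Int.even_or_odd' n with ⟨j, hj | hj⟩
    · refine ⟨(f ^ j).x, (f ^ j).y, 1, by norm_num, (f ^ j).prop, ?_, ?_⟩
      · rw [hn, hj, two_mul, zpow_add, Pell.Solution₁.x_mul]; ring
      · rw [hn, hj, two_mul, zpow_add, Pell.Solution₁.y_mul]; ring
    · obtain ⟨i, hi⟩ : ∃ i, n = m + (i + i) := by
        rcases Int.even_or_odd' m with ⟨k, hk | hk⟩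
        · exact absurd ⟨k, hk⟩ hmodd
        · exact ⟨j - k, by omega⟩
      have hE : E = W * (f ^ i * f ^ i) := by rw [hn, hi, zpow_add, zpow_add, ← hm]
      have hc := (f ^ i).prop
      refine ⟨S * (f ^ i).x + d * (V * (f ^ i).y), S * (f ^ i).y + V * (f ^ i).x, -1,
        by norm_num, ?_, ?_, ?_⟩
      · linear_combination (f ^ i).x ^ 2 * h1 - d * (f ^ i).y ^ 2 * h1 - hc
      · rw [hE, Pell.Solution₁.x_mul, Pell.Solution₁.x_mul, Pell.Solution₁.y_mul, hWx, hWy]
        ring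
      · rw [hE, Pell.Solution₁.y_mul, Pell.Solution₁.x_mul, Pell.Solution₁.y_mul, hWx, hWy]
        ring
  -- conclusion
  rw [hEx] at hx
  rw [hEy] at hy
  have hr : (a * M - d * (b * N)) * (b * M - a * N) = 0 := by
    linear_combination (M ^ 2 + d * N ^ 2) * hy - M * N * h2 - 2 * M * N * hx
  have hs : (a * M - d * (b * N)) ^ 2 + d * (b * M - a * N) ^ 2 = 2 := by
    have e1 : (a * M - d * (b * N)) ^ 2 + d * (b * M - a * N) ^ 2 =
        (a ^ 2 + d * b ^ 2) * (M ^ 2 + d * N ^ 2) - 4 * d * (a * b) * (M * N) := by ring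
    rw [e1, hy]
    have e2 : a ^ 2 + d * b ^ 2 = 2 * (M ^ 2 + d * N ^ 2) := by
      linear_combination h2 + 2 * hx
    rw [e2]
    have e3 : 2 * (M ^ 2 + d * N ^ 2) * (M ^ 2 + d * N ^ 2) - 4 * d * (2 * M * N) * (M * N) =
        2 * (M ^ 2 - d * N ^ 2) ^ 2 := by ring
    rw [e3, hMN, he]; norm_num
  rcases mul_eq_zero.mp hr with h | h
  · rw [h] at hs
    have h4 : (d : ℤ) ∣ 2 := ⟨(b * M - a * N) ^ 2, by linear_combination -hs⟩
    have h5 := Int.le_of_dvd two_pos h4
    omega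
  · rw [h] at hs
    have h6 : (a * M - d * (b * N)) ^ 2 = 2 := by linear_combination hs
    generalize a * M - d * (b * N) = r at h6
    have h7 : r ≤ 1 := by nlinarith
    have h8 : -1 ≤ r := by nlinarith
    have h9 : r = -1 ∨ r = 0 ∨ r = 1 := by omega
    rcases h9 with rfl | rfl | rfl <;> norm_num at h6

/-- class number one and a unit of norm `-1`: the case of even discriminant -/
theorem even_two {d : ℕ} (hsf : Squarefree d) (hd1 : 1 < d) (hde : d % 2 = 0)
    {K : Type*} [Field K] [NumberField K] (hK : Module.finrank ℚ K = 2) {z : K}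
    (hz : z ^ 2 = (d : K)) (hcl : NumberField.classNumber K = 1)
    {T U : ℕ} (hTU : T * T + 4 = d * (U * U)) : d = 2 := by
  by_contra hne
  have hd : 2 < d := by omega
  have hd4 : d % 4 = 2 := by
    have h : d % 4 = 0 ∨ d % 4 = 2 := by omega
    rcases h with h | h
    · exfalso
      obtain ⟨k, rfl⟩ : ∃ k, d = 4 * k := ⟨d / 4, by omega⟩
      have h3 := hsf 2 ⟨k, by ring⟩
      rw [Nat.isUnit_iff] at h3
      omega
    · exact h
  obtain ⟨k, hk⟩ : ∃ k, d = 4 * k + 2 := ⟨d / 4, by omega⟩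
  -- a solution of the equation with `-1`
  have hTe : T % 2 = 0 := by
    rcases Nat.mod_two_eq_zero_or_one T with h | h
    · exact h
    · exfalso
      obtain ⟨j, rfl⟩ : ∃ j, T = 2 * j + 1 := ⟨T / 2, by omega⟩
      have e : (2 * j + 1) * (2 * j + 1) + 4 = 2 * (2 * (j * j + j) + 2) + 1 := by ring
      have e2 : d * (U * U) = 2 * ((2 * k + 1) * (U * U)) := by rw [hk]; ring
      rw [e, e2] at hTU
      omega
  obtain ⟨S, rfl⟩ : ∃ S, T = 2 * S := ⟨T / 2, by omega⟩
  have hUe : U % 2 = 0 := by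
    rcases Nat.mod_two_eq_zero_or_one U with h | h
    · exact h
    · exfalso
      obtain ⟨j, rfl⟩ : ∃ j, U = 2 * j + 1 := ⟨U / 2, by omega⟩
      have e : 2 * S * (2 * S) + 4 = 4 * (S * S + 1) := by ring
      have e2 : d * ((2 * j + 1) * (2 * j + 1)) =
        4 * ((4 * k + 2) * (j * j + j) + k) + 2 := by rw [hk]; ring
      rw [e, e2] at hTU
      omega
  obtain ⟨V, rfl⟩ : ∃ V, U = 2 * V := ⟨U / 2, by omega⟩
  have hSV : (S : ℤ) ^ 2 - d * (V : ℤ) ^ 2 = -1 := by
    have : (2 * (S : ℤ)) * (2 * S) + 4 = d * (2 * V * (2 * V)) := by exact_mod_cast hTU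
    linarith
  -- an element of norm `2` or `-2`
  have hsfz : Squarefree (d : ℤ) := Int.squarefree_natCast.mpr hsf
  have hd1z : (1 : ℤ) < d := by exact_mod_cast hd1
  have hns := not_sq_of_squarefree hsfz hd1z
  have hdn : (d : ℤ) = (0 : ℤ) ^ 2 + d := by ring
  have i1 : IsDomain (QA (d : ℤ) (2 * 0)) := isDomain_even hdn hns
  have i2 : IsPrincipalIdealRing (QA (d : ℤ) (2 * 0)) :=
    pid_even hdn hsfz (by left; omega) hd1z hK (x := z) (by rw [hz]; push_cast; rfl) hcl
  obtain ⟨p, hp⟩ := exists_norm_prime (R := (d : ℤ)) (m := 2 * 0) Nat.prime_two (w0 := 0)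
    (by push_cast; omega)
  rw [norm_eq] at hp
  have hp2 : p.re ^ 2 - d * p.im ^ 2 = 2 ∨ p.re ^ 2 - d * p.im ^ 2 = -2 := by
    have e : p.re ^ 2 + 2 * 0 * p.re * p.im - d * p.im ^ 2 = p.re ^ 2 - d * p.im ^ 2 := by ring
    rw [e] at hp
    omega
  rcases hp2 with h | h
  · exact pell_two hsf hd hSV h
  · refine pell_two hsf hd hSV (a := p.re * S + d * (p.im * V)) (b := p.re * V + p.im * S) ?_
    linear_combination (-1 : ℤ) * h + (p.re ^ 2 - d * p.im ^ 2) * hSV

end Pool.Agent.N911.Ev
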