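import Pool.Agent.N911.U2

/-! The traversal of words, and the word of a solution. -/

set_option maxRecDepth 100000

namespace Pool.Agent.N911

open H419R2

/-- `w` is obtained from `u` by adding positive letters in front -/
inductive Desc : WL → WL → Prop where
  | refl (u : WL) : Desc u u
  | step {w u : WL} (a : ℕ) (ha : 1 ≤ a) (h : Desc w u) : Desc (.cons a w) u

theorem Desc.split {w u : WL} (h : Desc w u) : w = u ∨ ∃ c, 1 ≤ c ∧ Desc w (.cons c u) := by
  induction h with
  | refl u => exact Or.inl rfl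
  | step a ha h ih =>
    right
    rcases ih with rfl | ⟨c, hc, h⟩
    · exact ⟨a, ha, Desc.refl _⟩
    · exact ⟨c, hc, Desc.step a ha h⟩

theorem tr_mono {a : ℕ} (ha : 1 ≤ a) (l : WL) : l.tr.1 ≤ (WL.cons a l).tr.1 := by
  rw [tr_cons]
  change l.tr.1 ≤ l.tr.2.2 + (2 * a * l.tr.2.1 + a * a * l.tr.1)
  have : 1 * l.tr.1 ≤ a * a * l.tr.1 := Nat.mul_le_mul_right _ (Nat.mul_le_mul ha ha)
  omega

theorem Desc.mono {w u : WL} (h : Desc w u) : u.tr.1 ≤ w.tr.1 := by
  induction h with
  | refl u => exact le_rfl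
  | step a ha h ih => exact ih.trans (tr_mono ha _)

theorem tr_mono_a {a b : ℕ} (h : a ≤ b) (l : WL) : (WL.cons a l).tr.1 ≤ (WL.cons b l).tr.1 := by
  rw [tr_cons, tr_cons]
  change l.tr.2.2 + (2 * a * l.tr.2.1 + a * a * l.tr.1) ≤
    l.tr.2.2 + (2 * b * l.tr.2.1 + b * b * l.tr.1)
  have h1 : 2 * a * l.tr.2.1 ≤ 2 * b * l.tr.2.1 :=
    Nat.mul_le_mul_right _ (Nat.mul_le_mul_left _ h)
  have h2 : a * a * l.tr.1 ≤ b * b * l.tr.1 := Nat.mul_le_mul_right _ (Nat.mul_le_mul h h)
  omega

theorem walk_sound {F lo hi : ℕ} {check : WL → ℕ → ℕ → ℕ → Bool} {fuel : ℕ} :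
    ∀ (v : WL) (a : ℕ), walk F lo hi check fuel v v.tr.1 v.tr.2.1 v.tr.2.2 a = true →
    ∀ b, a ≤ b → ∀ w, Desc w (.cons b v) → w.tr.1 ≤ F → lo ≤ w.tr.1 → w.tr.1 < hi →
    check w w.tr.1 w.tr.2.1 w.tr.2.2 = true := by
  induction fuel with
  | zero =>
    intro v a h
    exact absurd h (by simp [walk])
  | succ n ih =>
    intro v a h b hab w hw hF hlo hhi
    have e : walk F lo hi check (n + 1) v v.tr.1 v.tr.2.1 v.tr.2.2 a =
      force (Nat.add v.tr.2.2 (Nat.add (Nat.mul (Nat.mul 2 a) v.tr.2.1)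
        (Nat.mul (Nat.mul a a) v.tr.1))) (fun U' =>
      @Bool.rec (fun _ => Bool) true
        (force (Nat.add v.tr.2.1 (Nat.mul a v.tr.1)) (fun x' =>
          cj (@Bool.rec (fun _ => Bool) true (@Bool.rec (fun _ => Bool)
              (check (WL.cons a v) U' x' v.tr.1) true (Nat.ble hi U')) (Nat.ble lo U'))
            (cj (walk F lo hi check n (WL.cons a v) U' x' v.tr.1 1)
              (force (Nat.succ a) (fun b => walk F lo hi check n v v.tr.1 v.tr.2.1 v.tr.2.2 b)))))
        (Nat.ble U' F)) := rfl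
    rw [e, force_eq, force_eq, force_eq] at h
    have eU : Nat.add v.tr.2.2 (Nat.add (Nat.mul (Nat.mul 2 a) v.tr.2.1)
        (Nat.mul (Nat.mul a a) v.tr.1)) = (WL.cons a v).tr.1 := rfl
    have ex : Nat.add v.tr.2.1 (Nat.mul a v.tr.1) = (WL.cons a v).tr.2.1 := rfl
    have ey : v.tr.1 = (WL.cons a v).tr.2.2 := rfl
    rw [eU, ex] at h
    have hU : (WL.cons a v).tr.1 ≤ F := (tr_mono_a hab v).trans (hw.mono.trans hF)
    rw [Nat.ble_eq_true_of_le hU] at h
    change cj (@Bool.rec (fun _ => Bool) true (@Bool.rec (fun _ => Bool)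
              (check (WL.cons a v) (WL.cons a v).tr.1 (WL.cons a v).tr.2.1 v.tr.1) true
              (Nat.ble hi (WL.cons a v).tr.1)) (Nat.ble lo (WL.cons a v).tr.1))
            (cj (walk F lo hi check n (WL.cons a v) (WL.cons a v).tr.1 (WL.cons a v).tr.2.1
              v.tr.1 1)
              (walk F lo hi check n v v.tr.1 v.tr.2.1 v.tr.2.2 (Nat.succ a))) = true at h
    -- `cj` unfolding
    have hcj : ∀ {c x : Bool}, cj c x = true → c = true ∧ x = true := by
      intro c x h
      cases c <;> cases x <;> simp_all [cj]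
    obtain ⟨h1, h2⟩ := hcj h
    obtain ⟨h2, h3⟩ := hcj h2
    rcases Nat.lt_or_ge a b with hlt | hge
    · exact ih v _ h3 b hlt w hw hF hlo hhi
    · have hab' : b = a := le_antisymm hge hab
      subst hab'
      rcases hw.split with rfl | ⟨c, hc, hw'⟩
      · rw [Nat.ble_eq_true_of_le hlo] at h1
        have hh : Nat.ble hi (WL.cons b v).tr.1 = false := by
          rw [Bool.eq_false_iff]
          intro h'
          have := Nat.le_of_ble_eq_true h'
          omega
        rw [hh] at h1
        exact h1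
      · exact ih (.cons b v) 1 h2 c hc w hw' hF hlo hhi

theorem desc_of_pos {w : WL} (hp : w.Pos) (hn : w ≠ .nil) :
    ∃ b, 1 ≤ b ∧ Desc w (.cons b .nil) := by
  induction w with
  | nil => exact absurd rfl hn
  | cons a l ih =>
    cases l with
    | nil => exact ⟨a, hp.1, Desc.refl _⟩
    | cons b l =>
      obtain ⟨c, hc, h⟩ := ih hp.2 (by simp)
      exact ⟨c, hc, Desc.step a hp.1 h⟩

theorem walk_all {F lo hi : ℕ} {check : WL → ℕ → ℕ → ℕ → Bool} {fuel : ℕ}
    (h : walk F lo hi check fuel .nil 1 0 1 1 = true) {w : WL} (hp : w.Pos) (hn : w ≠ .nil)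
    (hF : w.tr.1 ≤ F) (hlo : lo ≤ w.tr.1) (hhi : w.tr.1 < hi) :
    check w w.tr.1 w.tr.2.1 w.tr.2.2 = true := by
  obtain ⟨b, hb, hw⟩ := desc_of_pos hp hn
  exact walk_sound .nil 1 h b hb w hw hF hlo hhi

/-- the determinant -/
theorem tr_det (v : WL) : v.tr.1 * v.tr.2.2 = v.tr.2.1 ^ 2 + 1 := by
  induction v with
  | nil => rfl
  | cons a l ih =>
    rw [tr_cons]
    change (l.tr.2.2 + (2 * a * l.tr.2.1 + a * a * l.tr.1)) * l.tr.1 =
      (l.tr.2.1 + a * l.tr.1) ^ 2 + 1
    linear_combination ih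

/-- every admissible triple comes from a word -/
theorem exists_word : ∀ (U x y : ℕ), U * y = x ^ 2 + 1 → x < U →
    ∃ v : WL, v.Pos ∧ v.tr = (U, x, y) := by
  intro U
  induction U using Nat.strong_induction_on with
  | _ U ih =>
    intro x y h hx
    rcases Nat.eq_zero_or_pos x with h0 | hx0
    · subst h0
      have hU1 : U = 1 := Nat.eq_one_of_mul_eq_one_right (m := U) (n := y) (by linarith)
      have hy1 : y = 1 := by rw [hU1] at h; linarith
      exact ⟨.nil, trivial, by rw [hU1, hy1]; rfl⟩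
    · have hy0 : 0 < y := by
        rcases Nat.eq_zero_or_pos y with h1 | h1
        · rw [h1] at h; omega
        · exact h1
      have hyx : y ≤ x := by
        by_contra hc
        push Not at hc
        have : (x + 1) * (x + 1) ≤ U * y := Nat.mul_le_mul hx hc
        nlinarith
      have hyU : y < U := lt_of_le_of_lt hyx hx
      set a := x / y with ha
      have ha1 : 1 ≤ a := (Nat.one_le_div_iff hy0).mpr hyx
      set r := x % y with hr
      have hry : r < y := Nat.mod_lt _ hy0
      have hxr : x = r + a * y := by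
        rw [hr, ha]
        have := Nat.mod_add_div x y
        linarith [mul_comm y (x / y)]
      -- the third entry
      have hdiv : y ∣ r ^ 2 + 1 := by
        have h1 : (y : ℤ) ∣ (r : ℤ) ^ 2 + 1 := by
          refine ⟨U - 2 * a * r - a ^ 2 * y, ?_⟩
          have h2 : (U : ℤ) * y = (r + a * y) ^ 2 + 1 := by
            have := h
            rw [hxr] at this
            exact_mod_cast this
          linear_combination -h2
        exact_mod_cast h1
      obtain ⟨z, hz⟩ := hdiv
      obtain ⟨l, hl, htr⟩ := ih y hyU r z hz.symm hry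
      refine ⟨.cons a l, ⟨ha1, hl⟩, ?_⟩
      rw [tr_cons, htr]
      have hU : z + (2 * a * r + a * a * y) = U := by
        have h2 : U * y = (r + a * y) ^ 2 + 1 := by
          have := h
          rw [hxr] at this
          exact this
        have h3 : (z + (2 * a * r + a * a * y)) * y = U * y := by
          rw [h2]
          linear_combination -hz
        exact Nat.eq_of_mul_eq_mul_right hy0 h3
      rw [Prod.mk.injEq, Prod.mk.injEq]
      exact ⟨hU, by rw [← hxr], rfl⟩

end Pool.Agent.N911
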