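import Pool.Agent.N911.U3
import Pool.Agent.N911.U7
import Pool.Agent.N911.K5

/-! The finitely many small parameters of a word. -/

set_option maxRecDepth 100000

namespace Pool.Agent.N911

open H419R2

/-- all norms of the half period satisfy `tst` (natural arithmetic) -/
noncomputable def qW (tst : ℕ → Bool) (v : WL) : ℕ → ℕ → ℕ → Bool :=
  @WL.rec (fun _ => ℕ → ℕ → ℕ → Bool) (fun _ _ _ => true)
    (fun a _ ih A B C => cj (tst C) (force (Nat.mul (Nat.mul 2 a) C) (fun p =>
      cj (Nat.ble B p) (force (Nat.mul (Nat.mul a a) C) (fun q =>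
      force (Nat.add A (Nat.mul a B)) (fun r =>
        cj (Nat.ble q r) (force (Nat.sub p B) (fun B' => force (Nat.sub r q)
          (fun C' => ih C B' C'))))))))) v

/-- bounded existential quantifier -/
def anyU (n : ℕ) (f : ℕ → Bool) : Bool :=
  @Nat.rec (fun _ => Bool) false (fun i ih => @Bool.rec (fun _ => Bool) ih true (f i)) n

theorem anyU_true {n : ℕ} {f : ℕ → Bool} (h : anyU n f = true) : ∃ i < n, f i = true := by
  induction n with
  | zero => exact absurd h (by simp [anyU])
  | succ n ih =>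
    have e : anyU (n + 1) f = @Bool.rec (fun _ => Bool) (anyU n f) true (f n) := rfl
    rw [e] at h
    cases hf : f n with
    | true => exact ⟨n, Nat.lt_succ_self n, hf⟩
    | false =>
      rw [hf] at h
      obtain ⟨i, hi, h2⟩ := ih h
      exact ⟨i, Nat.lt_succ_of_lt hi, h2⟩

/-- the final list -/
def List78 : List ℕ := [5, 13, 17, 29, 37, 41, 53, 61, 73, 89, 97, 101, 109, 113, 137, 149, 157,
  173, 181, 197, 233, 269, 277, 293, 317, 349, 353, 373, 389, 397, 461, 509, 557, 613, 653, 677,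
  701, 773, 797, 821, 853, 941, 997, 1013, 1061, 1109, 1181, 1277, 1493, 1613, 1637, 1733, 1877,
  1949, 1973, 1997, 2309, 2333, 2357, 2477, 2621, 2693, 2789, 2957, 3533, 3677, 3797, 3989, 4133,
  4157, 4253, 4373, 4517, 4973, 5309, 7013, 9173, 10853]

/-- small primes -/
def PW : List ℕ := [2, 3, 5, 7, 11, 13, 17, 19, 23, 29, 31, 37, 41, 43]

/-- witness at one prime -/
noncomputable def witU1 (v : WL) (t P D l : ℕ) : Bool :=
  cj (Nat.ble (Nat.mul 4 (Nat.mul l l)) D)
    (cj (qW (fun C => cj (Nat.ble 2 C) (not (Nat.beq C l))) v 1 t P)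
    (anyU l (fun w => Nat.beq (Nat.mod (Nat.add (Nat.mul w w) (Nat.mul t w)) l) (Nat.mod P l))))

/-- witness -/
noncomputable def witU (v : WL) (t P D : ℕ) : Bool := anyL PW (fun l => witU1 v t P D l)

/-- membership in the final list -/
def inU (D : ℕ) : Bool := anyL List78 (fun x => Nat.beq x D)

theorem inU_sound {D : ℕ} (h : inU D = true) : D ∈ List78 := by
  unfold inU at h
  rw [anyL_iff] at h
  obtain ⟨x, hx, h1⟩ := h
  rw [← Nat.eq_of_beq_eq_true h1]; exact hx

/-- a solution with smaller `U` -/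
def lessU (U t D : ℕ) : Bool :=
  anyU 12 (fun i => force (Nat.add i 1) (fun U' => cj (Nat.ble (Nat.add U' 1) U)
    (anyU (Nat.add (Nat.mul 2 U') 2) (fun j => force (Nat.add (Nat.mul U' t) j) (fun T' =>
      Nat.beq (Nat.add (Nat.mul T' T') 4) (Nat.mul D (Nat.mul U' U')))))))

/-- check of one parameter -/
noncomputable def ckt (U : ℕ) (v : WL) (t P : ℕ) : Bool :=
  or (Nat.beq (Nat.mod t 2) 0) (force (Nat.add (Nat.mul t t) (Nat.mul 4 P)) (fun D =>
    or (inU D) (or (witU v t P D) (lessU U t D))))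

/-- check of all parameters from a given one on -/
noncomputable def smW (U x : ℕ) (v : WL) (fuel : ℕ) : ℕ → ℕ → Bool :=
  @Nat.rec (fun _ => ℕ → ℕ → Bool) (fun _ _ => false)
    (fun _ ih t P => @Bool.rec (fun _ => Bool)
      (cj (ckt U v t P) (force (Nat.add t U) (fun t' => force (Nat.add P x) (fun P' => ih t' P'))))
      true (cj (Nat.ble 21316 (Nat.add (Nat.mul t t) (Nat.mul 4 P)))
        (qW (fun C => Nat.ble 74 C) v 1 t P))) fuel

/-- check of a word -/
noncomputable def smA (U x y : ℕ) (v : WL) : Bool :=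
  force (Nat.mod (Nat.mul x y) U) (fun t => force (Nat.div (Nat.add (Nat.mul t x) y) U) (fun P =>
    cj (Nat.beq (Nat.mul P U) (Nat.add (Nat.mul t x) y))
      (cj (qW (fun _ => true) v 0 U x) (smW U x v 150 t P))))

theorem qW_sound {tst : ℕ → Bool} {v : WL} {A B C : ℕ} (h : qW tst v A B C = true) :
    ∀ n, 1 ≤ n → n ≤ v.len → ∃ q : ℕ, tst q = true ∧ (fs v ⟨A, B, C⟩ n).A = q := by
  induction v generalizing A B C with
  | nil =>
    intro n h1 h2
    exfalso
    have : n ≤ 0 := h2
    omega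
  | cons a l ih =>
    have e : qW tst (.cons a l) A B C = cj (tst C) (force (Nat.mul (Nat.mul 2 a) C) (fun p =>
      cj (Nat.ble B p) (force (Nat.mul (Nat.mul a a) C) (fun q =>
      force (Nat.add A (Nat.mul a B)) (fun r =>
        cj (Nat.ble q r) (force (Nat.sub p B) (fun B' => force (Nat.sub r q)
          (fun C' => qW tst l C B' C')))))))) := rfl
    rw [e] at h
    simp only [force_eq, cj_true] at h
    obtain ⟨h1, h2, h3, h4⟩ := h
    have h2' : B ≤ 2 * a * C := Nat.le_of_ble_eq_true h2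
    have h3' : a * a * C ≤ A + a * B := Nat.le_of_ble_eq_true h3
    have key := ih h4
    have es : (Fm.step a ⟨A, B, C⟩) = ⟨((C : ℕ) : ℤ), ((2 * a * C - B : ℕ) : ℤ),
        ((A + a * B - a * a * C : ℕ) : ℤ)⟩ := by
      unfold Fm.step
      simp only [Fm.mk.injEq, true_and]
      constructor
      · rw [Nat.cast_sub h2']; push_cast; ring
      · rw [Nat.cast_sub h3']; push_cast; ring
    intro n hn1 hn2
    cases n with
    | zero => omega
    | succ n =>
      rw [fs_cons, es]
      rcases Nat.eq_zero_or_pos n with h0 | h0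
      · subst h0
        exact ⟨C, h1, rfl⟩
      · exact key n h0 (Nat.le_of_succ_le_succ hn2)

theorem fs_add (v : WL) (f g : Fm) (k : ℤ) (n : ℕ) :
    fs v ⟨f.A + k * g.A, f.B + k * g.B, f.C + k * g.C⟩ n =
      ⟨(fs v f n).A + k * (fs v g n).A, (fs v f n).B + k * (fs v g n).B,
        (fs v f n).C + k * (fs v g n).C⟩ := by
  induction n with
  | zero => rfl
  | succ n ih =>
    have e : ∀ f, fs v f (n + 1) = (fs v f n).step (v.get n) := fun _ => rfl
    rw [e, e, e, ih]
    unfold Fm.step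
    simp only [Fm.mk.injEq, true_and]
    constructor <;> ring

/-- large parameters -/
def Big (v : WL) (t P : ℕ) : Prop :=
  21316 ≤ t * t + 4 * P ∧ ∀ n, 1 ≤ n → n ≤ v.len → (74 : ℤ) ≤ (fs v (f0 t P) n).A

theorem f0_nat (t P : ℕ) : f0 t P = ⟨((1 : ℕ) : ℤ), (t : ℤ), (P : ℤ)⟩ := by
  unfold f0; simp

theorem big_of {v : WL} {t P : ℕ} (h : cj (Nat.ble 21316 (Nat.add (Nat.mul t t) (Nat.mul 4 P)))
    (qW (fun C => Nat.ble 74 C) v 1 t P) = true) : Big v t P := by
  rw [cj_true] at h
  obtain ⟨h1, h2⟩ := h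
  refine ⟨Nat.le_of_ble_eq_true h1, ?_⟩
  intro n hn1 hn2
  obtain ⟨q, hq, hA⟩ := qW_sound h2 n hn1 hn2
  rw [f0_nat, hA]
  exact_mod_cast Nat.le_of_ble_eq_true hq

theorem big_mono {v : WL} {U x t P : ℕ} (hd : qW (fun _ => true) v 0 U x = true)
    (h : Big v t P) (k : ℕ) : Big v (t + k * U) (P + k * x) := by
  refine ⟨?_, ?_⟩
  · have h1 := h.1
    have h2 : t * t ≤ (t + k * U) * (t + k * U) := Nat.mul_le_mul (by omega) (by omega)
    have h3 : 4 * P ≤ 4 * (P + k * x) := by omega
    omega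
  · intro n hn1 hn2
    have h1 := h.2 n hn1 hn2
    obtain ⟨q, _, hA⟩ := qW_sound hd n hn1 hn2
    have e := fs_add v (f0 t P) ⟨((0 : ℕ) : ℤ), (U : ℤ), (x : ℤ)⟩ k n
    have e2 : (⟨(f0 t P).A + k * ((0 : ℕ) : ℤ), (f0 t P).B + k * (U : ℤ),
        (f0 t P).C + k * (x : ℤ)⟩ : Fm) = f0 ((t + k * U : ℕ) : ℤ) ((P + k * x : ℕ) : ℤ) := by
      unfold f0
      simp
    rw [e2] at e
    rw [e, hA]
    change (74 : ℤ) ≤ (fs v (f0 t P) n).A + k * (q : ℤ)
    have : (0 : ℤ) ≤ k * (q : ℤ) := by positivity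
    linarith

theorem smW_sound {U x : ℕ} {v : WL} {fuel : ℕ} : ∀ {t P : ℕ}, smW U x v fuel t P = true →
    ∀ j : ℕ, ckt U v (t + j * U) (P + j * x) = true ∨
      ∃ i ≤ j, Big v (t + i * U) (P + i * x) := by
  induction fuel with
  | zero =>
    intro t P h
    exact absurd h (by simp [smW])
  | succ n ih =>
    intro t P h j
    have e : smW U x v (n + 1) t P = @Bool.rec (fun _ => Bool)
      (cj (ckt U v t P) (force (Nat.add t U) (fun t' => force (Nat.add P x) (fun P' =>
        smW U x v n t' P'))))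
      true (cj (Nat.ble 21316 (Nat.add (Nat.mul t t) (Nat.mul 4 P)))
        (qW (fun C => Nat.ble 74 C) v 1 t P)) := rfl
    rw [e] at h
    cases hb : (cj (Nat.ble 21316 (Nat.add (Nat.mul t t) (Nat.mul 4 P)))
        (qW (fun C => Nat.ble 74 C) v 1 t P)) with
    | true =>
      right
      refine ⟨0, Nat.zero_le _, ?_⟩
      rw [zero_mul, zero_mul, add_zero, add_zero]
      exact big_of hb
    | false =>
      rw [hb] at h
      change cj (ckt U v t P) (force (Nat.add t U) (fun t' => force (Nat.add P x) (fun P' =>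
        smW U x v n t' P'))) = true at h
      rw [cj_true, force_eq, force_eq] at h
      obtain ⟨h1, h2⟩ := h
      cases j with
      | zero =>
        left
        rw [zero_mul, zero_mul, add_zero, add_zero]
        exact h1
      | succ j =>
        have e1 : ∀ i, t + (i + 1) * U = (t + U) + i * U := fun i => by ring
        have e2 : ∀ i, P + (i + 1) * x = (P + x) + i * x := fun i => by ring
        rcases ih h2 j with h3 | ⟨i, hi, h3⟩
        · left
          rw [e1, e2]
          exact h3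
        · right
          refine ⟨i + 1, by omega, ?_⟩
          rw [e1, e2]
          exact h3

/-- soundness of the check of a word -/
theorem smA_sound {U x y : ℕ} {v : WL} (h : smA U x y v = true) (hU : 0 < U)
    (hdet : U * y = x ^ 2 + 1) {t P : ℕ} (hlin : P * U = t * x + y) :
    ckt U v t P = true ∨ Big v t P := by
  unfold smA at h
  rw [force_eq, force_eq, cj_true, cj_true] at h
  obtain ⟨h1, h2, h3⟩ := h
  set t0 := Nat.mod (Nat.mul x y) U with ht0
  set P0 := Nat.div (Nat.add (Nat.mul t0 x) y) U with hP0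
  have h1' : P0 * U = t0 * x + y := Nat.eq_of_beq_eq_true h1
  have hlt : t0 < U := Nat.mod_lt _ hU
  have hdvd : (U : ℤ) ∣ (t : ℤ) - t0 := by
    have e1 : (P : ℤ) * U = t * x + y := by exact_mod_cast hlin
    have e2 : (P0 : ℤ) * U = t0 * x + y := by exact_mod_cast h1'
    have e3 : (U : ℤ) * y = x ^ 2 + 1 := by exact_mod_cast hdet
    refine ⟨((t : ℤ) - t0) * y - x * (P - P0), ?_⟩
    linear_combination (x : ℤ) * e1 - (x : ℤ) * e2 - ((t : ℤ) - t0) * e3
  obtain ⟨j', hj'⟩ := hdvd
  have hj0 : 0 ≤ j' := by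
    by_contra hc
    push Not at hc
    have h4 : (U : ℤ) * j' ≤ -U := by nlinarith
    have h5 : (t0 : ℤ) < U := by exact_mod_cast hlt
    have h6 : (0 : ℤ) ≤ t := by positivity
    linarith
  obtain ⟨j, rfl⟩ := Int.eq_ofNat_of_zero_le hj0
  have et : t = t0 + j * U := by
    have : (t : ℤ) = ((t0 + j * U : ℕ) : ℤ) := by push_cast; linarith
    exact_mod_cast this
  have eP : P = P0 + j * x := by
    have h4 : (P : ℤ) * U = ((P0 + j * x : ℕ) : ℤ) * U := by
      have e1 : (P : ℤ) * U = t * x + y := by exact_mod_cast hlin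
      have e2 : (P0 : ℤ) * U = t0 * x + y := by exact_mod_cast h1'
      push_cast
      linear_combination e1 - e2 + (x : ℤ) * hj'
    have h5 : (P : ℤ) = ((P0 + j * x : ℕ) : ℤ) := mul_right_cancel₀ (by positivity) h4
    exact_mod_cast h5
  rw [et, eP]
  rcases smW_sound h3 j with h4 | ⟨i, hi, h4⟩
  · exact Or.inl h4
  · right
    have h5 := big_mono h2 h4 (j - i)
    have e1 : t0 + i * U + (j - i) * U = t0 + j * U := by
      rw [add_assoc, ← add_mul, Nat.add_sub_cancel' hi]
    have e2 : P0 + i * x + (j - i) * x = P0 + j * x := by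
      rw [add_assoc, ← add_mul, Nat.add_sub_cancel' hi]
    rw [e1, e2] at h5
    exact h5

end Pool.Agent.N911
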