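import Pool.Agent.N911.U1
import Pool.Agent.N911.D1
import Pool.Agent.N911.D4

/-! Residue searches for words. -/

set_option maxRecDepth 1000000

namespace Pool.Agent.N911

open H419R2

theorem wk_0 : walk 210 2 211 (fun v U x y => wOK c133_73 c333_43 U x y v) 130
    WL.nil 1 0 1 1 = true := by decide +kernel
theorem wk_1 : walk 419 211 420 (fun v U x y => wOK c133_73 c333_43 U x y v) 130
    WL.nil 1 0 1 1 = true := by decide +kernel
theorem wk_2 : walk 628 420 629 (fun v U x y => wOK c133_73 c333_43 U x y v) 130
    WL.nil 1 0 1 1 = true := by decide +kernel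

end Pool.Agent.N911
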