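import Pool.Agent.N911.U8

/-! Small parameters of all words. -/

set_option maxRecDepth 1000000

namespace Pool.Agent.N911

open H419R2

theorem sm_nil : smA 1 0 1 .nil = true := by decide +kernel
theorem sm_0 : walk 1000 2 1001 (fun v U x y => smA U x y v) 130 WL.nil 1 0 1 1 = true := by
  decide +kernel
theorem sm_1 : walk 4000 1001 4001 (fun v U x y => smA U x y v) 130 WL.nil 1 0 1 1 = true := by
  decide +kernel

end Pool.Agent.N911
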