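import Pool.Agent.N911.U7
import Pool.Agent.N911.U8
import Pool.Agent.N911.Z1
import Pool.Agent.N911.Z2
import Pool.Agent.N911.Y1
import Pool.Agent.N911.Y2
import Pool.Agent.N911.Y3
import Pool.Agent.N911.Y4
import Pool.Agent.N911.Y5
import Pool.Agent.N911.Y6
import Pool.Agent.N911.Y7
import Pool.Agent.N911.Y8
import Pool.Agent.N911.Y9
import Pool.Agent.N911.Y10
import Pool.Agent.N911.Y11
import Pool.Agent.N911.Y12
import Pool.Agent.N911.Y13
import Pool.Agent.N911.Y14
import Pool.Agent.N911.Y15
import Pool.Agent.N911.Y16

/-! All words with `U ≤ 10000`. -/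

set_option maxRecDepth 100000

namespace Pool.Agent.N911

open H419R2

theorem wk_nil : wOK c133_73 c333_43 1 0 1 .nil = true := by decide +kernel

theorem tr_two {w : WL} (hp : w.Pos) (hn : w ≠ .nil) : 2 ≤ w.tr.1 := by
  obtain ⟨b, hb, hw⟩ := desc_of_pos hp hn
  refine le_trans ?_ hw.mono
  rw [tr_cons]
  change 2 ≤ 1 + (2 * b * 0 + b * b * 1)
  have : 1 * 1 ≤ b * b := Nat.mul_le_mul hb hb
  omega

theorem wall {w : WL} (hp : w.Pos) (hF : w.tr.1 ≤ 10000) :
    wOK c133_73 c333_43 w.tr.1 w.tr.2.1 w.tr.2.2 w = true := by
  by_cases hn : w = .nil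
  · subst hn; exact wk_nil
  have h2 := tr_two hp hn
  by_cases hx0 : w.tr.1 < 211
  · exact walk_all (check := fun v U x y => wOK c133_73 c333_43 U x y v) wk_0 hp hn
      (by omega) (by omega) (by omega)
  by_cases hx1 : w.tr.1 < 420
  · exact walk_all (check := fun v U x y => wOK c133_73 c333_43 U x y v) wk_1 hp hn
      (by omega) (by omega) (by omega)
  by_cases hx2 : w.tr.1 < 629
  · exact walk_all (check := fun v U x y => wOK c133_73 c333_43 U x y v) wk_2 hp hn
      (by omega) (by omega) (by omega)
  by_cases hx3 : w.tr.1 < 838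
  · exact walk_all (check := fun v U x y => wOK c133_73 c333_43 U x y v) wk_3 hp hn
      (by omega) (by omega) (by omega)
  by_cases hx4 : w.tr.1 < 1047
  · exact walk_all (check := fun v U x y => wOK c133_73 c333_43 U x y v) wk_4 hp hn
      (by omega) (by omega) (by omega)
  by_cases hx5 : w.tr.1 < 1256
  · exact walk_all (check := fun v U x y => wOK c133_73 c333_43 U x y v) wk_5 hp hn
      (by omega) (by omega) (by omega)
  by_cases hx6 : w.tr.1 < 1465
  · exact walk_all (check := fun v U x y => wOK c133_73 c333_43 U x y v) wk_6 hp hn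
      (by omega) (by omega) (by omega)
  by_cases hx7 : w.tr.1 < 1674
  · exact walk_all (check := fun v U x y => wOK c133_73 c333_43 U x y v) wk_7 hp hn
      (by omega) (by omega) (by omega)
  by_cases hx8 : w.tr.1 < 1883
  · exact walk_all (check := fun v U x y => wOK c133_73 c333_43 U x y v) wk_8 hp hn
      (by omega) (by omega) (by omega)
  by_cases hx9 : w.tr.1 < 2092
  · exact walk_all (check := fun v U x y => wOK c133_73 c333_43 U x y v) wk_9 hp hn
      (by omega) (by omega) (by omega)
  by_cases hx10 : w.tr.1 < 2301
  · exact walk_all (check := fun v U x y => wOK c133_73 c333_43 U x y v) wk_10 hp hn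
      (by omega) (by omega) (by omega)
  by_cases hx11 : w.tr.1 < 2510
  · exact walk_all (check := fun v U x y => wOK c133_73 c333_43 U x y v) wk_11 hp hn
      (by omega) (by omega) (by omega)
  by_cases hx12 : w.tr.1 < 2719
  · exact walk_all (check := fun v U x y => wOK c133_73 c333_43 U x y v) wk_12 hp hn
      (by omega) (by omega) (by omega)
  by_cases hx13 : w.tr.1 < 2928
  · exact walk_all (check := fun v U x y => wOK c133_73 c333_43 U x y v) wk_13 hp hn
      (by omega) (by omega) (by omega)
  by_cases hx14 : w.tr.1 < 3137
  · exact walk_all (check := fun v U x y => wOK c133_73 c333_43 U x y v) wk_14 hp hn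
      (by omega) (by omega) (by omega)
  by_cases hx15 : w.tr.1 < 3346
  · exact walk_all (check := fun v U x y => wOK c133_73 c333_43 U x y v) wk_15 hp hn
      (by omega) (by omega) (by omega)
  by_cases hx16 : w.tr.1 < 3555
  · exact walk_all (check := fun v U x y => wOK c133_73 c333_43 U x y v) wk_16 hp hn
      (by omega) (by omega) (by omega)
  by_cases hx17 : w.tr.1 < 3764
  · exact walk_all (check := fun v U x y => wOK c133_73 c333_43 U x y v) wk_17 hp hn
      (by omega) (by omega) (by omega)
  by_cases hx18 : w.tr.1 < 3973
  · exact walk_all (check := fun v U x y => wOK c133_73 c333_43 U x y v) wk_18 hp hn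
      (by omega) (by omega) (by omega)
  by_cases hx19 : w.tr.1 < 4182
  · exact walk_all (check := fun v U x y => wOK c133_73 c333_43 U x y v) wk_19 hp hn
      (by omega) (by omega) (by omega)
  by_cases hx20 : w.tr.1 < 4391
  · exact walk_all (check := fun v U x y => wOK c133_73 c333_43 U x y v) wk_20 hp hn
      (by omega) (by omega) (by omega)
  by_cases hx21 : w.tr.1 < 4600
  · exact walk_all (check := fun v U x y => wOK c133_73 c333_43 U x y v) wk_21 hp hn
      (by omega) (by omega) (by omega)
  by_cases hx22 : w.tr.1 < 4809
  · exact walk_all (check := fun v U x y => wOK c133_73 c333_43 U x y v) wk_22 hp hn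
      (by omega) (by omega) (by omega)
  by_cases hx23 : w.tr.1 < 5018
  · exact walk_all (check := fun v U x y => wOK c133_73 c333_43 U x y v) wk_23 hp hn
      (by omega) (by omega) (by omega)
  by_cases hx24 : w.tr.1 < 5227
  · exact walk_all (check := fun v U x y => wOK c133_73 c333_43 U x y v) wk_24 hp hn
      (by omega) (by omega) (by omega)
  by_cases hx25 : w.tr.1 < 5436
  · exact walk_all (check := fun v U x y => wOK c133_73 c333_43 U x y v) wk_25 hp hn
      (by omega) (by omega) (by omega)
  by_cases hx26 : w.tr.1 < 5645
  · exact walk_all (check := fun v U x y => wOK c133_73 c333_43 U x y v) wk_26 hp hn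
      (by omega) (by omega) (by omega)
  by_cases hx27 : w.tr.1 < 5854
  · exact walk_all (check := fun v U x y => wOK c133_73 c333_43 U x y v) wk_27 hp hn
      (by omega) (by omega) (by omega)
  by_cases hx28 : w.tr.1 < 6063
  · exact walk_all (check := fun v U x y => wOK c133_73 c333_43 U x y v) wk_28 hp hn
      (by omega) (by omega) (by omega)
  by_cases hx29 : w.tr.1 < 6272
  · exact walk_all (check := fun v U x y => wOK c133_73 c333_43 U x y v) wk_29 hp hn
      (by omega) (by omega) (by omega)
  by_cases hx30 : w.tr.1 < 6481
  · exact walk_all (check := fun v U x y => wOK c133_73 c333_43 U x y v) wk_30 hp hn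
      (by omega) (by omega) (by omega)
  by_cases hx31 : w.tr.1 < 6690
  · exact walk_all (check := fun v U x y => wOK c133_73 c333_43 U x y v) wk_31 hp hn
      (by omega) (by omega) (by omega)
  by_cases hx32 : w.tr.1 < 6899
  · exact walk_all (check := fun v U x y => wOK c133_73 c333_43 U x y v) wk_32 hp hn
      (by omega) (by omega) (by omega)
  by_cases hx33 : w.tr.1 < 7108
  · exact walk_all (check := fun v U x y => wOK c133_73 c333_43 U x y v) wk_33 hp hn
      (by omega) (by omega) (by omega)
  by_cases hx34 : w.tr.1 < 7317
  · exact walk_all (check := fun v U x y => wOK c133_73 c333_43 U x y v) wk_34 hp hn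
      (by omega) (by omega) (by omega)
  by_cases hx35 : w.tr.1 < 7526
  · exact walk_all (check := fun v U x y => wOK c133_73 c333_43 U x y v) wk_35 hp hn
      (by omega) (by omega) (by omega)
  by_cases hx36 : w.tr.1 < 7735
  · exact walk_all (check := fun v U x y => wOK c133_73 c333_43 U x y v) wk_36 hp hn
      (by omega) (by omega) (by omega)
  by_cases hx37 : w.tr.1 < 7944
  · exact walk_all (check := fun v U x y => wOK c133_73 c333_43 U x y v) wk_37 hp hn
      (by omega) (by omega) (by omega)
  by_cases hx38 : w.tr.1 < 8153
  · exact walk_all (check := fun v U x y => wOK c133_73 c333_43 U x y v) wk_38 hp hn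
      (by omega) (by omega) (by omega)
  by_cases hx39 : w.tr.1 < 8362
  · exact walk_all (check := fun v U x y => wOK c133_73 c333_43 U x y v) wk_39 hp hn
      (by omega) (by omega) (by omega)
  by_cases hx40 : w.tr.1 < 8571
  · exact walk_all (check := fun v U x y => wOK c133_73 c333_43 U x y v) wk_40 hp hn
      (by omega) (by omega) (by omega)
  by_cases hx41 : w.tr.1 < 8780
  · exact walk_all (check := fun v U x y => wOK c133_73 c333_43 U x y v) wk_41 hp hn
      (by omega) (by omega) (by omega)
  by_cases hx42 : w.tr.1 < 8989
  · exact walk_all (check := fun v U x y => wOK c133_73 c333_43 U x y v) wk_42 hp hn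
      (by omega) (by omega) (by omega)
  by_cases hx43 : w.tr.1 < 9198
  · exact walk_all (check := fun v U x y => wOK c133_73 c333_43 U x y v) wk_43 hp hn
      (by omega) (by omega) (by omega)
  by_cases hx44 : w.tr.1 < 9407
  · exact walk_all (check := fun v U x y => wOK c133_73 c333_43 U x y v) wk_44 hp hn
      (by omega) (by omega) (by omega)
  by_cases hx45 : w.tr.1 < 9616
  · exact walk_all (check := fun v U x y => wOK c133_73 c333_43 U x y v) wk_45 hp hn
      (by omega) (by omega) (by omega)
  by_cases hx46 : w.tr.1 < 9825
  · exact walk_all (check := fun v U x y => wOK c133_73 c333_43 U x y v) wk_46 hp hn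
      (by omega) (by omega) (by omega)
  exact walk_all (check := fun v U x y => wOK c133_73 c333_43 U x y v) wk_47 hp hn
    (by omega) (by omega) (by omega)

theorem sall {w : WL} (hp : w.Pos) (hF : w.tr.1 ≤ 10000) :
    smA w.tr.1 w.tr.2.1 w.tr.2.2 w = true := by
  by_cases hn : w = .nil
  · subst hn; exact sm_nil
  have h2 := tr_two hp hn
  by_cases h0 : w.tr.1 < 1001
  · exact walk_all (check := fun v U x y => smA U x y v) sm_0 hp hn
      (by omega) (by omega) (by omega)
  by_cases h1 : w.tr.1 < 4001
  · exact walk_all (check := fun v U x y => smA U x y v) sm_1 hp hn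
      (by omega) (by omega) (by omega)
  by_cases h3 : w.tr.1 < 7001
  · exact walk_all (check := fun v U x y => smA U x y v) sm_2 hp hn
      (by omega) (by omega) (by omega)
  exact walk_all (check := fun v U x y => smA U x y v) sm_3 hp hn
    (by omega) (by omega) (by omega)

end Pool.Agent.N911
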