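import Pool.Agent.N911.U9
import Pool.Agent.N911.U11
import Pool.Agent.N911.YY

/-! Class number one and small negative Pell equations. -/

namespace Pool.Agent.N911

open H419R2 Finset

theorem pell_final {d : ℕ} (hsf : Squarefree d) (hd1 : 1 < d) (hdo : d % 2 = 1)
    {K : Type*} [Field K] [NumberField K] (hK : Module.finrank ℚ K = 2) {z : K}
    (hz : z ^ 2 = (d : K)) (hcl : NumberField.classNumber K = 1)
    {T U : ℕ} (hU : 0 < U) (hUF : U ≤ 10000) (hTU : T * T + 4 = d * (U * U)) : d ∈ List78 := by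
  classical
  have hex : ∃ U, 0 < U ∧ ∃ T, T * T + 4 = d * (U * U) := ⟨U, hU, T, hTU⟩
  obtain ⟨hV, S, hSV⟩ := Nat.find_spec hex
  have hVU : Nat.find hex ≤ U := Nat.find_min' hex ⟨hU, T, hTU⟩
  have hmin : ∀ T' U' : ℕ, 0 < U' → T' * T' + 4 = d * (U' * U') → Nat.find hex ≤ U' :=
    fun T' U' h1 h2 => Nat.find_min' hex ⟨h1, T', h2⟩
  generalize Nat.find hex = V at hV hSV hVU hmin
  obtain ⟨x, y, t, P, hx, hdet, htodd, hD, hlin⟩ := exists_par hSV hV hd1 hdo
  obtain ⟨v, hv, htr⟩ := exists_word V x y hdet hx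
  have hF : v.tr.1 ≤ 10000 := by rw [htr]; omega
  have hw := wall hv hF
  have hs := sall hv hF
  rw [htr] at hw hs
  exact word_final hv htr hV hdet hlin htodd hD (Int.squarefree_natCast.mpr hsf) hK
    (by rw [hz]; push_cast; rfl) hcl hmin hs hw

/-- all squarefree `d` -/
theorem pell_all {d : ℕ} (hsf : Squarefree d) (hd1 : 1 < d)
    {K : Type*} [Field K] [NumberField K] (hK : Module.finrank ℚ K = 2) {z : K}
    (hz : z ^ 2 = (d : K)) (hcl : NumberField.classNumber K = 1)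
    {T U : ℕ} (hU : 0 < U) (hUF : U ≤ 10000) (hTU : T ^ 2 + 4 = d * U ^ 2) :
    d = 2 ∨ d ∈ List78 := by
  have h : T * T + 4 = d * (U * U) := by rw [← pow_two, ← pow_two]; exact hTU
  rcases Nat.mod_two_eq_zero_or_one d with h0 | h0
  · exact Or.inl (Ev.even_two hsf hd1 h0 hK hz hcl h)
  · exact Or.inr (pell_final hsf hd1 h0 hK hz hcl hU hUF h)

end Pool.Agent.N911
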