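import Pool.Agent.N911.A5
import Pool.Agent.N911.U1

/-! Words, forms and the cycle attached to a palindromic period. -/

namespace Pool.Agent.N911

open H419R2 QuadraticAlgebra Module Finset

/-- length -/
def WL.len : WL → ℕ
  | .nil => 0
  | .cons _ l => l.len + 1

/-- letter -/
def WL.get : WL → ℕ → ℕ
  | .nil, _ => 0
  | .cons a _, 0 => a
  | .cons _ l, n + 1 => l.get n

/-- the matrix entries of the palindrome with first half `v` -/
def WL.tr : WL → ℕ × ℕ × ℕ
  | .nil => (1, 0, 1)
  | .cons a l => (l.tr.2.2 + (2 * a * l.tr.2.1 + a * a * l.tr.1), l.tr.2.1 + a * l.tr.1, l.tr.1)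

/-- positive letters -/
def WL.Pos : WL → Prop
  | .nil => True
  | .cons a l => 0 < a ∧ l.Pos

theorem WL.get_pos {v : WL} (h : v.Pos) {n : ℕ} (hn : n < v.len) : 0 < v.get n := by
  induction v generalizing n with
  | nil => exact absurd hn (Nat.not_lt_zero _)
  | cons a l ih =>
    cases n with
    | zero => exact h.1
    | succ n => exact ih h.2 (Nat.lt_of_succ_lt_succ hn)

/-- forms `A u^2 + B u w - C w^2` -/
structure Fm where
  A : ℤ
  B : ℤ
  C : ℤ

/-- next form -/
def Fm.step (a : ℕ) (f : Fm) : Fm :=
  ⟨f.C, 2 * a * f.C - f.B, f.A + a * f.B - a ^ 2 * f.C⟩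

/-- discriminant -/
def Fm.disc (f : Fm) : ℤ := f.B ^ 2 + 4 * f.A * f.C

theorem Fm.disc_step (a : ℕ) (f : Fm) : (f.step a).disc = f.disc := by
  unfold Fm.disc Fm.step; ring

/-- the sequence of forms -/
def fs (v : WL) (f : Fm) : ℕ → Fm
  | 0 => f
  | n + 1 => (fs v f n).step (v.get n)

theorem fs_cons (a : ℕ) (l : WL) (f : Fm) (n : ℕ) : fs (.cons a l) f (n + 1) = fs l (f.step a) n := by
  induction n with
  | zero => rfl
  | succ n ih =>
    rw [fs, ih]
    rfl

/-- the functional vanishing for admissible forms -/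
def lam (v : WL) (f : Fm) : ℤ := f.C * v.tr.1 - f.B * v.tr.2.1 - f.A * v.tr.2.2

theorem tr_cons (a : ℕ) (l : WL) : (WL.cons a l).tr =
    (l.tr.2.2 + (2 * a * l.tr.2.1 + a * a * l.tr.1), l.tr.2.1 + a * l.tr.1, l.tr.1) := rfl

theorem lam_step (a : ℕ) (l : WL) (f : Fm) : lam l (f.step a) = -lam (.cons a l) f := by
  unfold lam Fm.step
  rw [tr_cons]
  push_cast
  ring

theorem end_sym (v : WL) (f : Fm) (h : lam v f = 0) :
    (fs v f v.len).C = (fs v f v.len).A := by
  induction v generalizing f with
  | nil =>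
    unfold lam WL.tr at h
    change f.C = f.A
    push_cast at h
    linarith
  | cons a l ih =>
    change (fs (.cons a l) f (l.len + 1)).C = (fs (.cons a l) f (l.len + 1)).A
    rw [fs_cons]
    apply ih
    rw [lam_step, h, neg_zero]

section cyc

variable (v : WL) (t : ℕ) (P : ℤ)

/-- starting form -/
def f0 (t : ℤ) (P : ℤ) : Fm := ⟨1, t, P⟩

/-- outer coefficients -/
def qs (n : ℕ) : ℤ := (fs v (f0 t P) n).A
/-- middle coefficients -/
def bs (n : ℕ) : ℤ := (fs v (f0 t P) n).B

theorem qs_C (n : ℕ) : (fs v (f0 t P) n).C = qs v t P (n + 1) := rfl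

theorem qs_rec (n : ℕ) : qs v t P (n + 2) = qs v t P n + bs v t P n * v.get n -
    qs v t P (n + 1) * (v.get n : ℤ) ^ 2 := by
  have : qs v t P (n + 2) = (fs v (f0 t P) (n + 1)).C := rfl
  rw [this]
  have e : (fs v (f0 t P) (n + 1)).C = (fs v (f0 t P) n).A + v.get n * (fs v (f0 t P) n).B -
    (v.get n : ℤ) ^ 2 * (fs v (f0 t P) n).C := rfl
  rw [e, qs_C]
  unfold qs bs
  ring

theorem bs_rec (n : ℕ) : bs v t P (n + 1) = 2 * v.get n * qs v t P (n + 1) - bs v t P n := by
  have e : (fs v (f0 t P) (n + 1)).B = 2 * v.get n * (fs v (f0 t P) n).C -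
    (fs v (f0 t P) n).B := rfl
  unfold bs
  rw [e, qs_C]

/-- partial quotients by residue -/
def kR (r : ℕ) : ℕ := if r < v.len then v.get r else
  if r < 2 * v.len then v.get (2 * v.len - 1 - r) else t
/-- outer coefficients by residue -/
def qR (r : ℕ) : ℤ := if r ≤ v.len then qs v t P r else qs v t P (2 * v.len + 1 - r)
/-- middle coefficients by residue -/
def bR (r : ℕ) : ℤ := if r ≤ v.len then bs v t P r else bs v t P (2 * v.len - r)

theorem qs_zero : qs v t P 0 = 1 := rfl
theorem bs_zero : bs v t P 0 = t := rfl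
theorem qs_one : qs v t P 1 = P := rfl

variable {v t P}

theorem mod_cases (m n : ℕ) : ((n % (2 * m + 1) < 2 * m ∧
    (n + 1) % (2 * m + 1) = n % (2 * m + 1) + 1) ∨ (n % (2 * m + 1) = 2 * m ∧
    (n + 1) % (2 * m + 1) = 0)) := by
  have h := Nat.mod_lt n (show 0 < 2 * m + 1 by omega)
  rcases lt_or_ge (n % (2 * m + 1)) (2 * m) with h1 | h1
  · left
    refine ⟨h1, ?_⟩
    rw [Nat.add_mod, Nat.mod_eq_of_lt (show 1 < 2 * m + 1 by omega), Nat.mod_eq_of_lt (by omega)]
  · right
    have h2 : n % (2 * m + 1) = 2 * m := by omega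
    refine ⟨h2, ?_⟩
    rcases Nat.eq_zero_or_pos m with h3 | h3
    · subst h3; simp [Nat.mod_one]
    · rw [Nat.add_mod, Nat.mod_eq_of_lt (show 1 < 2 * m + 1 by omega), h2, Nat.mod_self]

variable (hsym : qs v t P (v.len + 1) = qs v t P v.len)

include hsym in
theorem qR_low {r : ℕ} (h : r ≤ v.len + 1) (h2 : r ≤ 2 * v.len) : qR v t P r = qs v t P r := by
  unfold qR
  split_ifs with h1
  · rfl
  · have : r = v.len + 1 := by omega
    subst this
    rw [hsym]
    congr 1
    omega

include hsym in
theorem qR_high {r : ℕ} (h : v.len ≤ r) (h2 : 0 < r) : qR v t P r = qs v t P (2 * v.len + 1 - r) := by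
  unfold qR
  split_ifs with h1
  · have : r = v.len := by omega
    subst this
    rw [← hsym]
    congr 1
    omega
  · rfl

theorem bR_high {r : ℕ} (h : v.len ≤ r) : bR v t P r = bs v t P (2 * v.len - r) := by
  unfold bR
  split_ifs with h1
  · have : r = v.len := by omega
    subst this
    congr 1
    omega
  · rfl

include hsym in
theorem recq_aux (n : ℕ) : qR v t P ((n + 2) % (2 * v.len + 1)) =
    qR v t P (n % (2 * v.len + 1)) + bR v t P (n % (2 * v.len + 1)) *
      kR v t (n % (2 * v.len + 1)) - qR v t P ((n + 1) % (2 * v.len + 1)) *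
      (kR v t (n % (2 * v.len + 1)) : ℤ) ^ 2 := by
  have h1 := mod_cases v.len n
  have h2 := mod_cases v.len (n + 1)
  set r := n % (2 * v.len + 1) with hr
  have hrl : r < 2 * v.len + 1 := Nat.mod_lt _ (by omega)
  rw [show n + 2 = n + 1 + 1 from rfl]
  rcases h1 with ⟨h1, h1'⟩ | ⟨h1, h1'⟩
  · rw [h1'] at h2 ⊢
    rcases lt_or_ge r v.len with h3 | h3
    · have hk : kR v t r = v.get r := by unfold kR; rw [if_pos h3]
      have hb : bR v t P r = bs v t P r := by unfold bR; rw [if_pos h3.le]
      rw [qR_low hsym (by omega) (by omega), hb, hk, qR_low hsym (r := r + 1) (by omega) (by omega)]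
      rcases h2 with ⟨h2, h2'⟩ | ⟨h2, h2'⟩
      · rw [h2', qR_low hsym (by omega) (by omega), show r + 1 + 1 = r + 2 from rfl, qs_rec]
      · rw [h2']
        have e1 : r = 0 ∧ v.len = 1 ∨ False := by omega
        have e2 : r + 1 = 2 * v.len := h2
        have e3 : v.len = r + 1 := by omega
        omega
    · have hs : ∃ s, r + s + 1 = 2 * v.len := ⟨2 * v.len - 1 - r, by omega⟩
      obtain ⟨s, hs⟩ := hs
      have hk : kR v t r = v.get s := by
        unfold kR
        rw [if_neg (by omega), if_pos h1]
        congr 1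
        omega
      have hb : bR v t P r = bs v t P (s + 1) := by
        rw [bR_high h3]
        congr 1
        omega
      have hq1 : qR v t P r = qs v t P (s + 2) := by
        rw [qR_high hsym h3 (by omega)]
        congr 1
        omega
      have hq2 : qR v t P (r + 1) = qs v t P (s + 1) := by
        rw [qR_high hsym (by omega) (by omega)]
        congr 1
        omega
      have hq3 : qR v t P ((n + 1 + 1) % (2 * v.len + 1)) = qs v t P s := by
        rcases h2 with ⟨h2, h2'⟩ | ⟨h2, h2'⟩
        · rw [h2', qR_high hsym (by omega) (by omega)]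
          congr 1
          omega
        · rw [h2']
          have : s = 0 := by omega
          subst this
          rfl
      rw [hq3, hq1, hq2, hb, hk, qs_rec, bs_rec]
      ring
  · rw [h1'] at h2 ⊢
    have hk : kR v t r = t := by
      unfold kR
      rw [if_neg (by omega), if_neg (by omega)]
    have hb : bR v t P r = t := by
      rw [bR_high (by omega)]
      rw [h1, Nat.sub_self]; rfl
    have hq2 : qR v t P 0 = 1 := by
      unfold qR; rw [if_pos (by omega)]; rfl
    rw [hk, hb, hq2]
    have hq1 : qR v t P r = P := by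
      rcases Nat.eq_zero_or_pos v.len with h3 | h3
      · have : r = 0 := by omega
        rw [this, hq2]
        rw [h3] at hsym
        have e1 : qs v t P (0 + 1) = P := rfl
        have e2 : qs v t P 0 = 1 := rfl
        rw [e1, e2] at hsym
        exact hsym.symm
      · rw [qR_high hsym (by omega) (by omega)]
        have : 2 * v.len + 1 - r = 1 := by omega
        rw [this]; rfl
    have hq3 : qR v t P ((n + 1 + 1) % (2 * v.len + 1)) = P := by
      rcases h2 with ⟨h2, h2'⟩ | ⟨h2, h2'⟩
      · rw [h2', qR_low hsym (by omega) (by omega)]; rfl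
      · rw [h2', hq2]
        have h3 : v.len = 0 := by omega
        rw [h3] at hsym
        have e1 : qs v t P (0 + 1) = P := rfl
        have e2 : qs v t P 0 = 1 := rfl
        rw [e1, e2] at hsym
        exact hsym.symm
    rw [hq1, hq3]
    ring

theorem recb_aux (hsym : qs v t P (v.len + 1) = qs v t P v.len) (n : ℕ) :
    bR v t P ((n + 1) % (2 * v.len + 1)) =
    2 * kR v t (n % (2 * v.len + 1)) * qR v t P ((n + 1) % (2 * v.len + 1)) -
      bR v t P (n % (2 * v.len + 1)) := by
  have h1 := mod_cases v.len n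
  set r := n % (2 * v.len + 1) with hr
  have hrl : r < 2 * v.len + 1 := Nat.mod_lt _ (by omega)
  rcases h1 with ⟨h1, h1'⟩ | ⟨h1, h1'⟩
  · rw [h1']
    rcases lt_or_ge r v.len with h3 | h3
    · have hk : kR v t r = v.get r := by unfold kR; rw [if_pos h3]
      have hb : bR v t P r = bs v t P r := by unfold bR; rw [if_pos h3.le]
      have hb1 : bR v t P (r + 1) = bs v t P (r + 1) := by
        unfold bR; rw [if_pos (by omega)]
      rw [hb, hb1, hk, qR_low hsym (r := r + 1) (by omega) (by omega), bs_rec]
    · obtain ⟨s, hs⟩ : ∃ s, r + s + 1 = 2 * v.len := ⟨2 * v.len - 1 - r, by omega⟩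
      have hk : kR v t r = v.get s := by
        unfold kR
        rw [if_neg (by omega), if_pos h1]
        congr 1
        omega
      have hb : bR v t P r = bs v t P (s + 1) := by
        rw [bR_high h3]
        congr 1
        omega
      have hb1 : bR v t P (r + 1) = bs v t P s := by
        rw [bR_high (by omega)]
        congr 1
        omega
      have hq2 : qR v t P (r + 1) = qs v t P (s + 1) := by
        rw [qR_high hsym (by omega) (by omega)]
        congr 1
        omega
      rw [hb, hb1, hq2, hk, bs_rec]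
      ring
  · rw [h1']
    have hk : kR v t r = t := by
      unfold kR
      rw [if_neg (by omega), if_neg (by omega)]
    have hb : bR v t P r = t := by
      rw [bR_high (by omega)]
      rw [h1, Nat.sub_self]; rfl
    have hb0 : bR v t P 0 = t := by
      unfold bR; rw [if_pos (by omega)]; rfl
    have hq2 : qR v t P 0 = 1 := by
      unfold qR; rw [if_pos (by omega)]; rfl
    rw [hk, hb, hb0, hq2]
    ring

end cyc

/-- the cycle of a palindromic period -/
def cycW (v : WL) (t : ℕ) (P : ℤ) (hv : v.Pos) (ht : 0 < t)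
    (hsym : qs v t P (v.len + 1) = qs v t P v.len)
    (hq : ∀ n ≤ v.len, 0 < qs v t P n) (hq1 : ∀ n, 1 ≤ n → n ≤ v.len → qs v t P n ≠ 1) :
    Cyc P (t : ℤ) where
  l := 2 * v.len + 1
  hl := by omega
  κ := fun n => kR v t (n % (2 * v.len + 1))
  q := fun n => qR v t P (n % (2 * v.len + 1))
  b := fun n => bR v t P (n % (2 * v.len + 1))
  κpos := by
    intro n
    unfold kR
    split_ifs with h1 h2
    · exact WL.get_pos hv h1
    · exact WL.get_pos hv (by omega)
    · exact ht
  qpos := by
    intro n
    unfold qR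
    split_ifs with h1
    · exact hq _ h1
    · exact hq _ (by omega)
  m_pos := by exact_mod_cast ht
  κper := by intro n; simp
  qper := by intro n; simp
  bper := by intro n; simp
  q0 := by
    unfold qR
    rw [Nat.zero_mod, if_pos (by omega)]; rfl
  q1 := by
    rcases Nat.eq_zero_or_pos v.len with h3 | h3
    · have : 1 % (2 * v.len + 1) = 0 := by rw [h3]
      rw [this]
      unfold qR
      rw [if_pos (by omega)]
      rw [h3] at hsym
      exact hsym.symm
    · rw [Nat.mod_eq_of_lt (by omega)]
      unfold qR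
      rw [if_pos (by omega)]; rfl
  b0 := by
    unfold bR
    rw [Nat.zero_mod, if_pos (by omega)]; rfl
  recq := recq_aux hsym
  recb := recb_aux hsym
  qone := by
    intro n h
    by_contra hn
    have hrl : n % (2 * v.len + 1) < 2 * v.len + 1 := Nat.mod_lt _ (by omega)
    unfold qR at h
    split_ifs at h with h1
    · exact hq1 _ (by omega) h1 h
    · exact hq1 _ (by omega) (by omega) h

end Pool.Agent.N911
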