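import Pool.Agent.N911.U2

/-! The relation for palindromic periods. -/

namespace Pool.Agent.N911

open H419R2 QuadraticAlgebra Module Finset

section real

variable {N : ℕ} [NeZero N] (F : ZMod N → ℝ)

/-- sum with `B1 B1` -/
noncomputable def eF (f : Fm) : ℝ := Ef F (f.A : ZMod N) (f.B : ZMod N) (f.C : ZMod N)
/-- sum with `B2` -/
noncomputable def yF (f : Fm) : ℝ := Yf F (f.A : ZMod N) (f.B : ZMod N) (f.C : ZMod N)

/-- the sum of a half period -/
noncomputable def RSr : WL → Fm → ℝ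
  | .nil, f => 2 * eF F f
  | .cons a l, f => 4 * eF F f + 2 * a * yF F (f.step a) + RSr l (f.step a)

theorem RSr_sum (v : WL) (f : Fm) : RSr F v f = 2 * ∑ j ∈ range v.len,
    (eF F (fs v f j) + eF F (fs v f (j + 1)) + v.get j * yF F (fs v f (j + 1))) + 2 * eF F f := by
  induction v generalizing f with
  | nil =>
    change 2 * eF F f = 2 * ∑ j ∈ range 0, _ + _
    simp
  | cons a l ih =>
    change 4 * eF F f + 2 * a * yF F (f.step a) + RSr F l (f.step a) =
      2 * ∑ j ∈ range (l.len + 1), _ + _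
    rw [Finset.sum_range_succ', ih]
    have e0 : fs (WL.cons a l) f 0 = f := rfl
    have e1 : fs (WL.cons a l) f (0 + 1) = f.step a := rfl
    have e2 : (WL.cons a l).get 0 = a := rfl
    rw [e0, e1, e2]
    have e3 : ∑ j ∈ range l.len, (eF F (fs (WL.cons a l) f (j + 1)) +
        eF F (fs (WL.cons a l) f (j + 1 + 1)) +
        ((WL.cons a l).get (j + 1) : ℝ) * yF F (fs (WL.cons a l) f (j + 1 + 1))) =
        ∑ j ∈ range l.len, (eF F (fs l (f.step a) j) + eF F (fs l (f.step a) (j + 1)) +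
        (l.get j : ℝ) * yF F (fs l (f.step a) (j + 1))) := by
      apply Finset.sum_congr rfl
      intro j _
      rw [fs_cons, fs_cons]
      rfl
    rw [e3]
    ring

variable {F}

variable {v : WL} {t : ℕ} {P : ℤ} {hv : v.Pos} {ht : 0 < t}
    {hsym : qs v t P (v.len + 1) = qs v t P v.len}
    {hq : ∀ n ≤ v.len, 0 < qs v t P n} {hq1 : ∀ n, 1 ≤ n → n ≤ v.len → qs v t P n ≠ 1}

theorem cW_q_low {j : ℕ} (hj : j ≤ v.len + 1) : (cycW v t P hv ht hsym hq hq1).q j = qs v t P j := by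
  change qR v t P (j % (2 * v.len + 1)) = _
  rcases Nat.eq_zero_or_pos v.len with h3 | h3
  · have e : j % (2 * v.len + 1) = 0 := by rw [h3]; exact Nat.mod_one j
    rw [e]
    unfold qR
    rw [if_pos (by omega)]
    have : j = 0 ∨ j = v.len + 1 := by omega
    rcases this with h | h
    · rw [h]
    · rw [h, hsym, h3]
  · rw [Nat.mod_eq_of_lt (by omega), qR_low hsym hj (by omega)]

theorem cW_q_high {s : ℕ} (hs : s ≤ v.len) :
    (cycW v t P hv ht hsym hq hq1).q (2 * v.len + 1 - s) = qs v t P s := by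
  change qR v t P ((2 * v.len + 1 - s) % (2 * v.len + 1)) = _
  rcases Nat.eq_zero_or_pos s with h3 | h3
  · rw [h3, Nat.sub_zero, Nat.mod_self]
    unfold qR
    rw [if_pos (by omega)]
  · rw [Nat.mod_eq_of_lt (by omega), qR_high hsym (by omega) (by omega)]
    congr 1
    omega

theorem cW_b_low {j : ℕ} (hj : j ≤ v.len) : (cycW v t P hv ht hsym hq hq1).b j = bs v t P j := by
  change bR v t P (j % (2 * v.len + 1)) = _
  rw [Nat.mod_eq_of_lt (by omega)]
  unfold bR
  rw [if_pos hj]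

theorem cW_b_high {s : ℕ} (hs : s ≤ v.len) :
    (cycW v t P hv ht hsym hq hq1).b (2 * v.len - s) = bs v t P s := by
  change bR v t P ((2 * v.len - s) % (2 * v.len + 1)) = _
  rw [Nat.mod_eq_of_lt (by omega), bR_high (by omega)]
  congr 1
  omega

theorem cW_κ_low {j : ℕ} (hj : j < v.len) : (cycW v t P hv ht hsym hq hq1).κ j = v.get j := by
  change kR v t (j % (2 * v.len + 1)) = _
  rw [Nat.mod_eq_of_lt (by omega)]
  unfold kR
  rw [if_pos hj]

theorem cW_κ_high {j : ℕ} (hj : j < v.len) :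
    (cycW v t P hv ht hsym hq hq1).κ (2 * v.len - 1 - j) = v.get j := by
  change kR v t ((2 * v.len - 1 - j) % (2 * v.len + 1)) = _
  rw [Nat.mod_eq_of_lt (by omega)]
  unfold kR
  rw [if_neg (by omega), if_pos (by omega)]
  congr 1
  omega

theorem cW_κ_last : (cycW v t P hv ht hsym hq hq1).κ (2 * v.len) = t := by
  change kR v t ((2 * v.len) % (2 * v.len + 1)) = _
  rw [Nat.mod_eq_of_lt (by omega)]
  unfold kR
  rw [if_neg (by omega), if_neg (by omega)]

theorem cW_EE_low {j : ℕ} (hj : j ≤ v.len) :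
    (cycW v t P hv ht hsym hq hq1).EE F j = eF F (fs v (f0 t P) j) := by
  rw [Cyc.EE_eq, cW_q_low (by omega), cW_b_low hj, cW_q_low (by omega)]
  rfl

theorem cW_YY_low {j : ℕ} (hj : j ≤ v.len) :
    (cycW v t P hv ht hsym hq hq1).YY F j = yF F (fs v (f0 t P) j) := by
  rw [Cyc.YY_eq, cW_q_low (by omega), cW_b_low hj, cW_q_low (by omega)]
  rfl

theorem cW_EE_high (hodd : ∀ x, F (-x) = -F x) {s : ℕ} (hs : s ≤ v.len) :
    (cycW v t P hv ht hsym hq hq1).EE F (2 * v.len - s) = eF F (fs v (f0 t P) s) := by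
  rcases hs.eq_or_lt with h | h
  · have : 2 * v.len - s = v.len := by omega
    rw [this, cW_EE_low le_rfl, h]
  · rw [Cyc.EE_eq, show 2 * v.len - s + 1 = 2 * v.len + 1 - s by omega, cW_q_high hs, cW_b_high hs,
      show 2 * v.len - s = 2 * v.len + 1 - (s + 1) by omega, cW_q_high (by omega),
      Ef_mirror hodd]
    rfl

theorem cW_YY_high (hodd : ∀ x, F (-x) = -F x) {s : ℕ} (hs : s < v.len) :
    (cycW v t P hv ht hsym hq hq1).YY F (2 * v.len - s) = yF F (fs v (f0 t P) (s + 1)) := by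
  have h1 := (cycW v t P hv ht hsym hq hq1).X_eq hodd s
  rw [cW_q_low (by omega), cW_b_low hs.le, cW_q_low (by omega), cW_YY_low (by omega)] at h1
  rw [Cyc.YY_eq, show 2 * v.len - s + 1 = 2 * v.len + 1 - s by omega, cW_q_high hs.le,
    cW_b_high hs.le, show 2 * v.len - s = 2 * v.len + 1 - (s + 1) by omega, cW_q_high (by omega),
    Yf_mirror hodd, h1, neg_neg]

theorem relW (hodd : ∀ x, F (-x) = -F x) :
    2 * ∑ n ∈ range (cycW v t P hv ht hsym hq hq1).l, (cycW v t P hv ht hsym hq hq1).HH F n =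
      RSr F v (f0 t P) + t * yF F (f0 t P) := by
  set C := cycW v t P hv ht hsym hq hq1 with hC
  have hl : C.l = v.len + v.len + 1 := by change 2 * v.len + 1 = _; ring
  rw [hl, Finset.sum_range_succ, Finset.sum_range_add]
  have s1 : ∑ x ∈ range v.len, C.HH F x = ∑ j ∈ range v.len,
      (eF F (fs v (f0 t P) j) + v.get j / 2 * yF F (fs v (f0 t P) (j + 1))) := by
    apply Finset.sum_congr rfl
    intro j hj
    have hj' := Finset.mem_range.mp hj
    unfold Cyc.HH
    rw [cW_EE_low hj'.le, cW_YY_low (by omega), cW_κ_low hj']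
  have s2 : ∑ x ∈ range v.len, C.HH F (v.len + x) = ∑ j ∈ range v.len,
      (eF F (fs v (f0 t P) (j + 1)) + v.get j / 2 * yF F (fs v (f0 t P) (j + 1))) := by
    rw [← Finset.sum_range_reflect]
    apply Finset.sum_congr rfl
    intro j hj
    have hj' := Finset.mem_range.mp hj
    unfold Cyc.HH
    have e1 : v.len + (v.len - 1 - j) = 2 * v.len - (j + 1) := by omega
    have e2 : v.len + (v.len - 1 - j) = 2 * v.len - 1 - j := by omega
    have e3 : v.len + (v.len - 1 - j) + 1 = 2 * v.len - j := by omega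
    rw [e3, cW_YY_high hodd hj', e2, cW_κ_high hj', ← e2, e1, cW_EE_high hodd (by omega)]
  have s3 : C.HH F (v.len + v.len) = eF F (fs v (f0 t P) 0) + t / 2 * yF F (fs v (f0 t P) 0) := by
    unfold Cyc.HH
    have e1 : v.len + v.len = 2 * v.len - 0 := by omega
    have e3 : C.YY F (v.len + v.len + 1) = C.YY F 0 := by
      have := C.YY_per (F := F) 0
      rw [hl, Nat.zero_add] at this
      exact this
    rw [e3, cW_YY_low (Nat.zero_le _), e1, cW_EE_high hodd (Nat.zero_le _), Nat.sub_zero,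
      cW_κ_last]
  rw [s1, s2, s3, ← Finset.sum_add_distrib, RSr_sum]
  have e0 : fs v (f0 t P) 0 = f0 t P := rfl
  rw [e0]
  have s4 : ∀ j ∈ range v.len, (eF F (fs v (f0 t P) j) + v.get j / 2 *
      yF F (fs v (f0 t P) (j + 1)) + (eF F (fs v (f0 t P) (j + 1)) + v.get j / 2 *
      yF F (fs v (f0 t P) (j + 1)))) = eF F (fs v (f0 t P) j) + eF F (fs v (f0 t P) (j + 1)) +
      v.get j * yF F (fs v (f0 t P) (j + 1)) := by
    intro j _
    ring
  rw [Finset.sum_congr rfl s4]
  ring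

end real

section integral

variable {N : ℕ} [NeZero N] {M : Type*} [CommRing M]

/-- the integral sum of a half period -/
def RS (χ : ZMod N → M) : WL → Fm → M
  | .nil, f => 3 * SE χ (f.A : ZMod N) f.B f.C
  | .cons a l, f => 6 * SE χ (f.A : ZMod N) f.B f.C +
      2 * a * SY χ ((f.step a).A : ZMod N) (f.step a).B (f.step a).C + RS χ l (f.step a)

/-- the relation -/
def RelW (χ : ZMod N → M) (v : WL) (t P : ℤ) : M :=
  RS χ v (f0 t P) + (t : M) * SY χ 1 (t : ZMod N) (P : ZMod N)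

theorem RS_real (g : ZMod N → ℤ) (v : WL) (f : Fm) :
    ((RS g v f : ℤ) : ℝ) = 6 * N ^ 2 * RSr (fun x => ((g x : ℤ) : ℝ)) v f := by
  induction v generalizing f with
  | nil =>
    unfold RS RSr eF
    push_cast
    rw [SE_real]
    ring
  | cons a l ih =>
    unfold RS RSr eF yF
    push_cast
    rw [SE_real, SY_real, ih]
    ring

theorem RelW_real (g : ZMod N → ℤ) (v : WL) (t : ℕ) (P : ℤ) :
    ((RelW g v t P : ℤ) : ℝ) = 6 * N ^ 2 * (RSr (fun x => ((g x : ℤ) : ℝ)) v (f0 t P) +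
      t * yF (fun x => ((g x : ℤ) : ℝ)) (f0 t P)) := by
  unfold RelW
  push_cast
  have e := SY_real g 1 (t : ZMod N) (P : ZMod N)
  rw [RS_real, e]
  unfold yF f0
  simp only [Int.cast_one, Int.cast_natCast]
  ring

theorem RS_map {M' : Type*} [CommRing M'] (φ : M →+* M') (χ : ZMod N → M) (v : WL) (f : Fm) :
    φ (RS χ v f) = RS (fun x => φ (χ x)) v f := by
  have h1 : ∀ A B C : ZMod N, φ (SE χ A B C) = SE (fun x => φ (χ x)) A B C := by
    intro A B C
    unfold SE
    rw [map_sum]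
    apply Finset.sum_congr rfl
    intro x _
    rw [map_sum]
    apply Finset.sum_congr rfl
    intro y _
    rw [map_mul, map_intCast]
  have h2 : ∀ A B C : ZMod N, φ (SY χ A B C) = SY (fun x => φ (χ x)) A B C := by
    intro A B C
    unfold SY
    rw [map_sum]
    apply Finset.sum_congr rfl
    intro x _
    rw [map_sum]
    apply Finset.sum_congr rfl
    intro y _
    rw [map_mul, map_intCast]
  induction v generalizing f with
  | nil =>
    unfold RS
    rw [map_mul, h1, map_ofNat]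
  | cons a l ih =>
    unfold RS
    simp only [map_add, map_mul, h1, h2, map_ofNat, map_natCast, ih]

theorem RelW_map {M' : Type*} [CommRing M'] (φ : M →+* M') (χ : ZMod N → M) (v : WL) (t P : ℤ) :
    φ (RelW χ v t P) = RelW (fun x => φ (χ x)) v t P := by
  have h2 : ∀ A B C : ZMod N, φ (SY χ A B C) = SY (fun x => φ (χ x)) A B C := by
    intro A B C
    unfold SY
    rw [map_sum]
    apply Finset.sum_congr rfl
    intro x _
    rw [map_sum]
    apply Finset.sum_congr rfl
    intro y _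
    rw [map_mul, map_intCast]
  unfold RelW
  rw [map_add, map_mul, RS_map, h2, map_intCast]

theorem SE_smul (c : M) (χ : ZMod N → M) (A B C : ZMod N) :
    SE (fun x => c * χ x) A B C = c * SE χ A B C := by
  unfold SE
  rw [Finset.mul_sum]
  apply Finset.sum_congr rfl
  intro x _
  rw [Finset.mul_sum]
  apply Finset.sum_congr rfl
  intro y _
  ring

theorem SY_smul (c : M) (χ : ZMod N → M) (A B C : ZMod N) :
    SY (fun x => c * χ x) A B C = c * SY χ A B C := by
  unfold SY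
  rw [Finset.mul_sum]
  apply Finset.sum_congr rfl
  intro x _
  rw [Finset.mul_sum]
  apply Finset.sum_congr rfl
  intro y _
  ring

theorem RS_smul (c : M) (χ : ZMod N → M) (v : WL) (f : Fm) :
    RS (fun x => c * χ x) v f = c * RS χ v f := by
  induction v generalizing f with
  | nil =>
    unfold RS
    rw [SE_smul]; ring
  | cons a l ih =>
    unfold RS
    rw [SE_smul, SY_smul, ih]; ring

theorem RelW_smul (c : M) (χ : ZMod N → M) (v : WL) (t P : ℤ) :
    RelW (fun x => c * χ x) v t P = c * RelW χ v t P := by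
  unfold RelW
  rw [RS_smul, SY_smul]; ring

end integral

/-- consequence of class number one -/
structure GoodW (v : WL) (t P : ℤ) (D : ℕ) : Prop where
  hD : (D : ℤ) = t ^ 2 + 4 * P
  hD1 : 1 < D
  rel : P % 2 = 1 → ∀ (N : ℕ) [NeZero N], N.Coprime D → ∀ f : ZMod N → ℤ, (∀ x, f (-x) = -f x) →
    (D : ℤ) * RelW f v t P =
    6 * ∑ l ∈ range (N * D), ∑ a ∈ range N, (l : ℤ) * a * jacobiSym l D * f ((a * l : ℕ))
  split : ∀ l : ℕ, l.Prime → 4 * (l : ℤ) ^ 2 ≤ D → (∃ w0 : ℤ, (l : ℤ) ∣ w0 ^ 2 + t * w0 - P) →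
    ∃ n, 1 ≤ n ∧ n ≤ v.len ∧ (fs v (f0 t P) n).A = l

theorem rel_intW {N D : ℕ} [NeZero N] (hD : 0 < D) {v : WL} {t : ℕ} {P : ℤ} {f : ZMod N → ℤ}
    (h : (∑ l ∈ range (N * D), ∑ a ∈ range N, (l : ℝ) * a * jacobiSym l D *
      ((f ((a * l : ℕ)) : ℤ) : ℝ)) / (N * (N * D)) =
      RSr (fun x => ((f x : ℤ) : ℝ)) v (f0 t P) + t * yF (fun x => ((f x : ℤ) : ℝ)) (f0 t P)) :
    (D : ℤ) * RelW f v t P =
    6 * ∑ l ∈ range (N * D), ∑ a ∈ range N, (l : ℤ) * a * jacobiSym l D * f ((a * l : ℕ)) := by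
  have hq := qpos (q := N)
  have hD' : (0 : ℝ) < D := by exact_mod_cast hD
  have e2 : ((∑ l ∈ range (N * D), ∑ a ∈ range N, (l : ℤ) * a * jacobiSym l D *
      f ((a * l : ℕ)) : ℤ) : ℝ) = ∑ l ∈ range (N * D), ∑ a ∈ range N, (l : ℝ) * a *
      jacobiSym l D * ((f ((a * l : ℕ)) : ℤ) : ℝ) := by
    push_cast
    rfl
  have e3 : (((D : ℤ) * RelW f v t P : ℤ) : ℝ) =
    ((6 * ∑ l ∈ range (N * D), ∑ a ∈ range N, (l : ℤ) * a * jacobiSym l D *
      f ((a * l : ℕ)) : ℤ) : ℝ) := by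
    rw [Int.cast_mul, RelW_real, Int.cast_mul 6, e2, ← h]
    push_cast
    field_simp
  exact_mod_cast e3

/-- Relation modulo a prime. -/
theorem GoodW.rel_mod {v : WL} {t P : ℤ} {D : ℕ} (G : GoodW v t P D) (hP2 : P % 2 = 1)
    {p : ℕ} (hp : p.Prime) (hp2 : p ≠ 2)
    (hpD : ¬ (p : ℤ) ∣ D) {N : ℕ} [NeZero N] (hcop : N.Coprime D) (χ : ZMod N → ZMod p)
    (hmul : ∀ x y, χ (x * y) = χ x * χ y) (hodd : ∀ x, χ (-x) = -χ x)
    (hB : ∑ a ∈ range N, (a : ZMod p) * χ a = 0) :
    RelW χ v t P = 0 := by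
  have hF := Fact.mk hp
  have h2 : (2 : ZMod p) ≠ 0 := by
    intro h
    have : ((2 : ℕ) : ZMod p) = 0 := by exact_mod_cast h
    rw [ZMod.natCast_eq_zero_iff] at this
    exact hp2 ((Nat.prime_dvd_prime_iff_eq hp Nat.prime_two).mp this)
  have hD0 : ((D : ℤ) : ZMod p) ≠ 0 := by
    intro h
    exact hpD ((ZMod.intCast_zmod_eq_zero_iff_dvd _ p).mp h)
  have h := G.rel hP2 N hcop (fun x => ((χ x).val : ℤ) - ((χ (-x)).val : ℤ)) (fun x => by
    rw [neg_neg]; ring)
  have hf : ∀ x, ((((χ x).val : ℤ) - ((χ (-x)).val : ℤ) : ℤ) : ZMod p) = 2 * χ x := by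
    intro x
    push_cast
    rw [ZMod.natCast_zmod_val, ZMod.natCast_zmod_val, hodd]
    ring
  have h' := congrArg (fun z : ℤ => (z : ZMod p)) h
  rw [Int.cast_mul, Int.cast_mul, Int.cast_sum] at h'
  have hR : ∑ l ∈ range (N * D), ((∑ a ∈ range N, (l : ℤ) * a * jacobiSym l D *
      (((χ ((a * l : ℕ))).val : ℤ) - ((χ (-((a * l : ℕ) : ZMod N))).val : ℤ)) : ℤ) : ZMod p) = 0 := by
    apply Finset.sum_eq_zero
    intro l _
    rw [Int.cast_sum]
    have e : ∀ a ∈ range N, (((l : ℤ) * a * jacobiSym l D *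
      (((χ ((a * l : ℕ))).val : ℤ) - ((χ (-((a * l : ℕ) : ZMod N))).val : ℤ)) : ℤ) : ZMod p) =
      ((l : ZMod p) * (jacobiSym l D : ZMod p) * 2 * χ l) * ((a : ZMod p) * χ a) := by
      intro a _
      rw [Int.cast_mul, hf, Nat.cast_mul, hmul]
      push_cast
      ring
    rw [Finset.sum_congr rfl e, ← Finset.mul_sum, hB, mul_zero]
  rw [hR, mul_zero] at h'
  rcases mul_eq_zero.mp h' with h3 | h3
  · exact absurd h3 hD0
  · have e := RelW_map (Int.castRingHom (ZMod p))
      (fun x => ((χ x).val : ℤ) - ((χ (-x)).val : ℤ)) v t P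
    simp only [eq_intCast] at e
    rw [h3] at e
    have e2 : RelW (fun x => ((((χ x).val : ℤ) - ((χ (-x)).val : ℤ) : ℤ) : ZMod p)) v t P =
        2 * RelW χ v t P := by
      rw [← RelW_smul]
      congr 1
      funext x
      exact hf x
    rw [e2] at e
    rcases mul_eq_zero.mp e.symm with h4 | h4
    · exact absurd h4 h2
    · exact h4

/-- the passage from class number one to `GoodW` -/
theorem goodW_of_word {v : WL} {t : ℕ} {P : ℤ} (hv : v.Pos) (ht : 0 < t)
    (hsym : qs v t P (v.len + 1) = qs v t P v.len)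
    (hq : ∀ n ≤ v.len, 0 < qs v t P n) (hq1 : ∀ n, 1 ≤ n → n ≤ v.len → qs v t P n ≠ 1)
    {D : ℕ} (hD : (D : ℤ) = (t : ℤ) ^ 2 + 4 * P)
    (hsf : Squarefree (D : ℤ)) (hodd : t % 2 = 1)
    {K : Type*} [Field K] [NumberField K] (hK : Module.finrank ℚ K = 2) {x : K}
    (hx : x ^ 2 = ((D : ℤ) : K)) (hcl : NumberField.classNumber K = 1) :
    GoodW v t P D := by
  set C := cycW v t P hv ht hsym hq hq1 with hC
  have hD5 := C.D_ge
  have hD1' : (1 : ℤ) < D := by rw [hD]; linarith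
  have hD1 : 1 < D := by exact_mod_cast hD1'
  have hm' : (t : ℤ) % 2 = 1 := by exact_mod_cast hodd
  have i1 : IsDomain (QA P (t : ℤ)) := isDomain_of hD hsf hD1'
  have i2 : IsPrincipalIdealRing (QA P (t : ℤ)) :=
    pid_of_classNumber_one hm' hD hsf hD1' hK hx hcl
  refine ⟨hD, hD1, ?_, ?_⟩
  · intro hP2 N hN hcop f hf
    apply rel_intW (by omega)
    have h := C.main_identity (F := fun x => ((f x : ℤ) : ℝ)) hD hD1 hm' hP2 hcop
      (fun x => by rw [hf]; push_cast; ring)
    rw [h]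
    exact relW (fun x => by rw [hf]; push_cast; ring)
  · intro l hl hlD hw
    obtain ⟨n, hn⟩ := C.split_norm hD hl hlD hw
    have e : C.q n = qR v t P (n % (2 * v.len + 1)) := rfl
    have hlt : n % (2 * v.len + 1) < 2 * v.len + 1 := Nat.mod_lt _ (by omega)
    rw [e] at hn
    unfold qR at hn
    have h1 : (1 : ℤ) < l := by exact_mod_cast hl.one_lt
    split_ifs at hn with h2
    · refine ⟨n % (2 * v.len + 1), ?_, h2, hn⟩
      by_contra h3
      have : n % (2 * v.len + 1) = 0 := by omega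
      rw [this] at hn
      have h4 : qs v t P 0 = 1 := rfl
      rw [h4] at hn
      linarith
    · exact ⟨2 * v.len + 1 - n % (2 * v.len + 1), by omega, by omega, hn⟩

end Pool.Agent.N911
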