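import Pool.Agent.N911.U1
import Pool.Agent.N911.U3
import Pool.Agent.N911.TT
import Pool.Agent.N911.D1
import Pool.Agent.N911.D4

/-! Soundness of the residue search for words: local part. -/

set_option maxRecDepth 100000

namespace Pool.Agent.N911

open H419R2 Finset

/-- the modulus -/
def M1n : ℕ := 4 * 9 * 5 * 7 * 13 * 19 * 37 * 43 * 73

/-- the odd primes used -/
def LP : List ℕ := [3, 5, 7, 13, 19, 37, 43, 73]

/-- chosen inverse -/
def iv (x : ℤ) : ℤ := Int.gcdA x (M1n : ℤ)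

/-- all that is used about the discriminant -/
structure Base (D : ℤ) : Prop where
  d8 : D % 8 = 5
  nsq : ∀ l : ℕ, l ∈ LP → ¬ IsSquare ((D : ℤ) : ZMod l)

theorem isCoprime_M1 {x : ℤ} (h2 : x % 2 = 1)
    (h : ∀ l : ℕ, l ∈ LP → ¬ (l : ℤ) ∣ x) : IsCoprime x (M1n : ℤ) := by
  have hp : ∀ l : ℕ, l.Prime → ¬ (l : ℤ) ∣ x → IsCoprime x (l : ℤ) := by
    intro l hl hx
    have h3 := (Nat.prime_iff_prime_int.mp hl)
    exact ((Prime.coprime_iff_not_dvd h3).mpr hx).symm
  have k : IsCoprime x 2 := by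
    refine ⟨1, -(x / 2), ?_⟩
    omega
  have h3 := hp 3 (by norm_num) (h 3 (by simp [LP]))
  have h5 := hp 5 (by norm_num) (h 5 (by simp [LP]))
  have h7 := hp 7 (by norm_num) (h 7 (by simp [LP]))
  have h13 := hp 13 (by norm_num) (h 13 (by simp [LP]))
  have h19 := hp 19 (by norm_num) (h 19 (by simp [LP]))
  have h37 := hp 37 (by norm_num) (h 37 (by simp [LP]))
  have h43 := hp 43 (by norm_num) (h 43 (by simp [LP]))
  have h73 := hp 73 (by norm_num) (h 73 (by simp [LP]))
  have e : (M1n : ℤ) = 2 * 2 * (3 : ℕ) * (3 : ℕ) * (5 : ℕ) * (7 : ℕ) * (13 : ℕ) * (19 : ℕ) *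
      (37 : ℕ) * (43 : ℕ) * (73 : ℕ) := by
    unfold M1n; norm_num
  rw [e]
  exact (((((((((k.mul_right k).mul_right h3).mul_right h3).mul_right h5).mul_right h7).mul_right
    h13).mul_right h19).mul_right h37).mul_right h43).mul_right h73

theorem sq_ofU {l : ℕ} {x y y' : ZMod l} (h : y' * y = 1) (h2 : IsSquare (y ^ 2 * x)) :
    IsSquare x := by
  obtain ⟨r, hr⟩ := h2
  refine ⟨y' * r, ?_⟩
  linear_combination y' ^ 2 * hr - (y' * y + 1) * x * h

section base

variable {D : ℤ} (H : Base D) {f : Fm} (hf : f.disc = D)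

include H hf

theorem Base.oddB : f.B % 2 = 1 := by
  have h8 := H.d8
  rcases Int.emod_two_eq_zero_or_one f.B with h | h
  · exfalso
    obtain ⟨k, hk⟩ : ∃ k, f.B = 2 * k := ⟨f.B / 2, by omega⟩
    unfold Fm.disc at hf
    rw [hk] at hf
    have : D = 4 * (k ^ 2 + f.A * f.C) := by rw [← hf]; ring
    omega
  · exact h

theorem Base.oddA : f.A % 2 = 1 := by
  have h8 := H.d8
  have hB := H.oddB hf
  rcases Int.emod_two_eq_zero_or_one f.A with h | h
  · exfalso
    obtain ⟨k, hk⟩ : ∃ k, f.B = 2 * k + 1 := ⟨f.B / 2, by omega⟩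
    obtain ⟨a, ha⟩ : ∃ a, f.A = 2 * a := ⟨f.A / 2, by omega⟩
    unfold Fm.disc at hf
    rw [hk, ha] at hf
    rcases Int.emod_two_eq_zero_or_one k with h' | h'
    · obtain ⟨j, hj⟩ : ∃ j, k = 2 * j := ⟨k / 2, by omega⟩
      rw [hj] at hf
      have : D = 8 * (2 * j ^ 2 + j + a * f.C) + 1 := by rw [← hf]; ring
      omega
    · obtain ⟨j, hj⟩ : ∃ j, k = 2 * j + 1 := ⟨k / 2, by omega⟩
      rw [hj] at hf
      have : D = 8 * (2 * j ^ 2 + 3 * j + 1 + a * f.C) + 1 := by rw [← hf]; ring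
      omega
  · exact h

theorem Base.cop : IsCoprime f.A (M1n : ℤ) := by
  apply isCoprime_M1 (H.oddA hf)
  intro l hl hd
  apply H.nsq l hl
  have h0 : ((f.A : ℤ) : ZMod l) = 0 := (ZMod.intCast_zmod_eq_zero_iff_dvd _ _).mpr hd
  rw [← hf]
  unfold Fm.disc
  push_cast
  rw [h0]
  exact ⟨f.B, by ring⟩

theorem Base.ivA {l : ℕ} (hl : l ∣ M1n) : ((f.A * iv f.A : ℤ) : ZMod l) = 1 := by
  have h := H.cop hf
  have h1 : Int.gcd f.A (M1n : ℤ) = 1 := Int.isCoprime_iff_gcd_eq_one.mp h
  have h2 := Int.gcd_eq_gcd_ab f.A (M1n : ℤ)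
  rw [h1] at h2
  have h3 : ((M1n : ℕ) : ZMod l) = 0 := (ZMod.natCast_eq_zero_iff _ _).mpr hl
  have h4 := congrArg (fun z : ℤ => (z : ZMod l)) h2
  unfold iv
  push_cast at h4 ⊢
  rw [h3] at h4
  linear_combination -h4

theorem Base.ivC {l : ℕ} (hl : l ∣ M1n) : ((f.C * iv f.C : ℤ) : ZMod l) = 1 :=
  H.ivA (f := f.step 0) (by rw [Fm.disc_step]; exact hf) hl

end base

/-- normalized middle coefficient -/
def Fm.nB (f : Fm) : ℤ := f.B * iv f.A
/-- normalized last coefficient -/
def Fm.nC (f : Fm) : ℤ := f.C * iv f.A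
/-- index of a form -/
def Fm.ix (l : ℕ) (f : Fm) : ℕ := pk l f.nB f.nC

theorem LP_dvd {l : ℕ} (h : l ∈ LP) : l ∣ M1n := by
  unfold LP at h
  simp only [List.mem_cons, List.not_mem_nil, or_false] at h
  rcases h with rfl | rfl | rfl | rfl | rfl | rfl | rfl | rfl <;> decide +kernel

theorem Base.vv {D : ℤ} (H : Base D) {f : Fm} (hf : f.disc = D) {l : ℕ} (h : l ∈ LP) :
    V l f.nB f.nC := by
  unfold V
  rw [if_neg (by rintro rfl; simp [LP] at h)]
  intro hs
  apply H.nsq l h
  have e := H.ivA hf (LP_dvd h)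
  push_cast at e
  apply sq_ofU (y := (iv f.A : ZMod l)) (y' := (f.A : ZMod l)) e
  rw [← hf]
  convert hs using 1
  unfold Fm.disc Fm.nB Fm.nC
  push_cast
  linear_combination 4 * (f.C : ZMod l) * (iv f.A : ZMod l) * e

theorem odd_mulU {x y : ℤ} (hx : x % 2 = 1) (hy : y % 2 = 1) : (x * y) % 2 = 1 := by
  rw [Int.mul_emod, hx, hy]; rfl

theorem Base.v4 {D : ℤ} (H : Base D) {f : Fm} (hf : f.disc = D) : V 4 f.nB f.nC := by
  unfold V
  rw [if_pos rfl]
  have hC : f.C % 2 = 1 := H.oddA (f := f.step 0) (by rw [Fm.disc_step]; exact hf)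
  have hB := H.oddB hf
  have e := H.ivA hf (l := 2) (by decide +kernel)
  have e2 : ((f.A * iv f.A - 1 : ℤ) : ZMod 2) = 0 := by
    rw [Int.cast_sub, e]; simp
  have e3 : (2 : ℤ) ∣ f.A * iv f.A - 1 := by
    have := (ZMod.intCast_zmod_eq_zero_iff_dvd (f.A * iv f.A - 1) 2).mp e2
    exact_mod_cast this
  have hi : iv f.A % 2 = 1 := by
    rcases Int.emod_two_eq_zero_or_one (iv f.A) with h2 | h2
    · exfalso
      have : (f.A * iv f.A) % 2 = 0 := by rw [Int.mul_emod, h2, mul_zero]; rfl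
      omega
    · exact h2
  exact ⟨odd_mulU hB hi, odd_mulU hC hi⟩

theorem res_congr {x y : ℤ} {l : ℕ} (hl : 0 < l) (h : ((x : ℤ) : ZMod l) = y) :
    res x l = res y l :=
  res_unique (res_lt x hl) (by rw [res_cast' x hl, h])

/-- the trace at the actual forms -/
def trc (l : ℕ) : WL → Fm → TL
  | .nil, f => .cons (7 * res f.A l) (f.ix l) .nil
  | .cons a v, f => .cons (7 * res f.A l) (f.ix l) (trc l v (f.step a))

theorem mkT_eq {D : ℤ} (H : Base D) {l I : ℕ} (l1 : 1 < l) (hI : chkI l I = true)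
    (hl : l ∣ M1n) (v : WL) {f : Fm} (hf : f.disc = D) (g : TL → Bool) :
    mkT l I v (res f.A l) (res f.nB l) (res f.nC l) g = g (trc l v f) := by
  have hl0 : 0 < l := by omega
  induction v generalizing f g with
  | nil =>
    have e : mkT l I .nil (res f.A l) (res f.nB l) (res f.nC l) g =
      force (Nat.mul 7 (res f.A l)) (fun q => force (Nat.mul 7 (Nat.add (Nat.mul (res f.nB l) l)
        (res f.nC l))) (fun k => g (TL.cons q k TL.nil))) := rfl
    rw [e, force_eq, force_eq]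
    rfl
  | cons a v ih =>
    have e : mkT l I (.cons a v) (res f.A l) (res f.nB l) (res f.nC l) g =
      force (Nat.mul 7 (res f.A l)) (fun q =>
      force (Nat.mul 7 (Nat.add (Nat.mul (res f.nB l) l) (res f.nC l))) (fun k =>
      force (look I (res f.nC l)) (fun i =>
      force (Nat.mod (Nat.mul (res f.A l) (res f.nC l)) l) (fun c' =>
      force (Nat.mod (Nat.mul (Nat.add (Nat.mul (Nat.mul 2 a) (res f.nC l))
        (Nat.sub l (res f.nB l))) i) l) (fun B' =>
      force (Nat.mod (Nat.mul (Nat.add (Nat.add 1 (Nat.mul a (res f.nB l))) (Nat.mul (Nat.mul a a)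
        (Nat.sub l (res f.nC l)))) i) l) (fun C' =>
          mkT l I v c' B' C' (fun r => g (TL.cons q k r)))))))) := rfl
    rw [e]
    simp only [force_eq]
    have eA := H.ivA hf hl
    have eC := H.ivC hf hl
    have ci : ((look I (res f.nC l) : ℕ) : ZMod l) = ((f.A * iv f.C : ℤ) : ZMod l) := by
      apply inv_of l1 hI
      unfold Fm.nC
      push_cast at eA eC ⊢
      linear_combination (f.C : ZMod l) * (iv f.C : ZMod l) * eA + eC
    have cA := res_cast' f.A hl0
    have cB := res_cast' f.nB hl0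
    have cC := res_cast' f.nC hl0
    have cl : ((l : ℕ) : ZMod l) = 0 := CharP.cast_eq_zero _ _
    have h1 : Nat.mod (Nat.mul (res f.A l) (res f.nC l)) l = res (f.step a).A l := by
      apply mod_res hl0
      change ((res f.A l * res f.nC l : ℕ) : ZMod l) = ((f.C : ℤ) : ZMod l)
      rw [Nat.cast_mul, cA, cC]
      unfold Fm.nC
      push_cast at eA ⊢
      linear_combination (f.C : ZMod l) * eA
    have h2 : Nat.mod (Nat.mul (Nat.add (Nat.mul (Nat.mul 2 a) (res f.nC l))
        (Nat.sub l (res f.nB l))) (look I (res f.nC l))) l = res (f.step a).nB l := by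
      apply mod_res hl0
      change (((2 * a * res f.nC l + (l - res f.nB l)) * look I (res f.nC l) : ℕ) : ZMod l) =
        (((2 * a * f.C - f.B) * iv f.C : ℤ) : ZMod l)
      rw [Nat.cast_mul, Nat.cast_add, Nat.cast_mul, Nat.cast_mul,
        Nat.cast_sub (res_lt f.nB hl0).le, cB, cC, ci, cl]
      unfold Fm.nC Fm.nB
      push_cast at eA ⊢
      linear_combination (2 * (a : ZMod l) * f.C - f.B) * (iv f.C : ZMod l) * eA
    have h3 : Nat.mod (Nat.mul (Nat.add (Nat.add 1 (Nat.mul a (res f.nB l)))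
        (Nat.mul (Nat.mul a a) (Nat.sub l (res f.nC l)))) (look I (res f.nC l))) l =
        res (f.step a).nC l := by
      apply mod_res hl0
      change (((1 + a * res f.nB l + a * a * (l - res f.nC l)) * look I (res f.nC l) : ℕ) :
        ZMod l) = (((f.A + a * f.B - a ^ 2 * f.C) * iv f.C : ℤ) : ZMod l)
      rw [Nat.cast_mul, Nat.cast_add, Nat.cast_add, Nat.cast_mul, Nat.cast_mul, Nat.cast_mul,
        Nat.cast_sub (res_lt f.nC hl0).le, cB, cC, ci, cl]
      unfold Fm.nC Fm.nB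
      push_cast at eA ⊢
      linear_combination ((a : ZMod l) * f.B - (a : ZMod l) ^ 2 * f.C) * (iv f.C : ZMod l) * eA
    rw [h1, h2, h3, ih (by rw [Fm.disc_step]; exact hf)]
    rfl

theorem f0_disc (t P : ℤ) : (f0 t P).disc = t ^ 2 + 4 * P := by
  unfold Fm.disc f0; ring

theorem mkT_f0 {t P : ℤ} (H : Base (t ^ 2 + 4 * P)) {l I : ℕ} (l1 : 1 < l)
    (hI : chkI l I = true) (hl : l ∣ M1n) (v : WL) (g : TL → Bool) :
    mkT l I v 1 (res t l) (res P l) g = g (trc l v (f0 t P)) := by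
  have hl0 : 0 < l := by omega
  rw [← mkT_eq H l1 hI hl v (f0_disc t P) g]
  have e := H.ivA (f0_disc t P) hl
  have e' : (((1 : ℤ) * iv 1 : ℤ) : ZMod l) = 1 := e
  push_cast at e'
  rw [one_mul] at e'
  congr 1
  · have : res (f0 t P).A l = 1 := by
      symm
      apply res_unique l1
      change ((1 : ℕ) : ZMod l) = ((1 : ℤ) : ZMod l)
      push_cast; rfl
    rw [this]
  · apply res_congr hl0
    change (t : ZMod l) = ((t * iv 1 : ℤ) : ZMod l)
    push_cast
    rw [e', mul_one]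
  · apply res_congr hl0
    change (P : ZMod l) = ((P * iv 1 : ℤ) : ZMod l)
    push_cast
    rw [e', mul_one]

theorem mkT_ex (l I : ℕ) (v : WL) (c B C : ℕ) :
    ∃ r, ∀ g : TL → Bool, mkT l I v c B C g = g r := by
  induction v generalizing c B C with
  | nil =>
    refine ⟨TL.cons (Nat.mul 7 c) (Nat.mul 7 (Nat.add (Nat.mul B l) C)) TL.nil, ?_⟩
    intro g
    have e : mkT l I .nil c B C g =
      force (Nat.mul 7 c) (fun q => force (Nat.mul 7 (Nat.add (Nat.mul B l) C))
        (fun k => g (TL.cons q k TL.nil))) := rfl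
    rw [e, force_eq, force_eq]
  | cons a v ih =>
    obtain ⟨r, hr⟩ := ih (Nat.mod (Nat.mul c C) l)
      (Nat.mod (Nat.mul (Nat.add (Nat.mul (Nat.mul 2 a) C) (Nat.sub l B)) (look I C)) l)
      (Nat.mod (Nat.mul (Nat.add (Nat.add 1 (Nat.mul a B)) (Nat.mul (Nat.mul a a)
        (Nat.sub l C))) (look I C)) l)
    refine ⟨TL.cons (Nat.mul 7 c) (Nat.mul 7 (Nat.add (Nat.mul B l) C)) r, ?_⟩
    intro g
    have e : mkT l I (.cons a v) c B C g =
      force (Nat.mul 7 c) (fun q =>
      force (Nat.mul 7 (Nat.add (Nat.mul B l) C)) (fun k => force (look I C) (fun i =>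
      force (Nat.mod (Nat.mul c C) l) (fun c' =>
      force (Nat.mod (Nat.mul (Nat.add (Nat.mul (Nat.mul 2 a) C) (Nat.sub l B)) i) l) (fun B' =>
      force (Nat.mod (Nat.mul (Nat.add (Nat.add 1 (Nat.mul a B)) (Nat.mul (Nat.mul a a)
        (Nat.sub l C))) i) l) (fun C' =>
          mkT l I v c' B' C' (fun r => g (TL.cons q k r)))))))) := rfl
    rw [e]
    simp only [force_eq]
    rw [hr]

theorem tgW_sound {t P : ℤ} (H : Base (t ^ 2 + 4 * P)) {l I Q : ℕ} (l1 : 1 < l)
    (hI : chkI l I = true) (hl : l ∣ M1n) (hQ : chkIq l Q = true)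
    (hns : ¬ IsSquare (((t ^ 2 + 4 * P : ℤ)) : ZMod l)) (v : WL) (f : ℕ → TL → Bool)
    (h : tgW l I Q v (res t l) (res P l) f = true) : f (res t l) (trc l v (f0 t P)) = true := by
  have hl0 : 0 < l := by omega
  unfold tgW at h
  have h1 : tb Q (Nat.mod (Nat.add (Nat.mul (res t l) (res t l)) (Nat.mul 4 (res P l))) l) =
      false := by
    by_contra hc
    have hc' := Bool.eq_true_of_not_eq_false hc
    have h2 := tb_square hl0 hQ hc'
    apply hns
    have h3 : ((Nat.add (Nat.mul (res t l) (res t l)) (Nat.mul 4 (res P l)) : ℕ) : ZMod l) =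
        ((t ^ 2 + 4 * P : ℤ) : ZMod l) := by
      change ((res t l * res t l + 4 * res P l : ℕ) : ZMod l) = _
      push_cast
      rw [res_cast' t hl0, res_cast' P hl0]
      ring
    rw [h3] at h2
    exact h2
  rw [h1] at h
  change mkT l I v 1 (res t l) (res P l) (fun r => f (res t l) r) = true at h
  rw [mkT_f0 H l1 hI hl] at h
  exact h

/-- linear relation -/
def LinW (t P : ℤ) (U x y : ℕ) : Prop := P * U = t * x + y

theorem enW_sound {t P : ℤ} (H : Base (t ^ 2 + 4 * P)) {U x y : ℕ} (hlin : LinW t P U x y)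
    {l I Q : ℕ} (hlp : l ∈ LP) (hp : l.Prime)
    (hI : chkI l I = true) (hQ : chkIq l Q = true) (v : WL) {f : ℕ → TL → Bool}
    (h : enW l I Q U x y v f = true) : f (res t l) (trc l v (f0 t P)) = true := by
  have l1 := hp.one_lt
  have hl0 : 0 < l := by omega
  have hl := LP_dvd hlp
  have hns := H.nsq l hlp
  have hF := Fact.mk hp
  unfold enW at h
  rw [force_eq, force_eq, force_eq, allN_iff] at h
  have h1 := h _ (res_lt t hl0)
  rw [force_eq] at h1
  have hw : ((Nat.mod (Nat.add (Nat.mul (res t l) (Nat.mod x l)) (Nat.mod y l)) l : ℕ) : ZMod l) =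
      P * (U : ZMod l) := by
    change (((res t l * (x % l) + y % l) % l : ℕ) : ZMod l) = _
    rw [ZMod.natCast_mod]
    push_cast
    rw [ZMod.natCast_mod, ZMod.natCast_mod, res_cast' t hl0]
    have := congrArg (fun z : ℤ => (z : ZMod l)) hlin
    push_cast at this
    exact this.symm
  set w := Nat.mod (Nat.add (Nat.mul (res t l) (Nat.mod x l)) (Nat.mod y l)) l with hwd
  have hwl : w < l := Nat.mod_lt _ hl0
  have hUm : ((Nat.mod U l : ℕ) : ZMod l) = U := by
    change ((U % l : ℕ) : ZMod l) = _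
    rw [ZMod.natCast_mod]
  have hUl : Nat.mod U l < l := Nat.mod_lt _ hl0
  generalize Nat.mod U l = u at h1 hUm hUl
  cases u with
  | zero =>
    change imp (Nat.beq w 0) (allN l (fun P => tgW l I Q v (res t l) P f)) = true at h1
    have h2 : w = 0 := by
      rw [← hUm, Nat.cast_zero, mul_zero, ZMod.natCast_eq_zero_iff] at hw
      exact Nat.eq_zero_of_dvd_of_lt hw hwl
    have h3 := imp_true h1 (by rw [h2]; rfl)
    rw [allN_iff] at h3
    exact tgW_sound H l1 hI hl hQ hns v f (h3 _ (res_lt P hl0))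
  | succ n =>
    change force (Nat.mod (Nat.mul w (look I (n + 1))) l)
      (fun P => tgW l I Q v (res t l) P f) = true at h1
    rw [force_eq] at h1
    have hu : IsUnit ((n + 1 : ℕ) : ZMod l) := by
      rw [isUnit_iff_ne_zero]
      intro h0
      rw [ZMod.natCast_eq_zero_iff] at h0
      have := Nat.le_of_dvd (by omega) h0
      omega
    have h5 := chkI_sound l1 hI hUl hu
    have h6 : Nat.mod (Nat.mul w (look I (n + 1))) l = res P l := by
      apply mod_res hl0
      change ((w * look I (n + 1) : ℕ) : ZMod l) = _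
      rw [Nat.cast_mul, hw, ← hUm, mul_assoc, h5, mul_one]
    rw [h6] at h1
    exact tgW_sound H l1 hI hl hQ hns v f h1

theorem enN_sound {t P : ℤ} (H : Base (t ^ 2 + 4 * P)) {U x y : ℕ} (hlin : LinW t P U x y)
    {l I Q : ℕ} (l1 : 1 < l) (hl : l ∣ M1n) (hns : ¬ IsSquare (((t ^ 2 + 4 * P : ℤ)) : ZMod l))
    (hI : chkI l I = true) (hQ : chkIq l Q = true) (v : WL) {f : ℕ → TL → Bool}
    (h : enN l I Q U x y v f = true) : f (res t l) (trc l v (f0 t P)) = true := by
  have hl0 : 0 < l := by omega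
  unfold enN at h
  rw [allN_iff] at h
  have h1 := h _ (res_lt t hl0)
  rw [allN_iff] at h1
  have h2 := h1 _ (res_lt P hl0)
  have h3 : Nat.beq (Nat.mod (Nat.mul (res P l) U) l)
      (Nat.mod (Nat.add (Nat.mul (res t l) x) y) l) = true := by
    change Nat.beq (res P l * U % l) ((res t l * x + y) % l) = true
    have : res P l * U % l = (res t l * x + y) % l := by
      rw [← ZMod.natCast_eq_natCast_iff']
      push_cast
      rw [res_cast' t hl0, res_cast' P hl0]
      have := congrArg (fun z : ℤ => (z : ZMod l)) hlin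
      push_cast at this
      exact this
    rw [this]
    exact Nat.beq_refl _
  exact tgW_sound H l1 hI hl hQ hns v f (imp_true h2 h3)

/-- membership -/
def SL.Mem (T : TL) : SL → Prop
  | .nil => False
  | .cons T' l => T = T' ∨ SL.Mem T l

theorem SL.all_mem {S : SL} {f : TL → Bool} (h : S.all f = true) {T : TL} (hT : SL.Mem T S) :
    f T = true := by
  induction S with
  | nil => exact absurd hT (fun h => h)
  | cons T' l ih =>
    have e1 : (SL.cons T' l).all f = cj (f T') (l.all f) := rfl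
    rw [e1, cj_true] at h
    rcases hT with hT | hT
    · rw [hT]; exact h.1
    · exact ih h.2 hT

theorem cl41_sound {t P : ℤ} (H : Base (t ^ 2 + 4 * P)) {U x y : ℕ} (hlin : LinW t P U x y)
    (v : WL) (t' P' : ℕ) (S : SL) (g : SL → Bool) (h : cl41 U x y v t' P' S g = true) :
    ∃ S', (∀ T, SL.Mem T S → SL.Mem T S') ∧ g S' = true ∧
      (t' = res t 4 → P' = res P 4 → SL.Mem (trc 4 v (f0 t P)) S') := by
  unfold cl41 at h
  by_cases hc : t' = res t 4 ∧ P' = res P 4
  · obtain ⟨h1, h2⟩ := hc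
    have h3 : Nat.beq (Nat.mod (Nat.mul P' U) 4) (Nat.mod (Nat.add (Nat.mul t' x) y) 4) = true := by
      change Nat.beq (P' * U % 4) ((t' * x + y) % 4) = true
      have : P' * U % 4 = (t' * x + y) % 4 := by
        rw [← ZMod.natCast_eq_natCast_iff', h1, h2]
        push_cast
        rw [res_cast' t (by norm_num), res_cast' P (by norm_num)]
        have := congrArg (fun z : ℤ => (z : ZMod 4)) hlin
        push_cast at this
        exact this
      rw [this]
      exact Nat.beq_refl _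
    rw [h3] at h
    change mkT 4 I4 v 1 t' P' (fun r => g (SL.cons r S)) = true at h
    rw [h1, h2, mkT_f0 H (by norm_num) ci4 (by decide +kernel)] at h
    exact ⟨SL.cons (trc 4 v (f0 t P)) S, fun T hT => Or.inr hT, h, fun _ _ => Or.inl rfl⟩
  · cases hb : Nat.beq (Nat.mod (Nat.mul P' U) 4) (Nat.mod (Nat.add (Nat.mul t' x) y) 4) with
    | true =>
      rw [hb] at h
      obtain ⟨r, hr⟩ := mkT_ex 4 I4 v 1 t' P'
      change mkT 4 I4 v 1 t' P' (fun r => g (SL.cons r S)) = true at h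
      rw [hr] at h
      exact ⟨SL.cons r S, fun T hT => Or.inr hT, h, fun h1 h2 => absurd ⟨h1, h2⟩ hc⟩
    | false =>
      rw [hb] at h
      exact ⟨S, fun T hT => hT, h, fun h1 h2 => absurd ⟨h1, h2⟩ hc⟩

theorem cl4_sound {t P : ℤ} (H : Base (t ^ 2 + 4 * P)) {U x y : ℕ} (hlin : LinW t P U x y)
    (v : WL) (g : SL → Bool) (h : cl4 U x y v g = true) :
    ∃ S, SL.Mem (trc 4 v (f0 t P)) S ∧ g S = true := by
  unfold cl4 at h
  obtain ⟨S1, a1, h, b1⟩ := cl41_sound H hlin v _ _ _ _ h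
  obtain ⟨S2, a2, h, b2⟩ := cl41_sound H hlin v _ _ _ _ h
  obtain ⟨S3, a3, h, b3⟩ := cl41_sound H hlin v _ _ _ _ h
  obtain ⟨S4, a4, h, b4⟩ := cl41_sound H hlin v _ _ _ _ h
  refine ⟨S4, ?_, h⟩
  have ht : t % 2 = 1 := H.oddB (f0_disc t P)
  have hP : P % 2 = 1 := H.oddA (f := (f0 t P).step 0) (by rw [Fm.disc_step]; exact f0_disc t P)
  have e1 := res_int t (M := 4) (by norm_num)
  have e2 := res_int P (M := 4) (by norm_num)
  have l1 := res_lt t (M := 4) (by norm_num)
  have l2 := res_lt P (M := 4) (by norm_num)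
  have c1 : res t 4 = 1 ∨ res t 4 = 3 := by omega
  have c2 : res P 4 = 1 ∨ res P 4 = 3 := by omega
  rcases c1 with c1 | c1 <;> rcases c2 with c2 | c2
  · exact a4 _ (a3 _ (a2 _ (b1 c1.symm c2.symm)))
  · exact a4 _ (a3 _ (b2 c1.symm c2.symm))
  · exact a4 _ (b3 c1.symm c2.symm)
  · exact b4 c1.symm c2.symm

end Pool.Agent.N911
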