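import Pool.Agent.N911.U4

/-! Soundness of the residue search for words: stages. -/

set_option maxRecDepth 100000

namespace Pool.Agent.N911

open H419R2 Finset

section ws

variable {N : ℕ} [NeZero N] {M : Type*} [CommRing M]

/-- weighted sum -/
def WS (χ : ZMod N → M) : WL → Fm → M → M
  | .nil, f, w => 6 * SE χ (f.A : ZMod N) f.B f.C + w * SY χ (f.A : ZMod N) f.B f.C
  | .cons a l, f, w => 12 * SE χ (f.A : ZMod N) f.B f.C + w * SY χ (f.A : ZMod N) f.B f.C +
      WS χ l (f.step a) (4 * a)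

theorem WS_nil (χ : ZMod N → M) (f : Fm) (w : M) : WS χ .nil f w =
    6 * SE χ (f.A : ZMod N) f.B f.C + w * SY χ (f.A : ZMod N) f.B f.C := rfl

theorem WS_cons (χ : ZMod N → M) (a : ℕ) (l : WL) (f : Fm) (w : M) : WS χ (.cons a l) f w =
    12 * SE χ (f.A : ZMod N) f.B f.C + w * SY χ (f.A : ZMod N) f.B f.C +
      WS χ l (f.step a) (4 * a) := rfl

theorem WS_eq (χ : ZMod N → M) (v : WL) (f : Fm) (w : M) :
    WS χ v f w = 2 * RS χ v f + w * SY χ (f.A : ZMod N) f.B f.C := by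
  induction v generalizing f w with
  | nil =>
    unfold WS RS
    ring
  | cons a l ih =>
    unfold WS RS
    rw [ih]
    ring

theorem WS_f0 (χ : ZMod N → M) (v : WL) (t P : ℤ) (w : M) :
    WS χ v (f0 t P) w = 2 * RS χ v (f0 t P) + w * SY χ 1 (t : ZMod N) (P : ZMod N) := by
  rw [WS_eq]
  have e1 : (((f0 t P).A : ℤ) : ZMod N) = 1 := by
    change ((1 : ℤ) : ZMod N) = 1
    simp
  rw [e1]
  rfl

end ws

/-- valid entries -/
structure HE (c : CD) [NeZero c.q] (D : ℤ) (X E : Fm → ℕ) : Prop where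
  hx : ∀ f : Fm, f.disc = D → (X f : ZMod c.p) * ((E f % 128 : ℕ) : ZMod c.p) =
    6 * SE (chi c.q c.p c.T) (f.A : ZMod c.q) f.B f.C
  hy : ∀ f : Fm, f.disc = D → (X f : ZMod c.p) * ((E f / 128 : ℕ) : ZMod c.p) =
    SY (chi c.q c.p c.T) (f.A : ZMod c.q) f.B f.C
  h0 : ∀ t P : ℤ, (f0 t P).disc = D → ((E (f0 t P) / 128 : ℕ) : ZMod c.p) =
    SY (chi c.q c.p c.T) 1 (t : ZMod c.q) (P : ZMod c.q)

theorem HE_of {c : CD} [hne : NeZero c.q] (hc : c.OK) (hq : c.q ∣ M1n) {D : ℤ} (H : Base D)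
    {X E : Fm → ℕ} (hX : ∀ f : Fm, f.disc = D → Chv c (X f) f.A)
    (hE : ∀ f : Fm, f.disc = D → Ent c (E f) f.nB f.nC) : HE c D X E := by
  have hmul := chi_mul hc.mul
  refine ⟨?_, ?_, ?_⟩
  · intro f hf
    have e := H.ivA hf hq
    push_cast at e
    rw [SE_scale hmul (A := (f.A : ZMod c.q)) e, hX f hf hne, (hE f hf hne).1]
    unfold Fm.nB Fm.nC
    push_cast
    ring
  · intro f hf
    have e := H.ivA hf hq
    push_cast at e
    rw [SY_scale hmul (A := (f.A : ZMod c.q)) e, hX f hf hne, (hE f hf hne).2]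
    unfold Fm.nB Fm.nC
    push_cast
    ring
  · intro t P hf
    have e := H.ivA hf hq
    have e' : (((1 : ℤ) * iv 1 : ℤ) : ZMod c.q) = 1 := e
    push_cast at e'
    rw [one_mul] at e'
    rw [(hE _ hf hne).2]
    have e1 : ((Fm.nB (f0 t P) : ℤ) : ZMod c.q) = t := by
      change ((t * iv 1 : ℤ) : ZMod c.q) = t
      push_cast
      rw [e', mul_one]
    have e2 : ((Fm.nC (f0 t P) : ℤ) : ZMod c.q) = P := by
      change ((P * iv 1 : ℤ) : ZMod c.q) = P
      push_cast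
      rw [e', mul_one]
    rw [e1, e2]

theorem nadd (a b : ℕ) : Nat.add a b = a + b := rfl
theorem nmul (a b : ℕ) : Nat.mul a b = a * b := rfl
theorem nmod (a b : ℕ) : Nat.mod a b = a % b := rfl
theorem ndiv (a b : ℕ) : Nat.div a b = a / b := rfl

section sums

variable {c : CD} [NeZero c.q] {D : ℤ}

theorem R2_eq {gx ge : ℕ → ℕ → ℕ} {l1 l2 : ℕ}
    (h : HE c D (fun f => gx (7 * res f.A l1) (7 * res f.A l2)) (fun f => ge (f.ix l1) (f.ix l2)))
    (v : WL) {f : Fm} (hf : f.disc = D) (w s : ℕ) :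
    ∃ S : ℕ, (S : ZMod c.p) = s + WS (chi c.q c.p c.T) v f (w : ZMod c.p) ∧
      ∀ k, R2 gx ge v (trc l1 v f) (trc l2 v f) w s k = k S := by
  induction v generalizing f w s with
  | nil =>
    refine ⟨s + gx (7 * res f.A l1) (7 * res f.A l2) *
      (ge (f.ix l1) (f.ix l2) % 128 + w * (ge (f.ix l1) (f.ix l2) / 128)), ?_, ?_⟩
    · rw [WS_nil]
      have h1 := h.hx f hf
      have h2 := h.hy f hf
      rw [Nat.cast_add, Nat.cast_mul, Nat.cast_add, Nat.cast_mul, ← h1, ← h2]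
      ring
    · intro k
      have e : R2 gx ge .nil (trc l1 .nil f) (trc l2 .nil f) w s k =
        force (ge (f.ix l1) (f.ix l2)) (fun e => force (Nat.add s (Nat.mul
          (gx (7 * res f.A l1) (7 * res f.A l2))
        (Nat.add (Nat.mod e 128) (Nat.mul w (Nat.div e 128))))) k) := rfl
      rw [e, force_eq, force_eq]
      rfl
  | cons a v ih =>
    obtain ⟨S, hS, hk⟩ := ih (f := f.step a) (by rw [Fm.disc_step]; exact hf) (4 * a)
      (s + gx (7 * res f.A l1) (7 * res f.A l2) *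
      (2 * (ge (f.ix l1) (f.ix l2) % 128) + w * (ge (f.ix l1) (f.ix l2) / 128)))
    refine ⟨S, ?_, ?_⟩
    · rw [hS]
      rw [WS_cons]
      have h1 := h.hx f hf
      have h2 := h.hy f hf
      rw [Nat.cast_add, Nat.cast_mul, Nat.cast_add, Nat.cast_mul, Nat.cast_mul, Nat.cast_mul, ← h2]
      push_cast
      linear_combination 2 * h1
    · intro k
      have e : R2 gx ge (.cons a v) (trc l1 (.cons a v) f) (trc l2 (.cons a v) f) w s k =
        force (ge (f.ix l1) (f.ix l2)) (fun e => force (Nat.add s (Nat.mul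
          (gx (7 * res f.A l1) (7 * res f.A l2))
        (Nat.add (Nat.mul 2 (Nat.mod e 128)) (Nat.mul w (Nat.div e 128)))))
        (fun s => R2 gx ge v (trc l1 v (f.step a)) (trc l2 v (f.step a)) (Nat.mul 4 a) s k)) := rfl
      rw [e, force_eq, force_eq]
      exact hk k

theorem R3_eq {gx ge : ℕ → ℕ → ℕ → ℕ} {l1 l2 l3 : ℕ}
    (h : HE c D (fun f => gx (7 * res f.A l1) (7 * res f.A l2) (7 * res f.A l3))
      (fun f => ge (f.ix l1) (f.ix l2) (f.ix l3)))
    (v : WL) {f : Fm} (hf : f.disc = D) (w s : ℕ) :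
    ∃ S : ℕ, (S : ZMod c.p) = s + WS (chi c.q c.p c.T) v f (w : ZMod c.p) ∧
      ∀ k, R3 gx ge v (trc l1 v f) (trc l2 v f) (trc l3 v f) w s k = k S := by
  induction v generalizing f w s with
  | nil =>
    refine ⟨s + gx (7 * res f.A l1) (7 * res f.A l2) (7 * res f.A l3) *
      (ge (f.ix l1) (f.ix l2) (f.ix l3) % 128 + w * (ge (f.ix l1) (f.ix l2) (f.ix l3) / 128)),
      ?_, ?_⟩
    · rw [WS_nil]
      have h1 := h.hx f hf
      have h2 := h.hy f hf
      rw [Nat.cast_add, Nat.cast_mul, Nat.cast_add, Nat.cast_mul, ← h1, ← h2]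
      ring
    · intro k
      have e : R3 gx ge .nil (trc l1 .nil f) (trc l2 .nil f) (trc l3 .nil f) w s k =
        force (ge (f.ix l1) (f.ix l2) (f.ix l3)) (fun e => force (Nat.add s (Nat.mul
          (gx (7 * res f.A l1) (7 * res f.A l2) (7 * res f.A l3))
        (Nat.add (Nat.mod e 128) (Nat.mul w (Nat.div e 128))))) k) := rfl
      rw [e, force_eq, force_eq]
      rfl
  | cons a v ih =>
    obtain ⟨S, hS, hk⟩ := ih (f := f.step a) (by rw [Fm.disc_step]; exact hf) (4 * a)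
      (s + gx (7 * res f.A l1) (7 * res f.A l2) (7 * res f.A l3) *
      (2 * (ge (f.ix l1) (f.ix l2) (f.ix l3) % 128) +
        w * (ge (f.ix l1) (f.ix l2) (f.ix l3) / 128)))
    refine ⟨S, ?_, ?_⟩
    · rw [hS]
      rw [WS_cons]
      have h1 := h.hx f hf
      have h2 := h.hy f hf
      rw [Nat.cast_add, Nat.cast_mul, Nat.cast_add, Nat.cast_mul, Nat.cast_mul, Nat.cast_mul, ← h2]
      push_cast
      linear_combination 2 * h1
    · intro k
      have e : R3 gx ge (.cons a v) (trc l1 (.cons a v) f) (trc l2 (.cons a v) f)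
          (trc l3 (.cons a v) f) w s k =
        force (ge (f.ix l1) (f.ix l2) (f.ix l3)) (fun e => force (Nat.add s (Nat.mul
          (gx (7 * res f.A l1) (7 * res f.A l2) (7 * res f.A l3))
        (Nat.add (Nat.mul 2 (Nat.mod e 128)) (Nat.mul w (Nat.div e 128)))))
        (fun s => R3 gx ge v (trc l1 v (f.step a)) (trc l2 v (f.step a)) (trc l3 v (f.step a))
          (Nat.mul 4 a) s k)) := rfl
      rw [e, force_eq, force_eq]
      exact hk k

/-- image of a trace -/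
def mp (fx fe : ℕ → ℕ) : TL → TL
  | .nil => .nil
  | .cons q k r => .cons (fx q) (fe k) (mp fx fe r)

theorem mapT_eq (fx fe : ℕ → ℕ) (T : TL) (g : TL → Bool) : mapT fx fe T g = g (mp fx fe T) := by
  induction T generalizing g with
  | nil => rfl
  | cons q k r ih =>
    have e : mapT fx fe (.cons q k r) g = force (fx q) (fun x => force (fe k) (fun e =>
      mapT fx fe r (fun r => g (TL.cons x e r)))) := rfl
    rw [e, force_eq, force_eq, ih]
    rfl

theorem R0_eq {X0 E0 : ℕ → ℕ} {l1 l2 : ℕ}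
    (h : HE c D (fun f => sl1 (X0 (7 * res f.A l1)) (7 * res f.A l2))
      (fun f => sl1 (E0 (f.ix l1)) (f.ix l2)))
    (v : WL) {f : Fm} (hf : f.disc = D) (w : ZMod c.p) (s : ℕ) :
    ∃ S : ℕ, (S : ZMod c.p) = 2 * s + WS (chi c.q c.p c.T) v f w ∧
      ∀ k, R0 v (mp X0 E0 (trc l1 v f)) (trc l2 v f) s k = k S := by
  have hx : ∀ f : Fm, f.disc = D → (sl1 (X0 (7 * res f.A l1)) (7 * res f.A l2) : ZMod c.p) *
      ((sl1 (E0 (f.ix l1)) (f.ix l2) : ℕ) : ZMod c.p) =
      6 * SE (chi c.q c.p c.T) (f.A : ZMod c.q) f.B f.C := by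
    intro f hf
    have := h.hx f hf
    rw [Nat.mod_eq_of_lt (sl1_lt _ _)] at this
    exact this
  have hy : ∀ f : Fm, f.disc = D → SY (chi c.q c.p c.T) (f.A : ZMod c.q) f.B f.C = 0 := by
    intro f hf
    have := h.hy f hf
    rw [Nat.div_eq_of_lt (sl1_lt _ _), Nat.cast_zero, mul_zero] at this
    exact this.symm
  induction v generalizing f w s with
  | nil =>
    refine ⟨2 * s + sl1 (X0 (7 * res f.A l1)) (7 * res f.A l2) * sl1 (E0 (f.ix l1)) (f.ix l2),
      ?_, ?_⟩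
    · rw [WS_nil]
      rw [hy f hf, ← hx f hf]
      push_cast
      ring
    · intro k
      have e : R0 .nil (mp X0 E0 (trc l1 .nil f)) (trc l2 .nil f) s k =
        force (Nat.add (Nat.mul 2 s) (Nat.mul (sl1 (X0 (7 * res f.A l1)) (7 * res f.A l2))
          (sl1 (E0 (f.ix l1)) (f.ix l2)))) k := rfl
      rw [e, force_eq]
      rfl
  | cons a v ih =>
    obtain ⟨S, hS, hk⟩ := ih (f := f.step a) (by rw [Fm.disc_step]; exact hf) (4 * (a : ZMod c.p))
      (s + sl1 (X0 (7 * res f.A l1)) (7 * res f.A l2) * sl1 (E0 (f.ix l1)) (f.ix l2))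
    refine ⟨S, ?_, ?_⟩
    · rw [hS]
      rw [WS_cons]
      have h1 := hx f hf
      rw [hy f hf]
      push_cast
      linear_combination 2 * h1
    · intro k
      have e : R0 (.cons a v) (mp X0 E0 (trc l1 (.cons a v) f)) (trc l2 (.cons a v) f) s k =
        force (Nat.add s (Nat.mul (sl1 (X0 (7 * res f.A l1)) (7 * res f.A l2))
          (sl1 (E0 (f.ix l1)) (f.ix l2)))) (fun s => R0 v (mp X0 E0 (trc l1 v (f.step a)))
            (trc l2 v (f.step a)) s k) := rfl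
      rw [e, force_eq]
      exact hk k

theorem rel_two {v : WL} {t P : ℤ} (hR : RelW (chi c.q c.p c.T) v t P = 0) :
    WS (chi c.q c.p c.T) v (f0 t P) (2 * t : ZMod c.p) = 0 := by
  rw [WS_f0]
  unfold RelW at hR
  linear_combination 2 * hR

theorem ck2_sound {gx ge : ℕ → ℕ → ℕ} {l1 l2 : ℕ} {t P : ℤ}
    (h : HE c (t ^ 2 + 4 * P) (fun f => gx (7 * res f.A l1) (7 * res f.A l2))
      (fun f => ge (f.ix l1) (f.ix l2)))
    {v : WL} (hR : RelW (chi c.q c.p c.T) v t P = 0) {p tt : ℕ} (hp : c.p = p)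
    (ht : (tt : ZMod p) = t) :
    ck2 p gx ge v (trc l1 v (f0 t P)) (trc l2 v (f0 t P)) tt = true := by
  subst hp
  obtain ⟨S, hS, hk⟩ := R2_eq h v (f0_disc t P) (Nat.mul 2 tt) 0
  unfold ck2
  rw [hk]
  apply beq_mod
  rw [hS, nmul, Nat.cast_mul, ht, Nat.cast_zero, zero_add]
  exact rel_two hR

theorem ck3_sound {gx ge : ℕ → ℕ → ℕ → ℕ} {l1 l2 l3 : ℕ} {t P : ℤ}
    (h : HE c (t ^ 2 + 4 * P) (fun f => gx (7 * res f.A l1) (7 * res f.A l2) (7 * res f.A l3))
      (fun f => ge (f.ix l1) (f.ix l2) (f.ix l3)))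
    {v : WL} (hR : RelW (chi c.q c.p c.T) v t P = 0) {p tt : ℕ} (hp : c.p = p)
    (ht : (tt : ZMod p) = t ∨ SY (chi c.q c.p c.T) 1 (t : ZMod c.q) (P : ZMod c.q) = 0) :
    ck3 p gx ge v (trc l1 v (f0 t P)) (trc l2 v (f0 t P)) (trc l3 v (f0 t P)) tt = true := by
  subst hp
  obtain ⟨S, hS, hk⟩ := R3_eq h v (f0_disc t P) (Nat.mul 2 tt) 0
  unfold ck3
  rw [hk]
  apply beq_mod
  rw [hS, nmul, Nat.cast_mul, Nat.cast_zero, zero_add]
  rcases ht with ht | ht
  · rw [ht]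
    exact rel_two hR
  · have h1 := rel_two hR
    rw [WS_f0, ht, mul_zero] at h1
    rw [WS_f0, ht, mul_zero]
    exact h1

theorem ck0_sound {X0 E0 : ℕ → ℕ} {l1 l2 : ℕ} {t P : ℤ}
    (h : HE c (t ^ 2 + 4 * P) (fun f => sl1 (X0 (7 * res f.A l1)) (7 * res f.A l2))
      (fun f => sl1 (E0 (f.ix l1)) (f.ix l2)))
    {v : WL} (hR : RelW (chi c.q c.p c.T) v t P = 0) {p : ℕ} (hp : c.p = p) :
    ck0 p v (mp X0 E0 (trc l1 v (f0 t P))) (trc l2 v (f0 t P)) = true := by
  subst hp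
  obtain ⟨S, hS, hk⟩ := R0_eq h v (f0_disc t P) (2 * t : ZMod c.p) 0
  unfold ck0
  rw [hk]
  apply beq_mod
  rw [hS, Nat.cast_zero, mul_zero, zero_add]
  exact rel_two hR

theorem co2_sound {gx ge : ℕ → ℕ → ℕ} {l1 l2 : ℕ} {t P : ℤ}
    (h : HE c (t ^ 2 + 4 * P) (fun f => gx (7 * res f.A l1) (7 * res f.A l2))
      (fun f => ge (f.ix l1) (f.ix l2)))
    {v : WL} (hR : RelW (chi c.q c.p c.T) v t P = 0) {g : ℕ → ℕ → Bool}
    (hg : co2 gx ge v (trc l1 v (f0 t P)) (trc l2 v (f0 t P)) g = true) :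
    ∃ K c' : ℕ, (K : ZMod c.p) + c' * t = 0 ∧ g K c' = true := by
  obtain ⟨S, hS, hk⟩ := R2_eq h v (f0_disc t P) 0 0
  unfold co2 at hg
  rw [hk] at hg
  refine ⟨S, 2 * (ge ((f0 t P).ix l1) ((f0 t P).ix l2) / 128), ?_, ?_⟩
  · have h1 := h.h0 t P (f0_disc t P)
    rw [Nat.cast_mul, h1, hS, Nat.cast_zero, zero_add, WS_f0, zero_mul, add_zero]
    unfold RelW at hR
    push_cast
    linear_combination 2 * hR
  · cases v with
    | nil =>
      have e : (TL.hd (trc l1 .nil (f0 t P)) (fun _ i _ => TL.hd (trc l2 .nil (f0 t P))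
        (fun _ i' _ => force (Nat.mul 2 (Nat.div (ge i i') 128)) (fun c => g S c)))) =
        force (Nat.mul 2 (Nat.div (ge ((f0 t P).ix l1) ((f0 t P).ix l2)) 128))
          (fun c => g S c) := rfl
      rw [e, force_eq] at hg
      exact hg
    | cons a v =>
      have e : (TL.hd (trc l1 (.cons a v) (f0 t P)) (fun _ i _ =>
        TL.hd (trc l2 (.cons a v) (f0 t P))
        (fun _ i' _ => force (Nat.mul 2 (Nat.div (ge i i') 128)) (fun c => g S c)))) =
        force (Nat.mul 2 (Nat.div (ge ((f0 t P).ix l1) ((f0 t P).ix l2)) 128))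
          (fun c => g S c) := rfl
      rw [e, force_eq] at hg
      exact hg

theorem co3_sound {gx ge : ℕ → ℕ → ℕ → ℕ} {l1 l2 l3 : ℕ} {t P : ℤ}
    (h : HE c (t ^ 2 + 4 * P) (fun f => gx (7 * res f.A l1) (7 * res f.A l2) (7 * res f.A l3))
      (fun f => ge (f.ix l1) (f.ix l2) (f.ix l3)))
    {v : WL} (hR : RelW (chi c.q c.p c.T) v t P = 0) {g : ℕ → ℕ → Bool}
    (hg : co3 gx ge v (trc l1 v (f0 t P)) (trc l2 v (f0 t P)) (trc l3 v (f0 t P)) g = true) :
    ∃ K c' : ℕ, (K : ZMod c.p) + c' * t = 0 ∧ g K c' = true := by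
  obtain ⟨S, hS, hk⟩ := R3_eq h v (f0_disc t P) 0 0
  unfold co3 at hg
  rw [hk] at hg
  refine ⟨S, 2 * (ge ((f0 t P).ix l1) ((f0 t P).ix l2) ((f0 t P).ix l3) / 128), ?_, ?_⟩
  · have h1 := h.h0 t P (f0_disc t P)
    rw [Nat.cast_mul, h1, hS, Nat.cast_zero, zero_add, WS_f0, zero_mul, add_zero]
    unfold RelW at hR
    push_cast
    linear_combination 2 * hR
  · cases v with
    | nil =>
      have e : (TL.hd (trc l1 .nil (f0 t P)) (fun _ i _ => TL.hd (trc l2 .nil (f0 t P))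
        (fun _ i' _ => TL.hd (trc l3 .nil (f0 t P)) (fun _ i2 _ =>
        force (Nat.mul 2 (Nat.div (ge i i' i2) 128)) (fun c => g S c))))) =
        force (Nat.mul 2 (Nat.div (ge ((f0 t P).ix l1) ((f0 t P).ix l2) ((f0 t P).ix l3)) 128))
          (fun c => g S c) := rfl
      rw [e, force_eq] at hg
      exact hg
    | cons a v =>
      have e : (TL.hd (trc l1 (.cons a v) (f0 t P)) (fun _ i _ =>
        TL.hd (trc l2 (.cons a v) (f0 t P))
        (fun _ i' _ => TL.hd (trc l3 (.cons a v) (f0 t P)) (fun _ i2 _ =>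
        force (Nat.mul 2 (Nat.div (ge i i' i2) 128)) (fun c => g S c))))) =
        force (Nat.mul 2 (Nat.div (ge ((f0 t P).ix l1) ((f0 t P).ix l2) ((f0 t P).ix l3)) 128))
          (fun c => g S c) := rfl
      rw [e, force_eq] at hg
      exact hg

theorem ln_sound {p K c' tt : ℕ} {t : ℤ} (h : (K : ZMod p) + c' * t = 0)
    (ht : (tt : ZMod p) = t) : ln p K c' tt = true := by
  unfold ln
  apply beq_mod
  rw [nadd, nmul, Nat.cast_add, Nat.cast_mul, ht]
  exact h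

end sums

end Pool.Agent.N911
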