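import Pool.Agent.N911.U5

/-! Soundness of the residue search for words: the whole search. -/

set_option maxRecDepth 100000

namespace Pool.Agent.N911

open H419R2 Finset

/-- what is used about a word and its parameters -/
structure SysW (v : WL) (t P : ℤ) (U x y : ℕ) : Prop where
  base : Base (t ^ 2 + 4 * P)
  lin : LinW t P U x y
  rel : ∀ c : CD, c.OK → c.q ∣ M1n → c.p ∣ M1n → ∀ _ : NeZero c.q,
    RelW (chi c.q c.p c.T) v t P = 0

theorem iq9 : chkIq 9 Q9 = true := by decide +kernel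
theorem ci9 : chkI 9 I9 = true := by decide +kernel
theorem iq43 : chkIq 43 Q43 = true := by decide +kernel
theorem ci43 : chkI 43 I43 = true := by decide +kernel

theorem m3 : (3 : ℕ) ∈ LP := by simp [LP]
theorem m5 : (5 : ℕ) ∈ LP := by simp [LP]
theorem m7 : (7 : ℕ) ∈ LP := by simp [LP]
theorem m13 : (13 : ℕ) ∈ LP := by simp [LP]
theorem m19 : (19 : ℕ) ∈ LP := by simp [LP]
theorem m37 : (37 : ℕ) ∈ LP := by simp [LP]
theorem m43 : (43 : ℕ) ∈ LP := by simp [LP]
theorem m73 : (73 : ℕ) ∈ LP := by simp [LP]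

theorem not_sq9 {D : ℤ} (h : ¬ IsSquare ((D : ℤ) : ZMod 3)) : ¬ IsSquare ((D : ℤ) : ZMod 9) := by
  rintro ⟨r, hr⟩
  apply h
  refine ⟨ZMod.castHom (show 3 ∣ 9 by norm_num) (ZMod 3) r, ?_⟩
  rw [← map_mul, ← hr]
  simp

instance (c : CD) [h : Fact (0 < c.q)] : NeZero c.q := ⟨h.out.ne'⟩

section he

variable {D : ℤ} (H : Base D)

include H

theorem he_148_7 [NeZero c148_7.q] : HE c148_7 D
    (fun f => sl1 (sl 4 X148_7 (7 * res f.A 37)) (7 * res f.A 4))
    (fun f => sl1 (sl 16 E148_7 (f.ix 37)) (f.ix 4)) :=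
  HE_of c148_7_ok (by decide +kernel) H (fun f _ => chv_148_7 f.A)
    (fun f hf => tab_148_7 (H.vv hf m37) (H.v4 hf))

theorem he_148_19 [NeZero c148_19.q] : HE c148_19 D
    (fun f => sl1 (sl 4 X148_19 (7 * res f.A 37)) (7 * res f.A 4))
    (fun f => sl1 (sl 16 E148_19 (f.ix 37)) (f.ix 4)) :=
  HE_of c148_19_ok (by decide +kernel) H (fun f _ => chv_148_19 f.A)
    (fun f hf => tab_148_19 (H.vv hf m37) (H.v4 hf))

theorem he_259_2 [NeZero c259_19_2.q] : HE c259_19_2 D
    (fun f => sl1 (sl 7 X259_2 (7 * res f.A 37)) (7 * res f.A 7))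
    (fun f => sl1 (sl 49 E259_2 (f.ix 37)) (f.ix 7)) :=
  HE_of c259_19_2_ok (by decide +kernel) H (fun f _ => chv_259_2 f.A)
    (fun f hf => tab_259_2 (H.vv hf m37) (H.vv hf m7))

theorem he_259_0 [NeZero c259_19_0.q] : HE c259_19_0 D
    (fun f => x259_0 (7 * res f.A 37) (7 * res f.A 7))
    (fun f => e259_0 (f.ix 37) (f.ix 7)) :=
  HE_of c259_19_0_ok (by decide +kernel) H (fun f _ => chv_259_0 f.A)
    (fun f hf => tab_259_0 (H.vv hf m37) (H.vv hf m7))

theorem he_259_1 [NeZero c259_19_1.q] : HE c259_19_1 D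
    (fun f => x259_1 (7 * res f.A 37) (7 * res f.A 7))
    (fun f => e259_1 (f.ix 37) (f.ix 7)) :=
  HE_of c259_19_1_ok (by decide +kernel) H (fun f _ => chv_259_1 f.A)
    (fun f hf => tab_259_1 (H.vv hf m37) (H.vv hf m7))

theorem he_133_37 [NeZero c133_37.q] : HE c133_37 D
    (fun f => x133_37 (7 * res f.A 7) (7 * res f.A 19))
    (fun f => e133_37 (f.ix 7) (f.ix 19)) :=
  HE_of c133_37_ok (by decide +kernel) H (fun f _ => chv_133_37 f.A)
    (fun f hf => tab_133_37 (H.vv hf m7) (H.vv hf m19))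

theorem he_111_0 [NeZero c111_19_0.q] : HE c111_19_0 D
    (fun f => x111_0 (7 * res f.A 37) (7 * res f.A 3))
    (fun f => e111_0 (f.ix 37) (f.ix 3)) :=
  HE_of c111_19_0_ok (by decide +kernel) H (fun f _ => chv_111_0 f.A)
    (fun f hf => tab_111_0 (H.vv hf m37) (H.vv hf m3))

theorem he_111_1 [NeZero c111_19_1.q] : HE c111_19_1 D
    (fun f => x111_1 (7 * res f.A 37) (7 * res f.A 3))
    (fun f => e111_1 (f.ix 37) (f.ix 3)) :=
  HE_of c111_19_1_ok (by decide +kernel) H (fun f _ => chv_111_1 f.A)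
    (fun f hf => tab_111_1 (H.vv hf m37) (H.vv hf m3))

theorem he_228 [NeZero c228_7.q] : HE c228_7 D
    (fun f => x228 (7 * res f.A 19) (7 * res f.A 3) (7 * res f.A 4))
    (fun f => e228 (f.ix 19) (f.ix 3) (f.ix 4)) :=
  HE_of c228_7_ok (by decide +kernel) H (fun f _ => chv_228 f.A)
    (fun f hf => tab_228 (H.vv hf m19) (H.vv hf m3) (H.v4 hf))

theorem he_140 [NeZero c140_13.q] : HE c140_13 D
    (fun f => x140 (7 * res f.A 7) (7 * res f.A 4) (7 * res f.A 5))
    (fun f => e140 (f.ix 7) (f.ix 4) (f.ix 5)) :=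
  HE_of c140_13_ok (by decide +kernel) H (fun f _ => chv_140 f.A)
    (fun f hf => tab_140 (H.vv hf m7) (H.v4 hf) (H.vv hf m5))

theorem he_95 [NeZero c95_13.q] : HE c95_13 D
    (fun f => x95 (7 * res f.A 19) (7 * res f.A 5))
    (fun f => e95 (f.ix 19) (f.ix 5)) :=
  HE_of c95_13_ok (by decide +kernel) H (fun f _ => chv_95 f.A)
    (fun f hf => tab_95 (H.vv hf m19) (H.vv hf m5))

theorem he_105 [NeZero c105_13.q] : HE c105_13 D
    (fun f => x105 (7 * res f.A 7) (7 * res f.A 3) (7 * res f.A 5))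
    (fun f => e105 (f.ix 7) (f.ix 3) (f.ix 5)) :=
  HE_of c105_13_ok (by decide +kernel) H (fun f _ => chv_105 f.A)
    (fun f hf => tab_105 (H.vv hf m7) (H.vv hf m3) (H.vv hf m5))

theorem he_185 [NeZero c185_13.q] : HE c185_13 D
    (fun f => x185 (7 * res f.A 37) (7 * res f.A 5))
    (fun f => e185 (f.ix 37) (f.ix 5)) :=
  HE_of c185_13_ok (by decide +kernel) H (fun f _ => chv_185 f.A)
    (fun f hf => tab_185 (H.vv hf m37) (H.vv hf m5))

theorem he_133_13 [NeZero c133_13.q] : HE c133_13 D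
    (fun f => x133_13 (7 * res f.A 7) (7 * res f.A 19))
    (fun f => e133_13 (f.ix 7) (f.ix 19)) :=
  HE_of c133_13_ok (by decide +kernel) H (fun f _ => chv_133_13 f.A)
    (fun f hf => tab_133_13 (H.vv hf m7) (H.vv hf m19))

theorem he_91 [NeZero c91_37.q] : HE c91_37 D
    (fun f => x91 (7 * res f.A 7) (7 * res f.A 13))
    (fun f => e91 (f.ix 7) (f.ix 13)) :=
  HE_of c91_37_ok (by decide +kernel) H (fun f _ => chv_91 f.A)
    (fun f hf => tab_91 (H.vv hf m7) (H.vv hf m13))

theorem he_133_73 [NeZero c133_73.q] : HE c133_73 D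
    (fun f => x133_73 c133_73 (7 * res f.A 7) (7 * res f.A 19))
    (fun f => e133_73 c133_73 (f.ix 7) (f.ix 19)) :=
  HE_of c133_73_ok (by decide +kernel) H
    (fun f _ => chD_sound (l1 := 7) (e1 := 57) (l2 := 19) (e2 := 77) (by norm_num) (by norm_num)
      (by decide +kernel) f.A)
    (fun f _ => evD_sound c133_73_ok (l1 := 7) (e1 := 57) (l2 := 19) (e2 := 77) (by norm_num)
      (by norm_num) (by decide +kernel) f.nB f.nC)

theorem he_333 [NeZero c333_43.q] : HE c333_43 D
    (fun f => x333 c333_43 (7 * res f.A 9) (7 * res f.A 37))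
    (fun f => e333 c333_43 (f.ix 9) (f.ix 37)) :=
  HE_of c333_43_ok (by decide +kernel) H
    (fun f _ => chD_sound (l1 := 9) (e1 := 37) (l2 := 37) (e2 := 297) (by norm_num) (by norm_num)
      (by decide +kernel) f.A)
    (fun f _ => evD_sound c333_43_ok (l1 := 9) (e1 := 37) (l2 := 37) (e2 := 297) (by norm_num)
      (by norm_num) (by decide +kernel) f.nB f.nC)

end he

section stages

variable {v : WL} {t P : ℤ} {U x y : ℕ} (S : SysW v t P U x y)

include S

theorem w73_sound (h : w73 c133_73 U x y v (trc 7 v (f0 t P)) (trc 19 v (f0 t P)) = true) :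
    False := by
  have i1 : NeZero c133_73.q := ⟨by decide +kernel⟩
  unfold w73 at h
  obtain ⟨K, c', e, h⟩ := co2_sound (he_133_73 S.base)
    (S.rel c133_73 c133_73_ok (by decide +kernel) (by decide +kernel) i1) h
  have h1 := enW_sound S.base S.lin m73 (by norm_num) ci73 iq73 v h
  have h2 := imp_true h1 (ln_sound e (res_cast' t (by norm_num)))
  exact absurd h2 (by simp)

theorem w43_sound (h : w43 c333_43 U x y v (res t 3) (trc 37 v (f0 t P)) = true) :
    False := by
  have i1 : NeZero c333_43.q := ⟨by decide +kernel⟩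
  unfold w43 at h
  have h1 := enN_sound S.base S.lin (l := 9) (by norm_num) (by decide +kernel)
    (not_sq9 (S.base.nsq 3 m3)) ci9 iq9 v h
  have h2 := imp_true h1 (by
    have : Nat.mod (res t 9) 3 = res t 3 := res_mod t (by norm_num) (by norm_num) (by norm_num)
    rw [this]
    exact Nat.beq_refl _)
  obtain ⟨K, c', e, h⟩ := co2_sound (he_333 S.base)
    (S.rel c333_43 c333_43_ok (by decide +kernel) (by decide +kernel) i1) h2
  have h1 := enW_sound S.base S.lin m43 (by norm_num) ci43 iq43 v h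
  have h2 := imp_true h1 (ln_sound e (res_cast' t (by norm_num)))
  exact absurd h2 (by simp)

theorem w13_sound (h : w13 c133_73 c333_43 U x y v (res t 37) (res t 3) (trc 37 v (f0 t P))
    (trc 7 v (f0 t P)) (trc 19 v (f0 t P)) (trc 3 v (f0 t P)) (trc 5 v (f0 t P)) = true) :
    False := by
  have i1 : NeZero c95_13.q := ⟨by decide +kernel⟩
  have i2 : NeZero c105_13.q := ⟨by decide +kernel⟩
  have i3 : NeZero c185_13.q := ⟨by decide +kernel⟩
  have i4 : NeZero c133_13.q := ⟨by decide +kernel⟩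
  have i5 : NeZero c91_37.q := ⟨by decide +kernel⟩
  unfold w13 at h
  obtain ⟨K, c', e, h⟩ := co2_sound (he_95 S.base)
    (S.rel c95_13 c95_13_ok (by decide +kernel) (by decide +kernel) i1) h
  obtain ⟨K1, c1, e1, h⟩ := co3_sound (he_105 S.base)
    (S.rel c105_13 c105_13_ok (by decide +kernel) (by decide +kernel) i2) h
  obtain ⟨K2, c2, e2, h⟩ := co2_sound (he_185 S.base)
    (S.rel c185_13 c185_13_ok (by decide +kernel) (by decide +kernel) i3) h
  obtain ⟨K3, c3, e3, h⟩ := co2_sound (he_133_13 S.base)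
    (S.rel c133_13 c133_13_ok (by decide +kernel) (by decide +kernel) i4) h
  have h1 := enW_sound S.base S.lin m13 (by norm_num) ci13 iq13 v h
  have ht := res_cast' t (show 0 < 13 by norm_num)
  have h2 := imp_true (imp_true (imp_true (imp_true h1 (ln_sound e ht)) (ln_sound e1 ht))
    (ln_sound e2 ht)) (ln_sound e3 ht)
  have h3 := imp_true h2 (ck2_sound (he_91 S.base)
    (S.rel c91_37 c91_37_ok (by decide +kernel) (by decide +kernel) i5) rfl
    (res_cast' t (show 0 < 37 by norm_num)))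
  cases hb : w73 c133_73 U x y v (trc 7 v (f0 t P)) (trc 19 v (f0 t P)) with
  | true => exact w73_sound S hb
  | false =>
    rw [hb] at h3
    exact w43_sound S h3

theorem w3_sound {S4 : SL} (hS4 : SL.Mem (trc 4 v (f0 t P)) S4)
    (h : w3 c133_73 c333_43 U x y v (res t 37) S4 (trc 37 v (f0 t P))
      (mp (sl 4 X148_7) (sl 16 E148_7) (trc 37 v (f0 t P)))
      (mp (sl 4 X148_19) (sl 16 E148_19) (trc 37 v (f0 t P)))
      (trc 7 v (f0 t P)) (res t 19) (trc 19 v (f0 t P)) = true) : False := by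
  have i1 : NeZero c111_19_0.q := ⟨by decide +kernel⟩
  have i2 : NeZero c111_19_1.q := ⟨by decide +kernel⟩
  have i3 : NeZero c148_7.q := ⟨by decide +kernel⟩
  have i4 : NeZero c148_19.q := ⟨by decide +kernel⟩
  have i5 : NeZero c228_7.q := ⟨by decide +kernel⟩
  have i6 : NeZero c140_13.q := ⟨by decide +kernel⟩
  unfold w3 at h
  have h1 := enW_sound S.base S.lin m3 (by norm_num) ci3 iq3 v h
  have ht := res_cast' t (show 0 < 19 by norm_num)
  have h2 := imp_true h1 (ck2_sound (he_111_0 S.base)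
    (S.rel c111_19_0 c111_19_0_ok (by decide +kernel) (by decide +kernel) i1) rfl ht)
  have h3 := imp_true h2 (ck2_sound (he_111_1 S.base)
    (S.rel c111_19_1 c111_19_1_ok (by decide +kernel) (by decide +kernel) i2) rfl ht)
  have h4 := SL.all_mem h3 hS4
  have h5 := imp_true h4 (ck0_sound (he_148_7 S.base)
    (S.rel c148_7 c148_7_ok (by decide +kernel) (by decide +kernel) i3) rfl)
  have h6 := imp_true h5 (ck0_sound (he_148_19 S.base)
    (S.rel c148_19 c148_19_ok (by decide +kernel) (by decide +kernel) i4) rfl)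
  have z1 : SY (chi c228_7.q c228_7.p c228_7.T) 1 (t : ZMod c228_7.q) (P : ZMod c228_7.q) = 0 := by
    have := (he_228 S.base).h0 t P (f0_disc t P)
    rw [← this]
    have e : e228 ((f0 t P).ix 19) ((f0 t P).ix 3) ((f0 t P).ix 4) / 128 = 0 :=
      Nat.div_eq_of_lt (sl1_lt _ _)
    rw [e]; simp
  have z2 : SY (chi c140_13.q c140_13.p c140_13.T) 1 (t : ZMod c140_13.q) (P : ZMod c140_13.q) =
      0 := by
    have := (he_140 S.base).h0 t P (f0_disc t P)
    rw [← this]
    have e : e140 ((f0 t P).ix 7) ((f0 t P).ix 4) ((f0 t P).ix 5) / 128 = 0 :=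
      Nat.div_eq_of_lt (sl1_lt _ _)
    rw [e]; simp
  have h7 := imp_true h6 (ck3_sound (he_228 S.base)
    (S.rel c228_7 c228_7_ok (by decide +kernel) (by decide +kernel) i5) rfl (Or.inr z1))
  have h8 := enW_sound S.base S.lin m5 (by norm_num) ci5 iq5 v h7
  have h9 := imp_true h8 (ck3_sound (he_140 S.base)
    (S.rel c140_13 c140_13_ok (by decide +kernel) (by decide +kernel) i6) rfl (Or.inr z2))
  exact w13_sound S h9

theorem w7_sound {S4 : SL} (hS4 : SL.Mem (trc 4 v (f0 t P)) S4)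
    (h : w7 c133_73 c333_43 U x y v (res t 37) S4 (trc 37 v (f0 t P))
      (mp (sl 4 X148_7) (sl 16 E148_7) (trc 37 v (f0 t P)))
      (mp (sl 4 X148_19) (sl 16 E148_19) (trc 37 v (f0 t P))) = true) : False := by
  have i1 : NeZero c259_19_0.q := ⟨by decide +kernel⟩
  have i2 : NeZero c259_19_1.q := ⟨by decide +kernel⟩
  have i3 : NeZero c259_19_2.q := ⟨by decide +kernel⟩
  have i4 : NeZero c133_37.q := ⟨by decide +kernel⟩
  unfold w7 at h
  rw [mapT_eq] at h
  have h1 := enW_sound S.base S.lin m7 (by norm_num) ci7 iq7 v h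
  have h2 := imp_true h1 (ck0_sound (he_259_2 S.base)
    (S.rel c259_19_2 c259_19_2_ok (by decide +kernel) (by decide +kernel) i3) rfl)
  obtain ⟨K, c', e, h3⟩ := co2_sound (he_259_0 S.base)
    (S.rel c259_19_0 c259_19_0_ok (by decide +kernel) (by decide +kernel) i1) h2
  obtain ⟨K1, c1, e1, h4⟩ := co2_sound (he_259_1 S.base)
    (S.rel c259_19_1 c259_19_1_ok (by decide +kernel) (by decide +kernel) i2) h3
  have h5 := enW_sound S.base S.lin m19 (by norm_num) ci19 iq19 v h4
  have ht := res_cast' t (show 0 < 19 by norm_num)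
  have h6 := imp_true (imp_true h5 (ln_sound e ht)) (ln_sound e1 ht)
  have h7 := imp_true h6 (ck2_sound (he_133_37 S.base)
    (S.rel c133_37 c133_37_ok (by decide +kernel) (by decide +kernel) i4) rfl
    (res_cast' t (show 0 < 37 by norm_num)))
  exact w3_sound S hS4 h7

/-- the residue search is sound -/
theorem wOK_sound (h : wOK c133_73 c333_43 U x y v = true) : False := by
  have i3 : NeZero c148_7.q := ⟨by decide +kernel⟩
  have i4 : NeZero c148_19.q := ⟨by decide +kernel⟩
  unfold wOK at h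
  obtain ⟨S4, hS4, h⟩ := cl4_sound S.base S.lin v _ h
  have h1 := enW_sound S.base S.lin m37 (by norm_num) ci37 iq37 v h
  rw [mapT_eq, mapT_eq] at h1
  generalize hb : S4.all (fun T4 => imp (ck0 7 v
      (mp (sl 4 X148_7) (sl 16 E148_7) (trc 37 v (f0 t P))) T4) (imp (ck0 19 v
      (mp (sl 4 X148_19) (sl 16 E148_19) (trc 37 v (f0 t P))) T4) false)) = bb at h1
  cases bb with
  | true =>
    have h4 := SL.all_mem hb hS4
    have h5 := imp_true h4 (ck0_sound (he_148_7 S.base)
      (S.rel c148_7 c148_7_ok (by decide +kernel) (by decide +kernel) i3) rfl)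
    have h6 := imp_true h5 (ck0_sound (he_148_19 S.base)
      (S.rel c148_19 c148_19_ok (by decide +kernel) (by decide +kernel) i4) rfl)
    exact absurd h6 (by simp)
  | false => exact w7_sound S hS4 h1

end stages

end Pool.Agent.N911
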