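import Pool.Agent.N911.U6
import Pool.Agent.N911.U8
import Pool.Agent.H419R2.A3

/-! From a solution of the Pell equation to a word; the contradiction. -/

set_option maxRecDepth 100000

namespace Pool.Agent.N911

open H419R2 Finset

/-- a solution of the equation gives the parameters -/
theorem par_of {d T U x : ℕ} (hT : T * T + 4 = d * (U * U)) (hU : 0 < U) (hx : x < U)
    (h1 : U ∣ x ^ 2 + 1) (h2 : (U : ℤ) ∣ (T : ℤ) - 2 * x) (hd4 : d % 4 = 1) (hd1 : 1 < d)
    (hodd : ∀ t : ℤ, (T : ℤ) - 2 * x = U * t → t % 2 = 1) :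
    ∃ y t P : ℕ, U * y = x ^ 2 + 1 ∧ t % 2 = 1 ∧ d = t * t + 4 * P ∧ P * U = t * x + y := by
  have hd5 : 5 ≤ d := by omega
  obtain ⟨y, hy⟩ := h1
  obtain ⟨t, ht⟩ := h2
  have htodd := hodd t ht
  have hT' : (T : ℤ) * T + 4 = d * (U * U) := by exact_mod_cast hT
  have hU' : (0 : ℤ) < U := by exact_mod_cast hU
  have hx' : (x : ℤ) + 1 ≤ U := by exact_mod_cast hx
  have hd5' : (5 : ℤ) ≤ d := by exact_mod_cast hd5
  have hx0 : (0 : ℤ) ≤ x := by positivity
  have hT0 : (0 : ℤ) ≤ T := by positivity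
  have hlt : 2 * (x : ℤ) < T := by
    by_contra hc
    push Not at hc
    have h3 : (T : ℤ) * T ≤ (2 * x) * (2 * x) := mul_le_mul hc hc hT0 (by positivity)
    have h4 : (x : ℤ) * x ≤ (U - 1) * (U - 1) :=
      mul_le_mul (by linarith) (by linarith) hx0 (by linarith)
    have h5 : 5 * ((U : ℤ) * U) ≤ d * (U * U) := mul_le_mul_of_nonneg_right hd5' (by positivity)
    nlinarith
  have ht0 : 0 < t := by
    by_contra hc
    push Not at hc
    have : (U : ℤ) * t ≤ 0 := mul_nonpos_of_nonneg_of_nonpos hU'.le hc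
    linarith
  obtain ⟨t', rfl⟩ := Int.eq_ofNat_of_zero_le ht0.le
  have hy' : (x : ℤ) ^ 2 + 1 = U * y := by exact_mod_cast hy
  -- the key equation
  have key : ((d : ℤ) - t' * t') * U = 4 * (t' * x + y) := by
    have h3 : (U : ℤ) * (((d : ℤ) - t' * t') * U) = U * (4 * (t' * x + y)) := by
      have e : (T : ℤ) = 2 * x + U * t' := by linarith
      rw [e] at hT'
      linear_combination -hT' + 4 * hy'
    exact mul_left_cancel₀ hU'.ne' h3
  have hd4' : (d : ℤ) % 4 = 1 := by exact_mod_cast hd4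
  obtain ⟨s, hs⟩ : ∃ s, (t' : ℤ) = 2 * s + 1 := ⟨(t' : ℤ) / 2, by omega⟩
  have hdiv : ∃ P : ℤ, (d : ℤ) - t' * t' = 4 * P := by
    refine ⟨(d : ℤ) / 4 - s * s - s, ?_⟩
    rw [hs]
    have : (d : ℤ) = 4 * ((d : ℤ) / 4) + 1 := by omega
    linear_combination this
  obtain ⟨P, hP⟩ := hdiv
  rw [hP] at key
  have key' : P * U = t' * x + y := by linarith
  have hP0 : 0 ≤ P := by
    by_contra hc
    push Not at hc
    have h3 : P * U < 0 := mul_neg_of_neg_of_pos hc hU'
    have h4 : (0 : ℤ) ≤ (t' : ℤ) * x + y := by positivity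
    linarith
  obtain ⟨P', rfl⟩ := Int.eq_ofNat_of_zero_le hP0
  refine ⟨y, t', P', hy.symm, by omega, ?_, ?_⟩
  · have : (d : ℤ) = ((t' * t' + 4 * P' : ℕ) : ℤ) := by push_cast; linarith
    exact_mod_cast this
  · exact_mod_cast key'

/-- every solution has parameters -/
theorem exists_par {d T U : ℕ} (hT : T * T + 4 = d * (U * U)) (hU : 0 < U) (hd1 : 1 < d)
    (hdo : d % 2 = 1) :
    ∃ x y t P : ℕ, x < U ∧ U * y = x ^ 2 + 1 ∧ t % 2 = 1 ∧ d = t * t + 4 * P ∧
      P * U = t * x + y := by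
  rcases Nat.mod_two_eq_zero_or_one U with hUe | hUo
  · -- `U` even
    obtain ⟨V, rfl⟩ : ∃ V, U = 2 * V := ⟨U / 2, by omega⟩
    have hTe : T % 2 = 0 := by
      rcases Nat.mod_two_eq_zero_or_one T with h | h
      · exact h
      · exfalso
        obtain ⟨k, rfl⟩ : ∃ k, T = 2 * k + 1 := ⟨T / 2, by omega⟩
        have e : (2 * k + 1) * (2 * k + 1) + 4 = 2 * (2 * (k * k + k) + 2) + 1 := by ring
        have e2 : d * (2 * V * (2 * V)) = 2 * (2 * (d * (V * V))) := by ring
        rw [e, e2] at hT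
        omega
    obtain ⟨S, rfl⟩ : ∃ S, T = 2 * S := ⟨T / 2, by omega⟩
    have hS : S * S + 1 = d * (V * V) := by
      have e : 2 * S * (2 * S) + 4 = 4 * (S * S + 1) := by ring
      have e2 : d * (2 * V * (2 * V)) = 4 * (d * (V * V)) := by ring
      rw [e, e2] at hT
      omega
    have hVo : V % 2 = 1 := by
      rcases Nat.mod_two_eq_zero_or_one V with h | h
      · exfalso
        obtain ⟨k, rfl⟩ : ∃ k, V = 2 * k := ⟨V / 2, by omega⟩
        have e2 : d * (2 * k * (2 * k)) = 4 * (d * (k * k)) := by ring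
        rw [e2] at hS
        rcases Nat.mod_two_eq_zero_or_one S with h' | h'
        · obtain ⟨j, rfl⟩ : ∃ j, S = 2 * j := ⟨S / 2, by omega⟩
          have e : 2 * j * (2 * j) + 1 = 4 * (j * j) + 1 := by ring
          rw [e] at hS
          omega
        · obtain ⟨j, rfl⟩ : ∃ j, S = 2 * j + 1 := ⟨S / 2, by omega⟩
          have e : (2 * j + 1) * (2 * j + 1) + 1 = 4 * (j * j + j) + 2 := by ring
          rw [e] at hS
          omega
      · exact h
    have hSe : S % 2 = 0 := by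
      rcases Nat.mod_two_eq_zero_or_one S with h | h
      · exact h
      · exfalso
        obtain ⟨j, rfl⟩ : ∃ j, S = 2 * j + 1 := ⟨S / 2, by omega⟩
        obtain ⟨k, rfl⟩ : ∃ k, V = 2 * k + 1 := ⟨V / 2, by omega⟩
        obtain ⟨i, rfl⟩ : ∃ i, d = 2 * i + 1 := ⟨d / 2, by omega⟩
        have e : (2 * j + 1) * (2 * j + 1) + 1 = 2 * (2 * (j * j + j) + 1) := by ring
        have e2 : (2 * i + 1) * ((2 * k + 1) * (2 * k + 1)) =
          2 * (i * ((2 * k + 1) * (2 * k + 1)) + 2 * (k * k + k)) + 1 := by ring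
        rw [e, e2] at hS
        omega
    have hd4 : d % 4 = 1 := by
      obtain ⟨j, rfl⟩ : ∃ j, S = 2 * j := ⟨S / 2, by omega⟩
      obtain ⟨k, rfl⟩ : ∃ k, V = 2 * k + 1 := ⟨V / 2, by omega⟩
      have e : 2 * j * (2 * j) + 1 = 4 * (j * j) + 1 := by ring
      have e2 : d * ((2 * k + 1) * (2 * k + 1)) = 4 * (d * (k * k + k)) + d := by ring
      rw [e, e2] at hS
      omega
    -- choice of `x`
    obtain ⟨x, hxV, hxo, hxS⟩ : ∃ x, x < 2 * V ∧ x % 2 = 1 ∧ (V : ℤ) ∣ (S : ℤ) - x := by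
      have hr : S % V < V := Nat.mod_lt _ (by omega)
      have hrd : (V : ℤ) ∣ (S : ℤ) - (S % V : ℕ) := by
        refine ⟨((S / V : ℕ) : ℤ), ?_⟩
        have := Nat.mod_add_div S V
        have h' : ((S % V : ℕ) : ℤ) + V * ((S / V : ℕ) : ℤ) = S := by exact_mod_cast this
        linarith
      rcases Nat.mod_two_eq_zero_or_one (S % V) with h | h
      · refine ⟨S % V + V, by omega, by omega, ?_⟩
        have : (S : ℤ) - ((S % V + V : ℕ) : ℤ) = ((S : ℤ) - (S % V : ℕ)) - V := by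
          push_cast; ring
        rw [this]
        exact dvd_sub hrd dvd_rfl
      · exact ⟨S % V, by omega, h, hrd⟩
    have hV0 : 0 < V := by omega
    have hdvd : 2 * V ∣ x ^ 2 + 1 := by
      have h1 : V ∣ x ^ 2 + 1 := by
        have h2 : (V : ℤ) ∣ (x : ℤ) ^ 2 + 1 := by
          have h3 : (S : ℤ) * S + 1 = d * (V * V) := by exact_mod_cast hS
          obtain ⟨k, hk⟩ := hxS
          refine ⟨(d : ℤ) * V - k * (S + x), ?_⟩
          linear_combination h3 - ((S : ℤ) + x) * hk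
        exact_mod_cast h2
      have h2 : 2 ∣ x ^ 2 + 1 := by
        obtain ⟨k, rfl⟩ : ∃ k, x = 2 * k + 1 := ⟨x / 2, by omega⟩
        exact ⟨2 * k ^ 2 + 2 * k + 1, by ring⟩
      have hc : Nat.Coprime 2 V := by
        rw [Nat.coprime_two_left]
        exact Nat.odd_iff.mpr hVo
      exact Nat.Coprime.mul_dvd_of_dvd_of_dvd hc h2 h1
    have hdvd2 : ((2 * V : ℕ) : ℤ) ∣ ((2 * S : ℕ) : ℤ) - 2 * x := by
      obtain ⟨k, hk⟩ := hxS
      refine ⟨k, ?_⟩
      push_cast
      linear_combination 2 * hk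
    obtain ⟨y, t, P, h⟩ := par_of hT hU hxV hdvd hdvd2 hd4 hd1 (by
      intro t ht
      push_cast at ht
      have h3 : (S : ℤ) - x = V * t := by linarith
      rcases Int.emod_two_eq_zero_or_one t with h | h
      · exfalso
        obtain ⟨j, rfl⟩ : ∃ j, t = 2 * j := ⟨t / 2, by omega⟩
        have : (S : ℤ) - x = 2 * (V * j) := by rw [h3]; ring
        omega
      · exact h)
    exact ⟨x, y, t, P, hxV, h⟩
  · -- `U` odd
    have hTo : T % 2 = 1 := by
      rcases Nat.mod_two_eq_zero_or_one T with h | h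
      · exfalso
        obtain ⟨j, rfl⟩ : ∃ j, T = 2 * j := ⟨T / 2, by omega⟩
        obtain ⟨k, rfl⟩ : ∃ k, U = 2 * k + 1 := ⟨U / 2, by omega⟩
        obtain ⟨i, rfl⟩ : ∃ i, d = 2 * i + 1 := ⟨d / 2, by omega⟩
        have e : 2 * j * (2 * j) + 4 = 2 * (2 * (j * j) + 2) := by ring
        have e2 : (2 * i + 1) * ((2 * k + 1) * (2 * k + 1)) =
          2 * (i * ((2 * k + 1) * (2 * k + 1)) + 2 * (k * k + k)) + 1 := by ring
        rw [e, e2] at hT
        omega
      · exact h
    have hd4 : d % 4 = 1 := by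
      obtain ⟨j, rfl⟩ : ∃ j, T = 2 * j + 1 := ⟨T / 2, by omega⟩
      obtain ⟨k, rfl⟩ : ∃ k, U = 2 * k + 1 := ⟨U / 2, by omega⟩
      have e : (2 * j + 1) * (2 * j + 1) + 4 = 4 * (j * j + j + 1) + 1 := by ring
      have e2 : d * ((2 * k + 1) * (2 * k + 1)) = 4 * (d * (k * k + k)) + d := by ring
      rw [e, e2] at hT
      omega
    set x := (T * ((U + 1) / 2)) % U with hxdef
    have hx : x < U := Nat.mod_lt _ hU
    have h2 : (U : ℤ) ∣ (T : ℤ) - 2 * x := by
      have h3 : U * (T * ((U + 1) / 2) / U) + x = T * ((U + 1) / 2) := Nat.div_add_mod _ _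
      have h4 : 2 * ((U + 1) / 2) = U + 1 := by omega
      have h3' : (U : ℤ) * ((T * ((U + 1) / 2) / U : ℕ) : ℤ) + x = T * (((U + 1) / 2 : ℕ) : ℤ) := by
        exact_mod_cast h3
      have h4' : 2 * (((U + 1) / 2 : ℕ) : ℤ) = U + 1 := by exact_mod_cast h4
      refine ⟨2 * ((T * ((U + 1) / 2) / U : ℕ) : ℤ) - T, ?_⟩
      linear_combination (-2 : ℤ) * h3' + (-(T : ℤ)) * h4'
    have h1 : U ∣ x ^ 2 + 1 := by
      have hc : Nat.Coprime U 4 := by
        have : Nat.Coprime U (2 ^ 2) := by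
          apply Nat.Coprime.pow_right
          rw [Nat.coprime_two_right]
          exact Nat.odd_iff.mpr hUo
        exact this
      have h5 : U ∣ 4 * (x ^ 2 + 1) := by
        have h6 : (U : ℤ) ∣ 4 * ((x : ℤ) ^ 2 + 1) := by
          obtain ⟨k, hk⟩ := h2
          have h7 : (T : ℤ) * T + 4 = d * (U * U) := by exact_mod_cast hT
          refine ⟨(d : ℤ) * U - k * (T + 2 * x), ?_⟩
          linear_combination h7 - ((T : ℤ) + 2 * x) * hk
        exact_mod_cast h6
      exact hc.dvd_of_dvd_mul_left h5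
    obtain ⟨y, t, P, h⟩ := par_of hT hU hx h1 h2 hd4 hd1 (by
      intro t ht
      rcases Int.emod_two_eq_zero_or_one t with h | h
      · exfalso
        obtain ⟨j, rfl⟩ : ∃ j, t = 2 * j := ⟨t / 2, by omega⟩
        have : (T : ℤ) - 2 * x = 2 * (U * j) := by rw [ht]; ring
        omega
      · exact h)
    exact ⟨x, y, t, P, hx, h⟩

theorem LP_prime {l : ℕ} (h : l ∈ LP) : l.Prime := by
  unfold LP at h
  simp only [List.mem_cons, List.not_mem_nil, or_false] at h
  rcases h with rfl | rfl | rfl | rfl | rfl | rfl | rfl | rfl <;> norm_num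

theorem LP_le {l : ℕ} (h : l ∈ LP) : l ≤ 73 ∧ l ≠ 2 := by
  unfold LP at h
  simp only [List.mem_cons, List.not_mem_nil, or_false] at h
  rcases h with rfl | rfl | rfl | rfl | rfl | rfl | rfl | rfl <;> norm_num

theorem PW_prime {l : ℕ} (h : l ∈ PW) : l.Prime := by
  unfold PW at h
  simp only [List.mem_cons, List.not_mem_nil, or_false] at h
  rcases h with rfl | rfl | rfl | rfl | rfl | rfl | rfl | rfl | rfl | rfl | rfl | rfl | rfl | rfl <;>
    norm_num

/-- large parameters are impossible -/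
theorem big_false {v : WL} {t P U x y D : ℕ} (G : GoodW v t P D) (hodd : t % 2 = 1)
    (hlin : P * U = t * x + y) (hb : Big v t P)
    (hw : wOK c133_73 c333_43 U x y v = true) : False := by
  have hD := G.hD
  have hDn : D = t * t + 4 * P := by
    have : (D : ℤ) = ((t * t + 4 * P : ℕ) : ℤ) := by rw [hD]; push_cast; ring
    exact_mod_cast this
  have hDbig : 21316 ≤ D := by rw [hDn]; exact hb.1
  have hno : ∀ l : ℕ, l.Prime → l ≤ 73 → ¬ ∃ w0 : ℤ, (l : ℤ) ∣ w0 ^ 2 + t * w0 - P := by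
    intro l hl hl73 hex
    obtain ⟨n, hn1, hn2, hA⟩ := G.split l hl (by
      have h1 : (21316 : ℤ) ≤ D := by exact_mod_cast hDbig
      have h2 : (l : ℤ) ≤ 73 := by exact_mod_cast hl73
      have h3 : (0 : ℤ) ≤ l := by positivity
      nlinarith) hex
    have h4 := hb.2 n hn1 hn2
    rw [hA] at h4
    have h2 : (l : ℤ) ≤ 73 := by exact_mod_cast hl73
    linarith
  have hP2 : (P : ℤ) % 2 = 1 := by
    by_contra hc
    exact hno 2 Nat.prime_two (by norm_num) ⟨0, by
      have : (P : ℤ) % 2 = 0 := by omega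
      push_cast
      omega⟩
  have ht2 : (t : ℤ) % 2 = 1 := by exact_mod_cast hodd
  have hnsq : ∀ l : ℕ, l ∈ LP → ¬ IsSquare ((((t : ℤ) ^ 2 + 4 * P : ℤ)) : ZMod l) := by
    intro l hl hsq
    rw [← hD] at hsq
    exact hno l (LP_prime hl) (LP_le hl).1 (root_of_square (LP_prime hl) (LP_le hl).2 hD hsq)
  have hbase : Base ((t : ℤ) ^ 2 + 4 * P) := by
    refine ⟨?_, hnsq⟩
    obtain ⟨t', ht'⟩ : ∃ k, (t : ℤ) = 2 * k + 1 := ⟨(t : ℤ) / 2, by omega⟩
    obtain ⟨P', hP'⟩ : ∃ k, (P : ℤ) = 2 * k + 1 := ⟨(P : ℤ) / 2, by omega⟩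
    rw [ht', hP']
    rcases Int.emod_two_eq_zero_or_one t' with h | h
    · obtain ⟨j, rfl⟩ : ∃ j, t' = 2 * j := ⟨t' / 2, by omega⟩
      have : (2 * (2 * j) + 1) ^ 2 + 4 * (2 * P' + 1) = 8 * (2 * j ^ 2 + j + P') + 5 := by ring
      omega
    · obtain ⟨j, rfl⟩ : ∃ j, t' = 2 * j + 1 := ⟨t' / 2, by omega⟩
      have : (2 * (2 * j + 1) + 1) ^ 2 + 4 * (2 * P' + 1) =
        8 * (2 * j ^ 2 + 3 * j + 1 + P') + 5 := by ring
      omega
  have hcD : Nat.Coprime M1n D := by
    have h1 : IsCoprime ((D : ℤ)) (M1n : ℤ) := by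
      apply isCoprime_M1
      · have := hbase.d8
        rw [← hD] at this
        omega
      · intro l hl hd
        apply hnsq l hl
        rw [← hD, (ZMod.intCast_zmod_eq_zero_iff_dvd _ _).mpr hd]
        exact ⟨0, by simp⟩
    exact (Nat.isCoprime_iff_coprime.mp h1).symm
  have S : SysW v t P U x y := by
    refine ⟨hbase, ?_, ?_⟩
    · unfold LinW; exact_mod_cast hlin
    · intro c hc h1 h2 _
      have h3 : ¬ (c.p : ℤ) ∣ D := by
        intro h
        have h4 : c.p ∣ D := by exact_mod_cast h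
        have h5 : c.p ∣ 1 := by
          rw [← hcD]
          exact Nat.dvd_gcd h2 h4
        exact hc.pp.one_lt.ne' (Nat.dvd_one.mp h5)
      exact G.rel_mod hP2 hc.pp hc.p2 h3 (Nat.Coprime.coprime_dvd_left h1 hcD) _ (chi_mul hc.mul)
        (chi_neg hc.q1 hc.mul hc.oth) (chi_sum hc.oth)
  exact wOK_sound S hw

/-- one word -/
theorem word_final {v : WL} (hv : v.Pos) {t P U x y D : ℕ} (htr : v.tr = (U, x, y))
    (hU : 0 < U) (hdet : U * y = x ^ 2 + 1) (hlin : P * U = t * x + y) (hodd : t % 2 = 1)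
    (hD : D = t * t + 4 * P) (hsf : Squarefree (D : ℤ))
    {K : Type*} [Field K] [NumberField K] (hK : Module.finrank ℚ K = 2) {z : K}
    (hz : z ^ 2 = ((D : ℤ) : K)) (hcl : NumberField.classNumber K = 1)
    (hmin : ∀ T' U' : ℕ, 0 < U' → T' * T' + 4 = D * (U' * U') → U ≤ U')
    (hsm : smA U x y v = true) (hw : wOK c133_73 c333_43 U x y v = true) : D ∈ List78 := by
  have hDz : (D : ℤ) = (t : ℤ) ^ 2 + 4 * (P : ℤ) := by rw [hD]; push_cast; ring
  have hsym : qs v t (P : ℤ) (v.len + 1) = qs v t (P : ℤ) v.len := by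
    have h1 := end_sym v (f0 t P) (by
      unfold lam f0
      rw [htr]
      have : (P : ℤ) * U = t * x + y := by exact_mod_cast hlin
      simp only
      linarith)
    exact h1
  have mkG : (∀ n, 1 ≤ n → n ≤ v.len → (2 : ℤ) ≤ (fs v (f0 t P) n).A) → GoodW v t P D := by
    intro h
    refine goodW_of_word hv (by omega) hsym ?_ ?_ hDz hsf hodd hK hz hcl
    · intro n hn
      rcases Nat.eq_zero_or_pos n with h0 | h0
      · subst h0; exact one_pos
      · have := h n h0 hn
        unfold qs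
        linarith
    · intro n hn1 hn2 h3
      have := h n hn1 hn2
      unfold qs at h3
      linarith
  rcases smA_sound hsm hU hdet hlin with hc | hb
  · unfold ckt at hc
    rw [Bool.or_eq_true, force_eq, Bool.or_eq_true, Bool.or_eq_true] at hc
    have eD : Nat.add (Nat.mul t t) (Nat.mul 4 P) = D := hD.symm
    rw [eD] at hc
    rcases hc with hc | hc | hc | hc
    · exfalso
      have : t % 2 = 0 := Nat.eq_of_beq_eq_true hc
      omega
    · exact inU_sound hc
    · exfalso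
      unfold witU at hc
      rw [anyL_iff] at hc
      obtain ⟨l, hl, h1⟩ := hc
      have hp := PW_prime hl
      unfold witU1 at h1
      rw [cj_true, cj_true] at h1
      obtain ⟨h2, h3, h4⟩ := h1
      have h2' : 4 * (l * l) ≤ D := Nat.le_of_ble_eq_true h2
      have hq := qW_sound h3
      have G := mkG (by
        intro n hn1 hn2
        obtain ⟨q, h5, h6⟩ := hq n hn1 hn2
        rw [cj_true] at h5
        rw [f0_nat, h6]
        exact_mod_cast Nat.le_of_ble_eq_true h5.1)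
      obtain ⟨w, _, h5⟩ := anyU_true h4
      have h6' : (w * w + t * w) % l = P % l := Nat.eq_of_beq_eq_true h5
      have h7 : (l : ℤ) ∣ (w : ℤ) ^ 2 + t * w - P := by
        have h8 : (w * w + t * w) ≡ P [MOD l] := h6'
        have h9 := (Nat.modEq_iff_dvd.mp h8)
        push_cast at h9
        have : (w : ℤ) ^ 2 + t * w - P = -((P : ℤ) - (w * w + t * w)) := by ring
        rw [this]
        exact (dvd_neg).mpr h9
      obtain ⟨n, hn1, hn2, hA⟩ := G.split l hp (by
        have : (4 * (l * l) : ℤ) ≤ D := by exact_mod_cast h2'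
        linarith) ⟨w, h7⟩
      obtain ⟨q, h8, h9⟩ := hq n hn1 hn2
      rw [cj_true] at h8
      rw [f0_nat, h9] at hA
      have : q = l := by exact_mod_cast hA
      subst this
      simp at h8
    · exfalso
      unfold lessU at hc
      obtain ⟨i, hi, h1⟩ := anyU_true hc
      rw [force_eq, cj_true] at h1
      obtain ⟨h2, h3⟩ := h1
      obtain ⟨j, hj, h4⟩ := anyU_true h3
      rw [force_eq] at h4
      have h2' : (i + 1) + 1 ≤ U := Nat.le_of_ble_eq_true h2
      have h4' : ((i + 1) * t + j) * ((i + 1) * t + j) + 4 = D * ((i + 1) * (i + 1)) :=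
        Nat.eq_of_beq_eq_true h4
      have h5 := hmin _ (i + 1) (by omega) h4'
      omega
  · exfalso
    have G := mkG (by
      intro n hn1 hn2
      have := hb.2 n hn1 hn2
      linarith)
    exact big_false G hodd hlin hb hw

end Pool.Agent.N911
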