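import Pool.Agent.N911.U1

/-! Search functions for even palindromic periods: the last letter of a word is the centre. -/

set_option maxRecDepth 100000

namespace Pool.Agent.N911

open H419R2

/-- weight of a letter: `2` for the last one, `4` for the others -/
noncomputable def lk (l : WL) : ℕ := @WL.rec (fun _ => ℕ) 2 (fun _ _ _ => 4) l

/-- weighted sum over two traces -/
noncomputable def R2e (gx ge : ℕ → ℕ → ℕ) (v : WL) : TL → TL → ℕ → ℕ → (ℕ → Bool) → Bool :=
  @WL.rec (fun _ => TL → TL → ℕ → ℕ → (ℕ → Bool) → Bool)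
    (fun T T' w s k => T.hd (fun q i _ => T'.hd (fun q' i' _ =>
      force (ge i i') (fun e => force (Nat.add s (Nat.mul (gx q q')
        (Nat.mul w (Nat.div e 128)))) k))))
    (fun a l ih T T' w s k => T.hd (fun q i r => T'.hd (fun q' i' r' =>
      force (ge i i') (fun e => force (Nat.add s (Nat.mul (gx q q')
        (Nat.add (Nat.mul 2 (Nat.mod e 128)) (Nat.mul w (Nat.div e 128)))))
        (fun s => ih r r' (Nat.mul (lk l) a) s k))))) v

/-- weighted sum over three traces -/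
noncomputable def R3e (gx ge : ℕ → ℕ → ℕ → ℕ) (v : WL) :
    TL → TL → TL → ℕ → ℕ → (ℕ → Bool) → Bool :=
  @WL.rec (fun _ => TL → TL → TL → ℕ → ℕ → (ℕ → Bool) → Bool)
    (fun T T' T2 w s k => T.hd (fun q i _ => T'.hd (fun q' i' _ => T2.hd (fun q2 i2 _ =>
      force (ge i i' i2) (fun e => force (Nat.add s (Nat.mul (gx q q' q2)
        (Nat.mul w (Nat.div e 128)))) k)))))
    (fun a l ih T T' T2 w s k => T.hd (fun q i r => T'.hd (fun q' i' r' =>
      T2.hd (fun q2 i2 r2 =>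
      force (ge i i' i2) (fun e => force (Nat.add s (Nat.mul (gx q q' q2)
        (Nat.add (Nat.mul 2 (Nat.mod e 128)) (Nat.mul w (Nat.div e 128)))))
        (fun s => ih r r' r2 (Nat.mul (lk l) a) s k)))))) v

/-- sum of a relation without `B2` part; the first trace has been sliced -/
noncomputable def R0e (v : WL) : TL → TL → ℕ → (ℕ → Bool) → Bool :=
  @WL.rec (fun _ => TL → TL → ℕ → (ℕ → Bool) → Bool)
    (fun _ _ s k => force (Nat.mul 2 s) k)
    (fun _ _ ih T T' s k => T.hd (fun x e r => T'.hd (fun q' i' r' =>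
      force (Nat.add s (Nat.mul (sl1 x q') (sl1 e i'))) (fun s => ih r r' s k)))) v

/-- check of a relation without `B2` part; the first trace has been sliced -/
noncomputable def ck0e (p : ℕ) (v : WL) (T T' : TL) : Bool :=
  R0e v T T' 0 (fun s => Nat.beq (Nat.mod s p) 0)

/-- the relation holds for `t` -/
noncomputable def ck2e (p : ℕ) (gx ge : ℕ → ℕ → ℕ) (v : WL) (T T' : TL) (t : ℕ) : Bool :=
  R2e gx ge v T T' (Nat.mul 2 t) 0 (fun s => Nat.beq (Nat.mod s p) 0)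

/-- the relation holds for `t` -/
noncomputable def ck3e (p : ℕ) (gx ge : ℕ → ℕ → ℕ → ℕ) (v : WL) (T T' T2 : TL) (t : ℕ) : Bool :=
  R3e gx ge v T T' T2 (Nat.mul 2 t) 0 (fun s => Nat.beq (Nat.mod s p) 0)

/-- coefficients of the relation -/
noncomputable def co2e (gx ge : ℕ → ℕ → ℕ) (v : WL) (T T' : TL) (g : ℕ → ℕ → Bool) : Bool :=
  R2e gx ge v T T' 0 0 (fun K => T.hd (fun _ i _ => T'.hd (fun _ i' _ =>
    force (Nat.mul 2 (Nat.div (ge i i') 128)) (fun c => g K c))))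

/-- coefficients of the relation -/
noncomputable def co3e (gx ge : ℕ → ℕ → ℕ → ℕ) (v : WL) (T T' T2 : TL) (g : ℕ → ℕ → Bool) :
    Bool :=
  R3e gx ge v T T' T2 0 0 (fun K => T.hd (fun _ i _ => T'.hd (fun _ i' _ => T2.hd (fun _ i2 _ =>
    force (Nat.mul 2 (Nat.div (ge i i' i2) 128)) (fun c => g K c)))))

/-- last stage, modulo 73 -/
noncomputable def w73e (c : CD) (U x y : ℕ) (v : WL) (T7 T19 : TL) : Bool :=
  co2e (x133_73 c) (e133_73 c) v T7 T19 (fun K4 c4 =>
    enW 73 I73 Q73 U x y v (fun t _ => imp (ln 73 K4 c4 t) false))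

/-- last stage, modulo 43 -/
noncomputable def w43e (c : CD) (U x y : ℕ) (v : WL) (t3 : ℕ) (T37 : TL) : Bool :=
  enN 9 I9 Q9 U x y v (fun t9 T9 => imp (Nat.beq (Nat.mod t9 3) t3)
    (co2e (x333 c) (e333 c) v T9 T37 (fun K c' =>
      enW 43 I43 Q43 U x y v (fun t _ => imp (ln 43 K c' t) false))))

/-- last stages: modulo 13 and 73 -/
noncomputable def w13e (c c' : CD) (U x y : ℕ) (v : WL) (t37 t3 : ℕ) (T37 T7 T19 T3 T5 : TL) :
    Bool :=
  co2e x95 e95 v T19 T5 (fun K c0 => co3e x105 e105 v T7 T3 T5 (fun K1 c1 =>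
  co2e x185 e185 v T37 T5 (fun K2 c2 => co2e x133_13 e133_13 v T7 T19 (fun K3 c3 =>
  enW 13 I13 Q13 U x y v (fun t T13 => imp (ln 13 K c0 t) (imp (ln 13 K1 c1 t)
    (imp (ln 13 K2 c2 t) (imp (ln 13 K3 c3 t)
    (imp (ck2e 37 x91 e91 v T7 T13 t37)
      (@Bool.rec (fun _ => Bool) (w43e c' U x y v t3 T37) true (w73e c U x y v T7 T19)))))))))))

/-- stages modulo 3, 4, 5 -/
noncomputable def w3e (c cc : CD) (U x y : ℕ) (v : WL) (t37 : ℕ) (S4 : SL) (T37 A7 A19 T7 : TL)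
    (t19 : ℕ) (T19 : TL) : Bool :=
  enW 3 I3 Q3 U x y v (fun t3 T3 =>
    imp (ck2e 19 x111_0 e111_0 v T37 T3 t19) (imp (ck2e 19 x111_1 e111_1 v T37 T3 t19)
    (S4.all (fun T4 => imp (ck0e 7 v A7 T4) (imp (ck0e 19 v A19 T4)
      (imp (ck3e 7 x228 e228 v T19 T3 T4 0)
      (enW 5 I5 Q5 U x y v (fun _ T5 => imp (ck3e 13 x140 e140 v T7 T4 T5 0)
        (w13e c cc U x y v t37 t3 T37 T7 T19 T3 T5)))))))))

/-- stage modulo 7 and 19 -/
noncomputable def w7e (c cc : CD) (U x y : ℕ) (v : WL) (t37 : ℕ) (S4 : SL) (T37 A7 A19 : TL) : Bool :=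
  mapT (sl 7 X259_2) (sl 49 E259_2) T37 (fun A =>
  enW 7 I7 Q7 U x y v (fun _ T7 => imp (ck0e 19 v A T7)
    (co2e x259_0 e259_0 v T37 T7 (fun K c0 => co2e x259_1 e259_1 v T37 T7 (fun K1 c1 =>
      enW 19 I19 Q19 U x y v (fun t19 T19 => imp (ln 19 K c0 t19) (imp (ln 19 K1 c1 t19)
        (imp (ck2e 37 x133_37 e133_37 v T7 T19 t37)
          (w3e c cc U x y v t37 S4 T37 A7 A19 T7 t19 T19)))))))))

/-- all residues for one word are impossible -/
noncomputable def wOKe (c cc : CD) (U x y : ℕ) (v : WL) : Bool :=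
  cl4 U x y v (fun S4 => enW 37 I37 Q37 U x y v (fun t37 T37 =>
    mapT (sl 4 X148_7) (sl 16 E148_7) T37 (fun A7 =>
    mapT (sl 4 X148_19) (sl 16 E148_19) T37 (fun A19 =>
    @Bool.rec (fun _ => Bool) (w7e c cc U x y v t37 S4 T37 A7 A19) true
      (S4.all (fun T4 => imp (ck0e 7 v A7 T4) (imp (ck0e 19 v A19 T4) false)))))))

/-- traversal of all words of even periods with `lo ≤ U < hi` -/
noncomputable def walkE (lo hi : ℕ) (check : WL → ℕ → ℕ → ℕ → Bool) (fuel : ℕ) : Bool :=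
  allN hi (fun c => @Nat.rec (fun _ => Bool) true (fun _ _ =>
    cj (@Bool.rec (fun _ => Bool) true (check (WL.cons c WL.nil) c 1 0) (Nat.ble lo c))
      (walk (Nat.pred hi) lo hi check fuel (WL.cons c WL.nil) c 1 0 1)) c)

end Pool.Agent.N911
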