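import Pool.Agent.N911.V7
import Pool.Agent.N911.U8

/-! The finitely many small parameters of a word of an even period. -/

set_option maxRecDepth 100000

namespace Pool.Agent.N911

open H419R2

/-- the final list, discriminants -/
def LD : List ℕ := [12, 21, 24, 28, 33, 44, 56, 57, 69, 76, 77, 88, 92, 93, 124, 133, 141, 152,
  172, 188, 213, 236, 237, 248, 253, 284, 309, 332, 341, 381, 413, 428, 437, 453, 517, 524, 573,
  581, 597, 632, 668, 717, 749, 813, 893, 908, 917, 1077, 1112, 1133, 1253, 1293, 1349, 1397,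
  1532, 1592, 1757, 1893, 2453, 2573, 2757, 3053, 3317]

/-- the final list -/
def List63 : List ℕ := [3, 6, 7, 11, 14, 19, 21, 22, 23, 31, 33, 38, 43, 47, 57, 59, 62, 69, 71,
  77, 83, 93, 107, 131, 133, 141, 158, 167, 213, 227, 237, 253, 278, 309, 341, 381, 383, 398,
  413, 437, 453, 517, 573, 581, 597, 717, 749, 813, 893, 917, 1077, 1133, 1253, 1293, 1349,
  1397, 1757, 1893, 2453, 2573, 2757, 3053, 3317]

/-- small primes -/
def PWE : List ℕ := [2, 3, 5, 7, 11, 13, 17, 19, 23, 29, 31, 37, 41, 43, 47]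

/-- witness -/
noncomputable def witE (v : WL) (t P D : ℕ) : Bool := anyL PWE (fun l => witU1 v t P D l)

/-- membership in the final list -/
def inE (D : ℕ) : Bool := anyL LD (fun x => Nat.beq x D)

theorem inE_sound {D : ℕ} (h : inE D = true) : D ∈ LD := by
  unfold inE at h
  rw [anyL_iff] at h
  obtain ⟨x, hx, h1⟩ := h
  rw [← Nat.eq_of_beq_eq_true h1]; exact hx

/-- not a fundamental discriminant -/
def skE (D : ℕ) : Bool := or (Nat.beq (Nat.mod D 16) 0) (Nat.beq (Nat.mod D 16) 4)

/-- a smaller solution, or one with the other sign -/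
def lessE (U t D : ℕ) : Bool :=
  anyU 12 (fun i => force (Nat.add i 1) (fun U' =>
    anyU (Nat.add (Nat.mul 2 U') 2) (fun j => force (Nat.add (Nat.mul U' t) j) (fun T' =>
      or (Nat.beq (Nat.add (Nat.mul T' T') 4) (Nat.mul D (Nat.mul U' U')))
        (cj (Nat.ble (Nat.add U' 1) U)
          (Nat.beq (Nat.mul T' T') (Nat.add (Nat.mul D (Nat.mul U' U')) 4)))))))

/-- check of one parameter -/
noncomputable def ckE (U : ℕ) (v : WL) (t P : ℕ) : Bool :=
  or (Nat.beq t 0) (force (Nat.add (Nat.mul t t) (Nat.mul 4 P)) (fun D =>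
    or (skE D) (or (witE v t P D) (or (inE D) (lessE U t D)))))

/-- check of all parameters from a given one on -/
noncomputable def smG (ck : ℕ → ℕ → Bool) (U x : ℕ) (v : WL) (fuel : ℕ) : ℕ → ℕ → Bool :=
  @Nat.rec (fun _ => ℕ → ℕ → Bool) (fun _ _ => false)
    (fun _ ih t P => @Bool.rec (fun _ => Bool)
      (cj (ck t P) (force (Nat.add t U) (fun t' => force (Nat.add P x) (fun P' => ih t' P'))))
      true (cj (Nat.ble 21316 (Nat.add (Nat.mul t t) (Nat.mul 4 P)))
        (qW (fun C => Nat.ble 74 C) v 1 t P))) fuel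

/-- check of a word -/
noncomputable def smAE (U x y : ℕ) (v : WL) : Bool :=
  force (Nat.mod (Nat.sub U (Nat.mod (Nat.mul x y) U)) U) (fun t =>
    force (Nat.div (Nat.add (Nat.mul t x) y) U) (fun P =>
    cj (Nat.beq (Nat.mul P U) (Nat.add (Nat.mul t x) y))
      (cj (qW (fun _ => true) v 0 U x) (smG (ckE U v) U x v 150 t P))))

theorem smG_sound {ck : ℕ → ℕ → Bool} {U x : ℕ} {v : WL} {fuel : ℕ} : ∀ {t P : ℕ},
    smG ck U x v fuel t P = true →
    ∀ j : ℕ, ck (t + j * U) (P + j * x) = true ∨
      ∃ i ≤ j, Big v (t + i * U) (P + i * x) := by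
  induction fuel with
  | zero =>
    intro t P h
    exact absurd h (by simp [smG])
  | succ n ih =>
    intro t P h j
    have e : smG ck U x v (n + 1) t P = @Bool.rec (fun _ => Bool)
      (cj (ck t P) (force (Nat.add t U) (fun t' => force (Nat.add P x) (fun P' =>
        smG ck U x v n t' P'))))
      true (cj (Nat.ble 21316 (Nat.add (Nat.mul t t) (Nat.mul 4 P)))
        (qW (fun C => Nat.ble 74 C) v 1 t P)) := rfl
    rw [e] at h
    cases hb : (cj (Nat.ble 21316 (Nat.add (Nat.mul t t) (Nat.mul 4 P)))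
        (qW (fun C => Nat.ble 74 C) v 1 t P)) with
    | true =>
      right
      refine ⟨0, Nat.zero_le _, ?_⟩
      rw [zero_mul, zero_mul, add_zero, add_zero]
      exact big_of hb
    | false =>
      rw [hb] at h
      change cj (ck t P) (force (Nat.add t U) (fun t' => force (Nat.add P x) (fun P' =>
        smG ck U x v n t' P'))) = true at h
      rw [cj_true, force_eq, force_eq] at h
      obtain ⟨h1, h2⟩ := h
      cases j with
      | zero =>
        left
        rw [zero_mul, zero_mul, add_zero, add_zero]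
        exact h1
      | succ j =>
        have e1 : ∀ i, t + (i + 1) * U = (t + U) + i * U := fun i => by ring
        have e2 : ∀ i, P + (i + 1) * x = (P + x) + i * x := fun i => by ring
        rcases ih h2 j with h3 | ⟨i, hi, h3⟩
        · left
          rw [e1, e2]
          exact h3
        · right
          refine ⟨i + 1, by omega, ?_⟩
          rw [e1, e2]
          exact h3

/-- soundness of the check of a word -/
theorem smAE_sound {U x y : ℕ} {v : WL} (h : smAE U x y v = true) (hU : 0 < U)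
    (hdet : U * y + 1 = x ^ 2) {t P : ℕ} (hlin : P * U = t * x + y) :
    ckE U v t P = true ∨ Big v t P := by
  unfold smAE at h
  rw [force_eq, force_eq, cj_true, cj_true] at h
  obtain ⟨h1, h2, h3⟩ := h
  set t0 := Nat.mod (Nat.sub U (Nat.mod (Nat.mul x y) U)) U with ht0
  set P0 := Nat.div (Nat.add (Nat.mul t0 x) y) U with hP0
  have h1' : P0 * U = t0 * x + y := Nat.eq_of_beq_eq_true h1
  have hlt : t0 < U := Nat.mod_lt _ hU
  have hdvd : (U : ℤ) ∣ (t : ℤ) - t0 := by
    have e1 : (P : ℤ) * U = t * x + y := by exact_mod_cast hlin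
    have e2 : (P0 : ℤ) * U = t0 * x + y := by exact_mod_cast h1'
    have e3 : (U : ℤ) * y + 1 = x ^ 2 := by exact_mod_cast hdet
    refine ⟨(x : ℤ) * (P - P0) - ((t : ℤ) - t0) * y, ?_⟩
    linear_combination (-(x : ℤ)) * e1 + (x : ℤ) * e2 + ((t : ℤ) - t0) * e3
  obtain ⟨j', hj'⟩ := hdvd
  have hj0 : 0 ≤ j' := by
    by_contra hc
    push Not at hc
    have h4 : (U : ℤ) * j' ≤ -U := by nlinarith
    have h5 : (t0 : ℤ) < U := by exact_mod_cast hlt
    have h6 : (0 : ℤ) ≤ t := by positivity
    linarith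
  obtain ⟨j, rfl⟩ := Int.eq_ofNat_of_zero_le hj0
  have et : t = t0 + j * U := by
    have : (t : ℤ) = ((t0 + j * U : ℕ) : ℤ) := by push_cast; linarith
    exact_mod_cast this
  have eP : P = P0 + j * x := by
    have h4 : (P : ℤ) * U = ((P0 + j * x : ℕ) : ℤ) * U := by
      have e1 : (P : ℤ) * U = t * x + y := by exact_mod_cast hlin
      have e2 : (P0 : ℤ) * U = t0 * x + y := by exact_mod_cast h1'
      push_cast
      linear_combination e1 - e2 + (x : ℤ) * hj'
    have h5 : (P : ℤ) = ((P0 + j * x : ℕ) : ℤ) := mul_right_cancel₀ (by positivity) h4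
    exact_mod_cast h5
  rw [et, eP]
  rcases smG_sound h3 j with h4 | ⟨i, hi, h4⟩
  · exact Or.inl h4
  · right
    have h5 := big_mono h2 h4 (j - i)
    have e1 : t0 + i * U + (j - i) * U = t0 + j * U := by
      rw [add_assoc, ← add_mul, Nat.add_sub_cancel' hi]
    have e2 : P0 + i * x + (j - i) * x = P0 + j * x := by
      rw [add_assoc, ← add_mul, Nat.add_sub_cancel' hi]
    rw [e1, e2] at h5
    exact h5

end Pool.Agent.N911
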