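import Pool.Agent.N911.V1
import Pool.Agent.N911.D1
import Pool.Agent.N911.D4

/-! Residue searches for words of even periods. -/

set_option maxRecDepth 1000000

namespace Pool.Agent.N911

open H419R2

theorem vk_27 : walkE 603 622 (fun v U x y => wOKe c133_73 c333_43 U x y v) 130 = true := by
  decide +kernel
theorem vk_28 : walkE 622 641 (fun v U x y => wOKe c133_73 c333_43 U x y v) 130 = true := by
  decide +kernel
theorem vk_29 : walkE 641 661 (fun v U x y => wOKe c133_73 c333_43 U x y v) 130 = true := by
  decide +kernel

end Pool.Agent.N911
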