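import Pool.Agent.N911.V1
import Pool.Agent.N911.D1
import Pool.Agent.N911.D4

/-! Residue searches for words of even periods. -/

set_option maxRecDepth 1000000

namespace Pool.Agent.N911

open H419R2

theorem vk_36 : walkE 777 795 (fun v U x y => wOKe c133_73 c333_43 U x y v) 130 = true := by
  decide +kernel
theorem vk_37 : walkE 795 815 (fun v U x y => wOKe c133_73 c333_43 U x y v) 130 = true := by
  decide +kernel
theorem vk_38 : walkE 815 834 (fun v U x y => wOKe c133_73 c333_43 U x y v) 130 = true := by
  decide +kernel

end Pool.Agent.N911
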