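import Pool.Agent.N911.V8

/-! Small parameters of all words of even periods. -/

set_option maxRecDepth 1000000

namespace Pool.Agent.N911

open H419R2

theorem sk_6 : walkE 422 482 (fun v U x y => smAE U x y v) 130 = true := by
  decide +kernel
theorem sk_7 : walkE 482 544 (fun v U x y => smAE U x y v) 130 = true := by
  decide +kernel

end Pool.Agent.N911
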