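import Pool.Agent.N911.V7
import Pool.Agent.N911.V8
import Pool.Agent.N911.X1
import Pool.Agent.N911.X2
import Pool.Agent.N911.X3
import Pool.Agent.N911.X4
import Pool.Agent.N911.X5
import Pool.Agent.N911.X6
import Pool.Agent.N911.X7
import Pool.Agent.N911.X8
import Pool.Agent.N911.X9
import Pool.Agent.N911.X10
import Pool.Agent.N911.X11
import Pool.Agent.N911.X12
import Pool.Agent.N911.X13
import Pool.Agent.N911.X14
import Pool.Agent.N911.X15
import Pool.Agent.N911.X16
import Pool.Agent.N911.XS1
import Pool.Agent.N911.XS2
import Pool.Agent.N911.XS3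
import Pool.Agent.N911.XS4
import Pool.Agent.N911.XS5
import Pool.Agent.N911.XS6
import Pool.Agent.N911.XS7
import Pool.Agent.N911.XS8

/-! All words of even periods with `U ≤ 1000`. -/

set_option maxRecDepth 100000

namespace Pool.Agent.N911

open H419R2

theorem wallE {w : WL} (hp : w.Pos) (hn : w ≠ .nil) (h1 : 1 ≤ (trE w).1)
    (hF : (trE w).1 ≤ 1000) :
    wOKe c133_73 c333_43 (trE w).1 (trE w).2.1 (trE w).2.2 w = true := by
  by_cases hx0 : (trE w).1 < 37
  · exact walkE_all (check := fun v U x y => wOKe c133_73 c333_43 U x y v) vk_0 hp hn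
      (by omega) (by omega)
  by_cases hx1 : (trE w).1 < 65
  · exact walkE_all (check := fun v U x y => wOKe c133_73 c333_43 U x y v) vk_1 hp hn
      (by omega) (by omega)
  by_cases hx2 : (trE w).1 < 91
  · exact walkE_all (check := fun v U x y => wOKe c133_73 c333_43 U x y v) vk_2 hp hn
      (by omega) (by omega)
  by_cases hx3 : (trE w).1 < 116
  · exact walkE_all (check := fun v U x y => wOKe c133_73 c333_43 U x y v) vk_3 hp hn
      (by omega) (by omega)
  by_cases hx4 : (trE w).1 < 141
  · exact walkE_all (check := fun v U x y => wOKe c133_73 c333_43 U x y v) vk_4 hp hn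
      (by omega) (by omega)
  by_cases hx5 : (trE w).1 < 165
  · exact walkE_all (check := fun v U x y => wOKe c133_73 c333_43 U x y v) vk_5 hp hn
      (by omega) (by omega)
  by_cases hx6 : (trE w).1 < 186
  · exact walkE_all (check := fun v U x y => wOKe c133_73 c333_43 U x y v) vk_6 hp hn
      (by omega) (by omega)
  by_cases hx7 : (trE w).1 < 209
  · exact walkE_all (check := fun v U x y => wOKe c133_73 c333_43 U x y v) vk_7 hp hn
      (by omega) (by omega)
  by_cases hx8 : (trE w).1 < 232
  · exact walkE_all (check := fun v U x y => wOKe c133_73 c333_43 U x y v) vk_8 hp hn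
      (by omega) (by omega)
  by_cases hx9 : (trE w).1 < 254
  · exact walkE_all (check := fun v U x y => wOKe c133_73 c333_43 U x y v) vk_9 hp hn
      (by omega) (by omega)
  by_cases hx10 : (trE w).1 < 276
  · exact walkE_all (check := fun v U x y => wOKe c133_73 c333_43 U x y v) vk_10 hp hn
      (by omega) (by omega)
  by_cases hx11 : (trE w).1 < 297
  · exact walkE_all (check := fun v U x y => wOKe c133_73 c333_43 U x y v) vk_11 hp hn
      (by omega) (by omega)
  by_cases hx12 : (trE w).1 < 317
  · exact walkE_all (check := fun v U x y => wOKe c133_73 c333_43 U x y v) vk_12 hp hn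
      (by omega) (by omega)
  by_cases hx13 : (trE w).1 < 339
  · exact walkE_all (check := fun v U x y => wOKe c133_73 c333_43 U x y v) vk_13 hp hn
      (by omega) (by omega)
  by_cases hx14 : (trE w).1 < 361
  · exact walkE_all (check := fun v U x y => wOKe c133_73 c333_43 U x y v) vk_14 hp hn
      (by omega) (by omega)
  by_cases hx15 : (trE w).1 < 381
  · exact walkE_all (check := fun v U x y => wOKe c133_73 c333_43 U x y v) vk_15 hp hn
      (by omega) (by omega)
  by_cases hx16 : (trE w).1 < 403
  · exact walkE_all (check := fun v U x y => wOKe c133_73 c333_43 U x y v) vk_16 hp hn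
      (by omega) (by omega)
  by_cases hx17 : (trE w).1 < 422
  · exact walkE_all (check := fun v U x y => wOKe c133_73 c333_43 U x y v) vk_17 hp hn
      (by omega) (by omega)
  by_cases hx18 : (trE w).1 < 442
  · exact walkE_all (check := fun v U x y => wOKe c133_73 c333_43 U x y v) vk_18 hp hn
      (by omega) (by omega)
  by_cases hx19 : (trE w).1 < 463
  · exact walkE_all (check := fun v U x y => wOKe c133_73 c333_43 U x y v) vk_19 hp hn
      (by omega) (by omega)
  by_cases hx20 : (trE w).1 < 482
  · exact walkE_all (check := fun v U x y => wOKe c133_73 c333_43 U x y v) vk_20 hp hn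
      (by omega) (by omega)
  by_cases hx21 : (trE w).1 < 505
  · exact walkE_all (check := fun v U x y => wOKe c133_73 c333_43 U x y v) vk_21 hp hn
      (by omega) (by omega)
  by_cases hx22 : (trE w).1 < 524
  · exact walkE_all (check := fun v U x y => wOKe c133_73 c333_43 U x y v) vk_22 hp hn
      (by omega) (by omega)
  by_cases hx23 : (trE w).1 < 544
  · exact walkE_all (check := fun v U x y => wOKe c133_73 c333_43 U x y v) vk_23 hp hn
      (by omega) (by omega)
  by_cases hx24 : (trE w).1 < 562
  · exact walkE_all (check := fun v U x y => wOKe c133_73 c333_43 U x y v) vk_24 hp hn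
      (by omega) (by omega)
  by_cases hx25 : (trE w).1 < 583
  · exact walkE_all (check := fun v U x y => wOKe c133_73 c333_43 U x y v) vk_25 hp hn
      (by omega) (by omega)
  by_cases hx26 : (trE w).1 < 603
  · exact walkE_all (check := fun v U x y => wOKe c133_73 c333_43 U x y v) vk_26 hp hn
      (by omega) (by omega)
  by_cases hx27 : (trE w).1 < 622
  · exact walkE_all (check := fun v U x y => wOKe c133_73 c333_43 U x y v) vk_27 hp hn
      (by omega) (by omega)
  by_cases hx28 : (trE w).1 < 641
  · exact walkE_all (check := fun v U x y => wOKe c133_73 c333_43 U x y v) vk_28 hp hn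
      (by omega) (by omega)
  by_cases hx29 : (trE w).1 < 661
  · exact walkE_all (check := fun v U x y => wOKe c133_73 c333_43 U x y v) vk_29 hp hn
      (by omega) (by omega)
  by_cases hx30 : (trE w).1 < 681
  · exact walkE_all (check := fun v U x y => wOKe c133_73 c333_43 U x y v) vk_30 hp hn
      (by omega) (by omega)
  by_cases hx31 : (trE w).1 < 699
  · exact walkE_all (check := fun v U x y => wOKe c133_73 c333_43 U x y v) vk_31 hp hn
      (by omega) (by omega)
  by_cases hx32 : (trE w).1 < 719
  · exact walkE_all (check := fun v U x y => wOKe c133_73 c333_43 U x y v) vk_32 hp hn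
      (by omega) (by omega)
  by_cases hx33 : (trE w).1 < 738
  · exact walkE_all (check := fun v U x y => wOKe c133_73 c333_43 U x y v) vk_33 hp hn
      (by omega) (by omega)
  by_cases hx34 : (trE w).1 < 757
  · exact walkE_all (check := fun v U x y => wOKe c133_73 c333_43 U x y v) vk_34 hp hn
      (by omega) (by omega)
  by_cases hx35 : (trE w).1 < 777
  · exact walkE_all (check := fun v U x y => wOKe c133_73 c333_43 U x y v) vk_35 hp hn
      (by omega) (by omega)
  by_cases hx36 : (trE w).1 < 795
  · exact walkE_all (check := fun v U x y => wOKe c133_73 c333_43 U x y v) vk_36 hp hn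
      (by omega) (by omega)
  by_cases hx37 : (trE w).1 < 815
  · exact walkE_all (check := fun v U x y => wOKe c133_73 c333_43 U x y v) vk_37 hp hn
      (by omega) (by omega)
  by_cases hx38 : (trE w).1 < 834
  · exact walkE_all (check := fun v U x y => wOKe c133_73 c333_43 U x y v) vk_38 hp hn
      (by omega) (by omega)
  by_cases hx39 : (trE w).1 < 851
  · exact walkE_all (check := fun v U x y => wOKe c133_73 c333_43 U x y v) vk_39 hp hn
      (by omega) (by omega)
  by_cases hx40 : (trE w).1 < 871
  · exact walkE_all (check := fun v U x y => wOKe c133_73 c333_43 U x y v) vk_40 hp hn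
      (by omega) (by omega)
  by_cases hx41 : (trE w).1 < 889
  · exact walkE_all (check := fun v U x y => wOKe c133_73 c333_43 U x y v) vk_41 hp hn
      (by omega) (by omega)
  by_cases hx42 : (trE w).1 < 909
  · exact walkE_all (check := fun v U x y => wOKe c133_73 c333_43 U x y v) vk_42 hp hn
      (by omega) (by omega)
  by_cases hx43 : (trE w).1 < 925
  · exact walkE_all (check := fun v U x y => wOKe c133_73 c333_43 U x y v) vk_43 hp hn
      (by omega) (by omega)
  by_cases hx44 : (trE w).1 < 945
  · exact walkE_all (check := fun v U x y => wOKe c133_73 c333_43 U x y v) vk_44 hp hn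
      (by omega) (by omega)
  by_cases hx45 : (trE w).1 < 962
  · exact walkE_all (check := fun v U x y => wOKe c133_73 c333_43 U x y v) vk_45 hp hn
      (by omega) (by omega)
  by_cases hx46 : (trE w).1 < 984
  · exact walkE_all (check := fun v U x y => wOKe c133_73 c333_43 U x y v) vk_46 hp hn
      (by omega) (by omega)
  exact walkE_all (check := fun v U x y => wOKe c133_73 c333_43 U x y v) vk_47 hp hn
    (by omega) (by omega)

theorem sallE {w : WL} (hp : w.Pos) (hn : w ≠ .nil) (h1 : 1 ≤ (trE w).1)
    (hF : (trE w).1 ≤ 1000) :
    smAE (trE w).1 (trE w).2.1 (trE w).2.2 w = true := by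
  by_cases hx0 : (trE w).1 < 91
  · exact walkE_all (check := fun v U x y => smAE U x y v) sk_0 hp hn (by omega) (by omega)
  by_cases hx1 : (trE w).1 < 165
  · exact walkE_all (check := fun v U x y => smAE U x y v) sk_1 hp hn (by omega) (by omega)
  by_cases hx2 : (trE w).1 < 232
  · exact walkE_all (check := fun v U x y => smAE U x y v) sk_2 hp hn (by omega) (by omega)
  by_cases hx3 : (trE w).1 < 297
  · exact walkE_all (check := fun v U x y => smAE U x y v) sk_3 hp hn (by omega) (by omega)
  by_cases hx4 : (trE w).1 < 361
  · exact walkE_all (check := fun v U x y => smAE U x y v) sk_4 hp hn (by omega) (by omega)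
  by_cases hx5 : (trE w).1 < 422
  · exact walkE_all (check := fun v U x y => smAE U x y v) sk_5 hp hn (by omega) (by omega)
  by_cases hx6 : (trE w).1 < 482
  · exact walkE_all (check := fun v U x y => smAE U x y v) sk_6 hp hn (by omega) (by omega)
  by_cases hx7 : (trE w).1 < 544
  · exact walkE_all (check := fun v U x y => smAE U x y v) sk_7 hp hn (by omega) (by omega)
  by_cases hx8 : (trE w).1 < 603
  · exact walkE_all (check := fun v U x y => smAE U x y v) sk_8 hp hn (by omega) (by omega)
  by_cases hx9 : (trE w).1 < 661
  · exact walkE_all (check := fun v U x y => smAE U x y v) sk_9 hp hn (by omega) (by omega)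
  by_cases hx10 : (trE w).1 < 719
  · exact walkE_all (check := fun v U x y => smAE U x y v) sk_10 hp hn (by omega) (by omega)
  by_cases hx11 : (trE w).1 < 777
  · exact walkE_all (check := fun v U x y => smAE U x y v) sk_11 hp hn (by omega) (by omega)
  by_cases hx12 : (trE w).1 < 834
  · exact walkE_all (check := fun v U x y => smAE U x y v) sk_12 hp hn (by omega) (by omega)
  by_cases hx13 : (trE w).1 < 889
  · exact walkE_all (check := fun v U x y => smAE U x y v) sk_13 hp hn (by omega) (by omega)
  by_cases hx14 : (trE w).1 < 945
  · exact walkE_all (check := fun v U x y => smAE U x y v) sk_14 hp hn (by omega) (by omega)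
  exact walkE_all (check := fun v U x y => smAE U x y v) sk_15 hp hn (by omega) (by omega)

end Pool.Agent.N911
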