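import Pool.Agent.N911.V9
import Pool.Agent.N911.XX

/-! Class number one and small positive Pell equations. -/

namespace Pool.Agent.N911

open H419R2 Finset

theorem pellE_final {d D : ℕ} (hsf : Squarefree d) (hd1 : 1 < d)
    (hDd : (d % 4 = 1 ∧ D = d) ∨ ((d % 4 = 2 ∨ d % 4 = 3) ∧ D = 4 * d))
    {K : Type*} [Field K] [NumberField K] (hK : Module.finrank ℚ K = 2) {z : K}
    (hz : z ^ 2 = (d : K)) (hcl : NumberField.classNumber K = 1)
    (hneg : ∀ T' U' : ℕ, T' * T' + 4 ≠ D * (U' * U'))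
    {T U : ℕ} (hU : 0 < U) (hUF : U ≤ 1000) (hTU : T * T = D * (U * U) + 4) : D ∈ LD := by
  classical
  have hex : ∃ U, 0 < U ∧ ∃ T, T * T = D * (U * U) + 4 := ⟨U, hU, T, hTU⟩
  obtain ⟨hV, S, hSV⟩ := Nat.find_spec hex
  have hVU : Nat.find hex ≤ U := Nat.find_min' hex ⟨hU, T, hTU⟩
  have hmin : ∀ T' U' : ℕ, 0 < U' → T' * T' = D * (U' * U') + 4 → Nat.find hex ≤ U' :=
    fun T' U' h1 h2 => Nat.find_min' hex ⟨h1, T', h2⟩
  generalize Nat.find hex = V at hV hSV hVU hmin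
  have hD5 : 5 ≤ D := by omega
  have hD4 : D % 4 = 0 ∨ D % 4 = 1 := by omega
  obtain ⟨x, y, t, P, hx, hdet, ht, hD, hlin⟩ := exists_parE hSV hV hD5 hD4
  obtain ⟨v, hv, hn, htr⟩ := exists_wordE V x y hV hdet hx
  have h1 : 1 ≤ (trE v).1 := by rw [htr]; exact hV
  have hF : (trE v).1 ≤ 1000 := by rw [htr]; omega
  have hw := wallE hv hn h1 hF
  have hs := sallE hv hn h1 hF
  rw [htr] at hw hs
  exact word_finalE hv hn htr hV hdet hlin ht hD hDd (Int.squarefree_natCast.mpr hsf) hd1 hK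
    (by rw [hz]; push_cast; rfl) hcl hmin hneg hs hw

theorem list_one' : ∀ d ∈ LD, d % 4 = 1 → d ∈ List63 := by decide +kernel

theorem list_four' : ∀ d ∈ LD, d % 4 = 0 → d / 4 ∈ List63 := by decide +kernel

theorem list_one {d : ℕ} (h : d ∈ LD) (h4 : d % 4 = 1) : d ∈ List63 := list_one' d h h4

theorem list_four {d : ℕ} (h : 4 * d ∈ LD) : d ∈ List63 := by
  have := list_four' _ h (by omega)
  rwa [Nat.mul_div_cancel_left d (by norm_num)] at this

/-- all squarefree `d` -/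
theorem pellE_all {d : ℕ} (hsf : Squarefree d) (hd1 : 1 < d)
    {K : Type*} [Field K] [NumberField K] (hK : Module.finrank ℚ K = 2) {z : K}
    (hz : z ^ 2 = (d : K)) (hcl : NumberField.classNumber K = 1)
    (hneg : ∀ a b : ℕ, a ^ 2 + 4 ≠ d * b ^ 2)
    {T U : ℕ} (hU : 0 < U) (hUF : U ≤ 1000 ∨ d % 4 ≠ 1 ∧ U ≤ 2000)
    (hTU : T ^ 2 = d * U ^ 2 + 4) : d ∈ List63 := by
  have h : T * T = d * (U * U) + 4 := by rw [← pow_two, ← pow_two]; exact hTU
  have hn : ∀ a b : ℕ, a * a + 4 ≠ d * (b * b) := by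
    intro a b; rw [← pow_two, ← pow_two]; exact hneg a b
  have hd4 : d % 4 ≠ 0 := by
    intro h0
    obtain ⟨k, rfl⟩ : ∃ k, d = 4 * k := ⟨d / 4, by omega⟩
    have h3 := hsf 2 ⟨k, by ring⟩
    rw [Nat.isUnit_iff] at h3
    omega
  by_cases h1 : d % 4 = 1
  · exact list_one (pellE_final hsf hd1 (Or.inl ⟨h1, rfl⟩) hK hz hcl hn hU (by omega) h) h1
  · have h23 : d % 4 = 2 ∨ d % 4 = 3 := by omega
    -- `U` is even
    have hUe : U % 2 = 0 := by
      rcases Nat.mod_two_eq_zero_or_one U with h0 | h0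
      · exact h0
      · exfalso
        obtain ⟨j, rfl⟩ : ∃ j, U = 2 * j + 1 := ⟨U / 2, by omega⟩
        have e2 : d * ((2 * j + 1) * (2 * j + 1)) = 4 * (d * (j * j + j)) + d := by ring
        rw [e2] at h
        rcases Nat.mod_two_eq_zero_or_one T with h' | h'
        · obtain ⟨i, rfl⟩ : ∃ i, T = 2 * i := ⟨T / 2, by omega⟩
          have e : 2 * i * (2 * i) = 4 * (i * i) := by ring
          rw [e] at h
          omega
        · obtain ⟨i, rfl⟩ : ∃ i, T = 2 * i + 1 := ⟨T / 2, by omega⟩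
          have e : (2 * i + 1) * (2 * i + 1) = 4 * (i * i + i) + 1 := by ring
          rw [e] at h
          omega
    obtain ⟨V, rfl⟩ : ∃ V, U = 2 * V := ⟨U / 2, by omega⟩
    refine list_four (pellE_final (D := 4 * d) (U := V) (T := T) hsf hd1 (Or.inr ⟨h23, rfl⟩) hK hz
      hcl ?_ (by omega) (by omega) (by rw [h]; ring))
    intro a b hab
    exact hn a (2 * b) (by rw [hab]; ring)

end Pool.Agent.N911
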