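import Pool.Agent.H419R2.A1
import Mathlib

/-! Units of real quadratic fields and Pell equations; comparison of the two signs. -/

namespace Pool.Agent.N911

open H419R2 Module

/-- the smallest solution with sign `-` is not larger than any with sign `+` -/
theorem neg_le_pos {d : ℕ} (hd1 : 1 < d) {a c : ℕ} (h : a * a = d * (c * c) + 4) (hc : 0 < c)
    (hex : ∃ C, 0 < C ∧ ∃ A, A * A + 4 = d * (C * C)) :
    ∃ C, 0 < C ∧ C ≤ c ∧ ∃ A, A * A + 4 = d * (C * C) := by
  classical
  obtain ⟨hC0, A, hA⟩ := Nat.find_spec hex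
  have hmin : ∀ C', 0 < C' → (∃ A, A * A + 4 = d * (C' * C')) → Nat.find hex ≤ C' :=
    fun C' h1 h2 => Nat.find_min' hex ⟨h1, h2⟩
  generalize Nat.find hex = C at hC0 hA hmin
  refine ⟨C, hC0, ?_, A, hA⟩
  by_contra hlt
  push Not at hlt
  -- the product
  have par : ∀ a c A C d : ZMod 2, a * a = d * (c * c) → A * A = d * (C * C) →
      A * a - C * c * d = 0 ∧ C * a - A * c = 0 := by decide
  have h' : (a : ℤ) * a = d * (c * c) + 4 := by exact_mod_cast h
  have hA' : (A : ℤ) * A + 4 = d * (C * C) := by exact_mod_cast hA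
  obtain ⟨p1, p2⟩ := par (a : ZMod 2) (c : ZMod 2) (A : ZMod 2) (C : ZMod 2) (d : ZMod 2)
    (by
      have := congrArg (fun z : ℤ => (z : ZMod 2)) h'
      push_cast at this
      rw [this]
      have e : (4 : ZMod 2) = 0 := by decide
      rw [e, add_zero])
    (by
      have := congrArg (fun z : ℤ => (z : ZMod 2)) hA'
      push_cast at this
      rw [← this]
      have e : (4 : ZMod 2) = 0 := by decide
      rw [e, add_zero])
  have q1 : (2 : ℤ) ∣ A * a - C * c * d := by
    have := (ZMod.intCast_zmod_eq_zero_iff_dvd ((A : ℤ) * a - C * c * d) 2).mp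
      (by push_cast; exact p1)
    exact_mod_cast this
  have q2 : (2 : ℤ) ∣ C * a - A * c := by
    have := (ZMod.intCast_zmod_eq_zero_iff_dvd ((C : ℤ) * a - A * c) 2).mp
      (by push_cast; exact p2)
    exact_mod_cast this
  obtain ⟨X, hX⟩ := q1
  obtain ⟨Y, hY⟩ := q2
  have hXY : X ^ 2 + 4 = d * Y ^ 2 := by
    have e : 4 * (X ^ 2 + 4) = 4 * (d * Y ^ 2) := by
      have e1 : (2 * X) ^ 2 - d * (2 * Y) ^ 2 = -16 := by
        rw [← hX, ← hY]
        linear_combination ((a : ℤ) * a - d * (c * c)) * hA' - 4 * h'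
      linear_combination e1
    linarith
  have ha3 : 3 ≤ a := by
    by_contra hc'
    push Not at hc'
    have h1 : a * a ≤ 2 * 2 := Nat.mul_le_mul (by omega) (by omega)
    have h2 : 1 ≤ d * (c * c) := Nat.mul_pos (by omega) (Nat.mul_pos hc hc)
    omega
  have hA1 : 1 ≤ A := by
    by_contra hc'
    have h0 : A = 0 := by omega
    rw [h0] at hA
    have h1 : 2 * (2 * 2) ≤ d * (C * C) :=
      Nat.mul_le_mul hd1 (Nat.mul_le_mul (by omega) (by omega))
    omega
  have hcz : (1 : ℤ) ≤ c := by exact_mod_cast hc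
  have hCz : (c : ℤ) + 1 ≤ C := by exact_mod_cast hlt
  have haz : (3 : ℤ) ≤ a := by exact_mod_cast ha3
  have hAz : (1 : ℤ) ≤ A := by exact_mod_cast hA1
  have key : 2 * Y * (C * a + A * c) = 4 * ((C : ℤ) ^ 2 + c ^ 2) := by
    rw [← hY]
    linear_combination (C : ℤ) ^ 2 * h' - (c : ℤ) ^ 2 * hA'
  have hpos : (0 : ℤ) < C * a + A * c := by positivity
  have hY0 : 0 < Y := by
    by_contra hc'
    push Not at hc'
    have h1 : 2 * Y * (C * a + A * c) ≤ 0 := by
      have : 2 * Y ≤ 0 := by linarith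
      exact mul_nonpos_of_nonpos_of_nonneg this hpos.le
    have h2 : (0 : ℤ) < (C : ℤ) ^ 2 + c ^ 2 := by positivity
    linarith
  have hYC : Y < C := by
    by_contra hc'
    push Not at hc'
    have h1 : (C : ℤ) * (C * a + A * c) ≤ Y * (C * a + A * c) :=
      mul_le_mul_of_nonneg_right hc' hpos.le
    have h2 : (C : ℤ) * C * 3 ≤ C * C * a := by
      have : (0 : ℤ) ≤ C * C := by positivity
      nlinarith
    have h3 : (c : ℤ) * c < C * C := by nlinarith
    have h4 : (c : ℤ) * c ≤ C * (A * c) := by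
      have h5 : (c : ℤ) ≤ C := by linarith
      have h6 : (c : ℤ) ≤ A * c := by nlinarith
      exact mul_le_mul h5 h6 (by linarith) (by linarith)
    nlinarith
  obtain ⟨Y', rfl⟩ := Int.eq_ofNat_of_zero_le hY0.le
  have h1 : X.natAbs * X.natAbs + 4 = d * (Y' * Y') := by
    have e : ((X.natAbs * X.natAbs + 4 : ℕ) : ℤ) = ((d * (Y' * Y') : ℕ) : ℤ) := by
      push_cast
      rw [abs_mul_abs_self]
      linarith [hXY]
    exact_mod_cast e
  have h2 := hmin Y' (by exact_mod_cast hY0) ⟨_, h1⟩
  have h3 : (Y' : ℤ) < C := hYC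
  have h4 : Y' < C := by exact_mod_cast h3
  omega

section units

variable {K : Type*} [Field K] [NumberField K]

/-- integral elements -/
theorem half_coords {d : ℤ} (hsf : Squarefree d) (hd1 : 1 < d) (hK : finrank ℚ K = 2) {x : K}
    (hx : x ^ 2 = (d : K)) {y : K} (hy : IsIntegral ℤ y) :
    ∃ a c b : ℤ, 2 * y = (a : K) + (c : K) * x ∧ a ^ 2 - d * c ^ 2 = 4 * b := by
  have hns := not_sq_of_squarefree hsf hd1
  obtain ⟨p, q, rfl⟩ := exists_coords hns hK hx y
  by_cases hq : q = 0
  · subst hq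
    simp only [Rat.cast_zero, zero_mul, add_zero] at hy
    have hp : IsIntegral ℤ p := by
      have : IsIntegral ℤ (algebraMap ℚ K p) := by simpa using hy
      exact (isIntegral_algebraMap_iff (algebraMap ℚ K).injective).mp this
    obtain ⟨n, hn⟩ := IsIntegrallyClosed.isIntegral_iff.mp hp
    have hn' : (n : ℚ) = p := by simpa using hn
    refine ⟨2 * n, 0, n ^ 2, ?_, by ring⟩
    rw [← hn']
    push_cast
    ring
  · obtain ⟨⟨a, ha⟩, ⟨b, hb⟩⟩ := two_int_of_integral hns hx hq hy
    have h5 : (d : ℚ) * (2 * q) ^ 2 = ((a ^ 2 - 4 * b : ℤ) : ℚ) := by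
      push_cast
      rw [ha, hb]; ring
    obtain ⟨c, hc⟩ := int_of_squarefree_mul_sq hsf h5
    have h6 : d * c ^ 2 = a ^ 2 - 4 * b := by
      rw [← hc] at h5
      exact_mod_cast h5
    refine ⟨a, c, b, ?_, by linarith⟩
    have hp : p = (a : ℚ) / 2 := by rw [ha]; ring
    have hq' : q = (c : ℚ) / 2 := by rw [hc]; ring
    rw [hp, hq']
    push_cast
    ring

theorem indep {d : ℤ} (hns : ¬ ∃ q : ℚ, q ^ 2 = d) {x : K}
    (hx : x ^ 2 = (d : K)) {p q : ℤ} (h : (p : K) + (q : K) * x = 0) : p = 0 ∧ q = 0 := by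
  by_cases hq : q = 0
  · subst hq
    simp at h
    exact ⟨h, rfl⟩
  · exfalso
    apply hns
    refine ⟨-p / q, ?_⟩
    have hq' : (q : K) ≠ 0 := by exact_mod_cast hq
    have hxe : x = ((-p / q : ℚ) : K) := by
      push_cast
      rw [eq_div_iff hq']
      linear_combination h
    have h3 : (((-p / q) ^ 2 : ℚ) : K) = ((d : ℚ) : K) := by
      push_cast
      rw [hxe] at hx
      push_cast at hx
      exact hx
    exact_mod_cast h3

/-- a unit gives a solution of a Pell equation -/
theorem unit_pell {d : ℕ} (hsf : Squarefree d) (hd1 : 1 < d) (hK : finrank ℚ K = 2) {x : K}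
    (hx : x ^ 2 = (d : K)) (σ : K →+* ℝ) (u : (NumberField.RingOfIntegers K)ˣ)
    (h1 : 1 < σ ((u : NumberField.RingOfIntegers K) : K)) :
    ∃ T U : ℕ, 0 < U ∧ (T * T + 4 = d * (U * U) ∨ T * T = d * (U * U) + 4) ∧
      (U : ℝ) * √d < σ ((u : NumberField.RingOfIntegers K) : K) + 1 := by
  have hsfz : Squarefree (d : ℤ) := Int.squarefree_natCast.mpr hsf
  have hd1z : (1 : ℤ) < d := by exact_mod_cast hd1
  have hns := not_sq_of_squarefree hsfz hd1z
  have hxz : x ^ 2 = ((d : ℤ) : K) := by rw [hx]; push_cast; rfl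
  set y : K := ((u : NumberField.RingOfIntegers K) : K) with hy
  set y' : K := (((u⁻¹ : (NumberField.RingOfIntegers K)ˣ) : NumberField.RingOfIntegers K) : K)
    with hy'
  have hyy : y * y' = 1 := by
    rw [hy, hy', ← map_mul, ← Units.val_mul, mul_inv_cancel, Units.val_one, map_one]
  obtain ⟨a, c, b, e1, e2⟩ := half_coords hsfz hd1z hK hxz
    (NumberField.RingOfIntegers.isIntegral_coe (u : NumberField.RingOfIntegers K))
  obtain ⟨a', c', b', e3, e4⟩ := half_coords hsfz hd1z hK hxz
    (NumberField.RingOfIntegers.isIntegral_coe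
      ((u⁻¹ : (NumberField.RingOfIntegers K)ˣ) : NumberField.RingOfIntegers K))
  change 2 * y = (a : K) + (c : K) * x at e1
  change 2 * y' = (a' : K) + (c' : K) * x at e3
  have e5 : ((a * a' + d * (c * c') - 4 : ℤ) : K) + ((a * c' + a' * c : ℤ) : K) * x = 0 := by
    have : (2 * y) * (2 * y') = 4 := by linear_combination 4 * hyy
    rw [e1, e3] at this
    push_cast
    linear_combination this - (c : K) * c' * hx
  obtain ⟨e6, e7⟩ := indep hns hxz e5
  have hbb : b * b' = 1 := by
    have : 16 * (b * b') = 16 := by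
      have h2 : (a ^ 2 - d * c ^ 2) * (a' ^ 2 - d * c' ^ 2) = 16 := by
        linear_combination (a * a' + d * (c * c') + 4) * e6 - d * (a * c' + a' * c) * e7
      rw [e2, e4] at h2
      linear_combination h2
    linarith
  have hb : b = 1 ∨ b = -1 := by
    have := Int.isUnit_iff.mp (IsUnit.of_mul_eq_one _ hbb)
    exact this
  -- the real embedding
  have hs : σ x ^ 2 = d := by
    rw [← map_pow, hx, map_natCast]
  have hd0 : (0 : ℝ) < d := by exact_mod_cast (by omega : 0 < d)
  have habs : |σ x| = √d := by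
    rw [← hs, Real.sqrt_sq_eq_abs]
  have e8 : 2 * σ y = a + c * σ x := by
    have := congrArg σ e1
    rw [map_mul, map_add, map_mul, map_intCast, map_intCast, map_ofNat] at this
    exact this
  have e9 : σ y * ((a - c * σ x) / 2) = b := by
    have h3 : (a : ℝ) ^ 2 - d * c ^ 2 = 4 * b := by exact_mod_cast e2
    have h4 : σ y = (a + c * σ x) / 2 := by linarith
    rw [h4]
    linear_combination h3 / 4 - (c : ℝ) ^ 2 / 4 * hs
  have hc0 : c ≠ 0 := by
    rintro rfl
    have h3 : a ^ 2 = 4 * b := by linarith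
    have h4 : (2 * σ y) ^ 2 = 4 * b := by
      rw [e8]
      have : (a : ℝ) ^ 2 = 4 * b := by exact_mod_cast h3
      push_cast
      linear_combination this
    have h5 : (b : ℝ) ≤ 1 := by
      rcases hb with rfl | rfl <;> norm_num
    nlinarith
  have hbar : |(a - c * σ x) / 2| ≤ 1 := by
    have h3 : |σ y| * |(a - c * σ x) / 2| = 1 := by
      rw [← abs_mul, e9]
      rcases hb with rfl | rfl <;> norm_num
    have h4 : 1 ≤ |σ y| := h1.le.trans (le_abs_self _)
    by_contra hc'
    push Not at hc'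
    nlinarith [abs_nonneg ((a - c * σ x) / 2)]
  refine ⟨a.natAbs, c.natAbs, Int.natAbs_pos.mpr hc0, ?_, ?_⟩
  · have e10 : ∀ z : ℤ, (z.natAbs : ℤ) * z.natAbs = z ^ 2 := by
      intro z
      rw [Int.natAbs_mul_self' z]; ring
    rcases hb with rfl | rfl
    · right
      have : ((a.natAbs * a.natAbs : ℕ) : ℤ) = ((d * (c.natAbs * c.natAbs) + 4 : ℕ) : ℤ) := by
        push_cast
        have h3 := e10 a
        have h4 := e10 c
        push_cast at h3 h4
        rw [h3, h4]
        linarith
      exact_mod_cast this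
    · left
      have : ((a.natAbs * a.natAbs + 4 : ℕ) : ℤ) = ((d * (c.natAbs * c.natAbs) : ℕ) : ℤ) := by
        push_cast
        have h3 := e10 a
        have h4 := e10 c
        push_cast at h3 h4
        rw [h3, h4]
        linarith
      exact_mod_cast this
  · have e11 : ((c.natAbs : ℕ) : ℝ) * √d = |c * σ x| := by
      rw [abs_mul, habs, Nat.cast_natAbs]
      push_cast
      rfl
    rw [e11]
    have e12 : (c : ℝ) * σ x = σ y - (a - c * σ x) / 2 := by linarith
    have hlt : |(a - c * σ x) / 2| < 1 := by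
      rcases lt_or_eq_of_le hbar with h | h
      · exact h
      · exfalso
        have h3 : |σ y| * |(a - c * σ x) / 2| = 1 := by
          rw [← abs_mul, e9]
          rcases hb with rfl | rfl <;> norm_num
        rw [h, mul_one, abs_of_pos (by linarith)] at h3
        linarith
    rw [e12]
    calc |σ y - (a - c * σ x) / 2| ≤ |σ y| + |(a - c * σ x) / 2| := abs_sub _ _
      _ < σ y + 1 := by rw [abs_of_pos (by linarith : (0 : ℝ) < σ y)]; linarith

end units

end Pool.Agent.N911
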