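import Pool.Agent.N911.U10
import Pool.Agent.N911.V10
import Pool.Agent.N911.V11

/-! Class number one and small solutions of Pell equations, both signs. -/

namespace Pool.Agent.N911

open H419R2 Finset

theorem two_signs {d D : ℕ} (hsf : Squarefree d) (hd1 : 1 < d)
    (hD : D = if d % 4 = 1 then d else 4 * d)
    {K : Type*} [Field K] [NumberField K] (hK : Module.finrank ℚ K = 2) {z : K}
    (hz : z ^ 2 = (d : K)) (hcl : NumberField.classNumber K = 1)
    {T U : ℕ} (hU : 0 < U)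
    (hTU : T ^ 2 = D * U ^ 2 + 4 ∧ U ≤ 1000 ∨ T ^ 2 + 4 = D * U ^ 2 ∧ U ≤ 10000) :
    d = 2 ∨ d ∈ List78 ∨ d ∈ List63 := by
  have hd4 : d % 4 ≠ 0 := by
    intro h0
    obtain ⟨k, rfl⟩ : ∃ k, d = 4 * k := ⟨d / 4, by omega⟩
    have h3 := hsf 2 ⟨k, by ring⟩
    rw [Nat.isUnit_iff] at h3
    omega
  have hmerge : (d = 2 ∨ d ∈ List78) → d = 2 ∨ d ∈ List78 ∨ d ∈ List63 := by
    rintro (h | h)
    · exact Or.inl h
    · exact Or.inr (Or.inl h)
  -- negative sign, in terms of `d`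
  have hneg : ∀ {A C : ℕ}, 0 < C → (C ≤ 10000 ∨ d % 4 ≠ 1) → A * A + 4 = d * (C * C) →
      d = 2 ∨ d ∈ List78 := by
    intro A C hC hCF hA
    rcases Nat.mod_two_eq_zero_or_one d with h0 | h0
    · exact Or.inl (Ev.even_two hsf hd1 h0 hK hz hcl hA)
    · right
      obtain ⟨x, y, t, P, hx, hdet, htodd, hD, hlin⟩ := exists_par hA hC hd1 h0
      have h4 : d % 4 = 1 := by
        obtain ⟨k, rfl⟩ : ∃ k, t = 2 * k + 1 := ⟨t / 2, by omega⟩
        have e : (2 * k + 1) * (2 * k + 1) + 4 * P = 4 * (k * k + k + P) + 1 := by ring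
        omega
      exact pell_final hsf hd1 h0 hK hz hcl hC (by omega) hA
  by_cases h4 : d % 4 = 1
  · rw [if_pos h4] at hD
    subst hD
    rcases hTU with ⟨h, hUF⟩ | ⟨h, hUF⟩
    · rw [pow_two, pow_two] at h
      by_cases hex : ∃ C, 0 < C ∧ ∃ A, A * A + 4 = D * (C * C)
      · obtain ⟨C, hC0, hCU, A, hA⟩ := neg_le_pos hd1 h hU hex
        exact hmerge (hneg hC0 (by omega) hA)
      · refine Or.inr (Or.inr (list_one (pellE_final hsf hd1 (Or.inl ⟨h4, rfl⟩) hK hz hcl ?_ hU hUF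
          h) h4))
        intro a b hab
        rcases Nat.eq_zero_or_pos b with h0 | h0
        · rw [h0] at hab; omega
        · exact hex ⟨b, h0, a, hab⟩
    · rw [pow_two, pow_two] at h
      exact hmerge (hneg hU (by omega) h)
  · rw [if_neg h4] at hD
    rcases hTU with ⟨h, hUF⟩ | ⟨h, hUF⟩
    · rw [pow_two, pow_two] at h
      by_cases hex : ∃ C, 0 < C ∧ ∃ A, A * A + 4 = d * (C * C)
      · obtain ⟨C, hC0, hCU, A, hA⟩ := neg_le_pos (a := T) (c := 2 * U) hd1
          (by rw [h, hD]; ring) (by omega) hex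
        exact hmerge (hneg hC0 (by omega) hA)
      · have hDd : (d % 4 = 2 ∨ d % 4 = 3) ∧ D = 4 * d := ⟨by omega, hD⟩
        have h5 := pellE_final hsf hd1 (Or.inr hDd) hK hz hcl (by
          intro a b hab
          rcases Nat.eq_zero_or_pos b with h0 | h0
          · rw [h0] at hab; omega
          · exact hex ⟨2 * b, by omega, a, by rw [hab, hD]; ring⟩) hU hUF h
        rw [hD] at h5
        exact Or.inr (Or.inr (list_four h5))
    · rw [pow_two, pow_two] at h
      exact hmerge (hneg (A := T) (C := 2 * U) (by omega) (Or.inr h4) (by rw [h, hD]; ring))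

end Pool.Agent.N911
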