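import Pool.Agent.N156.EP.A5
import Pool.Agent.N911.U3

/-! Words and cycles of even length: the last letter of the word is the centre of the palindrome. -/

namespace Pool.Agent.N911

open H419R2 QuadraticAlgebra Module Finset
open Pool.Agent.N156.EP (ECyc)

/-- matrix entries of the palindrome of odd length with first half `w`, the last letter being the
centre -/
def trE : WL → ℕ × ℕ × ℕ
  | .nil => (0, 1, 0)
  | .cons a .nil => (a, 1, 0)
  | .cons a (.cons b l) => ((trE (.cons b l)).2.2 + (2 * a * (trE (.cons b l)).2.1 +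
      a * a * (trE (.cons b l)).1), (trE (.cons b l)).2.1 + a * (trE (.cons b l)).1,
      (trE (.cons b l)).1)

theorem trE_one (a : ℕ) : trE (.cons a .nil) = (a, 1, 0) := rfl

theorem trE_cons (a : ℕ) {l : WL} (h : l ≠ .nil) : trE (.cons a l) =
    ((trE l).2.2 + (2 * a * (trE l).2.1 + a * a * (trE l).1), (trE l).2.1 + a * (trE l).1,
      (trE l).1) := by
  cases l with
  | nil => exact absurd rfl h
  | cons b l => rfl

/-- the functional vanishing for admissible forms -/
def lamE (w : WL) (f : Fm) : ℤ := f.C * (trE w).1 - f.B * (trE w).2.1 - f.A * (trE w).2.2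

theorem lamE_step (a b : ℕ) (l : WL) (f : Fm) :
    lamE (.cons b l) (f.step a) = -lamE (.cons a (.cons b l)) f := by
  unfold lamE Fm.step
  rw [trE_cons a (by simp : WL.cons b l ≠ .nil)]
  push_cast
  ring

theorem end_symE (l : WL) : ∀ (a : ℕ) (f : Fm), lamE (.cons a l) f = 0 →
    (fs (.cons a l) f (l.len + 1)).B = (fs (.cons a l) f l.len).B := by
  induction l with
  | nil =>
    intro a f h
    unfold lamE at h
    rw [trE_one] at h
    change (f.step a).B = f.B
    unfold Fm.step
    push_cast at h
    simp only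
    linarith
  | cons b l ih =>
    intro a f h
    change (fs (.cons a (.cons b l)) f (l.len + 1 + 1)).B =
      (fs (.cons a (.cons b l)) f (l.len + 1)).B
    rw [fs_cons a (.cons b l) f (l.len + 1), fs_cons a (.cons b l) f l.len]
    apply ih
    rw [lamE_step, h, neg_zero]

section cyc

variable (w : WL) (t : ℕ) (P : ℤ)

/-- partial quotients by residue -/
def kE (r : ℕ) : ℕ := if r < 2 * w.len - 1 then (if r < w.len then w.get r else
  w.get (2 * w.len - 2 - r)) else t
/-- outer coefficients by residue -/
def qE (r : ℕ) : ℤ := if r ≤ w.len then qs w t P r else qs w t P (2 * w.len - r)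
/-- middle coefficients by residue -/
def bE (r : ℕ) : ℤ := if r < w.len then bs w t P r else bs w t P (2 * w.len - 1 - r)

variable {w t P}

theorem mod_casesE {h : ℕ} (hh : 0 < h) (n : ℕ) : ((n % (2 * h) + 1 < 2 * h ∧
    (n + 1) % (2 * h) = n % (2 * h) + 1) ∨ (n % (2 * h) + 1 = 2 * h ∧ (n + 1) % (2 * h) = 0)) := by
  have h0 := Nat.mod_lt n (show 0 < 2 * h by omega)
  rcases lt_or_ge (n % (2 * h) + 1) (2 * h) with h1 | h1
  · left
    refine ⟨h1, ?_⟩
    rw [Nat.add_mod, Nat.mod_eq_of_lt (show 1 < 2 * h by omega), Nat.mod_eq_of_lt (by omega)]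
  · right
    have h2 : n % (2 * h) + 1 = 2 * h := by omega
    refine ⟨h2, ?_⟩
    rw [Nat.add_mod, Nat.mod_eq_of_lt (show 1 < 2 * h by omega), h2, Nat.mod_self]

theorem symq (h0 : 0 < w.len) (hsym : bs w t P w.len = bs w t P (w.len - 1)) :
    qs w t P (w.len + 1) = qs w t P (w.len - 1) := by
  obtain ⟨k, hk⟩ : ∃ k, w.len = k + 1 := ⟨w.len - 1, by omega⟩
  rw [hk] at hsym ⊢
  have e : k + 1 - 1 = k := rfl
  rw [e] at hsym ⊢
  rw [show k + 1 + 1 = k + 2 from rfl, qs_rec]
  rw [bs_rec] at hsym
  have h2 : bs w t P k = w.get k * qs w t P (k + 1) := by linarith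
  rw [h2]
  ring

theorem qE_low (h0 : 0 < w.len) (hsym : bs w t P w.len = bs w t P (w.len - 1)) {r : ℕ}
    (h : r ≤ w.len + 1) : qE w t P r = qs w t P r := by
  unfold qE
  split_ifs with h1
  · rfl
  · have : r = w.len + 1 := by omega
    subst this
    rw [symq h0 hsym]
    congr 1
    omega

theorem qE_high {r : ℕ} (h : w.len ≤ r) : qE w t P r = qs w t P (2 * w.len - r) := by
  unfold qE
  split_ifs with h1
  · have : r = w.len := by omega
    subst this
    congr 1
    omega
  · rfl

theorem bE_low (h0 : 0 < w.len) (hsym : bs w t P w.len = bs w t P (w.len - 1)) {r : ℕ}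
    (h : r ≤ w.len) : bE w t P r = bs w t P r := by
  unfold bE
  split_ifs with h1
  · rfl
  · have : r = w.len := by omega
    subst this
    rw [hsym]
    congr 1
    omega

theorem bE_high {r : ℕ} (h : w.len ≤ r) : bE w t P r = bs w t P (2 * w.len - 1 - r) := by
  unfold bE
  rw [if_neg (by omega)]

theorem recqE (h0 : 0 < w.len) (hsym : bs w t P w.len = bs w t P (w.len - 1)) (n : ℕ) :
    qE w t P ((n + 2) % (2 * w.len)) =
    qE w t P (n % (2 * w.len)) + bE w t P (n % (2 * w.len)) *
      kE w t (n % (2 * w.len)) - qE w t P ((n + 1) % (2 * w.len)) *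
      (kE w t (n % (2 * w.len)) : ℤ) ^ 2 := by
  have h1 := mod_casesE h0 n
  have h2 := mod_casesE h0 (n + 1)
  set r := n % (2 * w.len) with hr
  have hrl : r < 2 * w.len := Nat.mod_lt _ (by omega)
  rw [show n + 2 = n + 1 + 1 from rfl]
  rcases h1 with ⟨h1, h1'⟩ | ⟨h1, h1'⟩
  · rw [h1'] at h2 ⊢
    rcases lt_or_ge r w.len with h3 | h3
    · have hk : kE w t r = w.get r := by
        unfold kE; rw [if_pos (by omega), if_pos h3]
      rw [qE_low h0 hsym (by omega), bE_low h0 hsym h3.le, hk,
        qE_low h0 hsym (r := r + 1) (by omega)]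
      rcases h2 with ⟨h2, h2'⟩ | ⟨h2, h2'⟩
      · rw [h2', qE_low h0 hsym (by omega), show r + 1 + 1 = r + 2 from rfl, qs_rec]
      · rw [h2', qE_low h0 hsym (by omega)]
        have e3 : r = 0 ∧ w.len = 1 := by omega
        obtain ⟨e3, e4⟩ := e3
        have e5 := symq h0 hsym
        rw [e4] at e5
        have e6 : qs w t P (0 + 2) = qs w t P 0 := e5
        rw [e3, ← qs_rec w t P 0, e6]
    · obtain ⟨s, hs⟩ : ∃ s, r + s + 2 = 2 * w.len := ⟨2 * w.len - 2 - r, by omega⟩
      have hk : kE w t r = w.get s := by
        unfold kE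
        rw [if_pos (by omega), if_neg (by omega)]
        congr 1
        omega
      have hb : bE w t P r = bs w t P (s + 1) := by
        rw [bE_high h3]
        congr 1
        omega
      have hq1 : qE w t P r = qs w t P (s + 2) := by
        rw [qE_high h3]
        congr 1
        omega
      have hq2 : qE w t P (r + 1) = qs w t P (s + 1) := by
        rw [qE_high (by omega)]
        congr 1
        omega
      have hq3 : qE w t P ((n + 1 + 1) % (2 * w.len)) = qs w t P s := by
        rcases h2 with ⟨h2, h2'⟩ | ⟨h2, h2'⟩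
        · rw [h2', qE_high (by omega)]
          congr 1
          omega
        · rw [h2', qE_low h0 hsym (by omega)]
          congr 1
          omega
      rw [hq3, hq1, hq2, hb, hk, qs_rec, bs_rec]
      ring
  · rw [h1'] at h2 ⊢
    have hk : kE w t r = t := by
      unfold kE
      rw [if_neg (by omega)]
    have hb : bE w t P r = t := by
      rw [bE_high (by omega)]
      have : 2 * w.len - 1 - r = 0 := by omega
      rw [this]; rfl
    have hq2 : qE w t P 0 = 1 := by
      rw [qE_low h0 hsym (by omega)]; rfl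
    have hq1 : qE w t P r = P := by
      rw [qE_high (by omega)]
      have : 2 * w.len - r = 1 := by omega
      rw [this]; rfl
    have hq3 : qE w t P ((n + 1 + 1) % (2 * w.len)) = P := by
      rcases h2 with ⟨h2, h2'⟩ | ⟨h2, h2'⟩
      · rw [h2', qE_low h0 hsym (by omega)]; rfl
      · omega
    rw [hk, hb, hq2, hq1, hq3]
    ring

theorem recbE (h0 : 0 < w.len) (hsym : bs w t P w.len = bs w t P (w.len - 1)) (n : ℕ) :
    bE w t P ((n + 1) % (2 * w.len)) =
    2 * kE w t (n % (2 * w.len)) * qE w t P ((n + 1) % (2 * w.len)) -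
      bE w t P (n % (2 * w.len)) := by
  have h1 := mod_casesE h0 n
  set r := n % (2 * w.len) with hr
  have hrl : r < 2 * w.len := Nat.mod_lt _ (by omega)
  rcases h1 with ⟨h1, h1'⟩ | ⟨h1, h1'⟩
  · rw [h1']
    rcases lt_or_ge r w.len with h3 | h3
    · have hk : kE w t r = w.get r := by
        unfold kE; rw [if_pos (by omega), if_pos h3]
      rw [bE_low h0 hsym h3.le, hk, qE_low h0 hsym (r := r + 1) (by omega),
        bE_low h0 hsym (by omega), bs_rec]
    · obtain ⟨s, hs⟩ : ∃ s, r + s + 2 = 2 * w.len := ⟨2 * w.len - 2 - r, by omega⟩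
      have hk : kE w t r = w.get s := by
        unfold kE
        rw [if_pos (by omega), if_neg (by omega)]
        congr 1
        omega
      have hb : bE w t P r = bs w t P (s + 1) := by
        rw [bE_high h3]
        congr 1
        omega
      have hb1 : bE w t P (r + 1) = bs w t P s := by
        rw [bE_high (by omega)]
        congr 1
        omega
      have hq2 : qE w t P (r + 1) = qs w t P (s + 1) := by
        rw [qE_high (by omega)]
        congr 1
        omega
      rw [hb, hb1, hq2, hk, bs_rec]
      ring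
  · rw [h1']
    have hk : kE w t r = t := by
      unfold kE
      rw [if_neg (by omega)]
    have hb : bE w t P r = t := by
      rw [bE_high (by omega)]
      have : 2 * w.len - 1 - r = 0 := by omega
      rw [this]; rfl
    have hb0 : bE w t P 0 = t := by
      rw [bE_low h0 hsym (by omega)]; rfl
    have hq2 : qE w t P 0 = 1 := by
      rw [qE_low h0 hsym (by omega)]; rfl
    rw [hk, hb, hb0, hq2]
    ring

end cyc

/-- the cycle of an even palindromic period -/
def ecycW (w : WL) (t : ℕ) (P : ℤ) (hv : w.Pos) (h0 : 0 < w.len) (ht : 0 < t)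
    (hsym : bs w t P w.len = bs w t P (w.len - 1))
    (hq : ∀ n ≤ w.len, 0 < qs w t P n) (hq1 : ∀ n, 1 ≤ n → n ≤ w.len → qs w t P n ≠ 1) :
    ECyc P (t : ℤ) where
  h := w.len
  hh := h0
  κ := fun n => kE w t (n % (2 * w.len))
  q := fun n => qE w t P (n % (2 * w.len))
  b := fun n => bE w t P (n % (2 * w.len))
  κpos := by
    intro n
    unfold kE
    split_ifs with h1 h2
    · exact WL.get_pos hv h2
    · exact WL.get_pos hv (by omega)
    · exact ht
  qpos := by
    intro n
    unfold qE
    split_ifs with h1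
    · exact hq _ h1
    · exact hq _ (by omega)
  m_pos := by exact_mod_cast ht
  κper := by intro n; simp
  qper := by intro n; simp
  bper := by intro n; simp
  q0 := by
    rw [Nat.zero_mod, qE_low h0 hsym (by omega)]; rfl
  q1 := by
    rw [Nat.mod_eq_of_lt (by omega), qE_low h0 hsym (by omega)]; rfl
  b0 := by
    rw [Nat.zero_mod, bE_low h0 hsym (by omega)]; rfl
  recq := recqE h0 hsym
  recb := recbE h0 hsym
  qone := by
    intro n h
    by_contra hn
    have hrl : n % (2 * w.len) < 2 * w.len := Nat.mod_lt _ (by omega)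
    unfold qE at h
    split_ifs at h with h1
    · exact hq1 _ (by omega) h1 h
    · exact hq1 _ (by omega) (by omega) h

end Pool.Agent.N911
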