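import Pool.Agent.N911.V2

/-! The relation for palindromic periods of even length. -/

namespace Pool.Agent.N911

open H419R2 QuadraticAlgebra Module Finset
open Pool.Agent.N156.EP (ECyc)

section real

variable {N : ℕ} [NeZero N] (F : ZMod N → ℝ)

/-- factor of the last letter -/
def lf : WL → ℕ
  | .nil => 1
  | .cons _ _ => 2

/-- the sum of a half period -/
noncomputable def RSEr : WL → Fm → ℝ
  | .nil, _ => 0
  | .cons a l, f => 4 * eF F f + lf l * a * yF F (f.step a) + RSEr l (f.step a)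

theorem RSEr_cons (a : ℕ) (l : WL) (f : Fm) : RSEr F (.cons a l) f =
    4 * eF F f + lf l * a * yF F (f.step a) + RSEr F l (f.step a) := rfl

theorem RSEr_sum (l : WL) : ∀ (a : ℕ) (f : Fm), RSEr F (.cons a l) f =
    4 * ∑ j ∈ range (l.len + 1), eF F (fs (.cons a l) f j) +
    ∑ j ∈ range (l.len + 1), ((WL.cons a l).get j : ℝ) * yF F (fs (.cons a l) f (j + 1)) +
    ∑ j ∈ range l.len, ((WL.cons a l).get j : ℝ) * yF F (fs (.cons a l) f (j + 1)) := by
  induction l with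
  | nil =>
    intro a f
    have e1 : RSEr F (.cons a .nil) f = 4 * eF F f + ((1 : ℕ) : ℝ) * a * yF F (f.step a) + 0 := rfl
    have e2 : (WL.nil).len = 0 := rfl
    have e3 : fs (WL.cons a .nil) f 0 = f := rfl
    have e4 : fs (WL.cons a .nil) f (0 + 1) = f.step a := rfl
    have e5 : (WL.cons a .nil).get 0 = a := rfl
    rw [e1, e2, zero_add, Finset.sum_range_one, Finset.sum_range_one, Finset.sum_range_zero, e3,
      e4, e5]
    push_cast
    ring
  | cons b l ih =>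
    intro a f
    rw [RSEr_cons, ih]
    have e2 : (WL.cons b l).len = l.len + 1 := rfl
    have e3 : ∀ j, fs (WL.cons a (.cons b l)) f (j + 1) = fs (.cons b l) (f.step a) j :=
      fun j => fs_cons a (.cons b l) f j
    have e5 : ∀ j, (WL.cons a (.cons b l)).get (j + 1) = (WL.cons b l).get j := fun _ => rfl
    have e6 : (WL.cons a (.cons b l)).get 0 = a := rfl
    have e7 : fs (WL.cons a (.cons b l)) f 0 = f := rfl
    have e8 : fs (.cons b l) (f.step a) 0 = f.step a := rfl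
    have e9 : ((lf (WL.cons b l) : ℕ) : ℝ) = 2 := by
      have : lf (WL.cons b l) = 2 := rfl
      rw [this]; norm_num
    rw [e2, Finset.sum_range_succ' (fun j => eF F (fs (WL.cons a (.cons b l)) f j)),
      Finset.sum_range_succ' (fun j => ((WL.cons a (.cons b l)).get j : ℝ) *
        yF F (fs (WL.cons a (.cons b l)) f (j + 1))),
      Finset.sum_range_succ' (fun j => ((WL.cons a (.cons b l)).get j : ℝ) *
        yF F (fs (WL.cons a (.cons b l)) f (j + 1)))]
    simp only [e3, e5, e6, e7, e8, e9]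
    ring

variable {F}

variable {w : WL} {t : ℕ} {P : ℤ} {hv : w.Pos} {h0 : 0 < w.len} {ht : 0 < t}
    {hsym : bs w t P w.len = bs w t P (w.len - 1)}
    {hq : ∀ n ≤ w.len, 0 < qs w t P n} {hq1 : ∀ n, 1 ≤ n → n ≤ w.len → qs w t P n ≠ 1}

theorem eW_q_low {j : ℕ} (hj : j ≤ w.len + 1) :
    (ecycW w t P hv h0 ht hsym hq hq1).q j = qs w t P j := by
  change qE w t P (j % (2 * w.len)) = _
  rcases lt_or_ge j (2 * w.len) with h3 | h3
  · rw [Nat.mod_eq_of_lt h3, qE_low h0 hsym hj]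
  · have e1 : w.len = 1 := by omega
    have e2 : j = 2 := by omega
    have e3 : j % (2 * w.len) = 0 := by rw [e1, e2]
    rw [e3, qE_low h0 hsym (by omega), e2]
    have e5 := symq h0 hsym
    rw [e1] at e5
    exact e5.symm

theorem eW_q_high {s : ℕ} (hs : s ≤ w.len) :
    (ecycW w t P hv h0 ht hsym hq hq1).q (2 * w.len - s) = qs w t P s := by
  change qE w t P ((2 * w.len - s) % (2 * w.len)) = _
  rcases Nat.eq_zero_or_pos s with h3 | h3
  · rw [h3, Nat.sub_zero, Nat.mod_self, qE_low h0 hsym (by omega)]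
  · rw [Nat.mod_eq_of_lt (by omega), qE_high (by omega)]
    congr 1
    omega

theorem eW_b_low {j : ℕ} (hj : j ≤ w.len) :
    (ecycW w t P hv h0 ht hsym hq hq1).b j = bs w t P j := by
  change bE w t P (j % (2 * w.len)) = _
  rw [Nat.mod_eq_of_lt (by omega), bE_low h0 hsym hj]

theorem eW_b_high {s : ℕ} (hs : s < w.len) :
    (ecycW w t P hv h0 ht hsym hq hq1).b (2 * w.len - 1 - s) = bs w t P s := by
  change bE w t P ((2 * w.len - 1 - s) % (2 * w.len)) = _
  rw [Nat.mod_eq_of_lt (by omega), bE_high (by omega)]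
  congr 1
  omega

theorem eW_κ_low {j : ℕ} (hj : j < w.len) :
    (ecycW w t P hv h0 ht hsym hq hq1).κ j = w.get j := by
  change kE w t (j % (2 * w.len)) = _
  rw [Nat.mod_eq_of_lt (by omega)]
  unfold kE
  rw [if_pos (by omega), if_pos hj]

theorem eW_κ_high {j : ℕ} (hj : j + 1 < w.len) :
    (ecycW w t P hv h0 ht hsym hq hq1).κ (2 * w.len - 1 - (j + 1)) = w.get j := by
  change kE w t ((2 * w.len - 1 - (j + 1)) % (2 * w.len)) = _
  rw [Nat.mod_eq_of_lt (by omega)]
  unfold kE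
  rw [if_pos (by omega), if_neg (by omega)]
  congr 1
  omega

theorem eW_κ_last : (ecycW w t P hv h0 ht hsym hq hq1).κ (2 * w.len - 1) = t := by
  change kE w t ((2 * w.len - 1) % (2 * w.len)) = _
  rw [Nat.mod_eq_of_lt (by omega)]
  unfold kE
  rw [if_neg (by omega)]

theorem eW_EE_low {j : ℕ} (hj : j ≤ w.len) :
    (ecycW w t P hv h0 ht hsym hq hq1).EE F j = eF F (fs w (f0 t P) j) := by
  rw [Pool.Agent.N156.EP.ECyc.EE_eq, eW_q_low (by omega), eW_b_low hj, eW_q_low (by omega)]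
  rfl

theorem eW_YY_low {j : ℕ} (hj : j ≤ w.len) :
    (ecycW w t P hv h0 ht hsym hq hq1).YY F j = yF F (fs w (f0 t P) j) := by
  rw [Pool.Agent.N156.EP.ECyc.YY_eq, eW_q_low (by omega), eW_b_low hj, eW_q_low (by omega)]
  rfl

theorem eW_EE_high (hodd : ∀ x, F (-x) = -F x) {s : ℕ} (hs : s < w.len) :
    (ecycW w t P hv h0 ht hsym hq hq1).EE F (2 * w.len - 1 - s) = eF F (fs w (f0 t P) s) := by
  rw [Pool.Agent.N156.EP.ECyc.EE_eq, show 2 * w.len - 1 - s + 1 = 2 * w.len - s by omega,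
    eW_q_high hs.le, eW_b_high hs,
    show 2 * w.len - 1 - s = 2 * w.len - (s + 1) by omega, eW_q_high (by omega),
    Ef_mirror hodd]
  rfl

theorem eW_YY_high (hodd : ∀ x, F (-x) = -F x) {s : ℕ} (hs : s + 1 < w.len) :
    (ecycW w t P hv h0 ht hsym hq hq1).YY F (2 * w.len - 1 - s) =
      yF F (fs w (f0 t P) (s + 1)) := by
  have h1 := Pool.Agent.N156.EP.ECyc.X_eq (ecycW w t P hv h0 ht hsym hq hq1) hodd s
  rw [eW_q_low (by omega), eW_b_low (by omega), eW_q_low (by omega), eW_YY_low (by omega)] at h1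
  rw [Pool.Agent.N156.EP.ECyc.YY_eq, show 2 * w.len - 1 - s + 1 = 2 * w.len - s by omega,
    eW_q_high (by omega), eW_b_high (by omega),
    show 2 * w.len - 1 - s = 2 * w.len - (s + 1) by omega, eW_q_high (by omega),
    Yf_mirror hodd, h1, neg_neg]

theorem relE (hodd : ∀ x, F (-x) = -F x) :
    2 * ∑ n ∈ range (2 * (ecycW w t P hv h0 ht hsym hq hq1).h),
      (ecycW w t P hv h0 ht hsym hq hq1).HH F n =
      RSEr F w (f0 t P) + t * yF F (f0 t P) := by
  set C := ecycW w t P hv h0 ht hsym hq hq1 with hC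
  have hl : 2 * C.h = w.len + w.len := by change 2 * w.len = _; ring
  rw [hl, Finset.sum_range_add]
  have s1 : ∑ x ∈ range w.len, C.HH F x = ∑ j ∈ range w.len,
      (eF F (fs w (f0 t P) j) + w.get j / 2 * yF F (fs w (f0 t P) (j + 1))) := by
    apply Finset.sum_congr rfl
    intro j hj
    have hj' := Finset.mem_range.mp hj
    unfold ECyc.HH
    rw [eW_EE_low hj'.le, eW_YY_low (by omega), eW_κ_low hj']
  have s2 : ∑ x ∈ range w.len, C.HH F (w.len + x) = ∑ j ∈ range w.len,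
      (eF F (fs w (f0 t P) j) + (if j = 0 then (t : ℝ) / 2 * yF F (f0 t P) else
        w.get (j - 1) / 2 * yF F (fs w (f0 t P) j))) := by
    rw [← Finset.sum_range_reflect]
    apply Finset.sum_congr rfl
    intro j hj
    have hj' := Finset.mem_range.mp hj
    unfold ECyc.HH
    have e1 : w.len + (w.len - 1 - j) = 2 * w.len - 1 - j := by omega
    rw [e1, eW_EE_high hodd hj']
    congr 1
    rcases Nat.eq_zero_or_pos j with h | h
    · subst h
      have e2 : 2 * w.len - 1 - 0 + 1 = 0 + 2 * C.h := by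
        change 2 * w.len - 1 - 0 + 1 = 0 + 2 * w.len
        omega
      rw [if_pos rfl, e2, C.YY_per, eW_YY_low (Nat.zero_le _), Nat.sub_zero, eW_κ_last]
      rfl
    · obtain ⟨s, rfl⟩ : ∃ s, j = s + 1 := ⟨j - 1, by omega⟩
      have e2 : 2 * w.len - 1 - (s + 1) + 1 = 2 * w.len - 1 - s := by omega
      rw [if_neg (by omega), e2, eW_YY_high hodd hj', eW_κ_high hj']
      rfl
  rw [s1, s2]
  obtain ⟨a, l, hw⟩ : ∃ a l, w = .cons a l := by
    cases w with
    | nil => exact absurd h0 (Nat.lt_irrefl _)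
    | cons a l => exact ⟨a, l, rfl⟩
  have hlen : w.len = l.len + 1 := by rw [hw]; rfl
  have hs := RSEr_sum F l a (f0 t P)
  rw [← hw, ← hlen] at hs
  rw [hs, Finset.sum_add_distrib, Finset.sum_add_distrib]
  have s3 : ∑ j ∈ range w.len, (if j = 0 then (t : ℝ) / 2 * yF F (f0 t P) else
        w.get (j - 1) / 2 * yF F (fs w (f0 t P) j)) = (t : ℝ) / 2 * yF F (f0 t P) +
      ∑ j ∈ range l.len, (w.get j : ℝ) / 2 * yF F (fs w (f0 t P) (j + 1)) := by
    rw [hlen, Finset.sum_range_succ']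
    simp only [Nat.add_eq_zero_iff, one_ne_zero, and_false, if_false, if_true,
      Nat.add_sub_cancel]
    ring
  have s4 : ∀ k : ℕ, ∑ j ∈ range k, (w.get j : ℝ) / 2 * yF F (fs w (f0 t P) (j + 1)) =
      (∑ j ∈ range k, (w.get j : ℝ) * yF F (fs w (f0 t P) (j + 1))) / 2 := by
    intro k
    rw [Finset.sum_div]
    apply Finset.sum_congr rfl
    intro j _
    ring
  rw [s3, s4, s4]
  ring

end real

section integral

variable {N : ℕ} [NeZero N] {M : Type*} [CommRing M]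

/-- the integral sum of a half period -/
def RSE (χ : ZMod N → M) : WL → Fm → M
  | .nil, _ => 0
  | .cons a l, f => 6 * SE χ (f.A : ZMod N) f.B f.C +
      lf l * a * SY χ ((f.step a).A : ZMod N) (f.step a).B (f.step a).C + RSE χ l (f.step a)

theorem RSE_nil (χ : ZMod N → M) (f : Fm) : RSE χ .nil f = 0 := rfl

theorem RSE_cons (χ : ZMod N → M) (a : ℕ) (l : WL) (f : Fm) : RSE χ (.cons a l) f =
    6 * SE χ (f.A : ZMod N) f.B f.C +
      lf l * a * SY χ ((f.step a).A : ZMod N) (f.step a).B (f.step a).C + RSE χ l (f.step a) := rfl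

/-- the relation -/
def RelE (χ : ZMod N → M) (v : WL) (t P : ℤ) : M :=
  RSE χ v (f0 t P) + (t : M) * SY χ 1 (t : ZMod N) (P : ZMod N)

theorem RSE_real (g : ZMod N → ℤ) (v : WL) (f : Fm) :
    ((RSE g v f : ℤ) : ℝ) = 6 * N ^ 2 * RSEr (fun x => ((g x : ℤ) : ℝ)) v f := by
  induction v generalizing f with
  | nil =>
    rw [RSE_nil]
    have : RSEr (fun x => ((g x : ℤ) : ℝ)) .nil f = 0 := rfl
    rw [this]; simp
  | cons a l ih =>
    rw [RSE_cons, RSEr_cons]
    unfold eF yF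
    push_cast
    rw [SE_real, SY_real, ih]
    ring

theorem RelE_real (g : ZMod N → ℤ) (v : WL) (t : ℕ) (P : ℤ) :
    ((RelE g v t P : ℤ) : ℝ) = 6 * N ^ 2 * (RSEr (fun x => ((g x : ℤ) : ℝ)) v (f0 t P) +
      t * yF (fun x => ((g x : ℤ) : ℝ)) (f0 t P)) := by
  unfold RelE
  push_cast
  have e := SY_real g 1 (t : ZMod N) (P : ZMod N)
  rw [RSE_real, e]
  unfold yF f0
  simp only [Int.cast_one, Int.cast_natCast]
  ring

theorem SE_mapE {M' : Type*} [CommRing M'] (φ : M →+* M') (χ : ZMod N → M) (A B C : ZMod N) :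
    φ (SE χ A B C) = SE (fun x => φ (χ x)) A B C := by
  unfold SE
  rw [map_sum]
  apply Finset.sum_congr rfl
  intro x _
  rw [map_sum]
  apply Finset.sum_congr rfl
  intro y _
  rw [map_mul, map_intCast]

theorem SY_mapE {M' : Type*} [CommRing M'] (φ : M →+* M') (χ : ZMod N → M) (A B C : ZMod N) :
    φ (SY χ A B C) = SY (fun x => φ (χ x)) A B C := by
  unfold SY
  rw [map_sum]
  apply Finset.sum_congr rfl
  intro x _
  rw [map_sum]
  apply Finset.sum_congr rfl
  intro y _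
  rw [map_mul, map_intCast]

theorem RSE_map {M' : Type*} [CommRing M'] (φ : M →+* M') (χ : ZMod N → M) (v : WL) (f : Fm) :
    φ (RSE χ v f) = RSE (fun x => φ (χ x)) v f := by
  induction v generalizing f with
  | nil => rw [RSE_nil, RSE_nil, map_zero]
  | cons a l ih =>
    rw [RSE_cons, RSE_cons]
    simp only [map_add, map_mul, SE_mapE, SY_mapE, map_ofNat, map_natCast, ih]

theorem RelE_map {M' : Type*} [CommRing M'] (φ : M →+* M') (χ : ZMod N → M) (v : WL) (t P : ℤ) :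
    φ (RelE χ v t P) = RelE (fun x => φ (χ x)) v t P := by
  unfold RelE
  rw [map_add, map_mul, RSE_map, SY_mapE, map_intCast]

theorem RSE_smul (c : M) (χ : ZMod N → M) (v : WL) (f : Fm) :
    RSE (fun x => c * χ x) v f = c * RSE χ v f := by
  induction v generalizing f with
  | nil => rw [RSE_nil, RSE_nil, mul_zero]
  | cons a l ih =>
    rw [RSE_cons, RSE_cons, SE_smul, SY_smul, ih]; ring

theorem RelE_smul (c : M) (χ : ZMod N → M) (v : WL) (t P : ℤ) :
    RelE (fun x => c * χ x) v t P = c * RelE χ v t P := by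
  unfold RelE
  rw [RSE_smul, SY_smul]; ring

end integral

/-- norms of small split primes -/
structure SplitE (v : WL) (t P : ℤ) (D : ℕ) : Prop where
  hD : (D : ℤ) = t ^ 2 + 4 * P
  hD1 : 1 < D
  split : ∀ l : ℕ, l.Prime → 4 * (l : ℤ) ^ 2 ≤ D → (∃ w0 : ℤ, (l : ℤ) ∣ w0 ^ 2 + t * w0 - P) →
    ∃ n, 1 ≤ n ∧ n ≤ v.len ∧ (fs v (f0 t P) n).A = l

/-- consequence of class number one -/
structure GoodE (v : WL) (t P : ℤ) (D : ℕ) : Prop extends SplitE v t P D where
  rel : P % 2 = 1 → ∀ (N : ℕ) [NeZero N], N.Coprime D → ∀ f : ZMod N → ℤ, (∀ x, f (-x) = -f x) →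
    (D : ℤ) * RelE f v t P =
    6 * ∑ l ∈ range (N * D), ∑ a ∈ range N, (l : ℤ) * a * jacobiSym l D * f ((a * l : ℕ))

theorem rel_intE {N D : ℕ} [NeZero N] (hD : 0 < D) {v : WL} {t : ℕ} {P : ℤ} {f : ZMod N → ℤ}
    (h : (∑ l ∈ range (N * D), ∑ a ∈ range N, (l : ℝ) * a * jacobiSym l D *
      ((f ((a * l : ℕ)) : ℤ) : ℝ)) / (N * (N * D)) =
      RSEr (fun x => ((f x : ℤ) : ℝ)) v (f0 t P) + t * yF (fun x => ((f x : ℤ) : ℝ)) (f0 t P)) :
    (D : ℤ) * RelE f v t P =
    6 * ∑ l ∈ range (N * D), ∑ a ∈ range N, (l : ℤ) * a * jacobiSym l D * f ((a * l : ℕ)) := by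
  have hq := qpos (q := N)
  have hD' : (0 : ℝ) < D := by exact_mod_cast hD
  have e2 : ((∑ l ∈ range (N * D), ∑ a ∈ range N, (l : ℤ) * a * jacobiSym l D *
      f ((a * l : ℕ)) : ℤ) : ℝ) = ∑ l ∈ range (N * D), ∑ a ∈ range N, (l : ℝ) * a *
      jacobiSym l D * ((f ((a * l : ℕ)) : ℤ) : ℝ) := by
    push_cast
    rfl
  have e3 : (((D : ℤ) * RelE f v t P : ℤ) : ℝ) =
    ((6 * ∑ l ∈ range (N * D), ∑ a ∈ range N, (l : ℤ) * a * jacobiSym l D *
      f ((a * l : ℕ)) : ℤ) : ℝ) := by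
    rw [Int.cast_mul, RelE_real, Int.cast_mul 6, e2, ← h]
    push_cast
    field_simp
  exact_mod_cast e3

/-- Relation modulo a prime. -/
theorem GoodE.rel_mod {v : WL} {t P : ℤ} {D : ℕ} (G : GoodE v t P D) (hP2 : P % 2 = 1)
    {p : ℕ} (hp : p.Prime) (hp2 : p ≠ 2)
    (hpD : ¬ (p : ℤ) ∣ D) {N : ℕ} [NeZero N] (hcop : N.Coprime D) (χ : ZMod N → ZMod p)
    (hmul : ∀ x y, χ (x * y) = χ x * χ y) (hodd : ∀ x, χ (-x) = -χ x)
    (hB : ∑ a ∈ range N, (a : ZMod p) * χ a = 0) :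
    RelE χ v t P = 0 := by
  have hF := Fact.mk hp
  have h2 : (2 : ZMod p) ≠ 0 := by
    intro h
    have : ((2 : ℕ) : ZMod p) = 0 := by exact_mod_cast h
    rw [ZMod.natCast_eq_zero_iff] at this
    exact hp2 ((Nat.prime_dvd_prime_iff_eq hp Nat.prime_two).mp this)
  have hD0 : ((D : ℤ) : ZMod p) ≠ 0 := by
    intro h
    exact hpD ((ZMod.intCast_zmod_eq_zero_iff_dvd _ p).mp h)
  have h := G.rel hP2 N hcop (fun x => ((χ x).val : ℤ) - ((χ (-x)).val : ℤ)) (fun x => by
    rw [neg_neg]; ring)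
  have hf : ∀ x, ((((χ x).val : ℤ) - ((χ (-x)).val : ℤ) : ℤ) : ZMod p) = 2 * χ x := by
    intro x
    push_cast
    rw [ZMod.natCast_zmod_val, ZMod.natCast_zmod_val, hodd]
    ring
  have h' := congrArg (fun z : ℤ => (z : ZMod p)) h
  rw [Int.cast_mul, Int.cast_mul, Int.cast_sum] at h'
  have hR : ∑ l ∈ range (N * D), ((∑ a ∈ range N, (l : ℤ) * a * jacobiSym l D *
      (((χ ((a * l : ℕ))).val : ℤ) - ((χ (-((a * l : ℕ) : ZMod N))).val : ℤ)) : ℤ) : ZMod p) = 0 := by
    apply Finset.sum_eq_zero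
    intro l _
    rw [Int.cast_sum]
    have e : ∀ a ∈ range N, (((l : ℤ) * a * jacobiSym l D *
      (((χ ((a * l : ℕ))).val : ℤ) - ((χ (-((a * l : ℕ) : ZMod N))).val : ℤ)) : ℤ) : ZMod p) =
      ((l : ZMod p) * (jacobiSym l D : ZMod p) * 2 * χ l) * ((a : ZMod p) * χ a) := by
      intro a _
      rw [Int.cast_mul, hf, Nat.cast_mul, hmul]
      push_cast
      ring
    rw [Finset.sum_congr rfl e, ← Finset.mul_sum, hB, mul_zero]
  rw [hR, mul_zero] at h'
  rcases mul_eq_zero.mp h' with h3 | h3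
  · exact absurd h3 hD0
  · have e := RelE_map (Int.castRingHom (ZMod p))
      (fun x => ((χ x).val : ℤ) - ((χ (-x)).val : ℤ)) v t P
    simp only [eq_intCast] at e
    rw [h3] at e
    have e2 : RelE (fun x => ((((χ x).val : ℤ) - ((χ (-x)).val : ℤ) : ℤ) : ZMod p)) v t P =
        2 * RelE χ v t P := by
      rw [← RelE_smul]
      congr 1
      funext x
      exact hf x
    rw [e2] at e
    rcases mul_eq_zero.mp e.symm with h4 | h4
    · exact absurd h4 h2
    · exact h4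

/-- split primes, for any parity of `t` -/
theorem splitE_of_word {w : WL} {t : ℕ} {P : ℤ} (hv : w.Pos) (h0 : 0 < w.len) (ht : 0 < t)
    (hsym : bs w t P w.len = bs w t P (w.len - 1))
    (hq : ∀ n ≤ w.len, 0 < qs w t P n) (hq1 : ∀ n, 1 ≤ n → n ≤ w.len → qs w t P n ≠ 1)
    {D : ℕ} (hD : (D : ℤ) = (t : ℤ) ^ 2 + 4 * P)
    (i1 : IsDomain (QA P (t : ℤ))) (i2 : IsPrincipalIdealRing (QA P (t : ℤ))) :
    SplitE w t P D := by
  set C := ecycW w t P hv h0 ht hsym hq hq1 with hC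
  have hD5 := C.D_ge
  have hD1' : (1 : ℤ) < D := by rw [hD]; linarith
  refine ⟨hD, by exact_mod_cast hD1', ?_⟩
  intro l hl hlD hw
  obtain ⟨n, hn⟩ := Pool.Agent.N156.EP.ECyc.split_norm C hD hl hlD hw
  have e : C.q n = qE w t P (n % (2 * w.len)) := rfl
  have hlt : n % (2 * w.len) < 2 * w.len := Nat.mod_lt _ (by omega)
  rw [e] at hn
  unfold qE at hn
  have h1 : (1 : ℤ) < l := by exact_mod_cast hl.one_lt
  split_ifs at hn with h2
  · refine ⟨n % (2 * w.len), ?_, h2, hn⟩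
    by_contra h3
    have : n % (2 * w.len) = 0 := by omega
    rw [this] at hn
    have h4 : qs w t P 0 = 1 := rfl
    rw [h4] at hn
    linarith
  · exact ⟨2 * w.len - n % (2 * w.len), by omega, by omega, hn⟩

/-- the passage from class number one to `GoodE` -/
theorem goodE_of_word {w : WL} {t : ℕ} {P : ℤ} (hv : w.Pos) (h0 : 0 < w.len) (ht : 0 < t)
    (hsym : bs w t P w.len = bs w t P (w.len - 1))
    (hq : ∀ n ≤ w.len, 0 < qs w t P n) (hq1 : ∀ n, 1 ≤ n → n ≤ w.len → qs w t P n ≠ 1)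
    {D : ℕ} (hD : (D : ℤ) = (t : ℤ) ^ 2 + 4 * P) (hodd : t % 2 = 1)
    (i1 : IsDomain (QA P (t : ℤ))) (i2 : IsPrincipalIdealRing (QA P (t : ℤ))) :
    GoodE w t P D := by
  have S := splitE_of_word hv h0 ht hsym hq hq1 hD i1 i2
  refine ⟨S, ?_⟩
  set C := ecycW w t P hv h0 ht hsym hq hq1 with hC
  have hm' : (t : ℤ) % 2 = 1 := by exact_mod_cast hodd
  intro hP2 N hN hcop f hf
  apply rel_intE (by have := S.hD1; omega)
  have h := C.main_identity (F := fun x => ((f x : ℤ) : ℝ)) hD S.hD1 hm' hP2 hcop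
    (fun x => by rw [hf]; push_cast; ring)
  rw [h]
  exact relE (fun x => by rw [hf]; push_cast; ring)

end Pool.Agent.N911
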