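import Pool.Agent.N911.U6
import Pool.Agent.N911.V1
import Pool.Agent.N911.V3

/-! Soundness of the residue search for words of even periods: stages. -/

set_option maxRecDepth 100000

namespace Pool.Agent.N911

open H419R2 Finset

theorem lk_eq (l : WL) : lk l = 2 * lf l := by
  cases l <;> rfl

section ws

variable {N : ℕ} [NeZero N] {M : Type*} [CommRing M]

/-- weighted sum -/
noncomputable def WSE (χ : ZMod N → M) : WL → Fm → M → M
  | .nil, f, w => w * SY χ (f.A : ZMod N) f.B f.C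
  | .cons a l, f, w => 12 * SE χ (f.A : ZMod N) f.B f.C + w * SY χ (f.A : ZMod N) f.B f.C +
      WSE χ l (f.step a) (((lk l * a : ℕ) : M))

theorem WSE_nil (χ : ZMod N → M) (f : Fm) (w : M) : WSE χ .nil f w =
    w * SY χ (f.A : ZMod N) f.B f.C := rfl

theorem WSE_cons (χ : ZMod N → M) (a : ℕ) (l : WL) (f : Fm) (w : M) : WSE χ (.cons a l) f w =
    12 * SE χ (f.A : ZMod N) f.B f.C + w * SY χ (f.A : ZMod N) f.B f.C +
      WSE χ l (f.step a) (((lk l * a : ℕ) : M)) := rfl

theorem WSE_eq (χ : ZMod N → M) (v : WL) (f : Fm) (w : M) :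
    WSE χ v f w = 2 * RSE χ v f + w * SY χ (f.A : ZMod N) f.B f.C := by
  induction v generalizing f w with
  | nil =>
    rw [WSE_nil, RSE_nil]
    ring
  | cons a l ih =>
    rw [WSE_cons, RSE_cons, ih, lk_eq]
    push_cast
    ring

theorem WSE_f0 (χ : ZMod N → M) (v : WL) (t P : ℤ) (w : M) :
    WSE χ v (f0 t P) w = 2 * RSE χ v (f0 t P) + w * SY χ 1 (t : ZMod N) (P : ZMod N) := by
  rw [WSE_eq]
  have e1 : (((f0 t P).A : ℤ) : ZMod N) = 1 := by
    change ((1 : ℤ) : ZMod N) = 1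
    simp
  rw [e1]
  rfl

end ws

section sums

variable {c : CD} [NeZero c.q] {D : ℤ}

theorem R2e_eq {gx ge : ℕ → ℕ → ℕ} {l1 l2 : ℕ}
    (h : HE c D (fun f => gx (7 * res f.A l1) (7 * res f.A l2)) (fun f => ge (f.ix l1) (f.ix l2)))
    (v : WL) {f : Fm} (hf : f.disc = D) (w s : ℕ) :
    ∃ S : ℕ, (S : ZMod c.p) = s + WSE (chi c.q c.p c.T) v f (w : ZMod c.p) ∧
      ∀ k, R2e gx ge v (trc l1 v f) (trc l2 v f) w s k = k S := by
  induction v generalizing f w s with
  | nil =>
    refine ⟨s + gx (7 * res f.A l1) (7 * res f.A l2) *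
      (w * (ge (f.ix l1) (f.ix l2) / 128)), ?_, ?_⟩
    · rw [WSE_nil]
      have h2 := h.hy f hf
      rw [Nat.cast_add, Nat.cast_mul, Nat.cast_mul, ← h2]
      ring
    · intro k
      have e : R2e gx ge .nil (trc l1 .nil f) (trc l2 .nil f) w s k =
        force (ge (f.ix l1) (f.ix l2)) (fun e => force (Nat.add s (Nat.mul
          (gx (7 * res f.A l1) (7 * res f.A l2))
        (Nat.mul w (Nat.div e 128)))) k) := rfl
      rw [e, force_eq, force_eq]
      rfl
  | cons a v ih =>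
    obtain ⟨S, hS, hk⟩ := ih (f := f.step a) (by rw [Fm.disc_step]; exact hf) (lk v * a)
      (s + gx (7 * res f.A l1) (7 * res f.A l2) *
      (2 * (ge (f.ix l1) (f.ix l2) % 128) + w * (ge (f.ix l1) (f.ix l2) / 128)))
    refine ⟨S, ?_, ?_⟩
    · rw [hS]
      rw [WSE_cons]
      have h1 := h.hx f hf
      have h2 := h.hy f hf
      rw [Nat.cast_add, Nat.cast_mul, Nat.cast_add, Nat.cast_mul, Nat.cast_mul, ← h2]
      push_cast
      linear_combination 2 * h1
    · intro k
      have e : R2e gx ge (.cons a v) (trc l1 (.cons a v) f) (trc l2 (.cons a v) f) w s k =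
        force (ge (f.ix l1) (f.ix l2)) (fun e => force (Nat.add s (Nat.mul
          (gx (7 * res f.A l1) (7 * res f.A l2))
        (Nat.add (Nat.mul 2 (Nat.mod e 128)) (Nat.mul w (Nat.div e 128)))))
        (fun s => R2e gx ge v (trc l1 v (f.step a)) (trc l2 v (f.step a))
          (Nat.mul (lk v) a) s k)) := rfl
      rw [e, force_eq, force_eq]
      exact hk k

theorem R3e_eq {gx ge : ℕ → ℕ → ℕ → ℕ} {l1 l2 l3 : ℕ}
    (h : HE c D (fun f => gx (7 * res f.A l1) (7 * res f.A l2) (7 * res f.A l3))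
      (fun f => ge (f.ix l1) (f.ix l2) (f.ix l3)))
    (v : WL) {f : Fm} (hf : f.disc = D) (w s : ℕ) :
    ∃ S : ℕ, (S : ZMod c.p) = s + WSE (chi c.q c.p c.T) v f (w : ZMod c.p) ∧
      ∀ k, R3e gx ge v (trc l1 v f) (trc l2 v f) (trc l3 v f) w s k = k S := by
  induction v generalizing f w s with
  | nil =>
    refine ⟨s + gx (7 * res f.A l1) (7 * res f.A l2) (7 * res f.A l3) *
      (w * (ge (f.ix l1) (f.ix l2) (f.ix l3) / 128)), ?_, ?_⟩
    · rw [WSE_nil]
      have h2 := h.hy f hf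
      rw [Nat.cast_add, Nat.cast_mul, Nat.cast_mul, ← h2]
      ring
    · intro k
      have e : R3e gx ge .nil (trc l1 .nil f) (trc l2 .nil f) (trc l3 .nil f) w s k =
        force (ge (f.ix l1) (f.ix l2) (f.ix l3)) (fun e => force (Nat.add s (Nat.mul
          (gx (7 * res f.A l1) (7 * res f.A l2) (7 * res f.A l3))
        (Nat.mul w (Nat.div e 128)))) k) := rfl
      rw [e, force_eq, force_eq]
      rfl
  | cons a v ih =>
    obtain ⟨S, hS, hk⟩ := ih (f := f.step a) (by rw [Fm.disc_step]; exact hf) (lk v * a)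
      (s + gx (7 * res f.A l1) (7 * res f.A l2) (7 * res f.A l3) *
      (2 * (ge (f.ix l1) (f.ix l2) (f.ix l3) % 128) +
        w * (ge (f.ix l1) (f.ix l2) (f.ix l3) / 128)))
    refine ⟨S, ?_, ?_⟩
    · rw [hS]
      rw [WSE_cons]
      have h1 := h.hx f hf
      have h2 := h.hy f hf
      rw [Nat.cast_add, Nat.cast_mul, Nat.cast_add, Nat.cast_mul, Nat.cast_mul, ← h2]
      push_cast
      linear_combination 2 * h1
    · intro k
      have e : R3e gx ge (.cons a v) (trc l1 (.cons a v) f) (trc l2 (.cons a v) f)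
          (trc l3 (.cons a v) f) w s k =
        force (ge (f.ix l1) (f.ix l2) (f.ix l3)) (fun e => force (Nat.add s (Nat.mul
          (gx (7 * res f.A l1) (7 * res f.A l2) (7 * res f.A l3))
        (Nat.add (Nat.mul 2 (Nat.mod e 128)) (Nat.mul w (Nat.div e 128)))))
        (fun s => R3e gx ge v (trc l1 v (f.step a)) (trc l2 v (f.step a)) (trc l3 v (f.step a))
          (Nat.mul (lk v) a) s k)) := rfl
      rw [e, force_eq, force_eq]
      exact hk k

theorem R0e_eq {X0 E0 : ℕ → ℕ} {l1 l2 : ℕ}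
    (h : HE c D (fun f => sl1 (X0 (7 * res f.A l1)) (7 * res f.A l2))
      (fun f => sl1 (E0 (f.ix l1)) (f.ix l2)))
    (v : WL) {f : Fm} (hf : f.disc = D) (w : ZMod c.p) (s : ℕ) :
    ∃ S : ℕ, (S : ZMod c.p) = 2 * s + WSE (chi c.q c.p c.T) v f w ∧
      ∀ k, R0e v (mp X0 E0 (trc l1 v f)) (trc l2 v f) s k = k S := by
  have hx : ∀ f : Fm, f.disc = D → (sl1 (X0 (7 * res f.A l1)) (7 * res f.A l2) : ZMod c.p) *
      ((sl1 (E0 (f.ix l1)) (f.ix l2) : ℕ) : ZMod c.p) =
      6 * SE (chi c.q c.p c.T) (f.A : ZMod c.q) f.B f.C := by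
    intro f hf
    have := h.hx f hf
    rw [Nat.mod_eq_of_lt (sl1_lt _ _)] at this
    exact this
  have hy : ∀ f : Fm, f.disc = D → SY (chi c.q c.p c.T) (f.A : ZMod c.q) f.B f.C = 0 := by
    intro f hf
    have := h.hy f hf
    rw [Nat.div_eq_of_lt (sl1_lt _ _), Nat.cast_zero, mul_zero] at this
    exact this.symm
  induction v generalizing f w s with
  | nil =>
    refine ⟨2 * s, ?_, ?_⟩
    · rw [WSE_nil]
      rw [hy f hf]
      push_cast
      ring
    · intro k
      have e : R0e .nil (mp X0 E0 (trc l1 .nil f)) (trc l2 .nil f) s k =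
        force (Nat.mul 2 s) k := rfl
      rw [e, force_eq]
      rfl
  | cons a v ih =>
    obtain ⟨S, hS, hk⟩ := ih (f := f.step a) (by rw [Fm.disc_step]; exact hf)
      (((lk v * a : ℕ) : ZMod c.p))
      (s + sl1 (X0 (7 * res f.A l1)) (7 * res f.A l2) * sl1 (E0 (f.ix l1)) (f.ix l2))
    refine ⟨S, ?_, ?_⟩
    · rw [hS]
      rw [WSE_cons]
      have h1 := hx f hf
      rw [hy f hf]
      push_cast
      linear_combination 2 * h1
    · intro k
      have e : R0e (.cons a v) (mp X0 E0 (trc l1 (.cons a v) f)) (trc l2 (.cons a v) f) s k =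
        force (Nat.add s (Nat.mul (sl1 (X0 (7 * res f.A l1)) (7 * res f.A l2))
          (sl1 (E0 (f.ix l1)) (f.ix l2)))) (fun s => R0e v (mp X0 E0 (trc l1 v (f.step a)))
            (trc l2 v (f.step a)) s k) := rfl
      rw [e, force_eq]
      exact hk k

theorem relE_two {v : WL} {t P : ℤ} (hR : RelE (chi c.q c.p c.T) v t P = 0) :
    WSE (chi c.q c.p c.T) v (f0 t P) (2 * t : ZMod c.p) = 0 := by
  rw [WSE_f0]
  unfold RelE at hR
  linear_combination 2 * hR

theorem ck2e_sound {gx ge : ℕ → ℕ → ℕ} {l1 l2 : ℕ} {t P : ℤ}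
    (h : HE c (t ^ 2 + 4 * P) (fun f => gx (7 * res f.A l1) (7 * res f.A l2))
      (fun f => ge (f.ix l1) (f.ix l2)))
    {v : WL} (hR : RelE (chi c.q c.p c.T) v t P = 0) {p tt : ℕ} (hp : c.p = p)
    (ht : (tt : ZMod p) = t) :
    ck2e p gx ge v (trc l1 v (f0 t P)) (trc l2 v (f0 t P)) tt = true := by
  subst hp
  obtain ⟨S, hS, hk⟩ := R2e_eq h v (f0_disc t P) (Nat.mul 2 tt) 0
  unfold ck2e
  rw [hk]
  apply beq_mod
  rw [hS, nmul, Nat.cast_mul, ht, Nat.cast_zero, zero_add]
  exact relE_two hR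

theorem ck3e_sound {gx ge : ℕ → ℕ → ℕ → ℕ} {l1 l2 l3 : ℕ} {t P : ℤ}
    (h : HE c (t ^ 2 + 4 * P) (fun f => gx (7 * res f.A l1) (7 * res f.A l2) (7 * res f.A l3))
      (fun f => ge (f.ix l1) (f.ix l2) (f.ix l3)))
    {v : WL} (hR : RelE (chi c.q c.p c.T) v t P = 0) {p tt : ℕ} (hp : c.p = p)
    (ht : (tt : ZMod p) = t ∨ SY (chi c.q c.p c.T) 1 (t : ZMod c.q) (P : ZMod c.q) = 0) :
    ck3e p gx ge v (trc l1 v (f0 t P)) (trc l2 v (f0 t P)) (trc l3 v (f0 t P)) tt = true := by
  subst hp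
  obtain ⟨S, hS, hk⟩ := R3e_eq h v (f0_disc t P) (Nat.mul 2 tt) 0
  unfold ck3e
  rw [hk]
  apply beq_mod
  rw [hS, nmul, Nat.cast_mul, Nat.cast_zero, zero_add]
  rcases ht with ht | ht
  · rw [ht]
    exact relE_two hR
  · have h1 := relE_two hR
    rw [WSE_f0, ht, mul_zero] at h1
    rw [WSE_f0, ht, mul_zero]
    exact h1

theorem ck0e_sound {X0 E0 : ℕ → ℕ} {l1 l2 : ℕ} {t P : ℤ}
    (h : HE c (t ^ 2 + 4 * P) (fun f => sl1 (X0 (7 * res f.A l1)) (7 * res f.A l2))
      (fun f => sl1 (E0 (f.ix l1)) (f.ix l2)))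
    {v : WL} (hR : RelE (chi c.q c.p c.T) v t P = 0) {p : ℕ} (hp : c.p = p) :
    ck0e p v (mp X0 E0 (trc l1 v (f0 t P))) (trc l2 v (f0 t P)) = true := by
  subst hp
  obtain ⟨S, hS, hk⟩ := R0e_eq h v (f0_disc t P) (2 * t : ZMod c.p) 0
  unfold ck0e
  rw [hk]
  apply beq_mod
  rw [hS, Nat.cast_zero, mul_zero, zero_add]
  exact relE_two hR

theorem co2e_sound {gx ge : ℕ → ℕ → ℕ} {l1 l2 : ℕ} {t P : ℤ}
    (h : HE c (t ^ 2 + 4 * P) (fun f => gx (7 * res f.A l1) (7 * res f.A l2))
      (fun f => ge (f.ix l1) (f.ix l2)))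
    {v : WL} (hR : RelE (chi c.q c.p c.T) v t P = 0) {g : ℕ → ℕ → Bool}
    (hg : co2e gx ge v (trc l1 v (f0 t P)) (trc l2 v (f0 t P)) g = true) :
    ∃ K c' : ℕ, (K : ZMod c.p) + c' * t = 0 ∧ g K c' = true := by
  obtain ⟨S, hS, hk⟩ := R2e_eq h v (f0_disc t P) 0 0
  unfold co2e at hg
  rw [hk] at hg
  refine ⟨S, 2 * (ge ((f0 t P).ix l1) ((f0 t P).ix l2) / 128), ?_, ?_⟩
  · have h1 := h.h0 t P (f0_disc t P)
    rw [Nat.cast_mul, h1, hS, Nat.cast_zero, zero_add, WSE_f0, zero_mul, add_zero]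
    unfold RelE at hR
    push_cast
    linear_combination 2 * hR
  · cases v with
    | nil =>
      have e : (TL.hd (trc l1 .nil (f0 t P)) (fun _ i _ => TL.hd (trc l2 .nil (f0 t P))
        (fun _ i' _ => force (Nat.mul 2 (Nat.div (ge i i') 128)) (fun c => g S c)))) =
        force (Nat.mul 2 (Nat.div (ge ((f0 t P).ix l1) ((f0 t P).ix l2)) 128))
          (fun c => g S c) := rfl
      rw [e, force_eq] at hg
      exact hg
    | cons a v =>
      have e : (TL.hd (trc l1 (.cons a v) (f0 t P)) (fun _ i _ =>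
        TL.hd (trc l2 (.cons a v) (f0 t P))
        (fun _ i' _ => force (Nat.mul 2 (Nat.div (ge i i') 128)) (fun c => g S c)))) =
        force (Nat.mul 2 (Nat.div (ge ((f0 t P).ix l1) ((f0 t P).ix l2)) 128))
          (fun c => g S c) := rfl
      rw [e, force_eq] at hg
      exact hg

theorem co3e_sound {gx ge : ℕ → ℕ → ℕ → ℕ} {l1 l2 l3 : ℕ} {t P : ℤ}
    (h : HE c (t ^ 2 + 4 * P) (fun f => gx (7 * res f.A l1) (7 * res f.A l2) (7 * res f.A l3))
      (fun f => ge (f.ix l1) (f.ix l2) (f.ix l3)))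
    {v : WL} (hR : RelE (chi c.q c.p c.T) v t P = 0) {g : ℕ → ℕ → Bool}
    (hg : co3e gx ge v (trc l1 v (f0 t P)) (trc l2 v (f0 t P)) (trc l3 v (f0 t P)) g = true) :
    ∃ K c' : ℕ, (K : ZMod c.p) + c' * t = 0 ∧ g K c' = true := by
  obtain ⟨S, hS, hk⟩ := R3e_eq h v (f0_disc t P) 0 0
  unfold co3e at hg
  rw [hk] at hg
  refine ⟨S, 2 * (ge ((f0 t P).ix l1) ((f0 t P).ix l2) ((f0 t P).ix l3) / 128), ?_, ?_⟩
  · have h1 := h.h0 t P (f0_disc t P)
    rw [Nat.cast_mul, h1, hS, Nat.cast_zero, zero_add, WSE_f0, zero_mul, add_zero]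
    unfold RelE at hR
    push_cast
    linear_combination 2 * hR
  · cases v with
    | nil =>
      have e : (TL.hd (trc l1 .nil (f0 t P)) (fun _ i _ => TL.hd (trc l2 .nil (f0 t P))
        (fun _ i' _ => TL.hd (trc l3 .nil (f0 t P)) (fun _ i2 _ =>
        force (Nat.mul 2 (Nat.div (ge i i' i2) 128)) (fun c => g S c))))) =
        force (Nat.mul 2 (Nat.div (ge ((f0 t P).ix l1) ((f0 t P).ix l2) ((f0 t P).ix l3)) 128))
          (fun c => g S c) := rfl
      rw [e, force_eq] at hg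
      exact hg
    | cons a v =>
      have e : (TL.hd (trc l1 (.cons a v) (f0 t P)) (fun _ i _ =>
        TL.hd (trc l2 (.cons a v) (f0 t P))
        (fun _ i' _ => TL.hd (trc l3 (.cons a v) (f0 t P)) (fun _ i2 _ =>
        force (Nat.mul 2 (Nat.div (ge i i' i2) 128)) (fun c => g S c))))) =
        force (Nat.mul 2 (Nat.div (ge ((f0 t P).ix l1) ((f0 t P).ix l2) ((f0 t P).ix l3)) 128))
          (fun c => g S c) := rfl
      rw [e, force_eq] at hg
      exact hg

end sums

/-- what is used about a word and its parameters -/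
structure SysE (v : WL) (t P : ℤ) (U x y : ℕ) : Prop where
  base : Base (t ^ 2 + 4 * P)
  lin : LinW t P U x y
  rel : ∀ c : CD, c.OK → c.q ∣ M1n → c.p ∣ M1n → ∀ _ : NeZero c.q,
    RelE (chi c.q c.p c.T) v t P = 0

section stages

variable {v : WL} {t P : ℤ} {U x y : ℕ} (S : SysE v t P U x y)

include S

theorem w73e_sound (h : w73e c133_73 U x y v (trc 7 v (f0 t P)) (trc 19 v (f0 t P)) = true) :
    False := by
  have i1 : NeZero c133_73.q := ⟨by decide +kernel⟩
  unfold w73e at h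
  obtain ⟨K, c', e, h⟩ := co2e_sound (he_133_73 S.base)
    (S.rel c133_73 c133_73_ok (by decide +kernel) (by decide +kernel) i1) h
  have h1 := enW_sound S.base S.lin m73 (by norm_num) ci73 iq73 v h
  have h2 := imp_true h1 (ln_sound e (res_cast' t (by norm_num)))
  exact absurd h2 (by simp)

theorem w43e_sound (h : w43e c333_43 U x y v (res t 3) (trc 37 v (f0 t P)) = true) :
    False := by
  have i1 : NeZero c333_43.q := ⟨by decide +kernel⟩
  unfold w43e at h
  have h1 := enN_sound S.base S.lin (l := 9) (by norm_num) (by decide +kernel)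
    (not_sq9 (S.base.nsq 3 m3)) ci9 iq9 v h
  have h2 := imp_true h1 (by
    have : Nat.mod (res t 9) 3 = res t 3 := res_mod t (by norm_num) (by norm_num) (by norm_num)
    rw [this]
    exact Nat.beq_refl _)
  obtain ⟨K, c', e, h⟩ := co2e_sound (he_333 S.base)
    (S.rel c333_43 c333_43_ok (by decide +kernel) (by decide +kernel) i1) h2
  have h1 := enW_sound S.base S.lin m43 (by norm_num) ci43 iq43 v h
  have h2 := imp_true h1 (ln_sound e (res_cast' t (by norm_num)))
  exact absurd h2 (by simp)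

theorem w13e_sound (h : w13e c133_73 c333_43 U x y v (res t 37) (res t 3) (trc 37 v (f0 t P))
    (trc 7 v (f0 t P)) (trc 19 v (f0 t P)) (trc 3 v (f0 t P)) (trc 5 v (f0 t P)) = true) :
    False := by
  have i1 : NeZero c95_13.q := ⟨by decide +kernel⟩
  have i2 : NeZero c105_13.q := ⟨by decide +kernel⟩
  have i3 : NeZero c185_13.q := ⟨by decide +kernel⟩
  have i4 : NeZero c133_13.q := ⟨by decide +kernel⟩
  have i5 : NeZero c91_37.q := ⟨by decide +kernel⟩
  unfold w13e at h
  obtain ⟨K, c', e, h⟩ := co2e_sound (he_95 S.base)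
    (S.rel c95_13 c95_13_ok (by decide +kernel) (by decide +kernel) i1) h
  obtain ⟨K1, c1, e1, h⟩ := co3e_sound (he_105 S.base)
    (S.rel c105_13 c105_13_ok (by decide +kernel) (by decide +kernel) i2) h
  obtain ⟨K2, c2, e2, h⟩ := co2e_sound (he_185 S.base)
    (S.rel c185_13 c185_13_ok (by decide +kernel) (by decide +kernel) i3) h
  obtain ⟨K3, c3, e3, h⟩ := co2e_sound (he_133_13 S.base)
    (S.rel c133_13 c133_13_ok (by decide +kernel) (by decide +kernel) i4) h
  have h1 := enW_sound S.base S.lin m13 (by norm_num) ci13 iq13 v h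
  have ht := res_cast' t (show 0 < 13 by norm_num)
  have h2 := imp_true (imp_true (imp_true (imp_true h1 (ln_sound e ht)) (ln_sound e1 ht))
    (ln_sound e2 ht)) (ln_sound e3 ht)
  have h3 := imp_true h2 (ck2e_sound (he_91 S.base)
    (S.rel c91_37 c91_37_ok (by decide +kernel) (by decide +kernel) i5) rfl
    (res_cast' t (show 0 < 37 by norm_num)))
  cases hb : w73e c133_73 U x y v (trc 7 v (f0 t P)) (trc 19 v (f0 t P)) with
  | true => exact w73e_sound S hb
  | false =>
    rw [hb] at h3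
    exact w43e_sound S h3

theorem w3e_sound {S4 : SL} (hS4 : SL.Mem (trc 4 v (f0 t P)) S4)
    (h : w3e c133_73 c333_43 U x y v (res t 37) S4 (trc 37 v (f0 t P))
      (mp (sl 4 X148_7) (sl 16 E148_7) (trc 37 v (f0 t P)))
      (mp (sl 4 X148_19) (sl 16 E148_19) (trc 37 v (f0 t P)))
      (trc 7 v (f0 t P)) (res t 19) (trc 19 v (f0 t P)) = true) : False := by
  have i1 : NeZero c111_19_0.q := ⟨by decide +kernel⟩
  have i2 : NeZero c111_19_1.q := ⟨by decide +kernel⟩
  have i3 : NeZero c148_7.q := ⟨by decide +kernel⟩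
  have i4 : NeZero c148_19.q := ⟨by decide +kernel⟩
  have i5 : NeZero c228_7.q := ⟨by decide +kernel⟩
  have i6 : NeZero c140_13.q := ⟨by decide +kernel⟩
  unfold w3e at h
  have h1 := enW_sound S.base S.lin m3 (by norm_num) ci3 iq3 v h
  have ht := res_cast' t (show 0 < 19 by norm_num)
  have h2 := imp_true h1 (ck2e_sound (he_111_0 S.base)
    (S.rel c111_19_0 c111_19_0_ok (by decide +kernel) (by decide +kernel) i1) rfl ht)
  have h3 := imp_true h2 (ck2e_sound (he_111_1 S.base)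
    (S.rel c111_19_1 c111_19_1_ok (by decide +kernel) (by decide +kernel) i2) rfl ht)
  have h4 := SL.all_mem h3 hS4
  have h5 := imp_true h4 (ck0e_sound (he_148_7 S.base)
    (S.rel c148_7 c148_7_ok (by decide +kernel) (by decide +kernel) i3) rfl)
  have h6 := imp_true h5 (ck0e_sound (he_148_19 S.base)
    (S.rel c148_19 c148_19_ok (by decide +kernel) (by decide +kernel) i4) rfl)
  have z1 : SY (chi c228_7.q c228_7.p c228_7.T) 1 (t : ZMod c228_7.q) (P : ZMod c228_7.q) = 0 := by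
    have := (he_228 S.base).h0 t P (f0_disc t P)
    rw [← this]
    have e : e228 ((f0 t P).ix 19) ((f0 t P).ix 3) ((f0 t P).ix 4) / 128 = 0 :=
      Nat.div_eq_of_lt (sl1_lt _ _)
    rw [e]; simp
  have z2 : SY (chi c140_13.q c140_13.p c140_13.T) 1 (t : ZMod c140_13.q) (P : ZMod c140_13.q) =
      0 := by
    have := (he_140 S.base).h0 t P (f0_disc t P)
    rw [← this]
    have e : e140 ((f0 t P).ix 7) ((f0 t P).ix 4) ((f0 t P).ix 5) / 128 = 0 :=
      Nat.div_eq_of_lt (sl1_lt _ _)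
    rw [e]; simp
  have h7 := imp_true h6 (ck3e_sound (he_228 S.base)
    (S.rel c228_7 c228_7_ok (by decide +kernel) (by decide +kernel) i5) rfl (Or.inr z1))
  have h8 := enW_sound S.base S.lin m5 (by norm_num) ci5 iq5 v h7
  have h9 := imp_true h8 (ck3e_sound (he_140 S.base)
    (S.rel c140_13 c140_13_ok (by decide +kernel) (by decide +kernel) i6) rfl (Or.inr z2))
  exact w13e_sound S h9

theorem w7e_sound {S4 : SL} (hS4 : SL.Mem (trc 4 v (f0 t P)) S4)
    (h : w7e c133_73 c333_43 U x y v (res t 37) S4 (trc 37 v (f0 t P))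
      (mp (sl 4 X148_7) (sl 16 E148_7) (trc 37 v (f0 t P)))
      (mp (sl 4 X148_19) (sl 16 E148_19) (trc 37 v (f0 t P))) = true) : False := by
  have i1 : NeZero c259_19_0.q := ⟨by decide +kernel⟩
  have i2 : NeZero c259_19_1.q := ⟨by decide +kernel⟩
  have i3 : NeZero c259_19_2.q := ⟨by decide +kernel⟩
  have i4 : NeZero c133_37.q := ⟨by decide +kernel⟩
  unfold w7e at h
  rw [mapT_eq] at h
  have h1 := enW_sound S.base S.lin m7 (by norm_num) ci7 iq7 v h
  have h2 := imp_true h1 (ck0e_sound (he_259_2 S.base)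
    (S.rel c259_19_2 c259_19_2_ok (by decide +kernel) (by decide +kernel) i3) rfl)
  obtain ⟨K, c', e, h3⟩ := co2e_sound (he_259_0 S.base)
    (S.rel c259_19_0 c259_19_0_ok (by decide +kernel) (by decide +kernel) i1) h2
  obtain ⟨K1, c1, e1, h4⟩ := co2e_sound (he_259_1 S.base)
    (S.rel c259_19_1 c259_19_1_ok (by decide +kernel) (by decide +kernel) i2) h3
  have h5 := enW_sound S.base S.lin m19 (by norm_num) ci19 iq19 v h4
  have ht := res_cast' t (show 0 < 19 by norm_num)
  have h6 := imp_true (imp_true h5 (ln_sound e ht)) (ln_sound e1 ht)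
  have h7 := imp_true h6 (ck2e_sound (he_133_37 S.base)
    (S.rel c133_37 c133_37_ok (by decide +kernel) (by decide +kernel) i4) rfl
    (res_cast' t (show 0 < 37 by norm_num)))
  exact w3e_sound S hS4 h7

/-- the residue search is sound -/
theorem wOKe_sound (h : wOKe c133_73 c333_43 U x y v = true) : False := by
  have i3 : NeZero c148_7.q := ⟨by decide +kernel⟩
  have i4 : NeZero c148_19.q := ⟨by decide +kernel⟩
  unfold wOKe at h
  obtain ⟨S4, hS4, h⟩ := cl4_sound S.base S.lin v _ h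
  have h1 := enW_sound S.base S.lin m37 (by norm_num) ci37 iq37 v h
  rw [mapT_eq, mapT_eq] at h1
  generalize hb : S4.all (fun T4 => imp (ck0e 7 v
      (mp (sl 4 X148_7) (sl 16 E148_7) (trc 37 v (f0 t P))) T4) (imp (ck0e 19 v
      (mp (sl 4 X148_19) (sl 16 E148_19) (trc 37 v (f0 t P))) T4) false)) = bb at h1
  cases bb with
  | true =>
    have h4 := SL.all_mem hb hS4
    have h5 := imp_true h4 (ck0e_sound (he_148_7 S.base)
      (S.rel c148_7 c148_7_ok (by decide +kernel) (by decide +kernel) i3) rfl)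
    have h6 := imp_true h5 (ck0e_sound (he_148_19 S.base)
      (S.rel c148_19 c148_19_ok (by decide +kernel) (by decide +kernel) i4) rfl)
    exact absurd h6 (by simp)
  | false => exact w7e_sound S hS4 h1

end stages

end Pool.Agent.N911
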