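import Pool.Agent.N911.U7
import Pool.Agent.N911.V1
import Pool.Agent.N911.V2
import Pool.Agent.N911.K4

/-! The traversal of words of even periods, and the word and the parameters of a solution. -/

set_option maxRecDepth 100000

namespace Pool.Agent.N911

open H419R2

theorem Desc.ne_nil {w u : WL} (h : Desc w u) (hu : u ≠ .nil) : w ≠ .nil := by
  cases h with
  | refl => exact hu
  | step a ha h => simp

theorem trE_mono {a : ℕ} (ha : 1 ≤ a) {l : WL} (hl : l ≠ .nil) :
    (trE l).1 ≤ (trE (WL.cons a l)).1 := by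
  rw [trE_cons a hl]
  change (trE l).1 ≤ (trE l).2.2 + (2 * a * (trE l).2.1 + a * a * (trE l).1)
  have : 1 * (trE l).1 ≤ a * a * (trE l).1 := Nat.mul_le_mul_right _ (Nat.mul_le_mul ha ha)
  omega

theorem Desc.monoE {w u : WL} (h : Desc w u) (hu : u ≠ .nil) : (trE u).1 ≤ (trE w).1 := by
  induction h with
  | refl u => exact le_rfl
  | step a ha h ih => exact (ih hu).trans (trE_mono ha (h.ne_nil hu))

theorem trE_mono_a {a b : ℕ} (h : a ≤ b) {l : WL} (hl : l ≠ .nil) :
    (trE (WL.cons a l)).1 ≤ (trE (WL.cons b l)).1 := by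
  rw [trE_cons a hl, trE_cons b hl]
  change (trE l).2.2 + (2 * a * (trE l).2.1 + a * a * (trE l).1) ≤
    (trE l).2.2 + (2 * b * (trE l).2.1 + b * b * (trE l).1)
  have h1 : 2 * a * (trE l).2.1 ≤ 2 * b * (trE l).2.1 :=
    Nat.mul_le_mul_right _ (Nat.mul_le_mul_left _ h)
  have h2 : a * a * (trE l).1 ≤ b * b * (trE l).1 := Nat.mul_le_mul_right _ (Nat.mul_le_mul h h)
  omega

theorem walk_soundE {F lo hi : ℕ} {check : WL → ℕ → ℕ → ℕ → Bool} {fuel : ℕ} :
    ∀ (v : WL) (a : ℕ), v ≠ .nil →
    walk F lo hi check fuel v (trE v).1 (trE v).2.1 (trE v).2.2 a = true →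
    ∀ b, a ≤ b → ∀ w, Desc w (.cons b v) → (trE w).1 ≤ F → lo ≤ (trE w).1 → (trE w).1 < hi →
    check w (trE w).1 (trE w).2.1 (trE w).2.2 = true := by
  induction fuel with
  | zero =>
    intro v a _ h
    exact absurd h (by simp [walk])
  | succ n ih =>
    intro v a hv h b hab w hw hF hlo hhi
    have e : walk F lo hi check (n + 1) v (trE v).1 (trE v).2.1 (trE v).2.2 a =
      force (Nat.add (trE v).2.2 (Nat.add (Nat.mul (Nat.mul 2 a) (trE v).2.1)
        (Nat.mul (Nat.mul a a) (trE v).1))) (fun U' =>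
      @Bool.rec (fun _ => Bool) true
        (force (Nat.add (trE v).2.1 (Nat.mul a (trE v).1)) (fun x' =>
          cj (@Bool.rec (fun _ => Bool) true (@Bool.rec (fun _ => Bool)
              (check (WL.cons a v) U' x' (trE v).1) true (Nat.ble hi U')) (Nat.ble lo U'))
            (cj (walk F lo hi check n (WL.cons a v) U' x' (trE v).1 1)
              (force (Nat.succ a) (fun b => walk F lo hi check n v (trE v).1 (trE v).2.1
                (trE v).2.2 b)))))
        (Nat.ble U' F)) := rfl
    rw [e, force_eq, force_eq, force_eq] at h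
    have eU : Nat.add (trE v).2.2 (Nat.add (Nat.mul (Nat.mul 2 a) (trE v).2.1)
        (Nat.mul (Nat.mul a a) (trE v).1)) = (trE (WL.cons a v)).1 := by
      rw [trE_cons a hv]; rfl
    have ex : Nat.add (trE v).2.1 (Nat.mul a (trE v).1) = (trE (WL.cons a v)).2.1 := by
      rw [trE_cons a hv]; rfl
    have ey : (trE v).1 = (trE (WL.cons a v)).2.2 := by
      rw [trE_cons a hv]
    rw [eU, ex] at h
    have hU : (trE (WL.cons a v)).1 ≤ F :=
      (trE_mono_a hab hv).trans ((hw.monoE (by simp)).trans hF)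
    rw [Nat.ble_eq_true_of_le hU] at h
    change cj (@Bool.rec (fun _ => Bool) true (@Bool.rec (fun _ => Bool)
              (check (WL.cons a v) (trE (WL.cons a v)).1 (trE (WL.cons a v)).2.1 (trE v).1) true
              (Nat.ble hi (trE (WL.cons a v)).1)) (Nat.ble lo (trE (WL.cons a v)).1))
            (cj (walk F lo hi check n (WL.cons a v) (trE (WL.cons a v)).1
              (trE (WL.cons a v)).2.1 (trE v).1 1)
              (walk F lo hi check n v (trE v).1 (trE v).2.1 (trE v).2.2 (Nat.succ a))) = true at h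
    have hcj : ∀ {c x : Bool}, cj c x = true → c = true ∧ x = true := by
      intro c x h
      cases c <;> cases x <;> simp_all [cj]
    obtain ⟨h1, h2⟩ := hcj h
    obtain ⟨h2, h3⟩ := hcj h2
    rcases Nat.lt_or_ge a b with hlt | hge
    · exact ih v _ hv h3 b hlt w hw hF hlo hhi
    · have hab' : b = a := le_antisymm hge hab
      subst hab'
      rcases hw.split with rfl | ⟨c, hc, hw'⟩
      · rw [Nat.ble_eq_true_of_le hlo] at h1
        have hh : Nat.ble hi (trE (WL.cons b v)).1 = false := by
          rw [Bool.eq_false_iff]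
          intro h'
          have := Nat.le_of_ble_eq_true h'
          omega
        rw [hh] at h1
        rw [← ey]
        exact h1
      · rw [ey] at h2
        exact ih (.cons b v) 1 (by simp) h2 c hc w hw' hF hlo hhi

theorem walkE_all {lo hi : ℕ} {check : WL → ℕ → ℕ → ℕ → Bool} {fuel : ℕ}
    (h : walkE lo hi check fuel = true) {w : WL} (hp : w.Pos) (hn : w ≠ .nil)
    (hlo : lo ≤ (trE w).1) (hhi : (trE w).1 < hi) :
    check w (trE w).1 (trE w).2.1 (trE w).2.2 = true := by
  obtain ⟨c, hc, hw⟩ := desc_of_pos hp hn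
  have hcU : c ≤ (trE w).1 := by
    have := hw.monoE (by simp)
    rw [trE_one] at this
    exact this
  unfold walkE at h
  rw [allN_iff] at h
  have h1 := h c (by omega)
  obtain ⟨k, rfl⟩ : ∃ k, c = k + 1 := ⟨c - 1, by omega⟩
  change cj (@Bool.rec (fun _ => Bool) true (check (WL.cons (k + 1) WL.nil) (k + 1) 1 0)
    (Nat.ble lo (k + 1)))
      (walk (Nat.pred hi) lo hi check fuel (WL.cons (k + 1) WL.nil) (k + 1) 1 0 1) = true at h1
  rw [cj_true] at h1
  obtain ⟨h2, h3⟩ := h1
  rcases hw.split with rfl | ⟨b, hb, hw'⟩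
  · rw [trE_one] at hlo hhi ⊢
    rw [Nat.ble_eq_true_of_le hlo] at h2
    exact h2
  · refine walk_soundE (fuel := fuel) (WL.cons (k + 1) WL.nil) 1 (by simp) ?_ b hb w hw'
      (F := Nat.pred hi) ?_
      hlo hhi
    · rw [trE_one]
      exact h3
    · rw [Nat.pred_eq_sub_one]
      omega

/-- every admissible triple comes from a word -/
theorem exists_wordE : ∀ (U x y : ℕ), 0 < U → U * y + 1 = x ^ 2 → x ≤ U →
    ∃ v : WL, v.Pos ∧ v ≠ .nil ∧ trE v = (U, x, y) := by
  intro U
  induction U using Nat.strong_induction_on with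
  | _ U ih =>
    intro x y hU h hx
    have hx0 : 0 < x := by
      rcases Nat.eq_zero_or_pos x with h0 | h0
      · subst h0; omega
      · exact h0
    rcases Nat.eq_or_lt_of_le hx0 with h0 | hx1
    · have hx1 : x = 1 := h0.symm
      subst hx1
      have hy : U * y = 0 := by omega
      have hy0 : y = 0 := by
        rcases Nat.mul_eq_zero.mp hy with h1 | h1
        · omega
        · exact h1
      exact ⟨.cons U .nil, ⟨hU, trivial⟩, by simp, by rw [trE_one, hy0]⟩
    · have hy0 : 0 < y := by
        rcases Nat.eq_zero_or_pos y with h1 | h1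
        · rw [h1] at h
          have : 2 * 2 ≤ x * x := Nat.mul_le_mul hx1 hx1
          have e : x ^ 2 = x * x := by ring
          omega
        · exact h1
      have hxU : x < U := by
        rcases Nat.eq_or_lt_of_le hx with h1 | h1
        · exfalso
          rw [← h1] at h
          have h2 : x ∣ 1 := by
            have h3 : x ∣ x * y := ⟨y, rfl⟩
            have h4 : x ∣ x * y + 1 := by rw [h]; exact ⟨x, by ring⟩
            exact (Nat.dvd_add_right h3).mp h4
          have := Nat.le_of_dvd one_pos h2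
          omega
        · exact h1
      have hyx : y ≤ x - 1 := by
        by_contra hc
        push Not at hc
        have h1 : x ≤ y := by omega
        have : (x + 1) * x ≤ U * y := Nat.mul_le_mul hxU h1
        have e : (x + 1) * x = x ^ 2 + x := by ring
        omega
      have hyU : y < U := by omega
      set a := (x - 1) / y with ha
      have ha1 : 1 ≤ a := (Nat.one_le_div_iff hy0).mpr hyx
      set r := (x - 1) % y + 1 with hr
      have hry : r ≤ y := Nat.mod_lt _ hy0
      have hxr : x = r + a * y := by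
        have h1 := Nat.mod_add_div (x - 1) y
        have h2 : y * ((x - 1) / y) = a * y := by rw [ha]; ring
        omega
      -- the third entry
      have hdiv : ∃ z : ℕ, y * z + 1 = r ^ 2 := by
        have h1 : (y : ℤ) ∣ (r : ℤ) ^ 2 - 1 := by
          refine ⟨U - 2 * a * r - a ^ 2 * y, ?_⟩
          have h2 : (U : ℤ) * y + 1 = (r + a * y) ^ 2 := by
            have := h
            rw [hxr] at this
            exact_mod_cast this
          linear_combination -h2
        obtain ⟨z, hz⟩ := h1
        have hr1 : 1 ≤ r := by omega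
        have hz0 : 0 ≤ z := by
          by_contra hc
          push Not at hc
          have h3 : (y : ℤ) * z < 0 := mul_neg_of_pos_of_neg (by exact_mod_cast hy0) hc
          have h4 : (1 : ℤ) ≤ r := by exact_mod_cast hr1
          nlinarith
        obtain ⟨z', rfl⟩ := Int.eq_ofNat_of_zero_le hz0
        refine ⟨z', ?_⟩
        have : ((y * z' + 1 : ℕ) : ℤ) = ((r ^ 2 : ℕ) : ℤ) := by push_cast; linarith
        exact_mod_cast this
      obtain ⟨z, hz⟩ := hdiv
      obtain ⟨l, hl, hln, htr⟩ := ih y hyU r z hy0 hz hry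
      refine ⟨.cons a l, ⟨ha1, hl⟩, by simp, ?_⟩
      rw [trE_cons a hln, htr]
      have hUe : z + (2 * a * r + a * a * y) = U := by
        have h2 : U * y + 1 = (r + a * y) ^ 2 := by
          have := h
          rw [hxr] at this
          exact this
        have h3 : (z + (2 * a * r + a * a * y)) * y = U * y := by
          have h4 : (z + (2 * a * r + a * a * y)) * y + 1 = U * y + 1 := by
            rw [h2]
            linear_combination hz
          omega
        exact Nat.eq_of_mul_eq_mul_right hy0 h3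
      rw [Prod.mk.injEq, Prod.mk.injEq]
      exact ⟨hUe, by rw [← hxr], rfl⟩

/-- every solution has parameters -/
theorem exists_parE {D T U : ℕ} (hT : T * T = D * (U * U) + 4) (hU : 0 < U) (hD5 : 5 ≤ D)
    (hD4 : D % 4 = 0 ∨ D % 4 = 1) :
    ∃ x y t P : ℕ, x ≤ U ∧ U * y + 1 = x ^ 2 ∧ 0 < t ∧ D = t * t + 4 * P ∧
      P * U = t * x + y := by
  -- parity
  set s := D % 4 with hs
  set e := D / 4 with he
  have hDe : D = 4 * e + s := by omega
  have hs2 : s * s = s := by rcases hD4 with h | h <;> rw [h]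
  obtain ⟨m, hm⟩ : ∃ m : ℤ, (T : ℤ) = s * U + 2 * m := by
    have h1 : ((T : ℤ) - s * U) % 2 = 0 := by
      have h2 : (T : ℤ) * T = D * (U * U) + 4 := by exact_mod_cast hT
      rw [hDe] at h2
      push_cast at h2
      have h3 : ((T : ℤ) - s * U) * ((T : ℤ) - s * U) =
          2 * (2 * (e * (U * U)) + 2 + s * (U * U) - T * (s * U)) := by
        have hs2' : (s : ℤ) * s = s := by exact_mod_cast hs2
        linear_combination h2 + (U : ℤ) ^ 2 * hs2'
      rcases Int.emod_two_eq_zero_or_one ((T : ℤ) - s * U) with h | h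
      · exact h
      · exfalso
        obtain ⟨k, hk⟩ : ∃ k, (T : ℤ) - s * U = 2 * k + 1 := ⟨((T : ℤ) - s * U) / 2, by omega⟩
        rw [hk] at h3
        have h4 : (2 * k + 1) * (2 * k + 1) = 2 * (2 * (k * k + k)) + 1 := by ring
        rw [h4] at h3
        omega
    exact ⟨((T : ℤ) - s * U) / 2, by omega⟩
  have hU' : (0 : ℤ) < U := by exact_mod_cast hU
  -- choice of `x`
  obtain ⟨x, k, hx1, hxU, hmx⟩ : ∃ x k : ℤ, 1 ≤ x ∧ x ≤ U ∧ m = x + k * U := by
    refine ⟨(m - 1) % U + 1, (m - 1) / U, ?_, ?_, ?_⟩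
    · have := Int.emod_nonneg (m - 1) hU'.ne'
      omega
    · have := Int.emod_lt_of_pos (m - 1) hU'
      omega
    · have := Int.emod_add_mul_ediv (m - 1) U
      linarith [mul_comm ((m - 1) / (U : ℤ)) (U : ℤ)]
  set t : ℤ := s + 2 * k with ht
  set P : ℤ := e - t * k + k ^ 2 with hP
  set y : ℤ := P * U - t * x with hy
  have hTt : (T : ℤ) = t * U + 2 * x := by rw [hm, hmx, ht]; ring
  have hs2' : (s : ℤ) * s = s := by exact_mod_cast hs2
  have hDt : (D : ℤ) = t * t + 4 * P := by
    rw [hP, ht, hDe]; push_cast; linear_combination -hs2'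
  have hT' : (T : ℤ) * T = D * (U * U) + 4 := by exact_mod_cast hT
  have hdet : (U : ℤ) * y + 1 = x ^ 2 := by
    have h4 : 4 * ((U : ℤ) * y + 1) = 4 * x ^ 2 := by
      rw [hy]
      rw [hTt, hDt] at hT'
      linear_combination -hT'
    linarith
  have hD5' : (5 : ℤ) ≤ D := by exact_mod_cast hD5
  have ht0 : 0 < t := by
    by_contra hc
    push Not at hc
    have h1 : t * U ≤ 0 := mul_nonpos_of_nonpos_of_nonneg hc hU'.le
    have h2 : (T : ℤ) ≤ 2 * U := by rw [hTt]; linarith
    have h0 : (0 : ℤ) ≤ T := by positivity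
    have h3 : (T : ℤ) * T ≤ (2 * U) * (2 * U) := mul_le_mul h2 h2 h0 (by positivity)
    have h4 : 5 * ((U : ℤ) * U) ≤ D * (U * U) := mul_le_mul_of_nonneg_right hD5' (by positivity)
    nlinarith
  have hy0 : 0 ≤ y := by
    by_contra hc
    push Not at hc
    have h1 : (U : ℤ) * y ≤ -U := by nlinarith
    have h2 : (1 : ℤ) ≤ x ^ 2 := by nlinarith
    linarith
  have hP0 : 0 ≤ P := by
    by_contra hc
    push Not at hc
    have h3 : P * U < 0 := mul_neg_of_neg_of_pos hc hU'
    have h4 : (0 : ℤ) ≤ t * x := mul_nonneg ht0.le (by linarith)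
    have h5 : P * U = t * x + y := by rw [hy]; ring
    linarith
  obtain ⟨x', hx'⟩ := Int.eq_ofNat_of_zero_le (show 0 ≤ x by linarith)
  obtain ⟨y', hy'⟩ := Int.eq_ofNat_of_zero_le hy0
  obtain ⟨t', ht'⟩ := Int.eq_ofNat_of_zero_le ht0.le
  obtain ⟨P', hP'⟩ := Int.eq_ofNat_of_zero_le hP0
  refine ⟨x', y', t', P', ?_, ?_, ?_, ?_, ?_⟩
  · rw [hx'] at hxU; exact_mod_cast hxU
  · rw [hx', hy'] at hdet; exact_mod_cast hdet
  · rw [ht'] at ht0; exact_mod_cast ht0
  · rw [ht', hP'] at hDt; exact_mod_cast hDt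
  · have h5 : P * U = t * x + y := by rw [hy]; ring
    rw [ht', hP', hx', hy'] at h5
    exact_mod_cast h5

end Pool.Agent.N911
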