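import Pool.Agent.N911.V5
import Pool.Agent.N911.V7
import Pool.Agent.N911.V8
import Pool.Agent.N911.U9
import Pool.Agent.N911.U11

/-! Even periods: large parameters are impossible, one word. -/

set_option maxRecDepth 100000

namespace Pool.Agent.N911

open H419R2 Finset

theorem PWE_prime {l : ℕ} (h : l ∈ PWE) : l.Prime := by
  unfold PWE at h
  simp only [List.mem_cons, List.not_mem_nil, or_false] at h
  rcases h with rfl | rfl | rfl | rfl | rfl | rfl | rfl | rfl | rfl | rfl | rfl | rfl | rfl |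
    rfl | rfl <;> norm_num

/-- large parameters are impossible -/
theorem big_falseE {v : WL} {t P U x y D : ℕ} (S : SplitE v t P D)
    (hG : t % 2 = 1 → GoodE v t P D)
    (hlin : P * U = t * x + y) (hb : Big v t P)
    (hw : wOKe c133_73 c333_43 U x y v = true) : False := by
  have hD := S.hD
  have hDn : D = t * t + 4 * P := by
    have : (D : ℤ) = ((t * t + 4 * P : ℕ) : ℤ) := by rw [hD]; push_cast; ring
    exact_mod_cast this
  have hDbig : 21316 ≤ D := by rw [hDn]; exact hb.1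
  have hno : ∀ l : ℕ, l.Prime → l ≤ 73 → ¬ ∃ w0 : ℤ, (l : ℤ) ∣ w0 ^ 2 + t * w0 - P := by
    intro l hl hl73 hex
    obtain ⟨n, hn1, hn2, hA⟩ := S.split l hl (by
      have h1 : (21316 : ℤ) ≤ D := by exact_mod_cast hDbig
      have h2 : (l : ℤ) ≤ 73 := by exact_mod_cast hl73
      have h3 : (0 : ℤ) ≤ l := by positivity
      nlinarith) hex
    have h4 := hb.2 n hn1 hn2
    rw [hA] at h4
    have h2 : (l : ℤ) ≤ 73 := by exact_mod_cast hl73
    linarith
  have hP2 : (P : ℤ) % 2 = 1 := by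
    by_contra hc
    exact hno 2 Nat.prime_two (by norm_num) ⟨0, by
      have : (P : ℤ) % 2 = 0 := by omega
      push_cast
      omega⟩
  have ht2 : (t : ℤ) % 2 = 1 := by
    by_contra hc
    obtain ⟨s, hs⟩ : ∃ k, (t : ℤ) = 2 * k := ⟨(t : ℤ) / 2, by omega⟩
    obtain ⟨k, hk⟩ : ∃ k, (P : ℤ) = 2 * k + 1 := ⟨(P : ℤ) / 2, by omega⟩
    exact hno 2 Nat.prime_two (by norm_num) ⟨P, by
      rw [hs, hk]
      exact ⟨2 * k ^ 2 + k + s * (2 * k + 1), by push_cast; ring⟩⟩
  have hodd : t % 2 = 1 := by omega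
  have G := hG hodd
  have hnsq : ∀ l : ℕ, l ∈ LP → ¬ IsSquare ((((t : ℤ) ^ 2 + 4 * P : ℤ)) : ZMod l) := by
    intro l hl hsq
    rw [← hD] at hsq
    exact hno l (LP_prime hl) (LP_le hl).1 (root_of_square (LP_prime hl) (LP_le hl).2 hD hsq)
  have hbase : Base ((t : ℤ) ^ 2 + 4 * P) := by
    refine ⟨?_, hnsq⟩
    obtain ⟨t', ht'⟩ : ∃ k, (t : ℤ) = 2 * k + 1 := ⟨(t : ℤ) / 2, by omega⟩
    obtain ⟨P', hP'⟩ : ∃ k, (P : ℤ) = 2 * k + 1 := ⟨(P : ℤ) / 2, by omega⟩
    rw [ht', hP']
    rcases Int.emod_two_eq_zero_or_one t' with h | h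
    · obtain ⟨j, rfl⟩ : ∃ j, t' = 2 * j := ⟨t' / 2, by omega⟩
      have : (2 * (2 * j) + 1) ^ 2 + 4 * (2 * P' + 1) = 8 * (2 * j ^ 2 + j + P') + 5 := by ring
      omega
    · obtain ⟨j, rfl⟩ : ∃ j, t' = 2 * j + 1 := ⟨t' / 2, by omega⟩
      have : (2 * (2 * j + 1) + 1) ^ 2 + 4 * (2 * P' + 1) =
        8 * (2 * j ^ 2 + 3 * j + 1 + P') + 5 := by ring
      omega
  have hcD : Nat.Coprime M1n D := by
    have h1 : IsCoprime ((D : ℤ)) (M1n : ℤ) := by
      apply isCoprime_M1
      · have := hbase.d8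
        rw [← hD] at this
        omega
      · intro l hl hd
        apply hnsq l hl
        rw [← hD, (ZMod.intCast_zmod_eq_zero_iff_dvd _ _).mpr hd]
        exact ⟨0, by simp⟩
    exact (Nat.isCoprime_iff_coprime.mp h1).symm
  have S : SysE v t P U x y := by
    refine ⟨hbase, ?_, ?_⟩
    · unfold LinW; exact_mod_cast hlin
    · intro c hc h1 h2 _
      have h3 : ¬ (c.p : ℤ) ∣ D := by
        intro h
        have h4 : c.p ∣ D := by exact_mod_cast h
        have h5 : c.p ∣ 1 := by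
          rw [← hcD]
          exact Nat.dvd_gcd h2 h4
        exact hc.pp.one_lt.ne' (Nat.dvd_one.mp h5)
      exact G.rel_mod hP2 hc.pp hc.p2 h3 (Nat.Coprime.coprime_dvd_left h1 hcD) _ (chi_mul hc.mul)
        (chi_neg hc.q1 hc.mul hc.oth) (chi_sum hc.oth)
  exact wOKe_sound S hw

/-- one word -/
theorem word_finalE {v : WL} (hv : v.Pos) (hn : v ≠ .nil) {t P U x y D d : ℕ}
    (htr : trE v = (U, x, y))
    (hU : 0 < U) (hdet : U * y + 1 = x ^ 2) (hlin : P * U = t * x + y) (ht : 0 < t)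
    (hD : D = t * t + 4 * P)
    (hDd : (d % 4 = 1 ∧ D = d) ∨ ((d % 4 = 2 ∨ d % 4 = 3) ∧ D = 4 * d))
    (hsf : Squarefree (d : ℤ)) (hd1 : 1 < d)
    {K : Type*} [Field K] [NumberField K] (hK : Module.finrank ℚ K = 2) {z : K}
    (hz : z ^ 2 = ((d : ℤ) : K)) (hcl : NumberField.classNumber K = 1)
    (hmin : ∀ T' U' : ℕ, 0 < U' → T' * T' = D * (U' * U') + 4 → U ≤ U')
    (hneg : ∀ T' U' : ℕ, T' * T' + 4 ≠ D * (U' * U'))
    (hsm : smAE U x y v = true) (hw : wOKe c133_73 c333_43 U x y v = true) : D ∈ LD := by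
  have hDz : (D : ℤ) = (t : ℤ) ^ 2 + 4 * (P : ℤ) := by rw [hD]; push_cast; ring
  have hd1' : (1 : ℤ) < d := by exact_mod_cast hd1
  obtain ⟨a, l, rfl⟩ : ∃ a l, v = .cons a l := by
    cases v with
    | nil => exact absurd rfl hn
    | cons a l => exact ⟨a, l, rfl⟩
  have h0 : 0 < (WL.cons a l).len := Nat.succ_pos _
  have hsym : bs (.cons a l) t (P : ℤ) (WL.cons a l).len =
      bs (.cons a l) t (P : ℤ) ((WL.cons a l).len - 1) := by
    have h1 := end_symE l a (f0 t P) (by
      unfold lamE f0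
      rw [htr]
      have : (P : ℤ) * U = t * x + y := by exact_mod_cast hlin
      simp only
      linarith)
    exact h1
  -- the ring
  have hring : IsDomain (QA (P : ℤ) (t : ℤ)) ∧ IsPrincipalIdealRing (QA (P : ℤ) (t : ℤ)) := by
    rcases Nat.mod_two_eq_zero_or_one t with he | ho
    · obtain ⟨n, rfl⟩ : ∃ n, t = 2 * n := ⟨t / 2, by omega⟩
      have hDn : D = 4 * (n * n + P) := by rw [hD]; ring
      have hdn : d = n * n + P ∧ (d % 4 = 2 ∨ d % 4 = 3) := by
        rcases hDd with ⟨h1, h2⟩ | ⟨h1, h2⟩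
        · omega
        · exact ⟨by omega, h1⟩
      have hdz : (d : ℤ) = (n : ℤ) ^ 2 + P := by rw [hdn.1]; push_cast; ring
      have hcast : ((2 * n : ℕ) : ℤ) = 2 * (n : ℤ) := by push_cast; ring
      rw [hcast]
      exact ⟨Ev.isDomain_even hdz (not_sq_of_squarefree hsf hd1'),
        Ev.pid_even hdz hsf (by omega) hd1' hK hz hcl⟩
    · have hd : D = d := by
        rcases hDd with ⟨h1, h2⟩ | ⟨h1, h2⟩
        · exact h2
        · exfalso
          obtain ⟨k, hk⟩ : ∃ k, t = 2 * k + 1 := ⟨t / 2, by omega⟩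
          have e : t * t + 4 * P = 4 * (k * k + k + P) + 1 := by rw [hk]; ring
          omega
      subst hd
      have hm' : (t : ℤ) % 2 = 1 := by exact_mod_cast ho
      exact ⟨isDomain_of hDz hsf hd1', pid_of_classNumber_one hm' hDz hsf hd1' hK hz hcl⟩
  obtain ⟨i1, i2⟩ := hring
  have hqs : (∀ n, 1 ≤ n → n ≤ (WL.cons a l).len → (2 : ℤ) ≤ (fs (.cons a l) (f0 t P) n).A) →
      (∀ n ≤ (WL.cons a l).len, 0 < qs (.cons a l) t P n) ∧
      (∀ n, 1 ≤ n → n ≤ (WL.cons a l).len → qs (.cons a l) t P n ≠ 1) := by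
    intro h
    refine ⟨?_, ?_⟩
    · intro n hn
      rcases Nat.eq_zero_or_pos n with h0 | h0
      · subst h0; exact one_pos
      · have := h n h0 hn
        unfold qs
        linarith
    · intro n hn1 hn2 h3
      have := h n hn1 hn2
      unfold qs at h3
      linarith
  have mkS : (∀ n, 1 ≤ n → n ≤ (WL.cons a l).len → (2 : ℤ) ≤ (fs (.cons a l) (f0 t P) n).A) →
      SplitE (.cons a l) t P D := by
    intro h
    obtain ⟨h1, h2⟩ := hqs h
    exact splitE_of_word hv h0 ht hsym h1 h2 hDz i1 i2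
  rcases smAE_sound hsm hU hdet hlin with hc | hb
  · unfold ckE at hc
    rw [Bool.or_eq_true, force_eq, Bool.or_eq_true, Bool.or_eq_true, Bool.or_eq_true] at hc
    have eD : Nat.add (Nat.mul t t) (Nat.mul 4 P) = D := hD.symm
    rw [eD] at hc
    rcases hc with hc | hc | hc | hc | hc
    · exfalso
      have : t = 0 := Nat.eq_of_beq_eq_true hc
      omega
    · exfalso
      unfold skE at hc
      rw [Bool.or_eq_true] at hc
      rcases hc with hc | hc
      · have : D % 16 = 0 := Nat.eq_of_beq_eq_true hc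
        omega
      · have : D % 16 = 4 := Nat.eq_of_beq_eq_true hc
        omega
    · exfalso
      unfold witE at hc
      rw [anyL_iff] at hc
      obtain ⟨p, hl, h1⟩ := hc
      have hp := PWE_prime hl
      unfold witU1 at h1
      rw [cj_true, cj_true] at h1
      obtain ⟨h2, h3, h4⟩ := h1
      have h2' : 4 * (p * p) ≤ D := Nat.le_of_ble_eq_true h2
      have hq := qW_sound h3
      have G := mkS (by
        intro n hn1 hn2
        obtain ⟨q, h5, h6⟩ := hq n hn1 hn2
        rw [cj_true] at h5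
        rw [f0_nat, h6]
        exact_mod_cast Nat.le_of_ble_eq_true h5.1)
      obtain ⟨w, _, h5⟩ := anyU_true h4
      have h6' : (w * w + t * w) % p = P % p := Nat.eq_of_beq_eq_true h5
      have h7 : (p : ℤ) ∣ (w : ℤ) ^ 2 + t * w - P := by
        have h8 : (w * w + t * w) ≡ P [MOD p] := h6'
        have h9 := (Nat.modEq_iff_dvd.mp h8)
        push_cast at h9
        have : (w : ℤ) ^ 2 + t * w - P = -((P : ℤ) - (w * w + t * w)) := by ring
        rw [this]
        exact (dvd_neg).mpr h9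
      obtain ⟨n, hn1, hn2, hA⟩ := G.split p hp (by
        have : (4 * (p * p) : ℤ) ≤ D := by exact_mod_cast h2'
        linarith) ⟨w, h7⟩
      obtain ⟨q, h8, h9⟩ := hq n hn1 hn2
      rw [cj_true] at h8
      rw [f0_nat, h9] at hA
      have : q = p := by exact_mod_cast hA
      subst this
      simp at h8
    · exact inE_sound hc
    · exfalso
      unfold lessE at hc
      obtain ⟨i, hi, h1⟩ := anyU_true hc
      rw [force_eq] at h1
      obtain ⟨j, hj, h4⟩ := anyU_true h1
      rw [force_eq, Bool.or_eq_true] at h4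
      rcases h4 with h4 | h4
      · exact hneg _ _ (Nat.eq_of_beq_eq_true h4)
      · rw [cj_true] at h4
        obtain ⟨h2, h5⟩ := h4
        have h2' : (i + 1) + 1 ≤ U := Nat.le_of_ble_eq_true h2
        have h5' : ((i + 1) * t + j) * ((i + 1) * t + j) = D * ((i + 1) * (i + 1)) + 4 :=
          Nat.eq_of_beq_eq_true h5
        have h6 := hmin _ (i + 1) (by omega) h5'
        omega
  · exfalso
    have h2 : ∀ n, 1 ≤ n → n ≤ (WL.cons a l).len →
        (2 : ℤ) ≤ (fs (.cons a l) (f0 t P) n).A := by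
      intro n hn1 hn2
      have := hb.2 n hn1 hn2
      linarith
    obtain ⟨h3, h4⟩ := hqs h2
    exact big_falseE (mkS h2)
      (fun ho => goodE_of_word hv h0 ht hsym h3 h4 hDz ho i1 i2) hlin hb hw

end Pool.Agent.N911
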